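import Pool.Agent.LibSchN.Defs
import Pool.Agent.LibSchP.A4b
import Pool.Agent.LibSchQ.G1

/-! **B8.**  Convexity and derivative of `X ↦ tr X^s`. -/

open Matrix Set MeasureTheory
open scoped ComplexOrder

namespace Pool.Agent.LibSchN

open Pool.Agent.LibSchP Pool.Agent.LibSchQ

variable {m : Type} [Fintype m] [DecidableEq m]

/-- `tr Y^s ≥ tr X^s + s tr X^(s-1) (Y - X)`: `trace_young s (s/(s-1))` for `Y` and `X^(s-1)`,
`pw (s/(s-1)) (X^(s-1)) = pw s X = tr X^(s-1) X` -/
theorem klein (s : ℝ) (h1 : 1 < s) (X Y : Matrix m m ℂ) (hX : X.PosDef) :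
    LibSch.pw s X + s * (trace (rp (s - 1) X * (Y - X))).re ≤ LibSch.pw s Y := by
  have hs0 : 0 < s := by linarith
  have hpq : (s / (s - 1)).HolderConjugate s := (Real.HolderConjugate.conjExponent h1).symm
  obtain ⟨e1, e2⟩ := pw_rp_conj (s / (s - 1)) s hpq X hX
  have y := trace_young (s / (s - 1)) s hpq (rp (s - 1) X) Y
  rw [(rp_isHermitian (s - 1) X).eq, e1] at y
  have e3 : (trace (rp (s - 1) X * (Y - X))).re =
      (trace (rp (s - 1) X * Y)).re - LibSch.pw s X := by
    rw [Matrix.mul_sub, trace_sub, Complex.sub_re, e2]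
  rw [e3]
  have e4 : LibSch.pw s X / (s / (s - 1)) = LibSch.pw s X * (s - 1) / s := by
    rw [div_div_eq_mul_div]
  rw [e4, ← add_div, le_div_iff₀ hs0] at y
  linarith

/-- `rp (s-1)` is continuous at a positive definite matrix (`ud_lip`, `ud_ge`; `x ↦ x^(s-1)` is
Lipschitz on `[m₀, R]`) -/
theorem rp_tendsto (s : ℝ) (X H : Matrix m m ℂ) (hX : X.PosDef) (hH : H.IsHermitian) :
    Filter.Tendsto (fun t : ℝ => rp s (X + (t : ℂ) • H)) (nhds 0) (nhds (rp s X)) := by
  obtain ⟨L, η, hL, hη, hlip⟩ := LibSchQ.rp_lip_near s X hX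
  obtain ⟨η', hη', hpd⟩ := LibSchQ.posDef_near X H hX hH
  have hn := nf_nonneg H
  refine tendsto_pi_nhds.2 fun i => tendsto_pi_nhds.2 fun j => ?_
  rw [tendsto_iff_norm_sub_tendsto_zero]
  have hev : ∀ᶠ t : ℝ in nhds 0, ‖rp s (X + (t : ℂ) • H) i j - rp s X i j‖ ≤ L * (|t| * nf H) := by
    have h0 : 0 < min η' (η / (nf H + 1)) := lt_min hη' (by positivity)
    have : ∀ᶠ t : ℝ in nhds 0, |t| < min η' (η / (nf H + 1)) := by
      have := (continuous_abs.tendsto (0 : ℝ)).eventually
        (gt_mem_nhds (show |(0 : ℝ)| < min η' (η / (nf H + 1)) by rw [abs_zero]; exact h0))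
      exact this
    filter_upwards [this] with t ht
    have ht1 : |t| ≤ η' := (ht.trans_le (min_le_left _ _)).le
    have ht2 : |t| ≤ η / (nf H + 1) := (ht.trans_le (min_le_right _ _)).le
    have hnf : nf (X + (t : ℂ) • H - X) = |t| * nf H := by
      rw [add_sub_cancel_left, nf_smul, Complex.norm_real, Real.norm_eq_abs]
    have hle : nf (X + (t : ℂ) • H - X) ≤ η := by
      rw [hnf]
      calc |t| * nf H ≤ η / (nf H + 1) * (nf H + 1) := by
            refine mul_le_mul ht2 (by linarith) hn (by positivity)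
        _ = η := by field_simp
    have h := hlip _ (hpd t ht1) hle
    rw [hnf] at h
    have h2 := norm_le_nf (rp s (X + (t : ℂ) • H) - rp s X) i j
    rw [Matrix.sub_apply] at h2
    exact h2.trans h
  refine squeeze_zero' (Filter.Eventually.of_forall fun t => norm_nonneg _) hev ?_
  have hc : Continuous fun t : ℝ => L * (|t| * nf H) := by fun_prop
  have := hc.tendsto 0
  simpa using this

theorem posDef_near (X H : Matrix m m ℂ) (hX : X.PosDef) (hH : H.IsHermitian) :
    ∀ᶠ t : ℝ in nhds 0, (X + (t : ℂ) • H).PosDef := by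
  obtain ⟨η, hη, hpd⟩ := LibSchQ.posDef_near X H hX hH
  have : ∀ᶠ t : ℝ in nhds 0, |t| < η := by
    have := (continuous_abs.tendsto (0 : ℝ)).eventually
      (gt_mem_nhds (show |(0 : ℝ)| < η by rw [abs_zero]; exact hη))
    exact this
  filter_upwards [this] with t ht
  exact hpd t ht.le

/-- `klein` at `X` and at `X + t H`, `rp_tendsto`: squeeze of the difference quotient -/
theorem hasDerivAt_pw (s : ℝ) (h1 : 1 < s) (X H : Matrix m m ℂ) (hX : X.PosDef)
    (hH : H.IsHermitian) : HasDerivAt (fun t : ℝ => LibSch.pw s (X + (t : ℂ) • H))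
      (s * (trace (rp (s - 1) X * H)).re) 0 := by
  rw [hasDerivAt_iff_isLittleO, Asymptotics.isLittleO_iff]
  intro c hc
  have hg : Filter.Tendsto (fun t : ℝ => s * (trace (rp (s - 1) (X + (t : ℂ) • H) * H)).re)
      (nhds 0) (nhds (s * (trace (rp (s - 1) X * H)).re)) := by
    have hcont : Continuous fun M : Matrix m m ℂ => s * (trace (M * H)).re := by
      fun_prop
    exact (hcont.tendsto _).comp (rp_tendsto (s - 1) X H hX hH)
  have hg2 : ∀ᶠ t : ℝ in nhds 0, |s * (trace (rp (s - 1) (X + (t : ℂ) • H) * H)).re -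
      s * (trace (rp (s - 1) X * H)).re| < c := by
    have := (Metric.tendsto_nhds.1 hg) c hc
    simpa [Real.dist_eq] using this
  filter_upwards [hg2, posDef_near X H hX hH] with t ht hpd
  have k1 := klein s h1 X (X + (t : ℂ) • H) hX
  have k2 := klein s h1 (X + (t : ℂ) • H) X hpd
  rw [add_sub_cancel_left, Matrix.mul_smul, trace_smul, smul_eq_mul, Complex.re_ofReal_mul] at k1
  rw [sub_add_cancel_left, Matrix.mul_neg, Matrix.mul_smul, trace_neg, trace_smul, smul_eq_mul,
    Complex.neg_re, Complex.re_ofReal_mul] at k2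
  simp only [Complex.ofReal_zero, zero_smul, add_zero, sub_zero, smul_eq_mul, Real.norm_eq_abs]
  set g := (trace (rp (s - 1) (X + (t : ℂ) • H) * H)).re
  set g0 := (trace (rp (s - 1) X * H)).re
  set f := LibSch.pw s (X + (t : ℂ) • H)
  set f0 := LibSch.pw s X
  have h2 : 0 ≤ f - f0 - t * (s * g0) := by linarith
  have h3 : f - f0 - t * (s * g0) ≤ t * (s * g - s * g0) := by linarith
  rw [abs_of_nonneg h2]
  calc f - f0 - t * (s * g0) ≤ t * (s * g - s * g0) := h3
    _ ≤ |t * (s * g - s * g0)| := le_abs_self _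
    _ = |s * g - s * g0| * |t| := by rw [abs_mul, mul_comm]
    _ ≤ c * |t| := by gcongr

end Pool.Agent.LibSchN
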