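import Pool.Agent.LibSchN.F2c
import Pool.Agent.LibSchQ.G8

/-! **F3.**  The end points `p = 1` and `p = 4/3`. -/

open Matrix Set MeasureTheory
open scoped ComplexOrder

namespace Pool.Agent.LibSchN

open Pool.Agent.LibSchP Pool.Agent.LibSchQ
open Pool.Agent.LibSch (lamP lamM FF)

variable {N : ℕ} {m₁ m₂ : Type} {n : Fin N → Type} [Fintype m₁] [DecidableEq m₁] [Fintype m₂]
  [DecidableEq m₂] [∀ k, Fintype (n k)] [∀ k, DecidableEq (n k)]

/-- `pw_comp_FF` and the continuity of `lamP`, `lamM` and of `p ↦ x^(p/2)` (compare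
`g8_comp_cont` in `LibSchQ.G8`) -/
theorem comp_cont (A : ∀ k, Matrix m₁ (n k) ℂ) (B : ∀ k, Matrix m₂ (n k) ℂ) (r : ℝ)
    (hr : 0 < r) : ContinuousAt (fun p : ℝ => LibSch.sn p (LibSch.comp p A B)) r := by
  have cA : ∀ j, ContinuousAt (fun p : ℝ => LibSch.sn p (A j)) r := fun j => g8_sn_cont (A j) r hr
  have cB : ∀ j, ContinuousAt (fun p : ℝ => LibSch.sn p (B j)) r := fun j => g8_sn_cont (B j) r hr
  have cx : ContinuousAt (fun p : ℝ => ∑ j, LibSch.sn p (A j) ^ 2) r :=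
    tendsto_finsetSum _ fun j _ => (cA j).pow 2
  have cy : ContinuousAt (fun p : ℝ => ∑ j, LibSch.sn p (B j) ^ 2) r :=
    tendsto_finsetSum _ fun j _ => (cB j).pow 2
  have cw : ContinuousAt (fun p : ℝ => ∑ j, LibSch.sn p (A j) * LibSch.sn p (B j)) r :=
    tendsto_finsetSum _ fun j _ => (cA j).mul (cB j)
  have cs : ContinuousAt (fun p : ℝ => √((∑ j, LibSch.sn p (A j) ^ 2 -
      ∑ j, LibSch.sn p (B j) ^ 2) ^ 2 +
        4 * (∑ j, LibSch.sn p (A j) * LibSch.sn p (B j)) ^ 2)) r :=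
    (((cx.sub cy).pow 2).add ((cw.pow 2).const_mul 4)).sqrt
  have hr2 : (0 : ℝ) < r / 2 := by positivity
  have cF : ContinuousAt (fun p : ℝ => FF (p / 2) (∑ j, LibSch.sn p (A j) ^ 2)
      (∑ j, LibSch.sn p (B j) ^ 2) (∑ j, LibSch.sn p (A j) * LibSch.sn p (B j))) r := by
    unfold FF lamP lamM
    exact ((((cx.add cy).add cs).div_const 2).rpow (continuousAt_id.div_const 2)
      (Or.inr hr2)).add ((((cx.add cy).sub cs).div_const 2).rpow (continuousAt_id.div_const 2)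
      (Or.inr hr2))
  have e : (fun p : ℝ => LibSch.pw p (LibSch.comp p A B)) =ᶠ[nhds r] fun p =>
      FF (p / 2) (∑ j, LibSch.sn p (A j) ^ 2) (∑ j, LibSch.sn p (B j) ^ 2)
        (∑ j, LibSch.sn p (A j) * LibSch.sn p (B j)) := by
    filter_upwards [lt_mem_nhds hr] with p hp
    exact pw_comp_FF p hp A B
  have c5 : ContinuousAt (fun p : ℝ => LibSch.pw p (LibSch.comp p A B)) r :=
    ContinuousAt.congr cF e.symm
  unfold LibSch.sn
  exact c5.rpow (continuousAt_const.div continuousAt_id hr.ne') (Or.inr (by positivity))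

/-- **all `N`, `1 ≤ p ≤ 4/3`**: `all_N`, `comp_cont`, `g8_sn_cont` (limits `p → 1+`, `p → 4/3-`) -/
theorem final (p : ℝ) (h1 : 1 ≤ p) (h2 : p ≤ 4 / 3) (A : ∀ k, Matrix m₁ (n k) ℂ)
    (B : ∀ k, Matrix m₂ (n k) ℂ) :
    LibSch.sn p (LibSch.comp p A B) ≤ LibSch.sn p (LibSch.blk A B) := by
  rcases h1.eq_or_lt with h | h
  · rw [← h]
    have ca := (comp_cont A B 1 one_pos).tendsto.mono_left
      (nhdsWithin_le_nhds (s := Set.Ioi (1 : ℝ)))
    have cb := (g8_sn_cont (LibSch.blk A B) 1 one_pos).tendsto.mono_left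
      (nhdsWithin_le_nhds (s := Set.Ioi (1 : ℝ)))
    refine le_of_tendsto_of_tendsto ca cb ?_
    filter_upwards [Ioo_mem_nhdsGT (by norm_num : (1 : ℝ) < 4 / 3)] with r hr
    exact all_N r hr.1 hr.2 A B
  · rcases h2.eq_or_lt with h' | h'
    · rw [h']
      have h0 : (0 : ℝ) < 4 / 3 := by norm_num
      have ca := (comp_cont A B (4 / 3) h0).tendsto.mono_left
        (nhdsWithin_le_nhds (s := Set.Iio (4 / 3 : ℝ)))
      have cb := (g8_sn_cont (LibSch.blk A B) (4 / 3) h0).tendsto.mono_left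
        (nhdsWithin_le_nhds (s := Set.Iio (4 / 3 : ℝ)))
      refine le_of_tendsto_of_tendsto ca cb ?_
      filter_upwards [Ioo_mem_nhdsLT (by norm_num : (1 : ℝ) < 4 / 3)] with r hr
      exact all_N r hr.1 hr.2 A B
    · exact all_N p h h' A B

end Pool.Agent.LibSchN
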