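import Pool.Agent.LibSchN.Defs
import Pool.Agent.LibSchP.I1

/-! **B6.**  The kernel identity (Feynman parameters). -/

open Matrix Set MeasureTheory
open scoped ComplexOrder

namespace Pool.Agent.LibSchN

open Pool.Agent.LibSchP Pool.Agent.LibSchQ

/-- `∫_0^1 l(1-l)/(lA + (1-l)B)^4 dl = 1/(6 A² B²)`: an antiderivative is
`(r²/2 - r³/3)/(A² B²)`, `r = l A/(l A + (1-l) B)` (`dr/dl = A B/(lA + (1-l)B)²`). -/
theorem feyn (A B : ℝ) (hA : 0 < A) (hB : 0 < B) :
    ∫⁻ l in Ioo (0 : ℝ) 1, ENNReal.ofReal (l * (1 - l) / (l * A + (1 - l) * B) ^ 4) =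
      ENNReal.ofReal (1 / (6 * A ^ 2 * B ^ 2)) := by
  have hden : ∀ l ∈ Icc (0 : ℝ) 1, 0 < l * A + (1 - l) * B := by
    intro l hl
    rcases eq_or_lt_of_le hl.1 with h | h
    · rw [← h]; simpa using hB
    · have h1 := mul_pos h hA
      have h2 := mul_nonneg (sub_nonneg.2 hl.2) hB.le
      linarith
  have hcont : ContinuousOn (fun l : ℝ => l * (1 - l) / (l * A + (1 - l) * B) ^ 4) (Icc 0 1) := by
    apply ContinuousOn.div
    · fun_prop
    · fun_prop
    · intro l hl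
      exact (pow_pos (hden l hl) 4).ne'
  have hint : IntervalIntegrable (fun l : ℝ => l * (1 - l) / (l * A + (1 - l) * B) ^ 4)
      volume 0 1 := by
    apply ContinuousOn.intervalIntegrable
    rwa [uIcc_of_le zero_le_one]
  set F : ℝ → ℝ := fun l => ((l * A / (l * A + (1 - l) * B)) ^ 2 / 2 -
    (l * A / (l * A + (1 - l) * B)) ^ 3 / 3) / (A ^ 2 * B ^ 2) with hF
  have hder : ∀ l ∈ uIcc (0 : ℝ) 1,
      HasDerivAt F (l * (1 - l) / (l * A + (1 - l) * B) ^ 4) l := by
    intro l hl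
    rw [uIcc_of_le zero_le_one] at hl
    have hd := hden l hl
    have h1 : HasDerivAt (fun l : ℝ => l * A) A l := by
      simpa using (hasDerivAt_id l).mul_const A
    have h2 : HasDerivAt (fun l : ℝ => l * A + (1 - l) * B) (A - B) l := by
      have := h1.add (((hasDerivAt_const l (1 : ℝ)).sub (hasDerivAt_id l)).mul_const B)
      refine this.congr_deriv ?_
      ring
    have h3 := h1.div h2 hd.ne'
    have h4 := (((h3.pow 2).div_const 2).sub ((h3.pow 3).div_const 3)).div_const (A ^ 2 * B ^ 2)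
    refine h4.congr_deriv ?_
    have hA' := hA.ne'
    have hB' := hB.ne'
    have hd' := hd.ne'
    have e1 : A * (l * A + (1 - l) * B) - l * A * (A - B) = A * B := by ring
    have e2 : l * A / (l * A + (1 - l) * B) - (l * A / (l * A + (1 - l) * B)) ^ 2 =
        l * A * ((1 - l) * B) / (l * A + (1 - l) * B) ^ 2 := by
      have e5 : l * A / (l * A + (1 - l) * B) =
          l * A * (l * A + (1 - l) * B) / (l * A + (1 - l) * B) ^ 2 := by
        rw [pow_two, mul_div_mul_right _ _ hd']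
      rw [div_pow, e5, ← sub_div]
      congr 1
      ring
    rw [e1]
    simp only [Pi.div_apply, Nat.cast_ofNat, Nat.add_one_sub_one, pow_one]
    set d := l * A + (1 - l) * B with hdd
    have e3 : (2 * (l * A / d) * (A * B / d ^ 2) / 2 -
        3 * (l * A / d) ^ 2 * (A * B / d ^ 2) / 3) / (A ^ 2 * B ^ 2) =
        (l * A / d - (l * A / d) ^ 2) * (A * B / d ^ 2) / (A ^ 2 * B ^ 2) := by ring
    have e4 : l * A * ((1 - l) * B) / d ^ 2 * (A * B / d ^ 2) / (A ^ 2 * B ^ 2) =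
        l * (1 - l) / d ^ 4 := by field_simp
    calc _ = (l * A / d - (l * A / d) ^ 2) * (A * B / d ^ 2) / (A ^ 2 * B ^ 2) := by
          rw [← e3]
      _ = _ := by rw [e2, e4]
  have hI : ∫ l in (0 : ℝ)..1, l * (1 - l) / (l * A + (1 - l) * B) ^ 4 =
      1 / (6 * A ^ 2 * B ^ 2) := by
    rw [intervalIntegral.integral_eq_sub_of_hasDerivAt hder hint, hF]
    have hA' := hA.ne'
    have hB' := hB.ne'
    simp only [one_mul, zero_mul, sub_self, add_zero, zero_div]
    field_simp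
    norm_num
  have hI2 : ∫ l in Ioo (0 : ℝ) 1, l * (1 - l) / (l * A + (1 - l) * B) ^ 4 =
      1 / (6 * A ^ 2 * B ^ 2) := by
    rw [← hI, intervalIntegral.integral_of_le zero_le_one, integral_Ioc_eq_integral_Ioo]
  rw [← hI2, ofReal_integral_eq_lintegral_ofReal]
  · exact ((intervalIntegrable_iff_integrableOn_Ioo_of_le zero_le_one).1 hint)
  · refine (ae_restrict_iff' measurableSet_Ioo).2 (Filter.Eventually.of_forall fun l hl => ?_)
    have hd := hden l ⟨hl.1.le, hl.2.le⟩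
    exact div_nonneg (mul_nonneg hl.1.le (sub_nonneg.2 hl.2.le)) (pow_pos hd 4).le

theorem b6_int (s : ℝ) (h1 : 1 < s) (h2 : s < 2) :
    IntegrableOn (fun u : ℝ => u ^ (s + 1) / (1 + u) ^ 4) (Ioi 0) := by
  have hg : IntegrableOn (fun u : ℝ => (u + 1) ^ (s - 3)) (Ioi 0) :=
    integrableOn_add_rpow_Ioi_of_lt (by linarith) (by norm_num)
  refine Integrable.mono' hg ?_ ?_
  · refine Measurable.aestronglyMeasurable ?_
    fun_prop
  · refine (ae_restrict_iff' measurableSet_Ioi).2 (Filter.Eventually.of_forall fun u hu => ?_)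
    have hu0 : (0 : ℝ) < u := hu
    have h1u : (0 : ℝ) < 1 + u := by linarith
    rw [Real.norm_eq_abs, abs_of_nonneg (div_nonneg (Real.rpow_nonneg hu0.le _) (pow_pos h1u 4).le),
      div_le_iff₀ (pow_pos h1u 4), add_comm u 1, ← Real.rpow_natCast (1 + u) 4,
      ← Real.rpow_add h1u]
    have : s - 3 + ((4 : ℕ) : ℝ) = s + 1 := by push_cast; ring
    rw [this]
    exact Real.rpow_le_rpow hu0.le (by linarith) (by linarith)

/-- scaling `u = X v`; the constant `∫ v^(s+1)/(1+v)^4` is finite and positive -/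
theorem beta4 (s : ℝ) (h1 : 1 < s) (h2 : s < 2) : ∃ c : ℝ, 0 < c ∧ ∀ X : ℝ, 0 < X →
    ∫⁻ u in Ioi (0 : ℝ), ENNReal.ofReal (u ^ (s + 1) / (X + u) ^ 4) =
      ENNReal.ofReal (c * X ^ (s - 2)) := by
  have hI := b6_int s h1 h2
  refine ⟨∫ u in Ioi (0 : ℝ), u ^ (s + 1) / (1 + u) ^ 4, ?_, ?_⟩
  · rw [setIntegral_pos_iff_support_of_nonneg_ae _ hI]
    · have : Function.support (fun u : ℝ => u ^ (s + 1) / (1 + u) ^ 4) ∩ Ioi 0 = Ioi 0 := by
        apply inter_eq_right.2
        intro u hu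
        have hu0 : (0 : ℝ) < u := hu
        exact (div_pos (Real.rpow_pos_of_pos hu0 _) (pow_pos (by linarith) 4)).ne'
      rw [this]
      simp
    · refine (ae_restrict_iff' measurableSet_Ioi).2 (Filter.Eventually.of_forall fun u hu => ?_)
      have hu0 : (0 : ℝ) < u := hu
      exact div_nonneg (Real.rpow_nonneg hu0.le _) (pow_pos (by linarith) 4).le
  · intro X hX
    have hscale : ∀ v ∈ Ioi (0 : ℝ), (X * v) ^ (s + 1) / (X + X * v) ^ 4 =
        X ^ (s - 3) * (v ^ (s + 1) / (1 + v) ^ 4) := by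
      intro v hv
      have hv0 : (0 : ℝ) < v := hv
      have h1v : (0 : ℝ) < 1 + v := by linarith
      have e1 : X + X * v = X * (1 + v) := by ring
      rw [e1, mul_pow, Real.mul_rpow hX.le hv0.le]
      have e2 : X ^ (s + 1) = X ^ (s - 3) * X ^ 4 := by
        rw [← Real.rpow_natCast X 4, ← Real.rpow_add hX]
        congr 1
        push_cast
        ring
      rw [e2]
      have hX4 : X ^ 4 ≠ 0 := (pow_pos hX 4).ne'
      field_simp
    have hIX : IntegrableOn (fun u : ℝ => u ^ (s + 1) / (X + u) ^ 4) (Ioi 0) := by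
      have h3 := (integrableOn_Ioi_comp_mul_left_iff
        (fun u : ℝ => u ^ (s + 1) / (X + u) ^ 4) 0 hX).1 ?_
      · simpa using h3
      · have hh : IntegrableOn (fun v : ℝ => X ^ (s - 3) * (v ^ (s + 1) / (1 + v) ^ 4)) (Ioi 0) :=
          hI.const_mul _
        exact hh.congr_fun (fun v hv => (hscale v hv).symm) measurableSet_Ioi
    have hval : ∫ u in Ioi (0 : ℝ), u ^ (s + 1) / (X + u) ^ 4 =
        (∫ u in Ioi (0 : ℝ), u ^ (s + 1) / (1 + u) ^ 4) * X ^ (s - 2) := by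
      have h4 := integral_comp_mul_left_Ioi (fun u : ℝ => u ^ (s + 1) / (X + u) ^ 4) 0 hX
      rw [mul_zero, setIntegral_congr_fun measurableSet_Ioi hscale, integral_const_mul,
        smul_eq_mul] at h4
      have h5 : ∫ u in Ioi (0 : ℝ), u ^ (s + 1) / (X + u) ^ 4 =
          X * (X ^ (s - 3) * ∫ u in Ioi (0 : ℝ), u ^ (s + 1) / (1 + u) ^ 4) := by
        rw [h4, ← mul_assoc, mul_inv_cancel₀ hX.ne', one_mul]
      have e3 : X * X ^ (s - 3) = X ^ (s - 2) := by
        have : s - 2 = 1 + (s - 3) := by ring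
        rw [this, Real.rpow_add hX, Real.rpow_one]
      rw [h5, ← mul_assoc, e3, mul_comm]
    rw [← hval, ofReal_integral_eq_lintegral_ofReal hIX]
    refine (ae_restrict_iff' measurableSet_Ioi).2 (Filter.Eventually.of_forall fun u hu => ?_)
    have hu0 : (0 : ℝ) < u := hu
    exact div_nonneg (Real.rpow_nonneg hu0.le _) (pow_pos (by linarith) 4).le

/-- `feyn` with `A = x + u`, `B = y + u`; exchange; `beta4` with `X = l x + (1-l) y`; `int_base` with
`s - 1` (`X^(s-2) = c⁻¹ ∫ τ^(s-2)/(X+τ)`). -/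
theorem kern (s : ℝ) (h1 : 1 < s) (h2 : s < 2) : ∃ c : ℝ, 0 < c ∧ ∀ x y : ℝ, 0 < x → 0 < y →
    ∫⁻ u in Ioi (0 : ℝ), ENNReal.ofReal (u ^ (s + 1) * (1 / ((x + u) ^ 2 * (y + u) ^ 2))) =
      ENNReal.ofReal c * ∫⁻ l in Ioo (0 : ℝ) 1, ∫⁻ τ in Ioi (0 : ℝ),
        ENNReal.ofReal (l * (1 - l) * τ ^ (s - 2) * (1 / (l * x + (1 - l) * y + τ))) := by
  obtain ⟨c4, hc4, H4⟩ := beta4 s h1 h2
  have hcst : 0 < cst (s - 1) := cst_pos (s - 1) (by linarith) (by linarith)
  refine ⟨6 * c4 / cst (s - 1), by positivity, ?_⟩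
  intro x y hx hy
  have hX : ∀ l ∈ Ioo (0 : ℝ) 1, 0 < l * x + (1 - l) * y := fun l hl =>
    add_pos (mul_pos hl.1 hx) (mul_pos (sub_pos.2 hl.2) hy)
  -- inner integral of the right hand side
  have hin : ∀ l ∈ Ioo (0 : ℝ) 1, ∫⁻ τ in Ioi (0 : ℝ),
      ENNReal.ofReal (l * (1 - l) * τ ^ (s - 2) * (1 / (l * x + (1 - l) * y + τ))) =
      ENNReal.ofReal (l * (1 - l) * (cst (s - 1) * (l * x + (1 - l) * y) ^ (s - 2))) := by
    intro l hl
    obtain ⟨i1, i2⟩ := int_base (s - 1) (l * x + (1 - l) * y) (by linarith) (by linarith) (hX l hl)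
    have e : s - 1 - 1 = s - 2 := by ring
    rw [e] at i1 i2
    have hll : 0 ≤ l * (1 - l) := mul_nonneg hl.1.le (sub_nonneg.2 hl.2.le)
    rw [← i2, ← integral_const_mul, ofReal_integral_eq_lintegral_ofReal (i1.const_mul _)]
    · refine lintegral_congr fun τ => ?_
      congr 1
      ring
    · refine (ae_restrict_iff' measurableSet_Ioi).2 (Filter.Eventually.of_forall fun τ hτ => ?_)
      have hτ0 : (0 : ℝ) < τ := hτ
      have := hX l hl
      exact mul_nonneg hll (div_nonneg (Real.rpow_nonneg hτ0.le _) (by linarith))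
  have hR : ∫⁻ l in Ioo (0 : ℝ) 1, ∫⁻ τ in Ioi (0 : ℝ),
        ENNReal.ofReal (l * (1 - l) * τ ^ (s - 2) * (1 / (l * x + (1 - l) * y + τ))) =
      ENNReal.ofReal (cst (s - 1)) * ∫⁻ l in Ioo (0 : ℝ) 1,
        ENNReal.ofReal (l * (1 - l) * (l * x + (1 - l) * y) ^ (s - 2)) := by
    rw [setLIntegral_congr_fun measurableSet_Ioo hin, ← lintegral_const_mul' _ _ ENNReal.ofReal_ne_top]
    refine setLIntegral_congr_fun measurableSet_Ioo fun l hl => ?_
    rw [← ENNReal.ofReal_mul hcst.le]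
    congr 1
    ring
  -- the left hand side
  have hL1 : ∀ u ∈ Ioi (0 : ℝ),
      ENNReal.ofReal (u ^ (s + 1) * (1 / ((x + u) ^ 2 * (y + u) ^ 2))) =
      ENNReal.ofReal 6 * ∫⁻ l in Ioo (0 : ℝ) 1,
        ENNReal.ofReal (l * (1 - l) * (u ^ (s + 1) / (l * x + (1 - l) * y + u) ^ 4)) := by
    intro u hu
    have hu0 : (0 : ℝ) < u := hu
    have hf := feyn (x + u) (y + u) (by linarith) (by linarith)
    have hup : 0 ≤ u ^ (s + 1) := Real.rpow_nonneg hu0.le _
    have e1 : ∫⁻ l in Ioo (0 : ℝ) 1,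
        ENNReal.ofReal (l * (1 - l) * (u ^ (s + 1) / (l * x + (1 - l) * y + u) ^ 4)) =
        ENNReal.ofReal (u ^ (s + 1)) * ∫⁻ l in Ioo (0 : ℝ) 1,
          ENNReal.ofReal (l * (1 - l) / (l * (x + u) + (1 - l) * (y + u)) ^ 4) := by
      rw [← lintegral_const_mul' _ _ ENNReal.ofReal_ne_top]
      refine lintegral_congr fun l => ?_
      rw [← ENNReal.ofReal_mul hup]
      congr 1
      have : l * (x + u) + (1 - l) * (y + u) = l * x + (1 - l) * y + u := by ring
      rw [this]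
      ring
    rw [e1, hf, ← ENNReal.ofReal_mul hup, ← ENNReal.ofReal_mul (by norm_num)]
    congr 1
    have hxu : x + u ≠ 0 := by positivity
    have hyu : y + u ≠ 0 := by positivity
    field_simp
  rw [setLIntegral_congr_fun measurableSet_Ioi hL1, lintegral_const_mul' _ _ ENNReal.ofReal_ne_top,
    hR, lintegral_lintegral_swap]
  · have hL2 : ∀ l ∈ Ioo (0 : ℝ) 1, ∫⁻ u in Ioi (0 : ℝ),
        ENNReal.ofReal (l * (1 - l) * (u ^ (s + 1) / (l * x + (1 - l) * y + u) ^ 4)) =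
        ENNReal.ofReal c4 * ENNReal.ofReal (l * (1 - l) * (l * x + (1 - l) * y) ^ (s - 2)) := by
      intro l hl
      have hll : 0 ≤ l * (1 - l) := mul_nonneg hl.1.le (sub_nonneg.2 hl.2.le)
      have e2 : ∫⁻ u in Ioi (0 : ℝ),
          ENNReal.ofReal (l * (1 - l) * (u ^ (s + 1) / (l * x + (1 - l) * y + u) ^ 4)) =
          ENNReal.ofReal (l * (1 - l)) * ∫⁻ u in Ioi (0 : ℝ),
            ENNReal.ofReal (u ^ (s + 1) / (l * x + (1 - l) * y + u) ^ 4) := by
        rw [← lintegral_const_mul' _ _ ENNReal.ofReal_ne_top]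
        exact lintegral_congr fun u => ENNReal.ofReal_mul hll
      rw [e2, H4 _ (hX l hl), ← ENNReal.ofReal_mul hll, ← ENNReal.ofReal_mul hc4.le]
      congr 1
      ring
    rw [setLIntegral_congr_fun measurableSet_Ioo hL2, lintegral_const_mul' _ _ ENNReal.ofReal_ne_top,
      ← mul_assoc, ← mul_assoc, ← ENNReal.ofReal_mul (by norm_num), ← ENNReal.ofReal_mul (by positivity)]
    congr 2
    field_simp
  · refine Measurable.aemeasurable ?_
    refine Measurable.ennreal_ofReal ?_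
    fun_prop

end Pool.Agent.LibSchN
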