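import Pool.Agent.LibSchN.Defs
import Pool.Agent.LibSchP.C2a

/-! **B7a.**  The quadratic form `qe` and its convexity in `P`. -/

open Matrix Set MeasureTheory
open scoped ComplexOrder

namespace Pool.Agent.LibSchN

open Pool.Agent.LibSchP Pool.Agent.LibSchQ

variable {m : Type} [Fintype m] [DecidableEq m]

theorem b7a_tr0 (A B : Matrix m m ℂ) :
    (trace (Aᴴ * B)).re = ∑ k, ∑ j, (star (A k j) * B k j).re := by
  have h := c2a_tr1 A B (fun _ => (1 : ℝ))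
  have h1 : dg (fun _ : m => (1 : ℝ)) = 1 := by
    simp only [dg, Complex.ofReal_one]
    exact diagonal_one
  rw [h1, Matrix.mul_one] at h
  simpa only [one_mul] using h

theorem b7a_lhs (l τ : ℝ) (J Y U : Matrix m m ℂ) (hU : U ∈ unitaryGroup m ℂ) (x : m → ℝ) :
    2 * (trace (Jᴴ * Y)).re - l * (trace (Yᴴ * ud U x * Y)).re -
      (1 - l) * (trace (Y * ud U x * Yᴴ)).re - τ * fr Y =
    ∑ k, ∑ j, (2 * (star ((Uᴴ * J * U) k j) * (Uᴴ * Y * U) k j).re -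
      (l * x k + (1 - l) * x j + τ) * ‖(Uᴴ * Y * U) k j‖ ^ 2) := by
  have hU' : U * Uᴴ = 1 := mem_unitaryGroup_iff.1 hU
  have e0 : ∀ A B : Matrix m m ℂ, trace (Aᴴ * B) = trace ((Uᴴ * A * U)ᴴ * (Uᴴ * B * U)) := by
    intro A B
    have : (Uᴴ * A * U)ᴴ * (Uᴴ * B * U) = Uᴴ * (Aᴴ * (U * Uᴴ) * B * U) := by
      simp only [conjTranspose_mul, conjTranspose_conjTranspose, Matrix.mul_assoc]
    rw [this, hU', Matrix.mul_one, trace_mul_comm Uᴴ, Matrix.mul_assoc _ U Uᴴ, hU', Matrix.mul_one]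
  have e1 : trace (Yᴴ * ud U x * Y) = trace ((Uᴴ * Y * U)ᴴ * dg x * (Uᴴ * Y * U)) := by
    have : (Uᴴ * Y * U)ᴴ * dg x * (Uᴴ * Y * U) = Uᴴ * (Yᴴ * ud U x * Y * U) := by
      simp only [conjTranspose_mul, conjTranspose_conjTranspose, ud, Matrix.mul_assoc]
    rw [this, trace_mul_comm Uᴴ, Matrix.mul_assoc _ U Uᴴ, hU', Matrix.mul_one]
  have e2 : trace (Y * ud U x * Yᴴ) = trace ((Uᴴ * Y * U) * dg x * (Uᴴ * Y * U)ᴴ) := by
    have : (Uᴴ * Y * U) * dg x * (Uᴴ * Y * U)ᴴ = Uᴴ * (Y * ud U x * Yᴴ * U) := by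
      simp only [conjTranspose_mul, conjTranspose_conjTranspose, ud, Matrix.mul_assoc]
    rw [this, trace_mul_comm Uᴴ, Matrix.mul_assoc _ U Uᴴ, hU', Matrix.mul_one]
  rw [fr_eq_trace, e0 J Y, e0 Y Y, e1, e2, b7a_tr0, b7a_tr0, c2a_tr1, c2a_tr2]
  simp only [c2a_selfre, Finset.mul_sum, ← Finset.sum_sub_distrib]
  refine Finset.sum_congr rfl fun k _ => Finset.sum_congr rfl fun j _ => ?_
  ring

theorem b7a_den {l τ : ℝ} (hl0 : 0 ≤ l) (hl1 : l ≤ 1) (hτ : 0 < τ) {x : m → ℝ}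
    (hx : ∀ k, 0 < x k) (k j : m) : 0 < l * x k + (1 - l) * x j + τ := by
  have h1 := mul_nonneg hl0 (hx k).le
  have h2 := mul_nonneg (sub_nonneg.2 hl1) (hx j).le
  linarith

/-- affine minorants: with `J'' = Uᴴ J U`, `Y'' = Uᴴ Y U` everything is a sum over `k, j` of
`2 Re (conj J'' Y'') - (l x_k + (1-l) x_j + τ) |Y''|² ≤ |J''|²/(l x_k + (1-l) x_j + τ)`
(model: `hl_ge` in `LibSchP.C2a`) -/
theorem qe_ge (l τ : ℝ) (hl0 : 0 ≤ l) (hl1 : l ≤ 1) (hτ : 0 < τ) (J Y U : Matrix m m ℂ)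
    (hU : U ∈ unitaryGroup m ℂ) (x : m → ℝ) (hx : ∀ k, 0 < x k) :
    2 * (trace (Jᴴ * Y)).re - l * (trace (Yᴴ * ud U x * Y)).re -
      (1 - l) * (trace (Y * ud U x * Yᴴ)).re - τ * fr Y ≤ qe l τ J U x := by
  rw [b7a_lhs l τ J Y U hU x, qe]
  refine Finset.sum_le_sum fun k _ => Finset.sum_le_sum fun j _ => ?_
  set z := (Uᴴ * J * U) k j
  set y := (Uᴴ * Y * U) k j
  have hc := b7a_den hl0 hl1 hτ hx k j
  set c := l * x k + (1 - l) * x j + τ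
  have h1 : (star z * y).re ≤ ‖z‖ * ‖y‖ := by
    refine (Complex.re_le_norm _).trans ?_
    rw [norm_mul, norm_star]
  have h3 : 2 * (‖z‖ * ‖y‖) - c * ‖y‖ ^ 2 ≤ ‖z‖ ^ 2 / c := by
    rw [le_div_iff₀ hc]
    nlinarith [sq_nonneg (c * ‖y‖ - ‖z‖)]
  linarith [h1, h3]

/-- equality for `Y = U Y'' Uᴴ`, `Y''_kj = J''_kj/(l x_k + (1-l) x_j + τ)` -/
theorem qe_attained (l τ : ℝ) (hl0 : 0 ≤ l) (hl1 : l ≤ 1) (hτ : 0 < τ) (J U : Matrix m m ℂ)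
    (hU : U ∈ unitaryGroup m ℂ) (x : m → ℝ) (hx : ∀ k, 0 < x k) : ∃ Y : Matrix m m ℂ,
    2 * (trace (Jᴴ * Y)).re - l * (trace (Yᴴ * ud U x * Y)).re -
      (1 - l) * (trace (Y * ud U x * Yᴴ)).re - τ * fr Y = qe l τ J U x := by
  have hU' : Uᴴ * U = 1 := mem_unitaryGroup_iff'.1 hU
  refine ⟨U * (of fun k j => ((1 / (l * x k + (1 - l) * x j + τ) : ℝ) : ℂ) *
    (Uᴴ * J * U) k j) * Uᴴ, ?_⟩
  rw [b7a_lhs l τ J _ U hU x, qe]
  have hY : Uᴴ * (U * (of fun k j => ((1 / (l * x k + (1 - l) * x j + τ) : ℝ) : ℂ) *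
      (Uᴴ * J * U) k j) * Uᴴ) * U = of fun k j =>
        ((1 / (l * x k + (1 - l) * x j + τ) : ℝ) : ℂ) * (Uᴴ * J * U) k j := by
    rw [← Matrix.mul_assoc, ← Matrix.mul_assoc, hU', Matrix.one_mul, Matrix.mul_assoc, hU',
      Matrix.mul_one]
  rw [hY]
  refine Finset.sum_congr rfl fun k _ => Finset.sum_congr rfl fun j _ => ?_
  have hc := b7a_den hl0 hl1 hτ hx k j
  simp only [of_apply]
  set z := (Uᴴ * J * U) k j
  set c := l * x k + (1 - l) * x j + τ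
  have h1 : (star z * (((1 / c : ℝ) : ℂ) * z)).re = 1 / c * ‖z‖ ^ 2 := by
    have : star z * (((1 / c : ℝ) : ℂ) * z) = ((1 / c : ℝ) : ℂ) * (star z * z) := by ring
    rw [this, Complex.re_ofReal_mul, c2a_selfre]
  have h2 : ‖((1 / c : ℝ) : ℂ) * z‖ ^ 2 = (1 / c) ^ 2 * ‖z‖ ^ 2 := by
    rw [norm_mul, mul_pow, Complex.norm_real, Real.norm_eq_abs, sq_abs]
  rw [h1, h2]
  field_simp
  ring

/-- `qe_attained` at `(U, x)`, `qe_ge` at `(U₀, x₀)`, `(U₁, x₁)` -/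
theorem qe_convex (l τ : ℝ) (hl0 : 0 ≤ l) (hl1 : l ≤ 1) (hτ : 0 < τ) (J U U₀ U₁ : Matrix m m ℂ)
    (hU : U ∈ unitaryGroup m ℂ) (hU₀ : U₀ ∈ unitaryGroup m ℂ) (hU₁ : U₁ ∈ unitaryGroup m ℂ)
    (x x₀ x₁ : m → ℝ) (hx : ∀ k, 0 < x k) (hx₀ : ∀ k, 0 < x₀ k) (hx₁ : ∀ k, 0 < x₁ k)
    (t : ℝ) (h0 : 0 ≤ t) (h1 : t ≤ 1)
    (h : ud U x = ((1 - t : ℝ) : ℂ) • ud U₀ x₀ + (t : ℂ) • ud U₁ x₁) :
    qe l τ J U x ≤ (1 - t) * qe l τ J U₀ x₀ + t * qe l τ J U₁ x₁ := by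
  obtain ⟨Y, hY⟩ := qe_attained l τ hl0 hl1 hτ J U hU x hx
  have g0 := mul_le_mul_of_nonneg_left (qe_ge l τ hl0 hl1 hτ J Y U₀ hU₀ x₀ hx₀) (sub_nonneg.2 h1)
  have g1 := mul_le_mul_of_nonneg_left (qe_ge l τ hl0 hl1 hτ J Y U₁ hU₁ x₁ hx₁) h0
  have e1 : (trace (Yᴴ * ud U x * Y)).re = (1 - t) * (trace (Yᴴ * ud U₀ x₀ * Y)).re +
      t * (trace (Yᴴ * ud U₁ x₁ * Y)).re := by
    rw [h, Matrix.mul_add, Matrix.add_mul, Matrix.mul_smul, Matrix.mul_smul, Matrix.smul_mul,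
      Matrix.smul_mul, trace_add, trace_smul, trace_smul, Complex.add_re, smul_eq_mul,
      smul_eq_mul, Complex.re_ofReal_mul, Complex.re_ofReal_mul]
  have e2 : (trace (Y * ud U x * Yᴴ)).re = (1 - t) * (trace (Y * ud U₀ x₀ * Yᴴ)).re +
      t * (trace (Y * ud U₁ x₁ * Yᴴ)).re := by
    rw [h, Matrix.mul_add, Matrix.add_mul, Matrix.mul_smul, Matrix.mul_smul, Matrix.smul_mul,
      Matrix.smul_mul, trace_add, trace_smul, trace_smul, Complex.add_re, smul_eq_mul,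
      smul_eq_mul, Complex.re_ofReal_mul, Complex.re_ofReal_mul]
  rw [← hY, e1, e2]
  linarith [g0, g1]

theorem qe_nonneg (l τ : ℝ) (hl0 : 0 ≤ l) (hl1 : l ≤ 1) (hτ : 0 < τ) (J U : Matrix m m ℂ)
    (x : m → ℝ) (hx : ∀ k, 0 < x k) : 0 ≤ qe l τ J U x :=
  Finset.sum_nonneg fun k _ => Finset.sum_nonneg fun j _ =>
    div_nonneg (sq_nonneg _) (b7a_den hl0 hl1 hτ hx k j).le

end Pool.Agent.LibSchN
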