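import Pool.Agent.LibSchN.B5
import Pool.Agent.LibSchN.B6
import Pool.Agent.LibSchN.B7a

/-! **B7b.**  Convexity of `WW`. -/

open Matrix Set MeasureTheory
open scoped ComplexOrder

namespace Pool.Agent.LibSchN

open Pool.Agent.LibSchP Pool.Agent.LibSchQ
open Pool.Agent.LibSch (lamP lamM FF)

variable {n : Type} [Fintype n] [DecidableEq n]

theorem b7b_meas (s x y : ℝ) : Measurable fun q : ℝ × ℝ =>
    ENNReal.ofReal (q.1 * (1 - q.1) * q.2 ^ (s - 2) * (1 / (q.1 * x + (1 - q.1) * y + q.2))) := by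
  refine Measurable.ennreal_ofReal ?_
  refine Measurable.mul (Measurable.mul (Measurable.mul measurable_fst
    (measurable_const.sub measurable_fst)) (measurable_snd.pow_const _)) ?_
  refine measurable_const.div ?_
  exact (((measurable_fst.mul_const x).add ((measurable_const.sub measurable_fst).mul_const y)).add
    measurable_snd)

/-- `Lr_ud`, `lintegral_finsetSum`, `kern` -/
theorem WW_one (s : ℝ) (h1 : 1 < s) (h2 : s < 2) : ∃ c : ℝ, 0 < c ∧
    ∀ (n : Type) [Fintype n] [DecidableEq n] (U : Matrix (n ⊕ n) (n ⊕ n) ℂ) (x : n ⊕ n → ℝ),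
      U ∈ unitaryGroup (n ⊕ n) ℂ → (∀ k, 0 < x k) →
      WW s (ud U x) 1 = ENNReal.ofReal c * ∫⁻ l in Ioo (0 : ℝ) 1, ∫⁻ τ in Ioi (0 : ℝ),
        ENNReal.ofReal (l * (1 - l) * τ ^ (s - 2) * qe l τ (Jm (ud U x).toBlocks₁₂) U x) := by
  obtain ⟨c, hc, hk⟩ := kern s h1 h2
  refine ⟨c / 2, by positivity, fun n _ _ U x hU hx => ?_⟩
  set J := Uᴴ * Jm (ud U x).toBlocks₁₂ * U with hJ
  -- left side
  have hL : WW s (ud U x) 1 = ∑ k, ∑ j, ENNReal.ofReal (1 / 2 * ‖J k j‖ ^ 2) *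
      (ENNReal.ofReal c * ∫⁻ l in Ioo (0 : ℝ) 1, ∫⁻ τ in Ioi (0 : ℝ),
        ENNReal.ofReal (l * (1 - l) * τ ^ (s - 2) * (1 / (l * x k + (1 - l) * x j + τ)))) := by
    unfold WW
    have e1 : ∫⁻ u in Ioi (0 : ℝ), ENNReal.ofReal (u ^ (s + 1) * Lr (ud U x) (1 * u) u) =
        ∫⁻ u in Ioi (0 : ℝ), ∑ k, ∑ j, ENNReal.ofReal (1 / 2 * ‖J k j‖ ^ 2) *
          ENNReal.ofReal (u ^ (s + 1) * (1 / ((x k + u) ^ 2 * (x j + u) ^ 2))) := by
      refine setLIntegral_congr_fun measurableSet_Ioi fun u hu => ?_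
      have hu' : 0 < u := hu
      show ENNReal.ofReal (u ^ (s + 1) * Lr (ud U x) (1 * u) u) = _
      rw [one_mul, Lr_ud U hU x hx u hu']
      have hp : 0 ≤ u ^ (s + 1) := Real.rpow_nonneg hu'.le _
      have e2 : u ^ (s + 1) * (1 / 2 * ∑ k, ∑ j, ‖(Uᴴ * Jm (ud U x).toBlocks₁₂ * U) k j‖ ^ 2 *
          (1 / ((x k + u) ^ 2 * (x j + u) ^ 2))) = ∑ k, ∑ j, (1 / 2 * ‖J k j‖ ^ 2) *
          (u ^ (s + 1) * (1 / ((x k + u) ^ 2 * (x j + u) ^ 2))) := by
        rw [Finset.mul_sum, Finset.mul_sum]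
        refine Finset.sum_congr rfl fun k _ => ?_
        rw [Finset.mul_sum, Finset.mul_sum]
        refine Finset.sum_congr rfl fun j _ => ?_
        rw [hJ]
        ring
      rw [e2, ENNReal.ofReal_sum_of_nonneg fun k _ => Finset.sum_nonneg fun j _ =>
        mul_nonneg (by positivity) (mul_nonneg hp (by positivity))]
      refine Finset.sum_congr rfl fun k _ => ?_
      rw [ENNReal.ofReal_sum_of_nonneg fun j _ =>
        mul_nonneg (by positivity) (mul_nonneg hp (by positivity))]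
      exact Finset.sum_congr rfl fun j _ => ENNReal.ofReal_mul (by positivity)
    have hmeas : ∀ k j, Measurable fun u : ℝ => ENNReal.ofReal (1 / 2 * ‖J k j‖ ^ 2) *
          ENNReal.ofReal (u ^ (s + 1) * (1 / ((x k + u) ^ 2 * (x j + u) ^ 2))) := by
      intro k j
      refine Measurable.const_mul (Measurable.ennreal_ofReal ?_) _
      refine (measurable_id.pow_const _).mul (measurable_const.div ?_)
      exact ((measurable_const.add measurable_id).pow_const 2).mul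
        ((measurable_const.add measurable_id).pow_const 2)
    rw [e1, lintegral_finsetSum _ fun k _ => Finset.measurable_fun_sum _ fun j _ => hmeas k j]
    refine Finset.sum_congr rfl fun k _ => ?_
    rw [lintegral_finsetSum _ fun j _ => hmeas k j]
    refine Finset.sum_congr rfl fun j _ => ?_
    rw [lintegral_const_mul' _ _ ENNReal.ofReal_ne_top, hk (x k) (x j) (hx k) (hx j)]
  -- right side
  have hR : ∫⁻ l in Ioo (0 : ℝ) 1, ∫⁻ τ in Ioi (0 : ℝ),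
        ENNReal.ofReal (l * (1 - l) * τ ^ (s - 2) * qe l τ (Jm (ud U x).toBlocks₁₂) U x) =
      ∑ k, ∑ j, ENNReal.ofReal (‖J k j‖ ^ 2) * ∫⁻ l in Ioo (0 : ℝ) 1, ∫⁻ τ in Ioi (0 : ℝ),
        ENNReal.ofReal (l * (1 - l) * τ ^ (s - 2) * (1 / (l * x k + (1 - l) * x j + τ))) := by
    have hin : ∀ l ∈ Ioo (0 : ℝ) 1, ∫⁻ τ in Ioi (0 : ℝ),
        ENNReal.ofReal (l * (1 - l) * τ ^ (s - 2) * qe l τ (Jm (ud U x).toBlocks₁₂) U x) =
        ∑ k, ∑ j, ENNReal.ofReal (‖J k j‖ ^ 2) * ∫⁻ τ in Ioi (0 : ℝ),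
        ENNReal.ofReal (l * (1 - l) * τ ^ (s - 2) * (1 / (l * x k + (1 - l) * x j + τ))) := by
      intro l hl
      have e1 : ∫⁻ τ in Ioi (0 : ℝ),
          ENNReal.ofReal (l * (1 - l) * τ ^ (s - 2) * qe l τ (Jm (ud U x).toBlocks₁₂) U x) =
          ∫⁻ τ in Ioi (0 : ℝ), ∑ k, ∑ j, ENNReal.ofReal (‖J k j‖ ^ 2) *
            ENNReal.ofReal (l * (1 - l) * τ ^ (s - 2) * (1 / (l * x k + (1 - l) * x j + τ))) := by
        refine setLIntegral_congr_fun measurableSet_Ioi fun τ hτ => ?_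
        have hτ' : 0 < τ := hτ
        show ENNReal.ofReal (l * (1 - l) * τ ^ (s - 2) *
          qe l τ (Jm (ud U x).toBlocks₁₂) U x) = _
        have hw : 0 ≤ l * (1 - l) * τ ^ (s - 2) :=
          mul_nonneg (mul_nonneg hl.1.le (by linarith [hl.2])) (Real.rpow_nonneg hτ'.le _)
        have hd : ∀ k j, 0 < l * x k + (1 - l) * x j + τ := by
          intro k j
          have h3 : 0 ≤ l * x k := mul_nonneg hl.1.le (hx k).le
          have h4 : 0 ≤ (1 - l) * x j := mul_nonneg (by linarith [hl.2]) (hx j).le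
          linarith
        have e2 : l * (1 - l) * τ ^ (s - 2) * qe l τ (Jm (ud U x).toBlocks₁₂) U x =
            ∑ k, ∑ j, ‖J k j‖ ^ 2 *
              (l * (1 - l) * τ ^ (s - 2) * (1 / (l * x k + (1 - l) * x j + τ))) := by
          unfold qe
          rw [Finset.mul_sum]
          refine Finset.sum_congr rfl fun k _ => ?_
          rw [Finset.mul_sum]
          refine Finset.sum_congr rfl fun j _ => ?_
          rw [hJ]
          ring
        rw [e2, ENNReal.ofReal_sum_of_nonneg fun k _ => Finset.sum_nonneg fun j _ =>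
          mul_nonneg (by positivity) (mul_nonneg hw (one_div_pos.2 (hd k j)).le)]
        refine Finset.sum_congr rfl fun k _ => ?_
        rw [ENNReal.ofReal_sum_of_nonneg fun j _ =>
          mul_nonneg (by positivity) (mul_nonneg hw (one_div_pos.2 (hd k j)).le)]
        exact Finset.sum_congr rfl fun j _ => ENNReal.ofReal_mul (by positivity)
      have hmeas : ∀ k j, Measurable fun τ : ℝ => ENNReal.ofReal (‖J k j‖ ^ 2) *
          ENNReal.ofReal (l * (1 - l) * τ ^ (s - 2) * (1 / (l * x k + (1 - l) * x j + τ))) :=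
        fun k j => ((b7b_meas s (x k) (x j)).comp
          (measurable_const.prodMk measurable_id : Measurable fun τ : ℝ => (l, τ))).const_mul _
      rw [e1, lintegral_finsetSum _ fun k _ => Finset.measurable_fun_sum _ fun j _ => hmeas k j]
      refine Finset.sum_congr rfl fun k _ => ?_
      rw [lintegral_finsetSum _ fun j _ => hmeas k j]
      refine Finset.sum_congr rfl fun j _ => ?_
      rw [lintegral_const_mul' _ _ ENNReal.ofReal_ne_top]
    rw [setLIntegral_congr_fun measurableSet_Ioo hin]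
    have hmeas : ∀ k j, Measurable fun l : ℝ => ENNReal.ofReal (‖J k j‖ ^ 2) *
          ∫⁻ τ in Ioi (0 : ℝ),
        ENNReal.ofReal (l * (1 - l) * τ ^ (s - 2) * (1 / (l * x k + (1 - l) * x j + τ))) :=
      fun k j => ((b7b_meas s (x k) (x j)).lintegral_prod_right').const_mul _
    rw [lintegral_finsetSum _ fun k _ => Finset.measurable_fun_sum _ fun j _ => hmeas k j]
    refine Finset.sum_congr rfl fun k _ => ?_
    rw [lintegral_finsetSum _ fun j _ => hmeas k j]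
    refine Finset.sum_congr rfl fun j _ => ?_
    rw [lintegral_const_mul' _ _ ENNReal.ofReal_ne_top]
  rw [hL, hR, Finset.mul_sum]
  refine Finset.sum_congr rfl fun k _ => ?_
  rw [Finset.mul_sum]
  refine Finset.sum_congr rfl fun j _ => ?_
  rw [← mul_assoc, ← mul_assoc]
  congr 1
  rw [← ENNReal.ofReal_mul (by positivity), ← ENNReal.ofReal_mul (by positivity)]
  congr 1
  ring

theorem b7b_posDef {m : Type} [Fintype m] [DecidableEq m] {P₀ P₁ : Matrix m m ℂ}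
    (hP₀ : P₀.PosDef) (hP₁ : P₁.PosDef) (t : ℝ)
    (h0 : 0 ≤ t) (ht1 : t ≤ 1) : (((1 - t : ℝ) : ℂ) • P₀ + (t : ℂ) • P₁).PosDef := by
  rcases h0.eq_or_lt with h | h
  · subst h
    simpa using hP₀
  · have e : (t : ℂ) • P₁ = t • P₁ := by
      ext i j
      simp [Matrix.smul_apply, Complex.real_smul]
    have e' : ((1 - t : ℝ) : ℂ) • P₀ = (1 - t) • P₀ := by
      ext i j
      simp [Matrix.smul_apply, Complex.real_smul]
    rw [e, e']
    exact Matrix.PosDef.posSemidef_add (hP₀.posSemidef.smul (sub_nonneg.2 ht1)) (hP₁.smul h)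

/-- `WW_one` for the three matrices (`ud_exists_pos`), `qe_convex` (the same `J`) -/
theorem WW_convex_one (s : ℝ) (h1 : 1 < s) (h2 : s < 2) {P₀ P₁ : Matrix (n ⊕ n) (n ⊕ n) ℂ}
    (hP₀ : P₀.PosDef) (hP₁ : P₁.PosDef) (h12 : P₀.toBlocks₁₂ = P₁.toBlocks₁₂) (t : ℝ)
    (h0 : 0 ≤ t) (ht1 : t ≤ 1) :
    WW s (((1 - t : ℝ) : ℂ) • P₀ + (t : ℂ) • P₁) 1 ≤
      ENNReal.ofReal (1 - t) * WW s P₀ 1 + ENNReal.ofReal t * WW s P₁ 1 := by
  obtain ⟨c, hc, hW⟩ := WW_one s h1 h2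
  have hP := b7b_posDef hP₀ hP₁ t h0 ht1
  have hB : (((1 - t : ℝ) : ℂ) • P₀ + (t : ℂ) • P₁).toBlocks₁₂ = P₀.toBlocks₁₂ := by
    ext i j
    have := congrFun (congrFun h12 i) j
    simp only [toBlocks₁₂, of_apply] at this
    simp only [toBlocks₁₂, of_apply, Matrix.add_apply, Matrix.smul_apply, smul_eq_mul, ← this]
    push_cast
    ring
  obtain ⟨U₀, hU₀, x₀, hx₀, rfl⟩ := ud_exists_pos P₀ hP₀
  obtain ⟨U₁, hU₁, x₁, hx₁, rfl⟩ := ud_exists_pos P₁ hP₁
  obtain ⟨U, hU, x, hx, hPe⟩ := ud_exists_pos _ hP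
  rw [hPe] at hB ⊢
  rw [hW n U x hU hx, hW n U₀ x₀ hU₀ hx₀, hW n U₁ x₁ hU₁ hx₁, ← h12, hB]
  set J := Jm (ud U₀ x₀).toBlocks₁₂ with hJ
  have key : ∀ l ∈ Ioo (0 : ℝ) 1, ∀ τ : ℝ, 0 < τ →
      ENNReal.ofReal (l * (1 - l) * τ ^ (s - 2) * qe l τ J U x) ≤
      ENNReal.ofReal (1 - t) * ENNReal.ofReal (l * (1 - l) * τ ^ (s - 2) * qe l τ J U₀ x₀) +
      ENNReal.ofReal t * ENNReal.ofReal (l * (1 - l) * τ ^ (s - 2) * qe l τ J U₁ x₁) := by
    intro l hl τ hτ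
    have hw : 0 ≤ l * (1 - l) * τ ^ (s - 2) :=
      mul_nonneg (mul_nonneg hl.1.le (by linarith [hl.2])) (Real.rpow_nonneg hτ.le _)
    have hq := qe_convex l τ hl.1.le hl.2.le hτ J U U₀ U₁ hU hU₀ hU₁ x x₀ x₁ hx hx₀ hx₁ t h0 ht1
      hPe.symm
    have hq0 := qe_nonneg l τ hl.1.le hl.2.le hτ J U₀ x₀ hx₀
    have hq1 := qe_nonneg l τ hl.1.le hl.2.le hτ J U₁ x₁ hx₁
    rw [← ENNReal.ofReal_mul (sub_nonneg.2 ht1), ← ENNReal.ofReal_mul h0,
      ← ENNReal.ofReal_add (mul_nonneg (sub_nonneg.2 ht1) (mul_nonneg hw hq0))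
        (mul_nonneg h0 (mul_nonneg hw hq1))]
    refine ENNReal.ofReal_le_ofReal ?_
    calc l * (1 - l) * τ ^ (s - 2) * qe l τ J U x
        ≤ l * (1 - l) * τ ^ (s - 2) * ((1 - t) * qe l τ J U₀ x₀ + t * qe l τ J U₁ x₁) :=
          mul_le_mul_of_nonneg_left hq hw
      _ = _ := by ring
  have hmeas : ∀ (U' : Matrix (n ⊕ n) (n ⊕ n) ℂ) (x' : n ⊕ n → ℝ), Measurable fun q : ℝ × ℝ =>
      ENNReal.ofReal (q.1 * (1 - q.1) * q.2 ^ (s - 2) * qe q.1 q.2 J U' x') := by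
    intro U' x'
    refine Measurable.ennreal_ofReal ?_
    refine Measurable.mul (Measurable.mul (Measurable.mul measurable_fst
      (measurable_const.sub measurable_fst)) (measurable_snd.pow_const _)) ?_
    unfold qe
    refine Finset.measurable_fun_sum _ fun k _ => Finset.measurable_fun_sum _ fun j _ => ?_
    refine measurable_const.div ?_
    exact (((measurable_fst.mul_const _).add
      ((measurable_const.sub measurable_fst).mul_const _)).add measurable_snd)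
  have hmeas1 : ∀ (U' : Matrix (n ⊕ n) (n ⊕ n) ℂ) (x' : n ⊕ n → ℝ) (l : ℝ),
      Measurable fun τ : ℝ =>
      ENNReal.ofReal (l * (1 - l) * τ ^ (s - 2) * qe l τ J U' x') := fun U' x' l =>
    (hmeas U' x').comp (measurable_const.prodMk measurable_id : Measurable fun τ : ℝ => (l, τ))
  have hmeas2 : ∀ (U' : Matrix (n ⊕ n) (n ⊕ n) ℂ) (x' : n ⊕ n → ℝ),
      Measurable fun l : ℝ => ∫⁻ τ in Ioi (0 : ℝ),
      ENNReal.ofReal (l * (1 - l) * τ ^ (s - 2) * qe l τ J U' x') := fun U' x' =>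
    (hmeas U' x').lintegral_prod_right'
  have hint : ∫⁻ l in Ioo (0 : ℝ) 1, ∫⁻ τ in Ioi (0 : ℝ),
        ENNReal.ofReal (l * (1 - l) * τ ^ (s - 2) * qe l τ J U x) ≤
      ENNReal.ofReal (1 - t) * (∫⁻ l in Ioo (0 : ℝ) 1, ∫⁻ τ in Ioi (0 : ℝ),
        ENNReal.ofReal (l * (1 - l) * τ ^ (s - 2) * qe l τ J U₀ x₀)) +
      ENNReal.ofReal t * (∫⁻ l in Ioo (0 : ℝ) 1, ∫⁻ τ in Ioi (0 : ℝ),
        ENNReal.ofReal (l * (1 - l) * τ ^ (s - 2) * qe l τ J U₁ x₁)) := by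
    rw [← lintegral_const_mul' _ _ ENNReal.ofReal_ne_top,
      ← lintegral_const_mul' _ _ ENNReal.ofReal_ne_top,
      ← lintegral_add_left ((hmeas2 U₀ x₀).const_mul _)]
    refine setLIntegral_mono_ae' measurableSet_Ioo (Filter.Eventually.of_forall fun l hl => ?_)
    rw [← lintegral_const_mul' _ _ ENNReal.ofReal_ne_top,
      ← lintegral_const_mul' _ _ ENNReal.ofReal_ne_top,
      ← lintegral_add_left ((hmeas1 U₀ x₀ l).const_mul _)]
    exact setLIntegral_mono_ae' measurableSet_Ioi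
      (Filter.Eventually.of_forall fun τ hτ => key l hl τ hτ)
  calc ENNReal.ofReal c * ∫⁻ l in Ioo (0 : ℝ) 1, ∫⁻ τ in Ioi (0 : ℝ),
        ENNReal.ofReal (l * (1 - l) * τ ^ (s - 2) * qe l τ J U x)
      ≤ ENNReal.ofReal c * _ := by gcongr ENNReal.ofReal c * ?_
    _ = _ := by ring

/-- `WW_scale`, `WW_convex_one` -/
theorem WW_convex (s : ℝ) (h1 : 1 < s) (h2 : s < 2) {P₀ P₁ : Matrix (n ⊕ n) (n ⊕ n) ℂ}
    (hP₀ : P₀.PosDef) (hP₁ : P₁.PosDef) (h12 : P₀.toBlocks₁₂ = P₁.toBlocks₁₂) (t : ℝ)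
    (h0 : 0 ≤ t) (ht1 : t ≤ 1) (η : ℝ) (hη : 0 < η) :
    WW s (((1 - t : ℝ) : ℂ) • P₀ + (t : ℂ) • P₁) η ≤
      ENNReal.ofReal (1 - t) * WW s P₀ η + ENNReal.ofReal t * WW s P₁ η := by
  have hP := b7b_posDef hP₀ hP₁ t h0 ht1
  have hd : 0 < η ^ (-(1 / 2) : ℝ) := Real.rpow_pos_of_pos hη _
  rw [WW_scale s hP η hη, WW_scale s hP₀ η hη, WW_scale s hP₁ η hη]
  have e : DD n (η ^ (-(1 / 2) : ℝ)) 1 * (((1 - t : ℝ) : ℂ) • P₀ + (t : ℂ) • P₁) *
      DD n (η ^ (-(1 / 2) : ℝ)) 1 =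
      ((1 - t : ℝ) : ℂ) • (DD n (η ^ (-(1 / 2) : ℝ)) 1 * P₀ * DD n (η ^ (-(1 / 2) : ℝ)) 1) +
      (t : ℂ) • (DD n (η ^ (-(1 / 2) : ℝ)) 1 * P₁ * DD n (η ^ (-(1 / 2) : ℝ)) 1) := by
    rw [Matrix.mul_add, Matrix.add_mul, Matrix.mul_smul, Matrix.mul_smul, Matrix.smul_mul,
      Matrix.smul_mul]
  rw [e]
  have h := WW_convex_one s h1 h2 (DD_conj_posDef hP₀ _ 1 hd one_pos)
    (DD_conj_posDef hP₁ _ 1 hd one_pos) (by rw [b5_block, b5_block, h12]) t h0 ht1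
  calc ENNReal.ofReal η⁻¹ * _ ≤ ENNReal.ofReal η⁻¹ * _ := by gcongr ENNReal.ofReal η⁻¹ * ?_
    _ = _ := by ring

end Pool.Agent.LibSchN
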