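import Pool.Agent.LibSchN.E1
import Pool.Agent.LibSchQ.F4

/-! **E2.**  Powers of `M ⊗ θ`. -/

open Matrix Set MeasureTheory
open scoped ComplexOrder

namespace Pool.Agent.LibSchN

open Pool.Agent.LibSchP Pool.Agent.LibSchQ
open Pool.Agent.LibSch (lamP lamM FF)

variable {n : Type} [Fintype n] [DecidableEq n]

omit [Fintype n] in
theorem e2_dg_elim (a b : n → ℝ) :
    (dg (Sum.elim a b) : Matrix (n ⊕ n) (n ⊕ n) ℂ) = fromBlocks (dg a) 0 0 (dg b) := by
  unfold dg
  rw [fromBlocks_diagonal]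
  congr 1
  funext k
  rcases k with k | k <;> rfl

theorem e2_dg_smul (r : ℝ) (a : n → ℝ) : dg (fun k => r * a k) = (r : ℂ) • dg a := by
  ext i j
  rw [Matrix.smul_apply, dg_apply, dg_apply]
  split_ifs
  · simp
  · simp

/-- the rotation data -/
theorem e2_rot {x w y : ℝ} (h : PD x w y) : ∃ c d : ℝ, c ^ 2 + d ^ 2 = 1 ∧
    c ^ 2 * (lamP x y w - lamM x y w) = x - lamM x y w ∧
    d ^ 2 * (lamP x y w - lamM x y w) = lamP x y w - x ∧
    c * d * (lamP x y w - lamM x y w) = w := by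
  obtain ⟨hL, hlt, hsum, hprod⟩ := lam_facts h
  set P := lamP x y w
  set L := lamM x y w
  have hw := h.hw
  have hPL : 0 < P - L := by linarith
  have hprod2 : (x - L) * (P - x) = w ^ 2 := by
    have e1 : (x - L) * (P - x) = x * (P + L) - x ^ 2 - P * L := by ring
    rw [e1, hsum, hprod]
    ring
  have hw2 : 0 < w ^ 2 := by positivity
  have h1 : 0 < x - L := by
    by_contra hcon
    have h2 : 0 < P - x := by linarith
    nlinarith
  have h2 : 0 < P - x := by
    by_contra hcon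
    nlinarith
  refine ⟨√((x - L) / (P - L)), √((P - x) / (P - L)), ?_, ?_, ?_, ?_⟩
  · rw [Real.sq_sqrt (by positivity), Real.sq_sqrt (by positivity)]
    field_simp
    ring
  · rw [Real.sq_sqrt (by positivity)]
    field_simp
  · rw [Real.sq_sqrt (by positivity)]
    field_simp
  · rw [← Real.sqrt_mul (by positivity)]
    have e2 : (x - L) / (P - L) * ((P - x) / (P - L)) = (w / (P - L)) ^ 2 := by
      rw [div_mul_div_comm, hprod2, div_pow]
      congr 1
      ring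
    rw [e2, Real.sqrt_sq (by positivity)]
    field_simp

/-- Spectral decomposition of `M ⊗ θ`: with `θ = ud U x₀` and a unit eigenvector `(c, d)` of
`M = [x, w; w, y]` for `lamP` (and `(-d, c)` for `lamM`), `V = tp c (-d) d c U` is unitary and
`M ⊗ θ = ud V (Sum.elim (fun k => lamP * x₀ k) (fun k => lamM * x₀ k))`. -/
theorem tp_ud {x w y : ℝ} (h : PD x w y) (U : Matrix n n ℂ) (hU : U ∈ unitaryGroup n ℂ)
    (x₀ : n → ℝ) : ∃ V : Matrix (n ⊕ n) (n ⊕ n) ℂ, V ∈ unitaryGroup (n ⊕ n) ℂ ∧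
      (∀ t : ℝ, (∀ k, 0 < x₀ k) → tp (e11 t x w y) (e12 t x w y) (e12 t x w y) (e22 t x w y)
        (ud U fun k => x₀ k ^ t) =
        ud V (Sum.elim (fun k => (lamP x y w * x₀ k) ^ t) (fun k => (lamM x y w * x₀ k) ^ t))) := by
  obtain ⟨hL, hlt, hsum, hprod⟩ := lam_facts h
  obtain ⟨c, d, hcd, hc, hd, hcw⟩ := e2_rot h
  have hUU := a2_uu U hU
  have hUU' := a2_uu' U hU
  have hcdC : (c : ℂ) * c + d * d = 1 := by
    have : ((c ^ 2 + d ^ 2 : ℝ) : ℂ) = 1 := by rw [hcd]; simp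
    rw [← this]
    push_cast
    ring
  have hV : tp c (-d) d c U ∈ unitaryGroup (n ⊕ n) ℂ := by
    rw [mem_unitaryGroup_iff, star_eq_conjTranspose]
    unfold tp
    rw [fromBlocks_conjTranspose, fromBlocks_multiply]
    simp only [conjTranspose_smul, Matrix.smul_mul, Matrix.mul_smul, hUU', smul_smul, ← add_smul,
      Complex.star_def, Complex.conj_ofReal]
    rw [← fromBlocks_one]
    congr 1
    · have : (c : ℂ) * c + ((-d : ℝ) : ℂ) * ((-d : ℝ) : ℂ) = 1 := by
        rw [← hcdC]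
        push_cast
        ring
      rw [this, one_smul]
    · have : (d : ℂ) * c + (c : ℂ) * ((-d : ℝ) : ℂ) = 0 := by
        push_cast
        ring
      rw [this, zero_smul]
    · have : (c : ℂ) * d + ((-d : ℝ) : ℂ) * (c : ℂ) = 0 := by
        push_cast
        ring
      rw [this, zero_smul]
    · have : (d : ℂ) * d + (c : ℂ) * c = 1 := by
        rw [← hcdC]
        ring
      rw [this, one_smul]
  refine ⟨_, hV, ?_⟩
  intro t hx
  set P := lamP x y w
  set L := lamM x y w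
  have hP0 : 0 < P := by linarith
  have hPL : P - L ≠ 0 := by
    have : 0 < P - L := by linarith
    exact this.ne'
  have q1 : (fun k => (P * x₀ k) ^ t) = fun k => P ^ t * x₀ k ^ t := by
    funext k
    rw [Real.mul_rpow hP0.le (hx k).le]
  have q2 : (fun k => (L * x₀ k) ^ t) = fun k => L ^ t * x₀ k ^ t := by
    funext k
    rw [Real.mul_rpow hL.le (hx k).le]
  rw [q1, q2]
  unfold ud tp
  rw [e2_dg_elim, e2_dg_smul, e2_dg_smul, fromBlocks_conjTranspose, fromBlocks_multiply,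
    fromBlocks_multiply]
  simp only [conjTranspose_smul, Matrix.smul_mul, Matrix.mul_smul, smul_smul, ← add_smul,
    Complex.star_def, Complex.conj_ofReal, Matrix.mul_zero, Matrix.zero_mul, add_zero, zero_add]
  have r1 : e11 t x w y = c ^ 2 * P ^ t + d ^ 2 * L ^ t := by
    apply mul_right_cancel₀ hPL
    have s1 : (c ^ 2 * P ^ t + d ^ 2 * L ^ t) * (P - L) =
      (c ^ 2 * (P - L)) * P ^ t + (d ^ 2 * (P - L)) * L ^ t := by ring
    rw [s1, hc, hd]
    unfold e11 cA cB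
    rw [add_mul, mul_right_comm, div_mul_cancel₀ _ hPL, div_mul_cancel₀ _ hPL]
    ring
  have r2 : e12 t x w y = c * d * P ^ t - c * d * L ^ t := by
    apply mul_right_cancel₀ hPL
    have s1 : (c * d * P ^ t - c * d * L ^ t) * (P - L) =
      (c * d * (P - L)) * (P ^ t - L ^ t) := by ring
    rw [s1, hcw]
    unfold e12 cA
    rw [mul_right_comm, div_mul_cancel₀ _ hPL]
    ring
  have r3 : e22 t x w y = d ^ 2 * P ^ t + c ^ 2 * L ^ t := by
    apply mul_right_cancel₀ hPL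
    have s1 : (d ^ 2 * P ^ t + c ^ 2 * L ^ t) * (P - L) =
      (d ^ 2 * (P - L)) * P ^ t + (c ^ 2 * (P - L)) * L ^ t := by ring
    rw [s1, hc, hd]
    unfold e22 cA cB
    rw [add_mul, mul_right_comm, div_mul_cancel₀ _ hPL, div_mul_cancel₀ _ hPL]
    linear_combination -(P ^ t - L ^ t) * hsum
  congr 1
  · congr 1
    rw [r1]
    push_cast
    ring
  · congr 1
    rw [r2]
    push_cast
    ring
  · congr 1
    rw [r2]
    push_cast
    ring
  · congr 1
    rw [r3]
    push_cast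
    ring

theorem tp_posDef {x w y : ℝ} (h : PD x w y) (θ : Matrix n n ℂ) (hθ : θ.PosDef) :
    (tp x w w y θ).PosDef := by
  obtain ⟨hL, hlt, hsum, hprod⟩ := lam_facts h
  obtain ⟨U, hU, x₀, hx, rfl⟩ := ud_exists_pos θ hθ
  obtain ⟨V, hV, hVt⟩ := tp_ud h U hU x₀
  have h1 := hVt 1 hx
  obtain ⟨a1, a2, a3⟩ := e_one h
  rw [a1, a2, a3] at h1
  simp only [Real.rpow_one] at h1
  rw [h1]
  refine ud_posDef V hV _ ?_
  intro k
  rcases k with k | k
  · exact mul_pos (hL.trans hlt) (hx k)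
  · exact mul_pos hL (hx k)

/-- `(M ⊗ θ)^t = M^t ⊗ θ^t` (`tp_ud` for `t` and for `1`, `rp_ud`) -/
theorem rp_tp {x w y : ℝ} (h : PD x w y) (θ : Matrix n n ℂ) (hθ : θ.PosDef) (t : ℝ) :
    rp t (tp x w w y θ) =
      tp (e11 t x w y) (e12 t x w y) (e12 t x w y) (e22 t x w y) (rp t θ) := by
  obtain ⟨U, hU, x₀, hx, rfl⟩ := ud_exists_pos θ hθ
  obtain ⟨V, hV, hVt⟩ := tp_ud h U hU x₀
  have h1 := hVt 1 hx
  obtain ⟨a1, a2, a3⟩ := e_one h
  rw [a1, a2, a3] at h1
  simp only [Real.rpow_one] at h1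
  rw [h1, rp_ud t V hV, rp_ud t U hU, hVt t hx]
  congr 1
  funext k
  rcases k with k | k <;> rfl

/-- `tr (M ⊗ θ)^s = tr M^s tr θ^s` (`pw_tp`, `pw_m2`; or `tp_ud`) -/
theorem pw_tpFF {x w y : ℝ} (h : PD x w y) (θ : Matrix n n ℂ) (hθ : θ.PosDef) (s : ℝ)
    (hs : 0 < s) : LibSch.pw s (tp x w w y θ) = FF s x y w * LibSch.pw s θ := by
  obtain ⟨hL, hlt, hsum, hprod⟩ := lam_facts h
  obtain ⟨U, hU, x₀, hx, rfl⟩ := ud_exists_pos θ hθ
  obtain ⟨V, hV, hVt⟩ := tp_ud h U hU x₀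
  have h1 := hVt 1 hx
  obtain ⟨a1, a2, a3⟩ := e_one h
  rw [a1, a2, a3] at h1
  simp only [Real.rpow_one] at h1
  have hP0 : 0 < lamP x y w := hL.trans hlt
  rw [h1, k2_pw_ud s V hV, k2_pw_ud s U hU _ (fun k => (hx k).le), Fintype.sum_sum_type]
  · simp only [Sum.elim_inl, Sum.elim_inr]
    unfold FF
    rw [add_mul, Finset.mul_sum, Finset.mul_sum]
    congr 1
    · refine Finset.sum_congr rfl fun k _ => ?_
      rw [Real.mul_rpow hP0.le (hx k).le]
    · refine Finset.sum_congr rfl fun k _ => ?_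
      rw [Real.mul_rpow hL.le (hx k).le]
  · intro k
    rcases k with k | k
    · exact (mul_pos hP0 (hx k)).le
    · exact (mul_pos hL (hx k)).le

/-- `D (M ⊗ θ) D = (D M D) ⊗ θ` -/
theorem DD_tp (d₁ d₂ x w y : ℝ) (θ : Matrix n n ℂ) :
    DD n d₁ d₂ * tp x w w y θ * DD n d₁ d₂ =
      tp (d₁ ^ 2 * x) (d₁ * d₂ * w) (d₁ * d₂ * w) (d₂ ^ 2 * y) θ := by
  unfold DD tp
  rw [fromBlocks_multiply, fromBlocks_multiply]
  simp only [Matrix.smul_mul, Matrix.mul_smul, smul_smul, Matrix.mul_zero, Matrix.zero_mul,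
    add_zero, zero_add, Matrix.one_mul, Matrix.mul_one, smul_zero]
  congr 1
  · congr 1
    push_cast
    ring
  · congr 1
    push_cast
    ring
  · congr 1
    push_cast
    ring
  · congr 1
    push_cast
    ring

end Pool.Agent.LibSchN
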