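import Pool.Agent.LibSchN.E1
import Pool.Agent.LibSch.Calc

/-! **E3.**  The matrix `D (D M D)^(s-1) D`: algebra, gradient, continuity. -/

open Matrix Set MeasureTheory
open scoped ComplexOrder

namespace Pool.Agent.LibSchN

open Pool.Agent.LibSchP Pool.Agent.LibSchQ
open Pool.Agent.LibSch (lamP lamM FF)

theorem dl_pos (s a : ℝ) (ha : 0 < a) : 0 < dl s a := Real.rpow_pos_of_pos ha _

theorem dl_pow (s a : ℝ) (hs : 0 < s) (ha : 0 < a) : dl s a ^ (2 * s) = a := by
  unfold dl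
  rw [← Real.rpow_mul ha.le, one_div, inv_mul_cancel₀ (by positivity), Real.rpow_one]

theorem dl_one (s : ℝ) : dl s 1 = 1 := by
  unfold dl
  rw [Real.one_rpow]

theorem dl_mul (s a b : ℝ) (ha : 0 < a) (hb : 0 < b) : dl s (a * b) = dl s a * dl s b := by
  unfold dl
  rw [Real.mul_rpow ha.le hb.le]

theorem PD_scale {x w y : ℝ} (h : PD x w y) (d₁ d₂ : ℝ) (h₁ : 0 < d₁) (h₂ : 0 < d₂) :
    PD (d₁ ^ 2 * x) (d₁ * d₂ * w) (d₂ ^ 2 * y) := by
  obtain ⟨hx, hw, hy, hd⟩ := h
  refine ⟨by positivity, by positivity, by positivity, ?_⟩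
  have h3 : 0 < (d₁ * d₂) ^ 2 := by positivity
  have h4 := mul_lt_mul_of_pos_left hd h3
  calc (d₁ * d₂ * w) ^ 2 = (d₁ * d₂) ^ 2 * w ^ 2 := by ring
    _ < (d₁ * d₂) ^ 2 * (x * y) := h4
    _ = d₁ ^ 2 * x * (d₂ ^ 2 * y) := by ring

theorem N_one {x w y : ℝ} (s : ℝ) : N11 s 1 1 x w y = e11 (s - 1) x w y ∧
    N12 s 1 1 x w y = e12 (s - 1) x w y ∧ N22 s 1 1 x w y = e22 (s - 1) x w y := by
  unfold N11 N12 N22
  rw [dl_one]
  simp

/-- `dl s (c a) = dl s c dl s a`, `e_smul` with the factor `dl s c ^ 2`, `(dl s c)^(2s) = c` -/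
theorem N_hom {x w y : ℝ} (h : PD x w y) (s : ℝ) (hs : 1 < s) (c a b : ℝ) (hc : 0 < c)
    (ha : 0 < a) (hb : 0 < b) : N11 s (c * a) (c * b) x w y = c * N11 s a b x w y ∧
    N12 s (c * a) (c * b) x w y = c * N12 s a b x w y ∧
    N22 s (c * a) (c * b) x w y = c * N22 s a b x w y := by
  have hk : 0 < dl s c := dl_pos s c hc
  have hk2 : 0 < dl s c ^ 2 := by positivity
  have hPD := PD_scale h (dl s a) (dl s b) (dl_pos s a ha) (dl_pos s b hb)
  obtain ⟨m1, m2, m3⟩ := e_smul hPD (s - 1) (dl s c ^ 2) hk2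
  have key : dl s c ^ 2 * (dl s c ^ 2) ^ (s - 1) = c := by
    have h1 : dl s c ^ 2 * (dl s c ^ 2) ^ (s - 1) = (dl s c ^ 2) ^ s := by
      have h2 := Real.rpow_add hk2 1 (s - 1)
      rw [Real.rpow_one] at h2
      rw [← h2]
      congr 1
      ring
    rw [h1, ← Real.rpow_natCast, ← Real.rpow_mul hk.le]
    push_cast
    exact dl_pow s c (by linarith) hc
  have q1 : dl s (c * a) ^ 2 * x = dl s c ^ 2 * (dl s a ^ 2 * x) := by
    rw [dl_mul s c a hc ha]; ring
  have q2 : dl s (c * a) * dl s (c * b) * w = dl s c ^ 2 * (dl s a * dl s b * w) := by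
    rw [dl_mul s c a hc ha, dl_mul s c b hc hb]; ring
  have q3 : dl s (c * b) ^ 2 * y = dl s c ^ 2 * (dl s b ^ 2 * y) := by
    rw [dl_mul s c b hc hb]; ring
  unfold N11 N12 N22
  rw [q1, q2, q3, m1, m2, m3, dl_mul s c a hc ha, dl_mul s c b hc hb]
  refine ⟨?_, ?_, ?_⟩
  · linear_combination (dl s a ^ 2 *
      e11 (s - 1) (dl s a ^ 2 * x) (dl s a * dl s b * w) (dl s b ^ 2 * y)) * key
  · linear_combination (dl s a * dl s b *
      e12 (s - 1) (dl s a ^ 2 * x) (dl s a * dl s b * w) (dl s b ^ 2 * y)) * key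
  · linear_combination (dl s b ^ 2 *
      e22 (s - 1) (dl s a ^ 2 * x) (dl s a * dl s b * w) (dl s b ^ 2 * y)) * key

theorem N_swap (s a b x w y : ℝ) : N11 s b a y w x = N22 s a b x w y ∧
    N12 s b a y w x = N12 s a b x w y ∧ N22 s b a y w x = N11 s a b x w y := by
  have e : dl s b * dl s a * w = dl s a * dl s b * w := by ring
  unfold N11 N12 N22
  rw [e]
  obtain ⟨s1, s2, s3⟩ := e_swap (s - 1) (dl s a ^ 2 * x) (dl s a * dl s b * w) (dl s b ^ 2 * y)
  rw [s1, s2, s3]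
  refine ⟨rfl, by ring, rfl⟩

/-- `e_pos`, `e_PD`, `e_det` -/
theorem N_PD {x w y : ℝ} (h : PD x w y) (s : ℝ) (hs : 1 < s) (a b : ℝ) (ha : 0 < a)
    (hb : 0 < b) : PD (N11 s a b x w y) (N12 s a b x w y) (N22 s a b x w y) := by
  have h1 := dl_pos s a ha
  have h2 := dl_pos s b hb
  exact PD_scale (e_PD (PD_scale h (dl s a) (dl s b) h1 h2) (s - 1) (by linarith)) (dl s a)
    (dl s b) h1 h2

/-- `tr (D M D)^s = tr M D (D M D)^(s-1) D` (`FF_succ`) -/
theorem FN_eq {x w y : ℝ} (h : PD x w y) (s : ℝ) (a b : ℝ) (ha : 0 < a) (hb : 0 < b) :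
    FN s a b x w y = x * N11 s a b x w y + 2 * w * N12 s a b x w y + y * N22 s a b x w y := by
  have h1 := FF_succ (PD_scale h (dl s a) (dl s b) (dl_pos s a ha) (dl_pos s b hb)) (s - 1)
  rw [sub_add_cancel] at h1
  unfold FN N11 N12 N22
  rw [h1]
  ring

theorem e3_D1 {x w y : ℝ} (h : PD x w y) (s x' y' w' : ℝ) :
    LibSch.D1 s x y w x' y' w' = s * (x' * e11 (s - 1) x w y + 2 * w' * e12 (s - 1) x w y +
      y' * e22 (s - 1) x w y) := by
  obtain ⟨h1, h2, h3, h4⟩ := lam_facts h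
  have hδ : √((x - y) ^ 2 + 4 * w ^ 2) = lamP x y w - lamM x y w := by
    unfold lamP lamM
    ring
  have hne : lamP x y w - lamM x y w ≠ 0 := by linarith
  have hA := e1_A h (s - 1)
  have hP := e1_P h (s - 1)
  have hM := e1_M h (s - 1)
  unfold LibSch.D1 LibSch.hP LibSch.hM e11 e12 e22
  rw [hδ, ← hP, ← hM]
  have hs : lamP x y w + lamM x y w = x + y := h3
  field_simp
  set L := lamP x y w
  set l := lamM x y w
  set A := cA (s - 1) x w y
  set B := cB (s - 1) x w y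
  have e1 : L = x + y - l := by linarith
  rw [e1]
  ring

/-- the gradient of `tr (D M D)^s` is `s D (D M D)^(s-1) D` (`LibSch.hasDerivAt_FF`; the algebraic
identity between `LibSch.D1` and `e11`, `e12`, `e22`) -/
theorem hasDerivAt_FN {x w y : ℝ} (h : PD x w y) (s : ℝ) (a b : ℝ) (ha : 0 < a)
    (hb : 0 < b) (x' w' y' : ℝ) :
    HasDerivAt (fun t : ℝ => FN s a b (x + t * x') (w + t * w') (y + t * y'))
      (s * (x' * N11 s a b x w y + 2 * w' * N12 s a b x w y + y' * N22 s a b x w y)) 0 := by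
  have h1 := dl_pos s a ha
  have h2 := dl_pos s b hb
  have hS := PD_scale h (dl s a) (dl s b) h1 h2
  have g : ∀ c z z' : ℝ, HasDerivAt (fun t : ℝ => c * (z + t * z')) (c * z') 0 := by
    intro c z z'
    have := ((hasDerivAt_id (0 : ℝ)).mul_const z').const_add z
    have := this.const_mul c
    simpa using this
  have key := LibSch.hasDerivAt_FF s 0 (fun t => dl s a ^ 2 * (x + t * x'))
    (fun t => dl s b ^ 2 * (y + t * y')) (fun t => dl s a * dl s b * (w + t * w'))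
    (dl s a ^ 2 * x') (dl s b ^ 2 * y') (dl s a * dl s b * w')
    (by simpa using hS.hw) (by simpa using hS.hd) (by simpa using hS.hx) (by simpa using hS.hy)
    (g _ _ _) (g _ _ _) (g _ _ _)
  simp only [zero_mul, add_zero] at key
  rw [e3_D1 hS] at key
  refine key.congr_deriv ?_
  unfold N11 N12 N22
  ring

theorem e3_dl_cont (s : ℝ) : ContinuousOn (fun a => dl s a) (Ioi 0) := by
  intro a ha
  exact (Real.continuousAt_rpow_const a _ (Or.inl (ne_of_gt ha))).continuousWithinAt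

theorem e3_coef_cont {x w y : ℝ} (h : PD x w y) (s : ℝ) (hs : 1 < s) :
    ContinuousOn (fun a => cA (s - 1) (dl s a ^ 2 * x) (dl s a * dl s 1 * w) (dl s 1 ^ 2 * y))
      (Ioi 0) ∧
    ContinuousOn (fun a => cB (s - 1) (dl s a ^ 2 * x) (dl s a * dl s 1 * w) (dl s 1 ^ 2 * y))
      (Ioi 0) := by
  have hdl := e3_dl_cont s
  have hX : ContinuousOn (fun a => dl s a ^ 2 * x) (Ioi 0) := (hdl.pow 2).mul continuousOn_const
  have hW : ContinuousOn (fun a => dl s a * dl s 1 * w) (Ioi 0) :=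
    (hdl.mul continuousOn_const).mul continuousOn_const
  have hr : ContinuousOn (fun a => √((dl s a ^ 2 * x - dl s 1 ^ 2 * y) ^ 2 +
      4 * (dl s a * dl s 1 * w) ^ 2)) (Ioi 0) :=
    (((hX.sub continuousOn_const).pow 2).add (continuousOn_const.mul (hW.pow 2))).sqrt
  have hP : ContinuousOn (fun a => lamP (dl s a ^ 2 * x) (dl s 1 ^ 2 * y)
      (dl s a * dl s 1 * w)) (Ioi 0) := by
    unfold lamP
    exact ((hX.add continuousOn_const).add hr).div_const 2
  have hM : ContinuousOn (fun a => lamM (dl s a ^ 2 * x) (dl s 1 ^ 2 * y)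
      (dl s a * dl s 1 * w)) (Ioi 0) := by
    unfold lamM
    exact ((hX.add continuousOn_const).sub hr).div_const 2
  have hPs := hP.rpow_const (p := s - 1) (fun a _ => Or.inr (by linarith))
  have hMs := hM.rpow_const (p := s - 1) (fun a _ => Or.inr (by linarith))
  have hne : ∀ a ∈ Ioi (0 : ℝ), lamP (dl s a ^ 2 * x) (dl s 1 ^ 2 * y) (dl s a * dl s 1 * w) -
      lamM (dl s a ^ 2 * x) (dl s 1 ^ 2 * y) (dl s a * dl s 1 * w) ≠ 0 := by
    intro a ha
    obtain ⟨-, h2, -, -⟩ := lam_facts (PD_scale h (dl s a) (dl s 1) (dl_pos s a ha)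
      (dl_pos s 1 one_pos))
    linarith
  constructor
  · unfold cA
    exact (hPs.sub hMs).div (hP.sub hM) hne
  · unfold cB
    exact ((hP.mul hMs).sub (hM.mul hPs)).div (hP.sub hM) hne

/-- continuity in the parameter `a` (explicit formulas; `lamM < lamP`) -/
theorem N_cont {x w y : ℝ} (h : PD x w y) (s : ℝ) (hs : 1 < s) :
    ContinuousOn (fun a => N11 s a 1 x w y) (Ioi 0) ∧
    ContinuousOn (fun a => N12 s a 1 x w y) (Ioi 0) ∧
    ContinuousOn (fun a => N22 s a 1 x w y) (Ioi 0) := by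
  obtain ⟨hA, hB⟩ := e3_coef_cont h s hs
  have hdl := e3_dl_cont s
  have hX : ContinuousOn (fun a => dl s a ^ 2 * x) (Ioi 0) := (hdl.pow 2).mul continuousOn_const
  have hW : ContinuousOn (fun a => dl s a * dl s 1 * w) (Ioi 0) :=
    (hdl.mul continuousOn_const).mul continuousOn_const
  refine ⟨?_, ?_, ?_⟩
  · unfold N11 e11
    exact (hdl.pow 2).mul ((hA.mul hX).add hB)
  · unfold N12 e12
    exact (hdl.mul continuousOn_const).mul (hA.mul hW)
  · unfold N22 e22
    exact continuousOn_const.mul ((hA.mul continuousOn_const).add hB)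

end Pool.Agent.LibSchN
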