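import Pool.Agent.LibSchN.B8
import Pool.Agent.LibSchN.E2
import Pool.Agent.LibSchN.E3

/-! **B9.**  Derivative of `Mx` at `M ⊗ θ` in block diagonal directions. -/

open Matrix Set MeasureTheory
open scoped ComplexOrder

namespace Pool.Agent.LibSchN

open Pool.Agent.LibSchP Pool.Agent.LibSchQ
open Pool.Agent.LibSch (lamP lamM FF)

variable {n : Type} [Fintype n] [DecidableEq n]

theorem b9_smul_ud (c : ℝ) (U : Matrix n n ℂ) (x : n → ℝ) :
    (c : ℂ) • ud U x = ud U fun k => c * x k := by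
  have h : (c : ℂ) • dg x = dg fun k => c * x k := by
    unfold dg
    rw [← diagonal_smul]
    congr 1
    funext k
    simp
  unfold ud
  rw [← h, Matrix.mul_smul, Matrix.smul_mul]

theorem b9_rp_smul (t c : ℝ) (hc : 0 < c) (θ : Matrix n n ℂ) (hθ : θ.PosDef) :
    rp t ((c : ℂ) • θ) = ((c ^ t : ℝ) : ℂ) • rp t θ := by
  obtain ⟨U, hU, x, hx, rfl⟩ := ud_exists_pos θ hθ
  rw [rp_ud t U hU, b9_smul_ud, rp_ud t U hU, b9_smul_ud]
  congr 1
  funext k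
  exact Real.mul_rpow hc.le (hx k).le

theorem b9_pw_smul (t c : ℝ) (hc : 0 < c) (θ : Matrix n n ℂ) (hθ : θ.PosDef) :
    LibSch.pw t ((c : ℂ) • θ) = c ^ t * LibSch.pw t θ := by
  obtain ⟨U, hU, x, hx, rfl⟩ := ud_exists_pos θ hθ
  rw [b9_smul_ud, k2_pw_ud t U hU _ (fun k => (mul_pos hc (hx k)).le),
    k2_pw_ud t U hU _ (fun k => (hx k).le), Finset.mul_sum]
  exact Finset.sum_congr rfl fun k _ => Real.mul_rpow hc.le (hx k).le

omit [Fintype n] [DecidableEq n] in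
theorem b9_smul_posDef {A : Matrix n n ℂ} (hA : A.PosDef) {r : ℝ} (hr : 0 < r) :
    ((r : ℂ) • A).PosDef := by
  refine hA.smul ?_
  exact_mod_cast hr

/-- `tr [a 1, b 1; b 1, d 1] ⊗ θ · diag(E₁, E₂)` -/
theorem trace_tp_diag (a b d : ℝ) (θ E₁ E₂ : Matrix n n ℂ) :
    (trace (tp a b b d θ * fromBlocks E₁ 0 0 E₂)).re =
      a * (trace (θ * E₁)).re + d * (trace (θ * E₂)).re := by
  unfold tp
  rw [fromBlocks_multiply]
  have key : ∀ A B C D : Matrix n n ℂ, trace (fromBlocks A B C D) = trace A + trace D := by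
    intro A B C D
    simp only [Matrix.trace, Fintype.sum_sum_type, diag_apply, fromBlocks_apply₁₁,
      fromBlocks_apply₂₂]
  rw [key]
  simp only [Matrix.mul_zero, add_zero, zero_add, Matrix.smul_mul, trace_smul, smul_eq_mul,
    Complex.add_re, Complex.re_ofReal_mul]

theorem b9_DD_diag (d₁ d₂ : ℝ) (E₁ E₂ : Matrix n n ℂ) :
    DD n d₁ d₂ * fromBlocks E₁ 0 0 E₂ * DD n d₁ d₂ =
      fromBlocks (((d₁ ^ 2 : ℝ) : ℂ) • E₁) 0 0 (((d₂ ^ 2 : ℝ) : ℂ) • E₂) := by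
  unfold DD
  rw [fromBlocks_multiply, fromBlocks_multiply]
  simp only [Matrix.mul_zero, Matrix.zero_mul, add_zero, zero_add, Matrix.smul_mul,
    Matrix.mul_smul, Matrix.one_mul, Matrix.mul_one, smul_smul, smul_zero]
  rw [pow_two, pow_two, Complex.ofReal_mul, Complex.ofReal_mul]

omit [Fintype n] [DecidableEq n] in
theorem b9_diag_herm {E₁ E₂ : Matrix n n ℂ} (hE₁ : E₁.IsHermitian) (hE₂ : E₂.IsHermitian)
    (d₁ d₂ : ℝ) : (fromBlocks ((d₁ : ℂ) • E₁) 0 0 ((d₂ : ℂ) • E₂)).IsHermitian := by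
  unfold Matrix.IsHermitian
  rw [fromBlocks_conjTranspose, conjTranspose_smul, conjTranspose_smul, hE₁.eq, hE₂.eq]
  simp

/-- `hasDerivAt_pw` for `D (M ⊗ θ) D = (D M D) ⊗ θ` (`DD_tp`, `rp_tp`, `PD_scale`), direction
`D diag(E₁, E₂) D = diag(d₁² E₁, d₂² E₂)`; `hasDerivAt_pw` for `x θ`, `y θ`. -/
theorem Mx_deriv (s : ℝ) (h1 : 1 < s) {x w y : ℝ} (h : PD x w y) (θ E₁ E₂ : Matrix n n ℂ)
    (hθ : θ.PosDef) (hE₁ : E₁.IsHermitian) (hE₂ : E₂.IsHermitian) (a b : ℝ) (ha : 0 < a)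
    (hb : 0 < b) :
    HasDerivAt (fun t : ℝ => Mx s a b (tp x w w y θ + (t : ℂ) • fromBlocks E₁ 0 0 E₂))
      (s * ((N11 s a b x w y - a * x ^ (s - 1)) * (trace (rp (s - 1) θ * E₁)).re +
        (N22 s a b x w y - b * y ^ (s - 1)) * (trace (rp (s - 1) θ * E₂)).re)) 0 := by
  have hd₁ := dl_pos s a ha
  have hd₂ := dl_pos s b hb
  have hPD := PD_scale h (dl s a) (dl s b) hd₁ hd₂
  -- the mixed term
  have hF : HasDerivAt (fun t : ℝ => Fm s a b (tp x w w y θ + (t : ℂ) • fromBlocks E₁ 0 0 E₂))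
      (s * (N11 s a b x w y * (trace (rp (s - 1) θ * E₁)).re +
        N22 s a b x w y * (trace (rp (s - 1) θ * E₂)).re)) 0 := by
    have h3 := hasDerivAt_pw s h1 (tp (dl s a ^ 2 * x) (dl s a * dl s b * w)
      (dl s a * dl s b * w) (dl s b ^ 2 * y) θ)
      (fromBlocks (((dl s a ^ 2 : ℝ) : ℂ) • E₁) 0 0 (((dl s b ^ 2 : ℝ) : ℂ) • E₂))
      (tp_posDef hPD θ hθ) (b9_diag_herm hE₁ hE₂ _ _)
    rw [rp_tp hPD θ hθ, trace_tp_diag] at h3
    simp only [Matrix.mul_smul, trace_smul, smul_eq_mul, Complex.re_ofReal_mul] at h3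
    have h4 : (fun t : ℝ => Fm s a b (tp x w w y θ + (t : ℂ) • fromBlocks E₁ 0 0 E₂)) =
        fun t : ℝ => LibSch.pw s (tp (dl s a ^ 2 * x) (dl s a * dl s b * w)
          (dl s a * dl s b * w) (dl s b ^ 2 * y) θ + (t : ℂ) •
          (fromBlocks (((dl s a ^ 2 : ℝ) : ℂ) • E₁) 0 0 (((dl s b ^ 2 : ℝ) : ℂ) • E₂))) := by
      funext t
      unfold Fm
      rw [Matrix.mul_add, Matrix.add_mul, DD_tp, Matrix.mul_smul, Matrix.smul_mul, b9_DD_diag]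
    rw [h4]
    refine h3.congr_deriv ?_
    unfold N11 N22
    ring
  -- the diagonal terms
  have h11 : ∀ t : ℝ, (tp x w w y θ + (t : ℂ) • fromBlocks E₁ 0 0 E₂).toBlocks₁₁ =
      (x : ℂ) • θ + (t : ℂ) • E₁ := by
    intro t
    unfold tp
    rw [fromBlocks_smul, fromBlocks_add, toBlocks_fromBlocks₁₁]
  have h22 : ∀ t : ℝ, (tp x w w y θ + (t : ℂ) • fromBlocks E₁ 0 0 E₂).toBlocks₂₂ =
      (y : ℂ) • θ + (t : ℂ) • E₂ := by
    intro t
    unfold tp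
    rw [fromBlocks_smul, fromBlocks_add, toBlocks_fromBlocks₂₂]
  have hd : ∀ (z : ℝ) (E : Matrix n n ℂ), 0 < z → E.IsHermitian →
      HasDerivAt (fun t : ℝ => LibSch.pw s ((z : ℂ) • θ + (t : ℂ) • E))
        (s * (z ^ (s - 1) * (trace (rp (s - 1) θ * E)).re)) 0 := by
    intro z E hz hE
    have h3 := hasDerivAt_pw s h1 ((z : ℂ) • θ) E (b9_smul_posDef hθ hz) hE
    rw [b9_rp_smul _ _ hz θ hθ, Matrix.smul_mul, trace_smul, smul_eq_mul,
      Complex.re_ofReal_mul] at h3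
    exact h3
  have h5 := (hF.sub ((hd x E₁ h.hx hE₁).const_mul a)).sub ((hd y E₂ h.hy hE₂).const_mul b)
  have h6 : (fun t : ℝ => Mx s a b (tp x w w y θ + (t : ℂ) • fromBlocks E₁ 0 0 E₂)) =
      fun t : ℝ => Fm s a b (tp x w w y θ + (t : ℂ) • fromBlocks E₁ 0 0 E₂) -
        a * LibSch.pw s ((x : ℂ) • θ + (t : ℂ) • E₁) -
        b * LibSch.pw s ((y : ℂ) • θ + (t : ℂ) • E₂) := by
    funext t
    unfold Mx
    rw [h11, h22]
  rw [h6]
  refine h5.congr_deriv ?_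
  ring

/-- the value at `M ⊗ θ` -/
theorem Mx_value (s : ℝ) (h1 : 1 < s) {x w y : ℝ} (h : PD x w y) (θ : Matrix n n ℂ)
    (hθ : θ.PosDef) (a b : ℝ) (ha : 0 < a) (hb : 0 < b) :
    Mx s a b (tp x w w y θ) =
      (FN s a b x w y - a * x ^ s - b * y ^ s) * LibSch.pw s θ := by
  have hd₁ := dl_pos s a ha
  have hd₂ := dl_pos s b hb
  have hPD := PD_scale h (dl s a) (dl s b) hd₁ hd₂
  have h11 : (tp x w w y θ).toBlocks₁₁ = (x : ℂ) • θ := by
    unfold tp; rw [toBlocks_fromBlocks₁₁]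
  have h22 : (tp x w w y θ).toBlocks₂₂ = (y : ℂ) • θ := by
    unfold tp; rw [toBlocks_fromBlocks₂₂]
  unfold Mx Fm
  rw [h11, h22, b9_pw_smul _ _ h.hx θ hθ, b9_pw_smul _ _ h.hy θ hθ, DD_tp,
    pw_tpFF hPD θ hθ s (by linarith)]
  unfold FN
  ring

end Pool.Agent.LibSchN
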