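import Pool.Agent.LibSchN.B4
import Pool.Agent.LibSchN.B7b
import Pool.Agent.LibSchN.B9

/-! **B10.**  The tangent inequality for `Psi` at `M ⊗ θ`. -/

open Matrix Set MeasureTheory
open scoped ComplexOrder

namespace Pool.Agent.LibSchN

open Pool.Agent.LibSchP Pool.Agent.LibSchQ
open Pool.Agent.LibSch (lamP lamM FF)

variable {n : Type} [Fintype n] [DecidableEq n]

/-- `Psi_comp` with `WW_convex` -/
theorem Psi_convex {κ : Type} [Fintype κ] (s : ℝ) (h1 : 1 < s) (h2 : s < 2)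
    {P₀ P₁ : Matrix (n ⊕ n) (n ⊕ n) ℂ} (hP₀ : P₀.PosDef) (hP₁ : P₁.PosDef)
    (h12 : P₀.toBlocks₁₂ = P₁.toBlocks₁₂) (c a b : κ → ℝ) (A B : ℝ)
    (hc : ∀ g, 0 ≤ c g) (ha : ∀ g, 0 < a g) (hb : ∀ g, 0 < b g) (hA0 : 0 < A) (hB0 : 0 < B)
    (hA : ∑ g, c g * a g ≤ A) (hB : ∑ g, c g * b g ≤ B) (t : ℝ) (h0 : 0 ≤ t) (ht1 : t ≤ 1) :
    Psi s c a b A B (((1 - t : ℝ) : ℂ) • P₀ + (t : ℂ) • P₁) ≤
      (1 - t) * Psi s c a b A B P₀ + t * Psi s c a b A B P₁ := by
  have hP : (((1 - t : ℝ) : ℂ) • P₀ + (t : ℂ) • P₁).PosDef := by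
    rcases h0.eq_or_lt with h | h
    · rw [← h]
      simpa using hP₀
    · rcases ht1.eq_or_lt with h' | h'
      · rw [h']
        simpa using hP₁
      · have e0 : (0 : ℂ) < ((1 - t : ℝ) : ℂ) := Complex.zero_lt_real.2 (by linarith)
        have e1 : (0 : ℂ) < (t : ℂ) := Complex.zero_lt_real.2 h
        exact (hP₀.smul e0).add (hP₁.smul e1)
  refine Psi_comp s h1 h2 hP hP₀ hP₁ c a b A B hc ha hb hA0 hB0 hA hB (1 - t) t
    (by linarith) h0 fun η hη => ?_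
  exact WW_convex s h1 h2 hP₀ hP₁ h12 t h0 ht1 η hη

theorem b10_blocks (P : Matrix (n ⊕ n) (n ⊕ n) ℂ) (θ : Matrix n n ℂ) (x w y : ℝ)
    (hP : P.IsHermitian) (hθ : θ.IsHermitian) (h12 : P.toBlocks₁₂ = (w : ℂ) • θ) :
    P = tp x w w y θ + fromBlocks (P.toBlocks₁₁ - (x : ℂ) • θ) 0 0
      (P.toBlocks₂₂ - (y : ℂ) • θ) := by
  have h21 : P.toBlocks₂₁ = (w : ℂ) • θ := by
    have e1 : P.toBlocks₂₁ = (P.toBlocks₁₂)ᴴ := by
      ext i j
      have := congrFun (congrFun hP (Sum.inr i)) (Sum.inl j)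
      exact this.symm
    rw [e1, h12, conjTranspose_smul, hθ.eq, Complex.star_def, Complex.conj_ofReal]
  conv_lhs => rw [← fromBlocks_toBlocks P]
  rw [tp, fromBlocks_add, h12, h21, add_zero, add_sub_cancel, add_sub_cancel]

theorem b10_herm (P : Matrix (n ⊕ n) (n ⊕ n) ℂ) (hP : P.IsHermitian) :
    P.toBlocks₁₁.IsHermitian ∧ P.toBlocks₂₂.IsHermitian := by
  constructor
  · ext i j
    exact congrFun (congrFun hP (Sum.inl i)) (Sum.inl j)
  · ext i j
    exact congrFun (congrFun hP (Sum.inr i)) (Sum.inr j)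

theorem b10_smul_herm (x : ℝ) (θ : Matrix n n ℂ) (h : θ.IsHermitian) :
    ((x : ℂ) • θ).IsHermitian := by
  unfold Matrix.IsHermitian at *
  rw [conjTranspose_smul, h, Complex.star_def, Complex.conj_ofReal]

/-- `Psi_convex` on the segment from `P₀ = M ⊗ θ` to `P` (`P - P₀ = diag(E₁, E₂)`):
`Psi P - Psi P₀ ≥ (Psi (P₀ + t (P - P₀)) - Psi P₀)/t`, `t → 0` (`Mx_deriv`, `Mx_value`). -/
theorem Psi_tangent {κ : Type} [Fintype κ] (s : ℝ) (h1 : 1 < s) (h2 : s < 2) {x w y : ℝ}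
    (h : PD x w y) (P : Matrix (n ⊕ n) (n ⊕ n) ℂ) (θ : Matrix n n ℂ) (hP : P.PosDef)
    (hθ : θ.PosDef) (h12 : P.toBlocks₁₂ = (w : ℂ) • θ) (c a b : κ → ℝ) (A B : ℝ)
    (hc : ∀ g, 0 ≤ c g) (ha : ∀ g, 0 < a g) (hb : ∀ g, 0 < b g) (hA0 : 0 < A) (hB0 : 0 < B)
    (hA : ∑ g, c g * a g ≤ A) (hB : ∑ g, c g * b g ≤ B) :
    (FN s A B x w y - A * x ^ s - B * y ^ s -
        ∑ g, c g * (FN s (a g) (b g) x w y - a g * x ^ s - b g * y ^ s)) * LibSch.pw s θ +
      s * ((N11 s A B x w y - A * x ^ (s - 1) -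
          ∑ g, c g * (N11 s (a g) (b g) x w y - a g * x ^ (s - 1))) *
            ((trace (rp (s - 1) θ * P.toBlocks₁₁)).re - x * LibSch.pw s θ) +
        (N22 s A B x w y - B * y ^ (s - 1) -
          ∑ g, c g * (N22 s (a g) (b g) x w y - b g * y ^ (s - 1))) *
            ((trace (rp (s - 1) θ * P.toBlocks₂₂)).re - y * LibSch.pw s θ)) ≤
      Psi s c a b A B P := by
  set E₁ := P.toBlocks₁₁ - (x : ℂ) • θ with hE₁
  set E₂ := P.toBlocks₂₂ - (y : ℂ) • θ with hE₂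
  have hPE : P = tp x w w y θ + fromBlocks E₁ 0 0 E₂ :=
    b10_blocks P θ x w y hP.isHermitian hθ.isHermitian h12
  have hE₁H : E₁.IsHermitian :=
    (b10_herm P hP.isHermitian).1.sub (b10_smul_herm x θ hθ.isHermitian)
  have hE₂H : E₂.IsHermitian :=
    (b10_herm P hP.isHermitian).2.sub (b10_smul_herm y θ hθ.isHermitian)
  have hpq : (s / (s - 1)).HolderConjugate s := (Real.HolderConjugate.conjExponent h1).symm
  have htr := (pw_rp_conj (s / (s - 1)) s hpq θ hθ).2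
  have t1 : (trace (rp (s - 1) θ * E₁)).re =
      (trace (rp (s - 1) θ * P.toBlocks₁₁)).re - x * LibSch.pw s θ := by
    rw [hE₁, Matrix.mul_sub, trace_sub, Complex.sub_re, Matrix.mul_smul, trace_smul,
      smul_eq_mul, Complex.re_ofReal_mul, htr]
  have t2 : (trace (rp (s - 1) θ * E₂)).re =
      (trace (rp (s - 1) θ * P.toBlocks₂₂)).re - y * LibSch.pw s θ := by
    rw [hE₂, Matrix.mul_sub, trace_sub, Complex.sub_re, Matrix.mul_smul, trace_smul,
      smul_eq_mul, Complex.re_ofReal_mul, htr]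
  rw [← t1, ← t2]
  have hP0 := tp_posDef h θ hθ
  have hb12 : (tp x w w y θ).toBlocks₁₂ = P.toBlocks₁₂ := by
    rw [h12, tp, toBlocks_fromBlocks₁₂]
  -- the function on the segment
  have hd : HasDerivAt (fun t : ℝ => Psi s c a b A B (tp x w w y θ + (t : ℂ) • fromBlocks E₁ 0 0 E₂))
      (s * ((N11 s A B x w y - A * x ^ (s - 1)) * (trace (rp (s - 1) θ * E₁)).re +
        (N22 s A B x w y - B * y ^ (s - 1)) * (trace (rp (s - 1) θ * E₂)).re) -
        ∑ g, c g * (s * ((N11 s (a g) (b g) x w y - a g * x ^ (s - 1)) *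
          (trace (rp (s - 1) θ * E₁)).re +
        (N22 s (a g) (b g) x w y - b g * y ^ (s - 1)) * (trace (rp (s - 1) θ * E₂)).re))) 0 := by
    unfold Psi
    refine (Mx_deriv s h1 h θ E₁ E₂ hθ hE₁H hE₂H A B hA0 hB0).sub ?_
    refine HasDerivAt.fun_sum fun g _ => ?_
    exact (Mx_deriv s h1 h θ E₁ E₂ hθ hE₁H hE₂H (a g) (b g) (ha g) (hb g)).const_mul (c g)
  have hv : Psi s c a b A B (tp x w w y θ) =
      (FN s A B x w y - A * x ^ s - B * y ^ s -
        ∑ g, c g * (FN s (a g) (b g) x w y - a g * x ^ s - b g * y ^ s)) * LibSch.pw s θ := by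
    unfold Psi
    rw [Mx_value s h1 h θ hθ A B hA0 hB0,
      sub_mul (FN s A B x w y - A * x ^ s - B * y ^ s), Finset.sum_mul]
    congr 1
    refine Finset.sum_congr rfl fun g _ => ?_
    rw [Mx_value s h1 h θ hθ (a g) (b g) (ha g) (hb g), mul_assoc]
  have hconv : ∀ t : ℝ, 0 < t → t < 1 →
      t⁻¹ • (Psi s c a b A B (tp x w w y θ + ((0 + t : ℝ) : ℂ) • fromBlocks E₁ 0 0 E₂) -
        Psi s c a b A B (tp x w w y θ + ((0 : ℝ) : ℂ) • fromBlocks E₁ 0 0 E₂)) ≤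
      Psi s c a b A B P - Psi s c a b A B (tp x w w y θ) := by
    intro t ht0 ht1
    have hcv := Psi_convex s h1 h2 hP0 hP hb12 c a b A B hc ha hb hA0 hB0 hA hB t ht0.le ht1.le
    have hseg : ((1 - t : ℝ) : ℂ) • tp x w w y θ + (t : ℂ) • P =
        tp x w w y θ + ((0 + t : ℝ) : ℂ) • fromBlocks E₁ 0 0 E₂ := by
      conv_lhs => rw [hPE]
      rw [zero_add, smul_add, ← add_assoc, ← add_smul]
      congr 1
      rw [← Complex.ofReal_add, sub_add_cancel, Complex.ofReal_one, one_smul]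
    rw [hseg] at hcv
    rw [Complex.ofReal_zero, zero_smul, add_zero, smul_eq_mul, inv_mul_le_iff₀ ht0]
    linarith
  have hlim := hd.tendsto_slope_zero_right
  have hle := le_of_tendsto hlim (by
    filter_upwards [Ioo_mem_nhdsGT (show (0 : ℝ) < 1 by norm_num)] with t ht
    exact hconv t ht.1 ht.2)
  rw [hv] at hle
  have hsum1 : ∀ F G : κ → ℝ, ∀ u v : ℝ, ∑ g, c g * (s * (F g * u + G g * v)) =
      s * ((∑ g, c g * F g) * u + (∑ g, c g * G g) * v) := by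
    intro F G u v
    rw [Finset.sum_mul, Finset.sum_mul, ← Finset.sum_add_distrib, Finset.mul_sum]
    refine Finset.sum_congr rfl fun g _ => ?_
    ring
  rw [hsum1] at hle
  linarith

end Pool.Agent.LibSchN
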