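import Pool.Agent.LibSchN.S1
import Pool.Agent.LibSchN.E3

/-! **S2.**  Superadditivity and monotonicity of `N`. -/

open Matrix Set MeasureTheory
open scoped ComplexOrder

namespace Pool.Agent.LibSchN

open Pool.Agent.LibSchP Pool.Agent.LibSchQ
open Pool.Agent.LibSch (lamP lamM FF)

theorem s2_deriv_nonpos {ψ : ℝ → ℝ} {D : ℝ} (h : HasDerivAt ψ D 0)
    (hle : ∀ᶠ t in nhdsWithin (0 : ℝ) (Ioi 0), ψ t ≤ ψ 0) : D ≤ 0 := by
  have h1 := (hasDerivWithinAt_iff_tendsto_slope' (s := Ioi (0 : ℝ)) (by simp)).1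
    h.hasDerivWithinAt
  refine le_of_tendsto h1 ?_
  filter_upwards [hle, self_mem_nhdsWithin] with t ht ht0
  rw [slope_def_field]
  have h0 : (0 : ℝ) < t := ht0
  apply div_nonpos_of_nonpos_of_nonneg
  · linarith
  · linarith

theorem s2_PD_x {x w y : ℝ} (h : PD x w y) {t : ℝ} (ht : 0 ≤ t) : PD (x + t) w y :=
  ⟨by linarith [h.hx], h.hw, h.hy, by nlinarith [h.hd, h.hy, mul_nonneg ht h.hy.le]⟩

theorem s2_PD_swap {x w y : ℝ} (h : PD x w y) : PD y w x :=
  ⟨h.hy, h.hw, h.hx, by rw [mul_comm]; exact h.hd⟩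

theorem s2_pos {x w y : ℝ} (h : PD x w y) :
    (tp x w w y (1 : Matrix Unit Unit ℂ)).PosDef := tp_posDef h 1 Matrix.PosDef.one

/-- the derivative of the scalar `Psi` -/
theorem s2_deriv {κ : Type} [Fintype κ] (s : ℝ) {x w y : ℝ}
    (h : PD x w y) (c a b : κ → ℝ) (A B : ℝ)
    (ha : ∀ g, 0 < a g) (hb : ∀ g, 0 < b g) (hA0 : 0 < A) (hB0 : 0 < B) (x' w' : ℝ) :
    HasDerivAt (fun t : ℝ => FN s A B (x + t * x') (w + t * w') (y + t * 0)
        - A * (x + t * x') ^ s - B * y ^ s -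
        ∑ g, c g * (FN s (a g) (b g) (x + t * x') (w + t * w') (y + t * 0)
          - a g * (x + t * x') ^ s - b g * y ^ s))
      (s * (x' * N11 s A B x w y + 2 * w' * N12 s A B x w y) - A * (s * x' * x ^ (s - 1)) -
        ∑ g, c g * (s * (x' * N11 s (a g) (b g) x w y + 2 * w' * N12 s (a g) (b g) x w y)
          - a g * (s * x' * x ^ (s - 1)))) 0 := by
  have hpow : HasDerivAt (fun t : ℝ => (x + t * x') ^ s) (s * x' * x ^ (s - 1)) 0 := by
    have h1 : HasDerivAt (fun t : ℝ => x + t * x') x' 0 := by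
      simpa using ((hasDerivAt_id (0 : ℝ)).mul_const x').const_add x
    have h2 := h1.rpow_const (p := s) (Or.inl (by simpa using h.hx.ne'))
    refine h2.congr_deriv ?_
    simp only [zero_mul, add_zero]
    ring
  have hF : ∀ a b : ℝ, 0 < a → 0 < b → HasDerivAt (fun t : ℝ =>
      FN s a b (x + t * x') (w + t * w') (y + t * 0) - a * (x + t * x') ^ s - b * y ^ s)
      (s * (x' * N11 s a b x w y + 2 * w' * N12 s a b x w y) - a * (s * x' * x ^ (s - 1))) 0 := by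
    intro a b ha hb
    have h1 := hasDerivAt_FN h s a b ha hb x' w' 0
    have h2 := (h1.sub (hpow.const_mul a)).sub_const (b * y ^ s)
    refine h2.congr_deriv ?_
    ring
  have hS := HasDerivAt.fun_sum (u := (Finset.univ : Finset κ)) (x := (0 : ℝ))
    (fun g _ => (hF (a g) (b g) (ha g) (hb g)).const_mul (c g))
  exact (hF A B hA0 hB0).sub hS

/-- the function `t ↦ Psi (x + t)` is nonincreasing for small `t ≥ 0` (`Psi_comp` with `r₀ = 1`,
`r₁ = 0`, `WW_unit_anti`); its derivative at `0` (`Psi_unit`, `hasDerivAt_FN`) is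
`s (N11 A B - A x^(s-1) - ∑ c (N11 a b - a x^(s-1))) ≤ 0`. -/
theorem super11 {κ : Type} [Fintype κ] (s : ℝ) (h1 : 1 < s) (h2 : s < 2) {x w y : ℝ}
    (h : PD x w y) (c a b : κ → ℝ) (A B : ℝ)
    (hc : ∀ g, 0 ≤ c g) (ha : ∀ g, 0 < a g) (hb : ∀ g, 0 < b g) (hA0 : 0 < A) (hB0 : 0 < B)
    (hA : ∑ g, c g * a g ≤ A) (hB : ∑ g, c g * b g ≤ B) :
    ∑ g, c g * (a g * x ^ (s - 1) - N11 s (a g) (b g) x w y) ≤
      A * x ^ (s - 1) - N11 s A B x w y := by
  have hD := s2_deriv_nonpos (s2_deriv s h c a b A B ha hb hA0 hB0 1 0) (by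
    filter_upwards [self_mem_nhdsWithin] with t ht
    have ht0 : (0 : ℝ) ≤ t := le_of_lt ht
    have e1 := Psi_unit s h1 (s2_PD_x h ht0) c a b A B ha hb hA0 hB0
    have e2 := Psi_unit s h1 h c a b A B ha hb hA0 hB0
    have e3 := Psi_comp s h1 h2 (s2_pos (s2_PD_x h ht0)) (s2_pos h) (s2_pos h) c a b A B hc ha hb
      hA0 hB0 hA hB 1 0 zero_le_one le_rfl (fun η hη => by
        have e4 := WW_unit_anti s h (show x ≤ x + t by linarith) (le_refl y) η hη
        simpa using e4)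
    rw [e1, e2] at e3
    simpa using e3)
  have e5 : s * (A * x ^ (s - 1) - N11 s A B x w y -
      ∑ g, c g * (a g * x ^ (s - 1) - N11 s (a g) (b g) x w y)) ≥ 0 := by
    have e6 : s * (A * x ^ (s - 1) - N11 s A B x w y -
      ∑ g, c g * (a g * x ^ (s - 1) - N11 s (a g) (b g) x w y)) =
      -(s * (1 * N11 s A B x w y + 2 * 0 * N12 s A B x w y) - A * (s * 1 * x ^ (s - 1)) -
        ∑ g, c g * (s * (1 * N11 s (a g) (b g) x w y + 2 * 0 * N12 s (a g) (b g) x w y)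
          - a g * (s * 1 * x ^ (s - 1)))) := by
      have e7 : ∑ g, c g * (s * (1 * N11 s (a g) (b g) x w y + 2 * 0 * N12 s (a g) (b g) x w y)
          - a g * (s * 1 * x ^ (s - 1))) =
          -s * ∑ g, c g * (a g * x ^ (s - 1) - N11 s (a g) (b g) x w y) := by
        rw [Finset.mul_sum]
        exact Finset.sum_congr rfl (fun g _ => by ring)
      rw [e7]
      ring
    rw [e6]
    linarith
  have e8 := nonneg_of_mul_nonneg_right e5 (by linarith : (0 : ℝ) < s)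
  linarith

/-- `super11` for the swapped matrix (`N_swap`) -/
theorem super22 {κ : Type} [Fintype κ] (s : ℝ) (h1 : 1 < s) (h2 : s < 2) {x w y : ℝ}
    (h : PD x w y) (c a b : κ → ℝ) (A B : ℝ)
    (hc : ∀ g, 0 ≤ c g) (ha : ∀ g, 0 < a g) (hb : ∀ g, 0 < b g) (hA0 : 0 < A) (hB0 : 0 < B)
    (hA : ∑ g, c g * a g ≤ A) (hB : ∑ g, c g * b g ≤ B) :
    ∑ g, c g * (b g * y ^ (s - 1) - N22 s (a g) (b g) x w y) ≤
      B * y ^ (s - 1) - N22 s A B x w y := by
  have h3 := super11 s h1 h2 (s2_PD_swap h) c b a B A hc hb ha hB0 hA0 hB hA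
  simp only [(N_swap s _ _ x w y).1] at h3
  exact h3

/-- `t ↦ Psi (w + t)` is nondecreasing (`WW_unit_mono`), derivative
`2 s (N12 A B - ∑ c N12 a b) ≥ 0` -/
theorem super12 {κ : Type} [Fintype κ] (s : ℝ) (h1 : 1 < s) (h2 : s < 2) {x w y : ℝ}
    (h : PD x w y) (c a b : κ → ℝ) (A B : ℝ)
    (hc : ∀ g, 0 ≤ c g) (ha : ∀ g, 0 < a g) (hb : ∀ g, 0 < b g) (hA0 : 0 < A) (hB0 : 0 < B)
    (hA : ∑ g, c g * a g ≤ A) (hB : ∑ g, c g * b g ≤ B) :
    ∑ g, c g * N12 s (a g) (b g) x w y ≤ N12 s A B x w y := by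
  have hsmall : ∀ᶠ t in nhdsWithin (0 : ℝ) (Ioi 0), (w + t) ^ 2 < x * y := by
    have hc : Filter.Tendsto (fun t : ℝ => (w + t) ^ 2) (nhdsWithin 0 (Ioi 0)) (nhds ((w + 0) ^ 2)) :=
      ((continuous_const.add continuous_id).pow 2).continuousAt.tendsto.mono_left
        nhdsWithin_le_nhds
    exact hc.eventually_lt_const (by simpa using h.hd)
  have hD := s2_deriv_nonpos (s2_deriv s h c a b A B ha hb hA0 hB0 0 1).neg (by
    filter_upwards [self_mem_nhdsWithin, hsmall] with t ht hts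
    have ht0 : (0 : ℝ) < t := ht
    have hPt : PD x (w + t) y := ⟨h.hx, by linarith [h.hw], h.hy, hts⟩
    have e1 := Psi_unit s h1 hPt c a b A B ha hb hA0 hB0
    have e2 := Psi_unit s h1 h c a b A B ha hb hA0 hB0
    have e3 := Psi_comp s h1 h2 (s2_pos h) (s2_pos hPt) (s2_pos hPt) c a b A B hc ha hb
      hA0 hB0 hA hB 1 0 zero_le_one le_rfl (fun η hη => by
        have e4 := WW_unit_mono s h hPt (by linarith) η hη
        simpa using e4)
    rw [e1, e2] at e3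
    simp only [Pi.neg_apply]
    apply neg_le_neg
    simpa using e3)
  have e5 : s * (N12 s A B x w y - ∑ g, c g * N12 s (a g) (b g) x w y) ≥ 0 := by
    have e6 : 2 * (s * (N12 s A B x w y - ∑ g, c g * N12 s (a g) (b g) x w y)) =
      (s * (0 * N11 s A B x w y + 2 * 1 * N12 s A B x w y) - A * (s * 0 * x ^ (s - 1)) -
        ∑ g, c g * (s * (0 * N11 s (a g) (b g) x w y + 2 * 1 * N12 s (a g) (b g) x w y)
          - a g * (s * 0 * x ^ (s - 1)))) := by
      have e7 : ∑ g, c g * (s * (0 * N11 s (a g) (b g) x w y + 2 * 1 * N12 s (a g) (b g) x w y)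
          - a g * (s * 0 * x ^ (s - 1))) =
          2 * s * ∑ g, c g * N12 s (a g) (b g) x w y := by
        rw [Finset.mul_sum]
        exact Finset.sum_congr rfl (fun g _ => by ring)
      rw [e7]
      ring
    linarith
  have e8 := nonneg_of_mul_nonneg_right e5 (by linarith : (0 : ℝ) < s)
  linarith

/-- `FN s a b ≥ a x^s + b y^s` (`Psi_eq`/`Mx_eq` with `Mx_unit`) -/
theorem FN_ge (s : ℝ) (h1 : 1 < s) (h2 : s < 2) {x w y : ℝ} (h : PD x w y) (a b : ℝ)
    (ha : 0 < a) (hb : 0 < b) : a * x ^ s + b * y ^ s ≤ FN s a b x w y := by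
  have e1 := (Mx_eq s h1 h2 (s2_pos h) a b ha hb).1
  rw [Mx_unit s h1 h a b ha hb] at e1
  linarith

end Pool.Agent.LibSchN
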