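import Pool.Agent.LibSchN.B10
import Pool.Agent.LibSchN.S2

/-! **B11.**  The strengthened inequality of King, `P₁₂ = w θ`, `θ` positive definite. -/

open Matrix Set MeasureTheory
open scoped ComplexOrder

namespace Pool.Agent.LibSchN

open Pool.Agent.LibSchP Pool.Agent.LibSchQ
open Pool.Agent.LibSch (lamP lamM FF)

variable {n : Type} [Fintype n] [DecidableEq n]

/-- Young: `s tr θ^(s-1) X ≤ x^(1-s) tr X^s + (s-1) x tr θ^s`: `trace_young s (s/(s-1))` for `X / x`
and `θ^(s-1)` -/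
theorem young_theta (s : ℝ) (h1 : 1 < s) (x : ℝ) (hx : 0 < x) (X θ : Matrix n n ℂ)
    (hθ : θ.PosDef) :
    s * (trace (rp (s - 1) θ * X)).re ≤
      x ^ (1 - s) * LibSch.pw s X + (s - 1) * x * LibSch.pw s θ := by
  have hs0 : 0 < s := by linarith
  have hs1 : 0 < s - 1 := by linarith
  have hpq : (s / (s - 1)).HolderConjugate s := by
    rw [Real.holderConjugate_comm, Real.holderConjugate_iff]
    refine ⟨h1, ?_⟩
    field_simp
    ring
  have h := trace_young (s / (s - 1)) s hpq (rp (s - 1) θ) (((x⁻¹ : ℝ) : ℂ) • X)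
  have hH : (rp (s - 1) θ)ᴴ = rp (s - 1) θ := by
    obtain ⟨U, hU, y, hy, rfl⟩ := ud_exists_pos θ hθ
    rw [rp_ud (s - 1) U hU]
    exact (ud_isHermitian U _).eq
  rw [hH, (pw_rp_conj (s / (s - 1)) s hpq θ hθ).1, pw_smul s hs0, abs_of_pos (inv_pos.2 hx),
    Matrix.mul_smul, trace_smul, smul_eq_mul, Complex.re_ofReal_mul] at h
  have hxs : x⁻¹ ^ s = x⁻¹ * x ^ (1 - s) := by
    rw [Real.inv_rpow hx.le, Real.rpow_sub hx, Real.rpow_one]
    field_simp
  rw [hxs] at h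
  have h2 := mul_le_mul_of_nonneg_left h (mul_pos hs0 hx).le
  have e1 : s * x * (x⁻¹ * (trace (rp (s - 1) θ * X)).re) =
      s * (trace (rp (s - 1) θ * X)).re := by
    field_simp
  have e2 : s * x * (LibSch.pw s θ / (s / (s - 1)) + x⁻¹ * x ^ (1 - s) * LibSch.pw s X / s) =
      x ^ (1 - s) * LibSch.pw s X + (s - 1) * x * LibSch.pw s θ := by
    field_simp
    ring
  rw [e1, e2] at h2
  exact h2

omit [Fintype n] in
theorem b11_DD : DD n (1 : ℝ) 1 = 1 := by
  unfold DD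
  rw [Complex.ofReal_one, one_smul, fromBlocks_one]

theorem b11_Fm (s : ℝ) (P : Matrix (n ⊕ n) (n ⊕ n) ℂ) : Fm s 1 1 P = LibSch.pw s P := by
  unfold Fm
  rw [dl_one, b11_DD, Matrix.one_mul, Matrix.mul_one]

/-- `Psi_tangent` with `A = B = 1`; the coefficients of the traces are `≤ 0` by `super11`, `super22`;
`young_theta`; `FN_eq`, `N_one`; the coefficient of `pw s θ` becomes `2 w q₁₂`, and
`pw s P₁₂ = w^s pw s θ`. -/
theorem SK_theta {κ : Type} [Fintype κ] (s : ℝ) (h1 : 1 < s) (h2 : s < 2) {x w y : ℝ}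
    (h : PD x w y) (P : Matrix (n ⊕ n) (n ⊕ n) ℂ) (θ : Matrix n n ℂ) (hP : P.PosDef)
    (hθ : θ.PosDef) (h12 : P.toBlocks₁₂ = (w : ℂ) • θ) (c a b : κ → ℝ)
    (hc : ∀ g, 0 ≤ c g) (ha : ∀ g, 0 < a g) (hb : ∀ g, 0 < b g)
    (hA : ∑ g, c g * a g ≤ 1) (hB : ∑ g, c g * b g ≤ 1) :
    ∑ g, c g * Fm s (a g) (b g) P +
      (e11 (s - 1) x w y - ∑ g, c g * N11 s (a g) (b g) x w y) * x ^ (1 - s) *
        LibSch.pw s P.toBlocks₁₁ +
      2 * ((e12 (s - 1) x w y - ∑ g, c g * N12 s (a g) (b g) x w y) * w ^ (1 - s) *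
        LibSch.pw s P.toBlocks₁₂) +
      (e22 (s - 1) x w y - ∑ g, c g * N22 s (a g) (b g) x w y) * y ^ (1 - s) *
        LibSch.pw s P.toBlocks₂₂ ≤ LibSch.pw s P := by
  have hs0 : 0 < s := by linarith
  have T := Psi_tangent s h1 h2 h P θ hP hθ h12 c a b 1 1 hc ha hb one_pos one_pos hA hB
  have k11 := super11 s h1 h2 h c a b 1 1 hc ha hb one_pos one_pos hA hB
  have k22 := super22 s h1 h2 h c a b 1 1 hc ha hb one_pos one_pos hA hB
  have y1 := young_theta s h1 x h.hx P.toBlocks₁₁ θ hθ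
  have y2 := young_theta s h1 y h.hy P.toBlocks₂₂ θ hθ
  obtain ⟨n11, n12, n22⟩ := N_one (x := x) (w := w) (y := y) s
  have f1 := FN_eq h s 1 1 one_pos one_pos
  have hFN : ∀ g, FN s (a g) (b g) x w y = x * N11 s (a g) (b g) x w y +
      2 * w * N12 s (a g) (b g) x w y + y * N22 s (a g) (b g) x w y :=
    fun g => FN_eq h s (a g) (b g) (ha g) (hb g)
  have p12 : LibSch.pw s P.toBlocks₁₂ = w ^ s * LibSch.pw s θ := by
    rw [h12, pw_smul s hs0, abs_of_pos h.hw]
  have xs : x ^ s = x * x ^ (s - 1) := by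
    rw [Real.rpow_sub h.hx, Real.rpow_one]
    have := h.hx.ne'
    field_simp
  have ys : y ^ s = y * y ^ (s - 1) := by
    rw [Real.rpow_sub h.hy, Real.rpow_one]
    have := h.hy.ne'
    field_simp
  have ws : w ^ (1 - s) * w ^ s = w := by
    rw [← Real.rpow_add h.hw, sub_add_cancel, Real.rpow_one]
  have x1 : x ^ (s - 1) * x ^ (1 - s) = 1 := by
    rw [← Real.rpow_add h.hx]
    have : s - 1 + (1 - s) = 0 := by ring
    rw [this, Real.rpow_zero]
  have yy1 : y ^ (s - 1) * y ^ (1 - s) = 1 := by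
    rw [← Real.rpow_add h.hy]
    have : s - 1 + (1 - s) = 0 := by ring
    rw [this, Real.rpow_zero]
  set S11 := ∑ g, c g * N11 s (a g) (b g) x w y with hS11
  set S12 := ∑ g, c g * N12 s (a g) (b g) x w y with hS12
  set S22 := ∑ g, c g * N22 s (a g) (b g) x w y with hS22
  set Sa := ∑ g, c g * a g with hSa
  set Sb := ∑ g, c g * b g with hSb
  set SF := ∑ g, c g * Fm s (a g) (b g) P with hSF
  set q11 := LibSch.pw s P.toBlocks₁₁ with hq11
  set q22 := LibSch.pw s P.toBlocks₂₂ with hq22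
  set pθ := LibSch.pw s θ with hpθ
  set t1 := (trace (rp (s - 1) θ * P.toBlocks₁₁)).re with ht1
  set t2 := (trace (rp (s - 1) θ * P.toBlocks₂₂)).re with ht2
  have g1 : ∑ g, c g * (FN s (a g) (b g) x w y - a g * x ^ s - b g * y ^ s) =
      x * S11 + 2 * w * S12 + y * S22 - x ^ s * Sa - y ^ s * Sb := by
    simp only [hS11, hS12, hS22, hSa, hSb, Finset.mul_sum, ← Finset.sum_add_distrib,
      ← Finset.sum_sub_distrib]
    refine Finset.sum_congr rfl fun g _ => ?_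
    rw [hFN g]
    ring
  have g2 : ∑ g, c g * (N11 s (a g) (b g) x w y - a g * x ^ (s - 1)) = S11 - x ^ (s - 1) * Sa := by
    simp only [hS11, hSa, Finset.mul_sum, ← Finset.sum_sub_distrib]
    refine Finset.sum_congr rfl fun g _ => ?_
    ring
  have g3 : ∑ g, c g * (N22 s (a g) (b g) x w y - b g * y ^ (s - 1)) = S22 - y ^ (s - 1) * Sb := by
    simp only [hS22, hSb, Finset.mul_sum, ← Finset.sum_sub_distrib]
    refine Finset.sum_congr rfl fun g _ => ?_
    ring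
  have g4 : ∑ g, c g * (a g * x ^ (s - 1) - N11 s (a g) (b g) x w y) =
      x ^ (s - 1) * Sa - S11 := by
    simp only [hS11, hSa, Finset.mul_sum, ← Finset.sum_sub_distrib]
    refine Finset.sum_congr rfl fun g _ => ?_
    ring
  have g5 : ∑ g, c g * (b g * y ^ (s - 1) - N22 s (a g) (b g) x w y) =
      y ^ (s - 1) * Sb - S22 := by
    simp only [hS22, hSb, Finset.mul_sum, ← Finset.sum_sub_distrib]
    refine Finset.sum_congr rfl fun g _ => ?_
    ring
  have g6 : Psi s c a b 1 1 P = LibSch.pw s P - q11 - q22 - (SF - q11 * Sa - q22 * Sb) := by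
    unfold Psi Mx
    rw [b11_Fm, one_mul, one_mul]
    congr 1
    simp only [hSF, hSa, hSb, Finset.mul_sum, ← Finset.sum_sub_distrib]
    refine Finset.sum_congr rfl fun g _ => ?_
    ring
  rw [g1, g2, g3, g6, f1, n11, n12, n22, xs, ys] at T
  rw [g4, n11] at k11
  rw [g5, n22] at k22
  rw [p12]
  set E11 := e11 (s - 1) x w y
  set E12 := e12 (s - 1) x w y
  set E22 := e22 (s - 1) x w y
  have hk11 : E11 - 1 * x ^ (s - 1) - (S11 - x ^ (s - 1) * Sa) ≤ 0 := by linarith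
  have hk22 : E22 - 1 * y ^ (s - 1) - (S22 - y ^ (s - 1) * Sb) ≤ 0 := by linarith
  have m1 := mul_le_mul_of_nonpos_left y1 hk11
  have m2 := mul_le_mul_of_nonpos_left y2 hk22
  have r1 : (E11 - 1 * x ^ (s - 1) - (S11 - x ^ (s - 1) * Sa)) * (x ^ (1 - s) * q11) =
      (E11 - S11) * x ^ (1 - s) * q11 - (1 - Sa) * q11 := by
    linear_combination (-(q11 * (1 - Sa))) * x1
  have r2 : (E22 - 1 * y ^ (s - 1) - (S22 - y ^ (s - 1) * Sb)) * (y ^ (1 - s) * q22) =
      (E22 - S22) * y ^ (1 - s) * q22 - (1 - Sb) * q22 := by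
    linear_combination (-(q22 * (1 - Sb))) * yy1
  have r3 : 2 * ((E12 - S12) * w ^ (1 - s) * (w ^ s * pθ)) = 2 * w * (E12 - S12) * pθ := by
    linear_combination (2 * (E12 - S12) * pθ) * ws
  rw [r3]
  linarith [T, m1, m2, r1, r2]

end Pool.Agent.LibSchN
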