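import Pool.Agent.LibSchN.B11
import Pool.Agent.LibSchTri.S13
import Pool.Agent.LibSchP.T2

/-! **B12.**  The strengthened inequality of King. -/

open Matrix Set MeasureTheory
open scoped ComplexOrder

namespace Pool.Agent.LibSchN

open Pool.Agent.LibSchP Pool.Agent.LibSchQ
open Pool.Agent.LibSch (lamP lamM FF)

variable {n : Type} [Fintype n] [DecidableEq n]

/-- `[0, 1; 1, 0]` -/
def b12_K (n : Type) [DecidableEq n] : Matrix (n ⊕ n) (n ⊕ n) ℂ := fromBlocks 0 1 1 0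

omit [Fintype n] in
theorem b12_K_herm : (b12_K n).IsHermitian := by
  unfold Matrix.IsHermitian b12_K
  rw [fromBlocks_conjTranspose, conjTranspose_zero, conjTranspose_one]

omit [Fintype n] in
theorem b12_blocks (P : Matrix (n ⊕ n) (n ⊕ n) ℂ) (t : ℝ) :
    (P + (t : ℂ) • b12_K n).toBlocks₁₁ = P.toBlocks₁₁ ∧
      (P + (t : ℂ) • b12_K n).toBlocks₁₂ = P.toBlocks₁₂ + (t : ℂ) • (1 : Matrix n n ℂ) ∧
      (P + (t : ℂ) • b12_K n).toBlocks₂₂ = P.toBlocks₂₂ := by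
  refine ⟨?_, ?_, ?_⟩
  · ext i j
    simp [toBlocks₁₁, b12_K]
  · ext i j
    simp [toBlocks₁₂, b12_K]
  · ext i j
    simp [toBlocks₂₂, b12_K]

/-- `SK_theta` for `P + δ [0, 1; 1, 0]`, `δ → 0+` (`hasDerivAt_pw` gives the continuity;
`posDef_near`), if `P₁₂` is positive semidefinite -/
theorem SK_psd {κ : Type} [Fintype κ] (s : ℝ) (h1 : 1 < s) (h2 : s < 2) {x w y : ℝ}
    (h : PD x w y) (P : Matrix (n ⊕ n) (n ⊕ n) ℂ) (hP : P.PosDef)
    (h12 : P.toBlocks₁₂.PosSemidef) (c a b : κ → ℝ)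
    (hc : ∀ g, 0 ≤ c g) (ha : ∀ g, 0 < a g) (hb : ∀ g, 0 < b g)
    (hA : ∑ g, c g * a g ≤ 1) (hB : ∑ g, c g * b g ≤ 1) :
    ∑ g, c g * Fm s (a g) (b g) P +
      (e11 (s - 1) x w y - ∑ g, c g * N11 s (a g) (b g) x w y) * x ^ (1 - s) *
        LibSch.pw s P.toBlocks₁₁ +
      2 * ((e12 (s - 1) x w y - ∑ g, c g * N12 s (a g) (b g) x w y) * w ^ (1 - s) *
        LibSch.pw s P.toBlocks₁₂) +
      (e22 (s - 1) x w y - ∑ g, c g * N22 s (a g) (b g) x w y) * y ^ (1 - s) *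
        LibSch.pw s P.toBlocks₂₂ ≤ LibSch.pw s P := by
  have hs0 : 0 < s := by linarith
  have hF : ∀ a b : ℝ, Continuous fun t : ℝ => Fm s a b (P + (t : ℂ) • b12_K n) := by
    intro a b
    have h3 : ∀ t : ℝ, Fm s a b (P + (t : ℂ) • b12_K n) =
        LibSch.pw s (DD n (dl s a) (dl s b) * P * DD n (dl s a) (dl s b) +
          (t : ℂ) • (DD n (dl s a) (dl s b) * b12_K n * DD n (dl s a) (dl s b))) := by
      intro t
      unfold Fm
      rw [Matrix.mul_add, Matrix.add_mul, Matrix.mul_smul, Matrix.smul_mul]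
    simp only [h3]
    exact pw_continuous s hs0 h2 _ _
  have hL : Continuous fun t : ℝ => ∑ g, c g * Fm s (a g) (b g) (P + (t : ℂ) • b12_K n) +
      (e11 (s - 1) x w y - ∑ g, c g * N11 s (a g) (b g) x w y) * x ^ (1 - s) *
        LibSch.pw s P.toBlocks₁₁ +
      2 * ((e12 (s - 1) x w y - ∑ g, c g * N12 s (a g) (b g) x w y) * w ^ (1 - s) *
        LibSch.pw s (P.toBlocks₁₂ + (t : ℂ) • (1 : Matrix n n ℂ))) +
      (e22 (s - 1) x w y - ∑ g, c g * N22 s (a g) (b g) x w y) * y ^ (1 - s) *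
        LibSch.pw s P.toBlocks₂₂ := by
    have h3 : Continuous fun t : ℝ => ∑ g, c g * Fm s (a g) (b g) (P + (t : ℂ) • b12_K n) :=
      continuous_finsetSum _ fun g _ => continuous_const.mul (hF _ _)
    exact ((h3.add continuous_const).add (continuous_const.mul (continuous_const.mul
      (pw_continuous s hs0 h2 _ _)))).add continuous_const
  have hR : Continuous fun t : ℝ => LibSch.pw s (P + (t : ℂ) • b12_K n) :=
    pw_continuous s hs0 h2 _ _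
  have tL := (hL.tendsto 0).mono_left (nhdsWithin_le_nhds (s := Ioi (0 : ℝ)))
  have tR := (hR.tendsto 0).mono_left (nhdsWithin_le_nhds (s := Ioi (0 : ℝ)))
  simp only [Complex.ofReal_zero, zero_smul, add_zero] at tL tR
  refine le_of_tendsto_of_tendsto tL tR ?_
  have hn := posDef_near P (b12_K n) hP b12_K_herm
  filter_upwards [nhdsWithin_le_nhds hn, self_mem_nhdsWithin] with t ht ht0
  have ht0' : (0 : ℝ) < t := ht0
  obtain ⟨g1, g2, g3⟩ := b12_blocks P t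
  have hw : (0 : ℝ) < w := h.hw
  have hpd : (P.toBlocks₁₂ + (t : ℂ) • (1 : Matrix n n ℂ)).PosDef := by
    have h4 : ((t : ℂ) • (1 : Matrix n n ℂ)).PosDef :=
      Matrix.PosDef.one.smul (by exact_mod_cast ht0')
    rw [add_comm]
    exact h4.add_posSemidef h12
  have hθ : (((w⁻¹ : ℝ) : ℂ) • (P.toBlocks₁₂ + (t : ℂ) • (1 : Matrix n n ℂ))).PosDef :=
    hpd.smul (by exact_mod_cast inv_pos.2 hw)
  have h5 := SK_theta s h1 h2 h (P + (t : ℂ) • b12_K n)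
    (((w⁻¹ : ℝ) : ℂ) • (P.toBlocks₁₂ + (t : ℂ) • (1 : Matrix n n ℂ))) ht hθ (by
      rw [g2, smul_smul, ← Complex.ofReal_mul, mul_inv_cancel₀ hw.ne', Complex.ofReal_one,
        one_smul]) c a b hc ha hb hA hB
  rw [g1, g2, g3] at h5
  exact h5

/-- **(SK)**: `P₁₂ = W |P₁₂|` with a unitary `W` (`LibSchTri.svd_sq`); conjugate by
`diag(Wᴴ, 1)`; all terms are unitarily invariant -/
theorem SK {κ : Type} [Fintype κ] (s : ℝ) (h1 : 1 < s) (h2 : s < 2) {x w y : ℝ}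
    (h : PD x w y) (P : Matrix (n ⊕ n) (n ⊕ n) ℂ) (hP : P.PosDef) (c a b : κ → ℝ)
    (hc : ∀ g, 0 ≤ c g) (ha : ∀ g, 0 < a g) (hb : ∀ g, 0 < b g)
    (hA : ∑ g, c g * a g ≤ 1) (hB : ∑ g, c g * b g ≤ 1) :
    ∑ g, c g * Fm s (a g) (b g) P +
      (e11 (s - 1) x w y - ∑ g, c g * N11 s (a g) (b g) x w y) * x ^ (1 - s) *
        LibSch.pw s P.toBlocks₁₁ +
      2 * ((e12 (s - 1) x w y - ∑ g, c g * N12 s (a g) (b g) x w y) * w ^ (1 - s) *
        LibSch.pw s P.toBlocks₁₂) +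
      (e22 (s - 1) x w y - ∑ g, c g * N22 s (a g) (b g) x w y) * y ^ (1 - s) *
        LibSch.pw s P.toBlocks₂₂ ≤ LibSch.pw s P := by
  obtain ⟨U, V, σ, hσ, hUV⟩ := LibSchTri.svd_sq P.toBlocks₁₂
  have hU1 : (U : Matrix n n ℂ)ᴴ * (U : Matrix n n ℂ) = 1 := mem_unitaryGroup_iff'.1 U.2
  have hU2 : (U : Matrix n n ℂ) * (U : Matrix n n ℂ)ᴴ = 1 := mem_unitaryGroup_iff.1 U.2
  have hV1 : (V : Matrix n n ℂ)ᴴ * (V : Matrix n n ℂ) = 1 := mem_unitaryGroup_iff'.1 V.2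
  have hV2 : (V : Matrix n n ℂ) * (V : Matrix n n ℂ)ᴴ = 1 := mem_unitaryGroup_iff.1 V.2
  have hVm : (V : Matrix n n ℂ)ᴴ ∈ unitaryGroup n ℂ := by
    rw [mem_unitaryGroup_iff]
    change (V : Matrix n n ℂ)ᴴ * ((V : Matrix n n ℂ)ᴴ)ᴴ = 1
    rw [conjTranspose_conjTranspose, hV1]
  have hUm : (U : Matrix n n ℂ)ᴴ ∈ unitaryGroup n ℂ := by
    rw [mem_unitaryGroup_iff]
    change (U : Matrix n n ℂ)ᴴ * ((U : Matrix n n ℂ)ᴴ)ᴴ = 1
    rw [conjTranspose_conjTranspose, hU1]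
  set Q : Matrix (n ⊕ n) (n ⊕ n) ℂ := fromBlocks (U : Matrix n n ℂ) 0 0 (V : Matrix n n ℂ)ᴴ
    with hQ
  have hQc : Qᴴ = fromBlocks (U : Matrix n n ℂ)ᴴ 0 0 (V : Matrix n n ℂ) := by
    rw [hQ, fromBlocks_conjTranspose, conjTranspose_conjTranspose, conjTranspose_zero]
  have hQ1 : Q * Qᴴ = 1 := by
    rw [hQc, hQ, fromBlocks_multiply, hU2, hV1]
    simp [fromBlocks_one]
  have hQ2 : Qᴴ * Q = 1 := by
    rw [hQc, hQ, fromBlocks_multiply, hU1, hV2]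
    simp [fromBlocks_one]
  have hQm : Q ∈ unitaryGroup (n ⊕ n) ℂ := mem_unitaryGroup_iff.2 hQ1
  have hQm' : Qᴴ ∈ unitaryGroup (n ⊕ n) ℂ := by
    rw [mem_unitaryGroup_iff]
    change Qᴴ * Qᴴᴴ = 1
    rw [conjTranspose_conjTranspose, hQ2]
  have hpwQ : ∀ M : Matrix (n ⊕ n) (n ⊕ n) ℂ, LibSch.pw s (Q * M * Qᴴ) = LibSch.pw s M :=
    fun M => LibSch.pw_unitary s M ⟨Q, hQm⟩ ⟨Qᴴ, hQm'⟩
  have hblk : Q * P * Qᴴ = fromBlocks
      ((U : Matrix n n ℂ) * P.toBlocks₁₁ * (U : Matrix n n ℂ)ᴴ)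
      ((U : Matrix n n ℂ) * P.toBlocks₁₂ * (V : Matrix n n ℂ))
      ((V : Matrix n n ℂ)ᴴ * P.toBlocks₂₁ * (U : Matrix n n ℂ)ᴴ)
      ((V : Matrix n n ℂ)ᴴ * P.toBlocks₂₂ * (V : Matrix n n ℂ)) := by
    conv_lhs => rw [← fromBlocks_toBlocks P]
    rw [hQc, hQ, fromBlocks_multiply, fromBlocks_multiply]
    simp
  have g11 : LibSch.pw s (Q * P * Qᴴ).toBlocks₁₁ = LibSch.pw s P.toBlocks₁₁ := by
    rw [hblk, toBlocks_fromBlocks₁₁]
    exact LibSch.pw_unitary s _ U ⟨_, hUm⟩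
  have g12 : LibSch.pw s (Q * P * Qᴴ).toBlocks₁₂ = LibSch.pw s P.toBlocks₁₂ := by
    rw [hblk, toBlocks_fromBlocks₁₂]
    exact LibSch.pw_unitary s _ U V
  have g22 : LibSch.pw s (Q * P * Qᴴ).toBlocks₂₂ = LibSch.pw s P.toBlocks₂₂ := by
    rw [hblk, toBlocks_fromBlocks₂₂]
    exact LibSch.pw_unitary s _ ⟨_, hVm⟩ V
  have hDQ : ∀ u v : ℝ, DD n u v * Q = Q * DD n u v := by
    intro u v
    unfold DD
    rw [hQ, fromBlocks_multiply, fromBlocks_multiply]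
    simp
  have hDQ' : ∀ u v : ℝ, Qᴴ * DD n u v = DD n u v * Qᴴ := by
    intro u v
    unfold DD
    rw [hQc, fromBlocks_multiply, fromBlocks_multiply]
    simp
  have gF : ∀ a b : ℝ, Fm s a b (Q * P * Qᴴ) = Fm s a b P := by
    intro a b
    unfold Fm
    have h3 : DD n (dl s a) (dl s b) * (Q * P * Qᴴ) * DD n (dl s a) (dl s b) =
        Q * (DD n (dl s a) (dl s b) * P * DD n (dl s a) (dl s b)) * Qᴴ := by
      calc DD n (dl s a) (dl s b) * (Q * P * Qᴴ) * DD n (dl s a) (dl s b) =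
          (DD n (dl s a) (dl s b) * Q) * P * (Qᴴ * DD n (dl s a) (dl s b)) := by
            simp only [Matrix.mul_assoc]
        _ = _ := by
            rw [hDQ, hDQ']
            simp only [Matrix.mul_assoc]
    rw [h3, hpwQ]
  have hP' : (Q * P * Qᴴ).PosDef := by
    refine hP.mul_mul_conjTranspose_same ?_
    exact (Matrix.vecMul_injective_iff_isUnit).2 (IsUnit.of_mul_eq_one _ hQ1)
  have hpsd : (Q * P * Qᴴ).toBlocks₁₂.PosSemidef := by
    rw [hblk, toBlocks_fromBlocks₁₂, hUV]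
    exact Matrix.PosSemidef.diagonal fun k => by
      show (0 : ℂ) ≤ (σ k : ℂ)
      exact_mod_cast hσ k
  have h5 := SK_psd s h1 h2 h (Q * P * Qᴴ) hP' hpsd c a b hc ha hb hA hB
  rw [g11, g12, g22, hpwQ] at h5
  simp only [gF] at h5
  exact h5

end Pool.Agent.LibSchN
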