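import Pool.Agent.LibSchN.Defs

/-! **B1a.**  Block formulas for the resolvent `R = (P + diag(u₁, u₂))⁻¹`. -/

open Matrix Set MeasureTheory
open scoped ComplexOrder

namespace Pool.Agent.LibSchN

open Pool.Agent.LibSchP Pool.Agent.LibSchQ
open Pool.Agent.LibSch (lamP lamM FF)

variable {n : Type} [Fintype n] [DecidableEq n]

theorem b1a_DD_psd (u₁ u₂ : ℝ) (h₁ : 0 ≤ u₁) (h₂ : 0 ≤ u₂) : (DD n u₁ u₂).PosSemidef := by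
  unfold DD
  rw [smul_one_eq_diagonal, smul_one_eq_diagonal, fromBlocks_diagonal]
  apply PosSemidef.diagonal
  intro i
  rcases i with i | i
  · show (0 : ℂ) ≤ (u₁ : ℂ)
    exact_mod_cast h₁
  · show (0 : ℂ) ≤ (u₂ : ℂ)
    exact_mod_cast h₂

theorem PD_add {P : Matrix (n ⊕ n) (n ⊕ n) ℂ} (hP : P.PosDef) (u₁ u₂ : ℝ) (h₁ : 0 ≤ u₁)
    (h₂ : 0 ≤ u₂) : (P + DD n u₁ u₂).PosDef :=
  hP.add_posSemidef (b1a_DD_psd u₁ u₂ h₁ h₂)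

theorem PD_block {P : Matrix (n ⊕ n) (n ⊕ n) ℂ} (hP : P.PosDef) :
    P.toBlocks₁₁.PosDef ∧ P.toBlocks₂₂.PosDef ∧ P.toBlocks₂₁ = P.toBlocks₁₂ᴴ := by
  refine ⟨hP.submatrix Sum.inl_injective, hP.submatrix Sum.inr_injective, ?_⟩
  ext i j
  have h := congrFun (congrFun hP.isHermitian.eq (Sum.inr i)) (Sum.inl j)
  exact h.symm

theorem b1a_add11 {P : Matrix (n ⊕ n) (n ⊕ n) ℂ} (hP : P.PosDef) (u₁ : ℝ) (h₁ : 0 < u₁) :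
    (P.toBlocks₁₁ + (u₁ : ℂ) • 1).PosDef := by
  refine (PD_block hP).1.add_posSemidef ?_
  rw [smul_one_eq_diagonal]
  apply PosSemidef.diagonal
  intro i
  show (0 : ℂ) ≤ (u₁ : ℂ)
  exact_mod_cast h₁.le

/-- the block identities of `(P + diag(u₁, u₂)) R = 1` -/
theorem b1a_blocks {P : Matrix (n ⊕ n) (n ⊕ n) ℂ} (hP : P.PosDef) (u₁ u₂ : ℝ) (h₁ : 0 < u₁)
    (h₂ : 0 < u₂) :
    (P.toBlocks₁₁ + (u₁ : ℂ) • 1) * ((P + DD n u₁ u₂)⁻¹).toBlocks₁₁ +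
      P.toBlocks₁₂ * ((P + DD n u₁ u₂)⁻¹).toBlocks₂₁ = 1 ∧
    (P.toBlocks₁₁ + (u₁ : ℂ) • 1) * ((P + DD n u₁ u₂)⁻¹).toBlocks₁₂ +
      P.toBlocks₁₂ * ((P + DD n u₁ u₂)⁻¹).toBlocks₂₂ = 0 := by
  have hQ := PD_add hP u₁ u₂ h₁.le h₂.le
  have hdet : IsUnit (P + DD n u₁ u₂).det := (Matrix.isUnit_iff_isUnit_det _).1 hQ.isUnit
  have h := Matrix.mul_nonsing_inv _ hdet
  have hb : P + DD n u₁ u₂ = fromBlocks (P.toBlocks₁₁ + (u₁ : ℂ) • 1) P.toBlocks₁₂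
      P.toBlocks₂₁ (P.toBlocks₂₂ + (u₂ : ℂ) • 1) := by
    conv_lhs => rw [← fromBlocks_toBlocks P]
    unfold DD
    rw [fromBlocks_add, add_zero, add_zero]
  have h2 : fromBlocks (P.toBlocks₁₁ + (u₁ : ℂ) • 1) P.toBlocks₁₂
      P.toBlocks₂₁ (P.toBlocks₂₂ + (u₂ : ℂ) • 1) *
      fromBlocks ((P + DD n u₁ u₂)⁻¹).toBlocks₁₁ ((P + DD n u₁ u₂)⁻¹).toBlocks₁₂
        ((P + DD n u₁ u₂)⁻¹).toBlocks₂₁ ((P + DD n u₁ u₂)⁻¹).toBlocks₂₂ = 1 := by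
    rw [fromBlocks_toBlocks, ← hb, h]
  rw [fromBlocks_multiply, ← fromBlocks_one, fromBlocks_inj] at h2
  exact ⟨h2.1, h2.2.1⟩

/-- `R₁₁ = r₁ + r₁ P₁₂ R₂₂ P₁₂ᴴ r₁`, `r₁ = (P₁₁ + u₁)⁻¹` (block inverse: the identities
`(P₁₁ + u₁) R₁₁ + P₁₂ R₂₁ = 1`, `(P₁₁ + u₁) R₁₂ + P₁₂ R₂₂ = 0`, `R₂₁ = R₁₂ᴴ`). -/
theorem res_block {P : Matrix (n ⊕ n) (n ⊕ n) ℂ} (hP : P.PosDef) (u₁ u₂ : ℝ) (h₁ : 0 < u₁)
    (h₂ : 0 < u₂) :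
    ((P + DD n u₁ u₂)⁻¹).toBlocks₁₁ = (P.toBlocks₁₁ + (u₁ : ℂ) • 1)⁻¹ +
      (P.toBlocks₁₁ + (u₁ : ℂ) • 1)⁻¹ * P.toBlocks₁₂ * ((P + DD n u₁ u₂)⁻¹).toBlocks₂₂ *
        P.toBlocks₁₂ᴴ * (P.toBlocks₁₁ + (u₁ : ℂ) • 1)⁻¹ := by
  obtain ⟨e1, e2⟩ := b1a_blocks hP u₁ u₂ h₁ h₂
  have hA := b1a_add11 hP u₁ h₁
  have hR := (PD_add hP u₁ u₂ h₁.le h₂.le).inv
  obtain ⟨-, hR22, hR21⟩ := PD_block hR
  have hdet : IsUnit (P.toBlocks₁₁ + (u₁ : ℂ) • 1).det :=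
    (Matrix.isUnit_iff_isUnit_det _).1 hA.isUnit
  have hAi := Matrix.nonsing_inv_mul _ hdet
  have hAh : ((P.toBlocks₁₁ + (u₁ : ℂ) • 1)⁻¹)ᴴ = (P.toBlocks₁₁ + (u₁ : ℂ) • 1)⁻¹ :=
    hA.inv.isHermitian.eq
  have hRh : (((P + DD n u₁ u₂)⁻¹).toBlocks₂₂)ᴴ = ((P + DD n u₁ u₂)⁻¹).toBlocks₂₂ :=
    hR22.isHermitian.eq
  generalize (P.toBlocks₁₁ + (u₁ : ℂ) • 1) = A at *
  generalize ((P + DD n u₁ u₂)⁻¹).toBlocks₁₁ = R11 at *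
  generalize ((P + DD n u₁ u₂)⁻¹).toBlocks₁₂ = R12 at *
  generalize ((P + DD n u₁ u₂)⁻¹).toBlocks₂₁ = R21 at *
  generalize ((P + DD n u₁ u₂)⁻¹).toBlocks₂₂ = R22 at *
  generalize P.toBlocks₁₂ = B at *
  have k1 : R12 = -(A⁻¹ * B * R22) := by
    have h : A⁻¹ * (A * R12 + B * R22) = 0 := by rw [e2, mul_zero]
    rw [mul_add, ← mul_assoc, hAi, one_mul, ← mul_assoc] at h
    exact eq_neg_of_add_eq_zero_left h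
  have k2 : R21 = -(R22 * Bᴴ * A⁻¹) := by
    rw [hR21, k1, conjTranspose_neg, conjTranspose_mul, conjTranspose_mul, hAh, hRh, mul_assoc]
  have k3 : A⁻¹ * (A * R11 + B * R21) = A⁻¹ := by rw [e1, mul_one]
  rw [mul_add, ← mul_assoc, hAi, one_mul, k2] at k3
  have k4 : R11 = A⁻¹ - A⁻¹ * (B * -(R22 * Bᴴ * A⁻¹)) := by
    rw [eq_sub_iff_add_eq]
    exact k3
  rw [k4, mul_neg, mul_neg, sub_neg_eq_add]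
  simp only [mul_assoc]

theorem b1a_f1 {P : Matrix (n ⊕ n) (n ⊕ n) ℂ} (hP : P.PosDef) (u₁ u₂ : ℝ) (h₁ : 0 < u₁)
    (h₂ : 0 < u₂) :
    f1 P u₁ u₂ = (trace (((P.toBlocks₁₁ + (u₁ : ℂ) • 1)⁻¹ * P.toBlocks₁₂) *
      ((P + DD n u₁ u₂)⁻¹).toBlocks₂₂ *
        ((P.toBlocks₁₁ + (u₁ : ℂ) • 1)⁻¹ * P.toBlocks₁₂)ᴴ)).re := by
  have hAh : ((P.toBlocks₁₁ + (u₁ : ℂ) • 1)⁻¹)ᴴ = (P.toBlocks₁₁ + (u₁ : ℂ) • 1)⁻¹ :=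
    (b1a_add11 hP u₁ h₁).inv.isHermitian.eq
  unfold f1
  rw [res_block hP u₁ u₂ h₁ h₂, trace_add, Complex.add_re, add_sub_cancel_left,
    conjTranspose_mul, hAh]
  simp only [mul_assoc]

theorem b1a_tr {m : Type} [Fintype m] [DecidableEq m] {A : Matrix m m ℂ} (hA : A.PosSemidef) :
    0 ≤ (trace A).re := by
  have h := hA.trace_nonneg
  rw [Complex.le_def] at h
  simpa using h.1

theorem f1_nonneg {P : Matrix (n ⊕ n) (n ⊕ n) ℂ} (hP : P.PosDef) (u₁ u₂ : ℝ) (h₁ : 0 < u₁)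
    (h₂ : 0 < u₂) : 0 ≤ f1 P u₁ u₂ := by
  rw [b1a_f1 hP u₁ u₂ h₁ h₂]
  have hR := (PD_add hP u₁ u₂ h₁.le h₂.le).inv
  exact b1a_tr ((PD_block hR).2.1.posSemidef.mul_mul_conjTranspose_same _)

/-- `0 ≤ R₂₂ ≤ u₂⁻¹` -/
theorem b1a_R22 {P : Matrix (n ⊕ n) (n ⊕ n) ℂ} (hP : P.PosDef) (u₁ u₂ : ℝ) (h₁ : 0 < u₁)
    (h₂ : 0 < u₂) :
    (((u₂⁻¹ : ℝ) : ℂ) • (1 : Matrix n n ℂ) - ((P + DD n u₁ u₂)⁻¹).toBlocks₂₂).PosSemidef := by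
  have hQ := PD_add hP u₁ u₂ h₁.le h₂.le
  have hR := hQ.inv
  obtain ⟨-, hR22, hR21⟩ := PD_block hR
  have hdet : IsUnit (P + DD n u₁ u₂).det := (Matrix.isUnit_iff_isUnit_det _).1 hQ.isUnit
  -- `R = R P R + R D R`
  have e0 : (P + DD n u₁ u₂)⁻¹ = (P + DD n u₁ u₂)⁻¹ * P * (P + DD n u₁ u₂)⁻¹ +
      (P + DD n u₁ u₂)⁻¹ * DD n u₁ u₂ * (P + DD n u₁ u₂)⁻¹ := by
    rw [← add_mul, ← mul_add, Matrix.nonsing_inv_mul _ hdet, one_mul]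
  have hRh : (((P + DD n u₁ u₂)⁻¹))ᴴ = (P + DD n u₁ u₂)⁻¹ := hR.isHermitian.eq
  have hRPR : ((P + DD n u₁ u₂)⁻¹ * P * (P + DD n u₁ u₂)⁻¹).PosSemidef := by
    have h := hP.posSemidef.mul_mul_conjTranspose_same (P + DD n u₁ u₂)⁻¹
    rwa [hRh] at h
  have hX1 : ((P + DD n u₁ u₂)⁻¹ * P * (P + DD n u₁ u₂)⁻¹).toBlocks₂₂.PosSemidef :=
    hRPR.submatrix Sum.inr
  have e1 : ((P + DD n u₁ u₂)⁻¹ * DD n u₁ u₂ * (P + DD n u₁ u₂)⁻¹).toBlocks₂₂ =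
      (u₁ : ℂ) • (((P + DD n u₁ u₂)⁻¹).toBlocks₂₁ * (((P + DD n u₁ u₂)⁻¹).toBlocks₂₁)ᴴ) +
      (u₂ : ℂ) • (((P + DD n u₁ u₂)⁻¹).toBlocks₂₂ * ((P + DD n u₁ u₂)⁻¹).toBlocks₂₂) := by
    rw [hR21, conjTranspose_conjTranspose, ← hR21]
    conv_lhs => rw [← fromBlocks_toBlocks (P + DD n u₁ u₂)⁻¹]
    unfold DD
    rw [fromBlocks_multiply, fromBlocks_multiply, toBlocks_fromBlocks₂₂]
    simp
  have e2 : ((P + DD n u₁ u₂)⁻¹).toBlocks₂₂ =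
      ((P + DD n u₁ u₂)⁻¹ * P * (P + DD n u₁ u₂)⁻¹).toBlocks₂₂ +
      ((P + DD n u₁ u₂)⁻¹ * DD n u₁ u₂ * (P + DD n u₁ u₂)⁻¹).toBlocks₂₂ := by
    conv_lhs => rw [e0]
    rfl
  rw [e1] at e2
  have hX2 : ((u₁ : ℂ) • (((P + DD n u₁ u₂)⁻¹).toBlocks₂₁ *
      (((P + DD n u₁ u₂)⁻¹).toBlocks₂₁)ᴴ)).PosSemidef := by
    apply (posSemidef_self_mul_conjTranspose _).smul
    exact_mod_cast h₁.le
  have hX := hX1.add hX2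
  have hRh22 : (((P + DD n u₁ u₂)⁻¹).toBlocks₂₂)ᴴ = ((P + DD n u₁ u₂)⁻¹).toBlocks₂₂ :=
    hR22.isHermitian.eq
  generalize ((P + DD n u₁ u₂)⁻¹ * P * (P + DD n u₁ u₂)⁻¹).toBlocks₂₂ = X1 at *
  generalize (u₁ : ℂ) • (((P + DD n u₁ u₂)⁻¹).toBlocks₂₁ *
      (((P + DD n u₁ u₂)⁻¹).toBlocks₂₁)ᴴ) = X2 at *
  generalize ((P + DD n u₁ u₂)⁻¹).toBlocks₂₂ = R at *
  have hu : (u₂ : ℂ) ≠ 0 := by exact_mod_cast h₂.ne'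
  have hY : (((u₂⁻¹ : ℝ) : ℂ) • ((1 - (u₂ : ℂ) • R) * (1 - (u₂ : ℂ) • R)ᴴ)).PosSemidef := by
    apply (posSemidef_self_mul_conjTranspose _).smul
    exact_mod_cast (inv_pos.2 h₂).le
  have e3 : ((u₂⁻¹ : ℝ) : ℂ) • (1 : Matrix n n ℂ) - R =
      ((u₂⁻¹ : ℝ) : ℂ) • ((1 - (u₂ : ℂ) • R) * (1 - (u₂ : ℂ) • R)ᴴ) + (X1 + X2) := by
    have e4 : X1 + X2 = R - (u₂ : ℂ) • (R * R) := by
      rw [eq_sub_iff_add_eq, add_assoc]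
      exact e2.symm
    have e5 : (1 - (u₂ : ℂ) • R)ᴴ = 1 - (u₂ : ℂ) • R := by
      rw [conjTranspose_sub, conjTranspose_one, conjTranspose_smul, hRh22]
      simp
    rw [e4, e5, sub_mul, mul_sub, mul_sub, one_mul, one_mul, mul_one, smul_mul_assoc,
      mul_smul_comm, Complex.ofReal_inv, smul_sub, smul_sub, smul_sub, smul_smul, smul_smul,
      inv_mul_cancel₀ hu, one_smul, one_smul]
    abel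
  rw [e3]
  exact hY.add hX

/-- `f1 P u₁ u₂ = tr (K R₂₂ Kᴴ)`, `K = r₁ P₁₂`, and `0 ≤ R₂₂ ≤ u₂⁻¹` (`R ≤ diag(u₁, u₂)⁻¹`) -/
theorem f1_le {P : Matrix (n ⊕ n) (n ⊕ n) ℂ} (hP : P.PosDef) (u₁ : ℝ) (h₁ : 0 < u₁) :
    ∃ C : ℝ, ∀ u₂ : ℝ, 0 < u₂ → f1 P u₁ u₂ ≤ C / u₂ := by
  refine ⟨(trace (((P.toBlocks₁₁ + (u₁ : ℂ) • 1)⁻¹ * P.toBlocks₁₂) *
        ((P.toBlocks₁₁ + (u₁ : ℂ) • 1)⁻¹ * P.toBlocks₁₂)ᴴ)).re, fun u₂ h₂ => ?_⟩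
  rw [b1a_f1 hP u₁ u₂ h₁ h₂]
  have h := b1a_tr ((b1a_R22 hP u₁ u₂ h₁ h₂).mul_mul_conjTranspose_same
    ((P.toBlocks₁₁ + (u₁ : ℂ) • 1)⁻¹ * P.toBlocks₁₂))
  rw [mul_sub, sub_mul, trace_sub, Complex.sub_re, Matrix.mul_smul, Matrix.smul_mul, mul_one,
    trace_smul, smul_eq_mul, Complex.re_ofReal_mul] at h
  rw [div_eq_inv_mul]
  linarith

end Pool.Agent.LibSchN
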