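import Pool.Agent.LibSchN.Defs

/-! **B1b.**  The resolvent: continuity, derivative, swapping the two rows. -/

open Matrix Set MeasureTheory
open scoped ComplexOrder

namespace Pool.Agent.LibSchN

open Pool.Agent.LibSchP Pool.Agent.LibSchQ
open Pool.Agent.LibSch (lamP lamM FF)

variable {n : Type} [Fintype n] [DecidableEq n]

theorem b1b_DD_posDef {u₁ u₂ : ℝ} (h₁ : 0 < u₁) (h₂ : 0 < u₂) : (DD n u₁ u₂).PosDef := by
  have e : DD n u₁ u₂ = Matrix.diagonal (Sum.elim (fun _ : n => (u₁ : ℂ)) (fun _ : n => (u₂ : ℂ))) := by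
    unfold DD
    ext i j
    rcases i with i | i <;> rcases j with j | j
    · rw [fromBlocks_apply₁₁, Matrix.smul_apply, Matrix.one_apply, Matrix.diagonal_apply]
      by_cases hij : i = j <;> simp [hij]
    · rw [fromBlocks_apply₁₂, Matrix.diagonal_apply]
      simp
    · rw [fromBlocks_apply₂₁, Matrix.diagonal_apply]
      simp
    · rw [fromBlocks_apply₂₂, Matrix.smul_apply, Matrix.one_apply, Matrix.diagonal_apply]
      by_cases hij : i = j <;> simp [hij]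
  rw [e, Matrix.posDef_diagonal_iff]
  rintro (i | i)
  · simpa using h₁
  · simpa using h₂

theorem b1b_PD {P : Matrix (n ⊕ n) (n ⊕ n) ℂ} (hP : P.PosDef) {u₁ u₂ : ℝ} (h₁ : 0 < u₁)
    (h₂ : 0 < u₂) : (P + DD n u₁ u₂).PosDef := hP.add (b1b_DD_posDef h₁ h₂)

theorem b1b_unit {P : Matrix (n ⊕ n) (n ⊕ n) ℂ} (hP : P.PosDef) {u₁ u₂ : ℝ} (h₁ : 0 < u₁)
    (h₂ : 0 < u₂) : IsUnit (P + DD n u₁ u₂).det :=
  (Matrix.isUnit_iff_isUnit_det _).1 (b1b_PD hP h₁ h₂).isUnit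

theorem b1b_DD_cont : Continuous (fun q : ℝ × ℝ => DD n q.1 q.2) := by
  unfold DD
  refine Continuous.matrix_fromBlocks ?_ continuous_const continuous_const ?_
  · exact (Complex.continuous_ofReal.comp continuous_fst).smul continuous_const
  · exact (Complex.continuous_ofReal.comp continuous_snd).smul continuous_const

theorem b1b_fr_conj (X : Matrix n n ℂ) : fr Xᴴ = fr X := by
  unfold fr
  rw [Finset.sum_comm]
  refine Finset.sum_congr rfl fun i _ => Finset.sum_congr rfl fun j _ => ?_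
  rw [Matrix.conjTranspose_apply, norm_star]

theorem b1b_fr_tr (X : Matrix n n ℂ) : fr X = (trace (X * Xᴴ)).re := by
  rw [← b1b_fr_conj, fr_eq_trace, conjTranspose_conjTranspose]

theorem b1b_r21 {P : Matrix (n ⊕ n) (n ⊕ n) ℂ} (hP : P.PosDef) {u₁ u₂ : ℝ} (h₁ : 0 < u₁)
    (h₂ : 0 < u₂) : ((P + DD n u₁ u₂)⁻¹).toBlocks₂₁ = (((P + DD n u₁ u₂)⁻¹).toBlocks₁₂)ᴴ := by
  have h := (b1b_PD hP h₁ h₂).inv.isHermitian
  ext i j
  rw [Matrix.conjTranspose_apply]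
  change (P + DD n u₁ u₂)⁻¹ (Sum.inr i) (Sum.inl j) = star ((P + DD n u₁ u₂)⁻¹ (Sum.inl j) (Sum.inr i))
  rw [← Matrix.conjTranspose_apply, h]

theorem b1b_sub {P : Matrix (n ⊕ n) (n ⊕ n) ℂ} (hP : P.PosDef) {u₁ v v' : ℝ} (h₁ : 0 < u₁)
    (hv : 0 < v) (hv' : 0 < v') : (P + DD n u₁ v')⁻¹ - (P + DD n u₁ v)⁻¹ =
      ((v - v' : ℝ) : ℂ) • ((P + DD n u₁ v')⁻¹ * DD n 0 1 * (P + DD n u₁ v)⁻¹) := by
  have e1 := Matrix.mul_nonsing_inv _ (b1b_unit hP h₁ hv)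
  have e2 := Matrix.nonsing_inv_mul _ (b1b_unit hP h₁ hv')
  have e3 : (P + DD n u₁ v) - (P + DD n u₁ v') = ((v - v' : ℝ) : ℂ) • DD n 0 1 := by
    rw [add_sub_add_left_eq_sub]
    unfold DD
    ext i j
    rcases i with i | i <;> rcases j with j | j
    · simp
    · simp
    · simp
    · simp [sub_mul]
  rw [Matrix.mul_assoc, ← Matrix.mul_smul, ← Matrix.smul_mul, ← e3, Matrix.sub_mul, Matrix.mul_sub,
    e1, ← Matrix.mul_assoc, e2, Matrix.one_mul, Matrix.mul_one]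

theorem b1b_tr12 (R S : Matrix (n ⊕ n) (n ⊕ n) ℂ) :
    (R * DD n 0 1 * S).toBlocks₁₁ = R.toBlocks₁₂ * S.toBlocks₂₁ := by
  have h : R * DD n 0 1 * S = fromBlocks (R.toBlocks₁₂ * S.toBlocks₂₁) (R.toBlocks₁₂ * S.toBlocks₂₂)
      (R.toBlocks₂₂ * S.toBlocks₂₁) (R.toBlocks₂₂ * S.toBlocks₂₂) := by
    conv_lhs => rw [← fromBlocks_toBlocks R, ← fromBlocks_toBlocks S]
    unfold DD
    rw [fromBlocks_multiply, fromBlocks_multiply]
    simp
  rw [h, toBlocks_fromBlocks₁₁]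

/-- entries of the inverse: `adjugate / det`, `det ≠ 0` -/
theorem res_cont {P : Matrix (n ⊕ n) (n ⊕ n) ℂ} (hP : P.PosDef) :
    ContinuousOn (fun q : ℝ × ℝ => (P + DD n q.1 q.2)⁻¹) (Ioi 0 ×ˢ Ioi 0) := by
  intro q hq
  have h : ContinuousAt (fun q : ℝ × ℝ => (P + DD n q.1 q.2)⁻¹) q := by
    have h1 : ContinuousAt (Inv.inv : Matrix (n ⊕ n) (n ⊕ n) ℂ → Matrix (n ⊕ n) (n ⊕ n) ℂ)
        (P + DD n q.1 q.2) := by
      apply continuousAt_matrix_inv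
      rw [Ring.inverse_eq_inv']
      exact continuousAt_inv₀ (b1b_unit hP hq.1 hq.2).ne_zero
    exact ContinuousAt.comp (f := fun q : ℝ × ℝ => P + DD n q.1 q.2) h1
      (continuous_const.add b1b_DD_cont).continuousAt
  exact h.continuousWithinAt

theorem Lr_cont {P : Matrix (n ⊕ n) (n ⊕ n) ℂ} (hP : P.PosDef) :
    ContinuousOn (fun q : ℝ × ℝ => Lr P q.1 q.2) (Ioi 0 ×ˢ Ioi 0) := by
  unfold Lr fr
  refine continuousOn_finset_sum _ fun i _ => continuousOn_finset_sum _ fun j _ => ?_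
  have h := res_cont hP
  have h1 : ContinuousOn (fun q : ℝ × ℝ => (P + DD n q.1 q.2)⁻¹ (Sum.inl i) (Sum.inr j))
      (Ioi 0 ×ˢ Ioi 0) := by
    exact (continuous_apply (Sum.inr j)).comp_continuousOn
      ((continuous_apply (Sum.inl i)).comp_continuousOn h)
  exact (h1.norm).pow 2

theorem Lr_nonneg (P : Matrix (n ⊕ n) (n ⊕ n) ℂ) (u₁ u₂ : ℝ) : 0 ≤ Lr P u₁ u₂ := by
  exact fr_nonneg _

/-- resolvent identity `R(v) - R(v') = (v' - v) R(v) diag(0,1) R(v')` and continuity: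
`d/dv tr R₁₁ = - tr R₁₂ R₂₁ = - Lr` -/
theorem hasDerivAt_f1 {P : Matrix (n ⊕ n) (n ⊕ n) ℂ} (hP : P.PosDef) (u₁ v : ℝ) (h₁ : 0 < u₁)
    (hv : 0 < v) : HasDerivAt (fun v => f1 P u₁ v) (-Lr P u₁ v) v := by
  rw [hasDerivAt_iff_tendsto_slope]
  set g : ℝ → ℝ := fun v' => -(trace (((P + DD n u₁ v')⁻¹).toBlocks₁₂ *
    ((P + DD n u₁ v)⁻¹).toBlocks₂₁)).re with hg
  have hgv : g v = -Lr P u₁ v := by
    rw [hg]
    unfold Lr
    rw [b1b_fr_tr, ← b1b_r21 hP h₁ hv]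
  have hcont : ContinuousAt g v := by
    have h1 : ContinuousAt (fun v' : ℝ => (P + DD n u₁ v')⁻¹) v := by
      have h2 := (res_cont hP).continuousAt
        (prod_mem_nhds (Ioi_mem_nhds h₁) (Ioi_mem_nhds hv))
      exact ContinuousAt.comp (f := fun v' : ℝ => (u₁, v'))
        (g := fun q : ℝ × ℝ => (P + DD n q.1 q.2)⁻¹) h2
        (continuous_const.prodMk continuous_id).continuousAt
    have h3 : Continuous (fun R : Matrix (n ⊕ n) (n ⊕ n) ℂ =>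
        -(trace (R.toBlocks₁₂ * ((P + DD n u₁ v)⁻¹).toBlocks₂₁)).re) := by
      have h4 : Continuous (fun R : Matrix (n ⊕ n) (n ⊕ n) ℂ => R.toBlocks₁₂) := by
        refine continuous_matrix fun i j => ?_
        exact (continuous_apply (Sum.inr j)).comp (continuous_apply (Sum.inl i))
      exact (Complex.continuous_re.comp
        ((h4.matrix_mul continuous_const).matrix_trace)).neg
    exact ContinuousAt.comp (f := fun v' : ℝ => (P + DD n u₁ v')⁻¹) h3.continuousAt h1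
  have hlim : Filter.Tendsto g (nhdsWithin v {v}ᶜ) (nhds (-Lr P u₁ v)) := by
    rw [← hgv]
    exact hcont.tendsto.mono_left nhdsWithin_le_nhds
  refine hlim.congr' ?_
  have hev : ∀ᶠ v' in nhdsWithin v {v}ᶜ, 0 < v' :=
    nhdsWithin_le_nhds (Ioi_mem_nhds hv)
  filter_upwards [hev, self_mem_nhdsWithin] with v' hv' hne
  have hne' : v' - v ≠ 0 := sub_ne_zero.2 hne
  rw [slope_def_field]
  have e1 : f1 P u₁ v' - f1 P u₁ v = (v - v') * (trace (((P + DD n u₁ v')⁻¹).toBlocks₁₂ *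
      ((P + DD n u₁ v)⁻¹).toBlocks₂₁)).re := by
    unfold f1
    rw [sub_sub_sub_cancel_right, ← Complex.sub_re, ← Matrix.trace_sub]
    have e2 : ((P + DD n u₁ v')⁻¹).toBlocks₁₁ - ((P + DD n u₁ v)⁻¹).toBlocks₁₁ =
        ((P + DD n u₁ v')⁻¹ - (P + DD n u₁ v)⁻¹).toBlocks₁₁ := rfl
    rw [e2, b1b_sub hP h₁ hv hv']
    have e3 : (((v - v' : ℝ) : ℂ) • ((P + DD n u₁ v')⁻¹ * DD n 0 1 * (P + DD n u₁ v)⁻¹)).toBlocks₁₁ =
        ((v - v' : ℝ) : ℂ) • ((P + DD n u₁ v')⁻¹ * DD n 0 1 * (P + DD n u₁ v)⁻¹).toBlocks₁₁ := rfl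
    rw [e3, b1b_tr12, Matrix.trace_smul, smul_eq_mul, Complex.re_ofReal_mul]
  rw [e1, hg]
  field_simp
  ring

/-- swapping the rows -/
theorem swap_posDef {P : Matrix (n ⊕ n) (n ⊕ n) ℂ} (hP : P.PosDef) :
    (P.submatrix Sum.swap Sum.swap).PosDef := by
  exact hP.submatrix Sum.swap_leftInverse.injective

theorem Lr_swap (P : Matrix (n ⊕ n) (n ⊕ n) ℂ) (hP : P.PosDef) (u₁ u₂ : ℝ) (h₁ : 0 < u₁)
    (h₂ : 0 < u₂) : Lr (P.submatrix Sum.swap Sum.swap) u₂ u₁ = Lr P u₁ u₂ := by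
  have e1 : P.submatrix Sum.swap Sum.swap + DD n u₂ u₁ =
      (P + DD n u₁ u₂).submatrix (Equiv.sumComm n n) (Equiv.sumComm n n) := by
    ext i j
    rcases i with i | i <;> rcases j with j | j <;> rfl
  unfold Lr
  rw [e1, Matrix.inv_submatrix_equiv]
  have e2 : ((P + DD n u₁ u₂)⁻¹.submatrix (Equiv.sumComm n n) (Equiv.sumComm n n)).toBlocks₁₂ =
      ((P + DD n u₁ u₂)⁻¹).toBlocks₂₁ := rfl
  rw [e2, b1b_r21 hP h₁ h₂, b1b_fr_conj]

theorem f2_swap (P : Matrix (n ⊕ n) (n ⊕ n) ℂ) (u₁ u₂ : ℝ) :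
    f1 (P.submatrix Sum.swap Sum.swap) u₂ u₁ = f2 P u₁ u₂ := by
  have e1 : P.submatrix Sum.swap Sum.swap + DD n u₂ u₁ =
      (P + DD n u₁ u₂).submatrix (Equiv.sumComm n n) (Equiv.sumComm n n) := by
    ext i j
    rcases i with i | i <;> rcases j with j | j <;> rfl
  unfold f1 f2
  rw [e1, Matrix.inv_submatrix_equiv]
  rfl

end Pool.Agent.LibSchN
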