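import Pool.Agent.LibSchN.B1a
import Pool.Agent.LibSchN.B1b

/-! **B1c.**  `f1`, `f2` as integrals of `Lr`. -/

open Matrix Set MeasureTheory
open scoped ComplexOrder

namespace Pool.Agent.LibSchN

open Pool.Agent.LibSchP Pool.Agent.LibSchQ
open Pool.Agent.LibSch (lamP lamM FF)

variable {n : Type} [Fintype n] [DecidableEq n]

/-- `hasDerivAt_f1`, `f1_le` (limit `0` at infinity), `f1_nonneg`;
`integral_Ioi_of_hasDerivAt_of_nonpos` / `ofReal_integral_eq_lintegral_ofReal` -/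
theorem f1_eq {P : Matrix (n ⊕ n) (n ⊕ n) ℂ} (hP : P.PosDef) (u₁ u₂ : ℝ) (h₁ : 0 < u₁)
    (h₂ : 0 < u₂) :
    ENNReal.ofReal (f1 P u₁ u₂) = ∫⁻ v in Ioi u₂, ENNReal.ofReal (Lr P u₁ v) := by
  obtain ⟨C, hC⟩ := f1_le hP u₁ h₁
  have hlim : Filter.Tendsto (fun v => f1 P u₁ v) Filter.atTop (nhds 0) := by
    refine tendsto_of_tendsto_of_tendsto_of_le_of_le' tendsto_const_nhds
      (tendsto_const_nhds.div_atTop Filter.tendsto_id : Filter.Tendsto (fun v : ℝ => C / v)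
        Filter.atTop (nhds 0)) ?_ ?_
    · filter_upwards [Filter.eventually_gt_atTop 0] with v hv
      exact f1_nonneg hP u₁ v h₁ hv
    · filter_upwards [Filter.eventually_gt_atTop 0] with v hv
      exact hC v hv
  have hd : ∀ v ∈ Ici u₂, HasDerivAt (fun v => f1 P u₁ v) (-Lr P u₁ v) v := fun v hv =>
    hasDerivAt_f1 hP u₁ v h₁ (lt_of_lt_of_le h₂ hv)
  have hn : ∀ v ∈ Ioi u₂, -Lr P u₁ v ≤ 0 := fun v _ => neg_nonpos.2 (Lr_nonneg P u₁ v)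
  have hi := integrableOn_Ioi_deriv_of_nonpos' hd hn hlim
  have hv := integral_Ioi_of_hasDerivAt_of_nonpos' hd hn hlim
  have hi2 : IntegrableOn (fun v => Lr P u₁ v) (Ioi u₂) := by
    have h := hi.neg
    simpa using h
  have hv2 : ∫ v in Ioi u₂, Lr P u₁ v = f1 P u₁ u₂ := by
    rw [integral_neg] at hv
    linarith
  rw [← hv2]
  exact ofReal_integral_eq_lintegral_ofReal hi2
    (Filter.Eventually.of_forall fun v => Lr_nonneg P u₁ v)

/-- `f1_eq` for the swapped matrix -/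
theorem f2_eq {P : Matrix (n ⊕ n) (n ⊕ n) ℂ} (hP : P.PosDef) (u₁ u₂ : ℝ) (h₁ : 0 < u₁)
    (h₂ : 0 < u₂) : 0 ≤ f2 P u₁ u₂ ∧
    ENNReal.ofReal (f2 P u₁ u₂) = ∫⁻ v in Ioi u₁, ENNReal.ofReal (Lr P v u₂) := by
  rw [← f2_swap P u₁ u₂]
  refine ⟨f1_nonneg (swap_posDef hP) u₂ u₁ h₂ h₁, ?_⟩
  rw [f1_eq (swap_posDef hP) u₂ u₁ h₂ h₁]
  refine setLIntegral_congr_fun measurableSet_Ioi fun v hv => ?_
  have hv0 : 0 < v := lt_trans h₁ hv
  change ENNReal.ofReal (Lr (P.submatrix Sum.swap Sum.swap) u₂ v) = ENNReal.ofReal (Lr P v u₂)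
  rw [Lr_swap P hP v u₂ hv0 h₂]

end Pool.Agent.LibSchN
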