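import Pool.Agent.LibSchN.Defs
import Pool.Agent.LibSchP.I1

/-! **B2.**  `tr (D P D)^s` and the resolvent. -/

open Matrix Set MeasureTheory
open scoped ComplexOrder

namespace Pool.Agent.LibSchN

open Pool.Agent.LibSchP Pool.Agent.LibSchQ
open Pool.Agent.LibSch (lamP lamM FF)

variable {n : Type} [Fintype n] [DecidableEq n]

theorem b2_trace_ud {m : Type} [Fintype m] [DecidableEq m] (U : Matrix m m ℂ)
    (hU : U ∈ unitaryGroup m ℂ) (x : m → ℝ) : (trace (ud U x)).re = ∑ k, x k := by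
  rw [ud, trace_mul_cycle, a2_uu U hU, Matrix.one_mul, dg, trace_diagonal, Complex.re_sum]
  simp

theorem b2_inv {m : Type} [Fintype m] [DecidableEq m] (U : Matrix m m ℂ)
    (hU : U ∈ unitaryGroup m ℂ) (x : m → ℝ) (hx : ∀ k, 0 < x k) (t : ℝ) (ht : 0 < t) :
    (ud U x + (t : ℂ) • 1)⁻¹ = ud U fun k => (x k + t)⁻¹ := by
  have h1 : ud U x + (t : ℂ) • 1 = ud U fun k => x k + t := by
    have h2 : (dg fun k => x k + t) = dg x + (t : ℂ) • (1 : Matrix m m ℂ) := by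
      ext i j
      rw [dg_apply, Matrix.add_apply, dg_apply, Matrix.smul_apply, Matrix.one_apply]
      split_ifs <;> simp
    unfold ud
    rw [h2, Matrix.mul_add, Matrix.add_mul, Matrix.mul_smul, Matrix.smul_mul, Matrix.mul_one,
      a2_uu' U hU]
  rw [h1]
  refine Matrix.inv_eq_right_inv ?_
  rw [ud_mul U hU]
  have h3 : (fun k => (x k + t) * (x k + t)⁻¹) = fun _ => (1 : ℝ) := by
    funext k
    have := hx k
    exact mul_inv_cancel₀ (by positivity)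
  rw [h3, ud, a2_dg_one, Matrix.mul_one, a2_uu' U hU]

/-- `x^s = c⁻¹ ∫ t^(s-2) x²/(x+t) dt` (`int_base` with `s - 1`), `x²/(x+t) = x - t + t²/(x+t)`,
summed over the eigenvalues (`pw_ud`, `X = ud U x`, `pw s X = ∑ x_k^s`) -/
theorem pw_res {m : Type} [Fintype m] [DecidableEq m] (s : ℝ) (h1 : 1 < s) (h2 : s < 2)
    (X : Matrix m m ℂ) (hX : X.PosDef) :
    IntegrableOn (fun t : ℝ => t ^ (s - 2) * ((trace X).re - Fintype.card m * t +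
      t ^ 2 * (trace (X + (t : ℂ) • 1)⁻¹).re)) (Ioi 0) ∧
    ∫ t in Ioi (0 : ℝ), t ^ (s - 2) * ((trace X).re - Fintype.card m * t +
      t ^ 2 * (trace (X + (t : ℂ) • 1)⁻¹).re) = cst (s - 1) * LibSch.pw s X := by
  obtain ⟨U, hU, x, hx, rfl⟩ := ud_exists_pos X hX
  have e : s - 1 - 1 = s - 2 := by ring
  have hB : ∀ k, IntegrableOn (fun t : ℝ => x k ^ 2 * (t ^ (s - 2) / (x k + t))) (Ioi 0) ∧
      ∫ t in Ioi (0 : ℝ), x k ^ 2 * (t ^ (s - 2) / (x k + t)) =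
        x k ^ 2 * (cst (s - 1) * x k ^ (s - 2)) := by
    intro k
    have h := int_base (s - 1) (x k) (by linarith) (by linarith) (hx k)
    rw [e] at h
    refine ⟨h.1.const_mul _, ?_⟩
    rw [integral_const_mul, h.2]
  have hEq : EqOn (fun t : ℝ => t ^ (s - 2) * ((trace (ud U x)).re - Fintype.card m * t +
      t ^ 2 * (trace (ud U x + (t : ℂ) • 1)⁻¹).re))
      (fun t => ∑ k, x k ^ 2 * (t ^ (s - 2) / (x k + t))) (Ioi 0) := by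
    intro t ht
    have ht0 : (0 : ℝ) < t := ht
    have hc : (Fintype.card m : ℝ) * t = ∑ _k : m, t := by
      rw [Finset.sum_const, Finset.card_univ, nsmul_eq_mul]
    simp only
    rw [b2_inv U hU x hx t ht0, b2_trace_ud U hU, b2_trace_ud U hU, hc, ← Finset.sum_sub_distrib,
      Finset.mul_sum, ← Finset.sum_add_distrib, Finset.mul_sum]
    refine Finset.sum_congr rfl fun k _ => ?_
    have h3 : x k + t ≠ 0 := by
      have := hx k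
      positivity
    field_simp
    ring
  constructor
  · refine IntegrableOn.congr_fun ?_ hEq.symm measurableSet_Ioi
    exact integrable_finset_sum _ fun k _ => (hB k).1
  · rw [setIntegral_congr_fun measurableSet_Ioi hEq, integral_finset_sum _ fun k _ => (hB k).1,
      pw_ud s (ud U x) U hU (fun k => x k * x k) (by rw [(ud_isHermitian U x).eq, ud_mul U hU]),
      Finset.mul_sum]
    refine Finset.sum_congr rfl fun k _ => ?_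
    rw [(hB k).2, Real.mul_rpow (hx k).le (hx k).le, ← Real.rpow_add (hx k),
      show s / 2 + s / 2 = s by ring, Real.rpow_sub (hx k), Real.rpow_two]
    have h3 : x k ^ 2 ≠ 0 := pow_ne_zero _ (hx k).ne'
    rw [mul_div_assoc', mul_div_assoc', mul_comm (x k ^ 2), mul_div_assoc, div_self h3, mul_one]

theorem b2_DD_mul (u₁ u₂ v₁ v₂ : ℝ) : DD n u₁ u₂ * DD n v₁ v₂ = DD n (u₁ * v₁) (u₂ * v₂) := by
  unfold DD
  rw [fromBlocks_multiply]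
  simp only [Matrix.smul_mul, Matrix.one_mul, Matrix.mul_zero, add_zero, Matrix.zero_mul,
    zero_add, smul_smul, Complex.ofReal_mul]

theorem b2_DD_one : DD n 1 1 = 1 := by
  unfold DD
  simp

theorem b2_conj (u₁ u₂ : ℝ) (R : Matrix (n ⊕ n) (n ⊕ n) ℂ) : DD n u₁ u₂ * R * DD n u₁ u₂ =
    fromBlocks (((u₁ ^ 2 : ℝ) : ℂ) • R.toBlocks₁₁) (((u₁ * u₂ : ℝ) : ℂ) • R.toBlocks₁₂)
      (((u₂ * u₁ : ℝ) : ℂ) • R.toBlocks₂₁) (((u₂ ^ 2 : ℝ) : ℂ) • R.toBlocks₂₂) := by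
  rw [← fromBlocks_toBlocks R]
  unfold DD
  rw [fromBlocks_multiply, fromBlocks_multiply]
  simp only [toBlocks_fromBlocks₁₁, toBlocks_fromBlocks₁₂, toBlocks_fromBlocks₂₁,
    toBlocks_fromBlocks₂₂, Matrix.smul_mul, Matrix.one_mul, Matrix.zero_mul, add_zero, zero_add,
    Matrix.mul_smul, Matrix.mul_one, Matrix.mul_zero, smul_smul]
  congr 2 <;> push_cast <;> ring

theorem b2_tr_blocks (A B C D : Matrix n n ℂ) :
    trace (fromBlocks A B C D) = trace A + trace D := by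
  unfold Matrix.trace
  rw [Fintype.sum_sum_type]
  rfl

theorem b2_trace (R : Matrix (n ⊕ n) (n ⊕ n) ℂ) (u₁ u₂ : ℝ) :
    (trace (DD n u₁ u₂ * R * DD n u₁ u₂)).re =
      u₁ ^ 2 * (trace R.toBlocks₁₁).re + u₂ ^ 2 * (trace R.toBlocks₂₂).re := by
  rw [b2_conj, b2_tr_blocks, trace_smul, trace_smul, smul_eq_mul, smul_eq_mul, Complex.add_re,
    Complex.re_ofReal_mul, Complex.re_ofReal_mul]

theorem b2_posDef {P : Matrix (n ⊕ n) (n ⊕ n) ℂ} (hP : P.PosDef) (d₁ d₂ : ℝ) (hd₁ : 0 < d₁)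
    (hd₂ : 0 < d₂) : (DD n d₁ d₂ * P * DD n d₁ d₂).PosDef := by
  have hH : (DD n d₁ d₂)ᴴ = DD n d₁ d₂ := by
    unfold DD
    rw [fromBlocks_conjTranspose]
    simp
  have hinj : Function.Injective (DD n d₁ d₂).mulVec := by
    have h1 : DD n d₁⁻¹ d₂⁻¹ * DD n d₁ d₂ = 1 := by
      rw [b2_DD_mul, inv_mul_cancel₀ hd₁.ne', inv_mul_cancel₀ hd₂.ne', b2_DD_one]
    intro v w hvw
    have h2 := congrArg (fun z => DD n d₁⁻¹ d₂⁻¹ *ᵥ z) hvw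
    simpa [Matrix.mulVec_mulVec, h1] using h2
  have h := hP.conjTranspose_mul_mul_same hinj
  rwa [hH] at h

theorem b2_smul_posDef {m : Type} [Fintype m] [DecidableEq m] {X : Matrix m m ℂ}
    (hX : X.PosDef) (c : ℝ) (hc : 0 < c) : (((c : ℝ) : ℂ) • X).PosDef := by
  refine hX.smul ?_
  exact_mod_cast hc

theorem b2_smul_inv {m : Type} [Fintype m] [DecidableEq m] {X : Matrix m m ℂ} (hX : X.PosDef)
    (d t : ℝ) (hd : 0 < d) (ht : 0 < t) : (trace ((((d ^ 2 : ℝ) : ℂ) • X) + (t : ℂ) • 1)⁻¹).re =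
      (trace (X + ((t / d ^ 2 : ℝ) : ℂ) • 1)⁻¹).re / d ^ 2 := by
  have hd2 : ((d ^ 2 : ℝ) : ℂ) ≠ 0 := by
    exact_mod_cast (pow_pos hd 2).ne'
  have h1 : (((d ^ 2 : ℝ) : ℂ) • X) + (t : ℂ) • 1 =
      ((d ^ 2 : ℝ) : ℂ) • (X + ((t / d ^ 2 : ℝ) : ℂ) • 1) := by
    rw [smul_add, smul_smul, Complex.ofReal_div, mul_div_cancel₀ _ hd2]
  have hP : (X + ((t / d ^ 2 : ℝ) : ℂ) • (1 : Matrix m m ℂ)).PosDef :=
    hX.add (b2_smul_posDef Matrix.PosDef.one _ (by positivity))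
  have hu : IsUnit (X + ((t / d ^ 2 : ℝ) : ℂ) • (1 : Matrix m m ℂ)).det :=
    (Matrix.isUnit_iff_isUnit_det _).1 hP.isUnit
  have h2 : (((d ^ 2 : ℝ) : ℂ) • (X + ((t / d ^ 2 : ℝ) : ℂ) • 1))⁻¹ =
      (((d ^ 2)⁻¹ : ℝ) : ℂ) • (X + ((t / d ^ 2 : ℝ) : ℂ) • 1)⁻¹ := by
    refine Matrix.inv_eq_right_inv ?_
    rw [Matrix.smul_mul, Matrix.mul_smul, smul_smul, Matrix.mul_nonsing_inv _ hu,
      Complex.ofReal_inv, mul_inv_cancel₀ hd2, one_smul]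
  rw [h1, h2, trace_smul, smul_eq_mul, Complex.re_ofReal_mul]
  ring

theorem b2_int3 (g₀ g₁ g₂ : ℝ → ℝ) (h₀ : IntegrableOn g₀ (Ioi 0)) (h₁ : IntegrableOn g₁ (Ioi 0))
    (h₂ : IntegrableOn g₂ (Ioi 0)) : IntegrableOn (fun t => g₀ t - g₁ t - g₂ t) (Ioi 0) ∧
    ∫ t in Ioi (0 : ℝ), (g₀ t - g₁ t - g₂ t) = (∫ t in Ioi (0 : ℝ), g₀ t) -
      (∫ t in Ioi (0 : ℝ), g₁ t) - ∫ t in Ioi (0 : ℝ), g₂ t := by
  have h : IntegrableOn (fun t => g₀ t - g₁ t) (Ioi 0) := h₀.sub h₁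
  refine ⟨h.sub h₂, ?_⟩
  rw [integral_sub h h₂, integral_sub h₀ h₁]

theorem b2_blk {P : Matrix (n ⊕ n) (n ⊕ n) ℂ} (hP : P.PosDef) :
    P.toBlocks₁₁.PosDef ∧ P.toBlocks₂₂.PosDef :=
  ⟨hP.submatrix Sum.inl_injective, hP.submatrix Sum.inr_injective⟩

theorem b2_DD_posDef (u₁ u₂ : ℝ) (hu₁ : 0 < u₁) (hu₂ : 0 < u₂) : (DD n u₁ u₂).PosDef := by
  have h : DD n u₁ u₂ = diagonal (Sum.elim (fun _ : n => (u₁ : ℂ)) (fun _ : n => (u₂ : ℂ))) := by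
    ext i j
    rcases i with i | i <;> rcases j with j | j <;>
      simp [DD, Matrix.one_apply, diagonal_apply]
  rw [h]
  refine Matrix.PosDef.diagonal ?_
  rintro (i | i)
  · simpa using hu₁
  · simpa using hu₂

theorem b2_big {P : Matrix (n ⊕ n) (n ⊕ n) ℂ} (hP : P.PosDef) (d₁ d₂ t : ℝ) (hd₁ : 0 < d₁)
    (hd₂ : 0 < d₂) (ht : 0 < t) :
    (trace (DD n d₁ d₂ * P * DD n d₁ d₂ + (t : ℂ) • 1)⁻¹).re =
      (trace ((P + DD n (t / d₁ ^ 2) (t / d₂ ^ 2))⁻¹).toBlocks₁₁).re / d₁ ^ 2 +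
      (trace ((P + DD n (t / d₁ ^ 2) (t / d₂ ^ 2))⁻¹).toBlocks₂₂).re / d₂ ^ 2 := by
  have h1 : DD n d₁ d₂ * P * DD n d₁ d₂ + (t : ℂ) • 1 =
      DD n d₁ d₂ * (P + DD n (t / d₁ ^ 2) (t / d₂ ^ 2)) * DD n d₁ d₂ := by
    rw [Matrix.mul_add, Matrix.add_mul, b2_DD_mul, b2_DD_mul]
    have e1 : d₁ * (t / d₁ ^ 2) * d₁ = t := by field_simp
    have e2 : d₂ * (t / d₂ ^ 2) * d₂ = t := by field_simp
    rw [e1, e2]
    congr 1
    unfold DD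
    rw [← fromBlocks_one, fromBlocks_smul, smul_zero]
  have hPP : (P + DD n (t / d₁ ^ 2) (t / d₂ ^ 2)).PosDef :=
    hP.add (b2_DD_posDef _ _ (by positivity) (by positivity))
  have hu : IsUnit (P + DD n (t / d₁ ^ 2) (t / d₂ ^ 2)).det :=
    (Matrix.isUnit_iff_isUnit_det _).1 hPP.isUnit
  have hD : DD n d₁ d₂ * DD n d₁⁻¹ d₂⁻¹ = 1 := by
    rw [b2_DD_mul, mul_inv_cancel₀ hd₁.ne', mul_inv_cancel₀ hd₂.ne', b2_DD_one]
  have h2 : (DD n d₁ d₂ * (P + DD n (t / d₁ ^ 2) (t / d₂ ^ 2)) * DD n d₁ d₂)⁻¹ =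
      DD n d₁⁻¹ d₂⁻¹ * (P + DD n (t / d₁ ^ 2) (t / d₂ ^ 2))⁻¹ * DD n d₁⁻¹ d₂⁻¹ := by
    refine Matrix.inv_eq_right_inv ?_
    calc DD n d₁ d₂ * (P + DD n (t / d₁ ^ 2) (t / d₂ ^ 2)) * DD n d₁ d₂ *
          (DD n d₁⁻¹ d₂⁻¹ * (P + DD n (t / d₁ ^ 2) (t / d₂ ^ 2))⁻¹ * DD n d₁⁻¹ d₂⁻¹)
        = DD n d₁ d₂ * ((P + DD n (t / d₁ ^ 2) (t / d₂ ^ 2)) * (DD n d₁ d₂ * DD n d₁⁻¹ d₂⁻¹) *
          (P + DD n (t / d₁ ^ 2) (t / d₂ ^ 2))⁻¹) * DD n d₁⁻¹ d₂⁻¹ := by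
          simp only [Matrix.mul_assoc]
      _ = 1 := by
          rw [hD, Matrix.mul_one, Matrix.mul_nonsing_inv _ hu, Matrix.mul_one, hD]
  rw [h1, h2, b2_trace]
  field_simp

/-- `pw_res` for `D P D`, `d₁² P₁₁`, `d₂² P₂₂` (`pw_smul`); the linear terms cancel;
`(D P D + t)⁻¹ = D⁻¹ (P + t D⁻²)⁻¹ D⁻¹`. -/
theorem Mx_res (s : ℝ) (h1 : 1 < s) (h2 : s < 2) {P : Matrix (n ⊕ n) (n ⊕ n) ℂ}
    (hP : P.PosDef) (d₁ d₂ : ℝ) (hd₁ : 0 < d₁) (hd₂ : 0 < d₂) :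
    IntegrableOn (fun t : ℝ => t ^ s * (f1 P (t / d₁ ^ 2) (t / d₂ ^ 2) / d₁ ^ 2 +
      f2 P (t / d₁ ^ 2) (t / d₂ ^ 2) / d₂ ^ 2)) (Ioi 0) ∧
    ∫ t in Ioi (0 : ℝ), t ^ s * (f1 P (t / d₁ ^ 2) (t / d₂ ^ 2) / d₁ ^ 2 +
      f2 P (t / d₁ ^ 2) (t / d₂ ^ 2) / d₂ ^ 2) =
      cst (s - 1) * (LibSch.pw s (DD n d₁ d₂ * P * DD n d₁ d₂) -
        d₁ ^ (2 * s) * LibSch.pw s P.toBlocks₁₁ - d₂ ^ (2 * s) * LibSch.pw s P.toBlocks₂₂) := by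
  obtain ⟨hb1, hb2⟩ := b2_blk hP
  obtain ⟨hi0, hI0⟩ := pw_res s h1 h2 _ (b2_posDef hP d₁ d₂ hd₁ hd₂)
  obtain ⟨hi1, hI1⟩ := pw_res s h1 h2 _ (b2_smul_posDef hb1 (d₁ ^ 2) (by positivity))
  obtain ⟨hi2, hI2⟩ := pw_res s h1 h2 _ (b2_smul_posDef hb2 (d₂ ^ 2) (by positivity))
  have hpw : ∀ (d : ℝ), 0 < d → ∀ X : Matrix n n ℂ,
      LibSch.pw s (((d ^ 2 : ℝ) : ℂ) • X) = d ^ (2 * s) * LibSch.pw s X := by
    intro d hd X
    rw [pw_smul s (by linarith), abs_of_pos (by positivity), ← Real.rpow_two, ← Real.rpow_mul hd.le]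
  rw [hpw d₁ hd₁] at hI1
  rw [hpw d₂ hd₂] at hI2
  have hEq : EqOn (fun t : ℝ => t ^ s * (f1 P (t / d₁ ^ 2) (t / d₂ ^ 2) / d₁ ^ 2 +
      f2 P (t / d₁ ^ 2) (t / d₂ ^ 2) / d₂ ^ 2))
      (fun t => t ^ (s - 2) * ((trace (DD n d₁ d₂ * P * DD n d₁ d₂)).re -
        Fintype.card (n ⊕ n) * t + t ^ 2 * (trace (DD n d₁ d₂ * P * DD n d₁ d₂ +
        (t : ℂ) • 1)⁻¹).re) -
        t ^ (s - 2) * ((trace (((d₁ ^ 2 : ℝ) : ℂ) • P.toBlocks₁₁)).re - Fintype.card n * t +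
          t ^ 2 * (trace (((d₁ ^ 2 : ℝ) : ℂ) • P.toBlocks₁₁ + (t : ℂ) • 1)⁻¹).re) -
        t ^ (s - 2) * ((trace (((d₂ ^ 2 : ℝ) : ℂ) • P.toBlocks₂₂)).re - Fintype.card n * t +
          t ^ 2 * (trace (((d₂ ^ 2 : ℝ) : ℂ) • P.toBlocks₂₂ + (t : ℂ) • 1)⁻¹).re)) (Ioi 0) := by
    intro t ht
    have ht0 : (0 : ℝ) < t := ht
    have hts : t ^ s = t ^ (s - 2) * t ^ 2 := by
      rw [← Real.rpow_two, ← Real.rpow_add ht0, sub_add_cancel]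
    have hc : (Fintype.card (n ⊕ n) : ℝ) = Fintype.card n + Fintype.card n := by
      rw [Fintype.card_sum]
      push_cast
      ring
    simp only
    rw [b2_big hP d₁ d₂ t hd₁ hd₂ ht0, b2_smul_inv hb1 d₁ t hd₁ ht0, b2_smul_inv hb2 d₂ t hd₂ ht0,
      b2_trace, trace_smul, trace_smul, smul_eq_mul, smul_eq_mul, Complex.re_ofReal_mul,
      Complex.re_ofReal_mul, hc, hts]
    unfold f1 f2
    ring
  obtain ⟨hk, hK⟩ := b2_int3 _ _ _ hi0 hi1 hi2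
  constructor
  · exact IntegrableOn.congr_fun hk hEq.symm measurableSet_Ioi
  · rw [setIntegral_congr_fun measurableSet_Ioi hEq, hK, hI0, hI1, hI2]
    ring

end Pool.Agent.LibSchN
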