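import Pool.Agent.LibSchN.B1c

/-! **B3a.**  Polar coordinates. -/

open Matrix Set MeasureTheory
open scoped ComplexOrder

namespace Pool.Agent.LibSchN

open Pool.Agent.LibSchP Pool.Agent.LibSchQ
open Pool.Agent.LibSch (lamP lamM FF)

variable {n : Type} [Fintype n] [DecidableEq n]

/-- linear substitution on a half line -/
theorem b3a_scale (c a : ℝ) (hc : 0 < c) (g : ℝ → ENNReal) :
    ∫⁻ v in Ioi (c * a), g v = ∫⁻ x in Ioi a, ENNReal.ofReal c * g (c * x) := by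
  have himg : (fun x : ℝ => c * x) '' Ioi a = Ioi (c * a) := by
    ext y
    constructor
    · rintro ⟨x, hx, rfl⟩
      exact mul_lt_mul_of_pos_left hx hc
    · intro hy
      refine ⟨y / c, ?_, mul_div_cancel₀ y hc.ne'⟩
      exact (lt_div_iff₀ hc).2 (by rw [mul_comm]; exact hy)
  rw [← himg, lintegral_image_eq_lintegral_abs_deriv_mul measurableSet_Ioi
    (f' := fun _ => c) (fun x _ => by
      simpa using ((hasDerivAt_id x).const_mul c).hasDerivWithinAt)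
    (fun x _ y _ h => mul_left_cancel₀ hc.ne' h)]
  simp only [abs_of_pos hc]

/-- the substitution `v = u / η` -/
theorem b3a_inv (u κ : ℝ) (hu : 0 < u) (hκ : 0 < κ) (g : ℝ → ENNReal) :
    ∫⁻ v in Ioi (u / κ), g v = ∫⁻ η in Ioo 0 κ, ENNReal.ofReal (u / η ^ 2) * g (u / η) := by
  have himg : (fun η : ℝ => u / η) '' Ioo 0 κ = Ioi (u / κ) := by
    ext y
    constructor
    · rintro ⟨η, ⟨h1, h2⟩, rfl⟩
      exact div_lt_div_of_pos_left hu h1 h2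
    · intro hy
      have hy0 : 0 < y := lt_trans (div_pos hu hκ) hy
      refine ⟨u / y, ⟨div_pos hu hy0, ?_⟩, ?_⟩
      · rw [div_lt_iff₀ hy0]
        have h3 : u / κ < y := hy
        rw [div_lt_iff₀ hκ] at h3
        linarith
      · change u / (u / y) = y
        field_simp
  rw [← himg, lintegral_image_eq_lintegral_abs_deriv_mul measurableSet_Ioo
    (f' := fun η => -(u / η ^ 2)) (fun η hη => by
      have h1 := ((hasDerivAt_inv hη.1.ne').const_mul u).hasDerivWithinAt (s := Ioo 0 κ)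
      have h2 : (fun x : ℝ => u * x⁻¹) = fun x => u / x := by
        funext x
        rw [div_eq_mul_inv]
      rw [h2] at h1
      have h3 : u * -(η ^ 2)⁻¹ = -(u / η ^ 2) := by
        rw [div_eq_mul_inv]
        ring
      rw [h3] at h1
      exact h1)
    (fun x hx y hy h => by
      have h1 : u / x = u / y := h
      rw [div_eq_div_iff hx.1.ne' hy.1.ne'] at h1
      exact (mul_left_cancel₀ hu.ne' h1).symm)]
  refine setLIntegral_congr_fun measurableSet_Ioo fun η hη => ?_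
  rw [abs_neg, abs_of_pos (div_pos hu (pow_pos hη.1 2))]

/-- exchange of the integrals over a rectangle -/
theorem b3a_swap (S T : Set ℝ) (hS : MeasurableSet S) (hT : MeasurableSet T) (G : ℝ × ℝ → ℝ)
    (hG : ContinuousOn G (S ×ˢ T)) :
    ∫⁻ u in S, ∫⁻ η in T, ENNReal.ofReal (G (u, η)) =
      ∫⁻ η in T, ∫⁻ u in S, ENNReal.ofReal (G (u, η)) := by
  refine lintegral_lintegral_swap (f := fun u η => ENNReal.ofReal (G (u, η))) ?_
  rw [Measure.prod_restrict]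
  exact (hG.aemeasurable (hS.prod hT)).ennreal_ofReal

/-- `f2_eq`; `v = η t / d₂²` in the inner integral, exchange (`lintegral_lintegral_swap`,
measurability from `Lr_cont`), `t = d₂² u`. -/
theorem polar2 (s : ℝ) (h1 : 1 < s) (h2 : s < 2) {P : Matrix (n ⊕ n) (n ⊕ n) ℂ}
    (hP : P.PosDef) (d₁ d₂ : ℝ) (hd₁ : 0 < d₁) (hd₂ : 0 < d₂) :
    ∫⁻ t in Ioi (0 : ℝ), ENNReal.ofReal (t ^ s * (f2 P (t / d₁ ^ 2) (t / d₂ ^ 2) / d₂ ^ 2)) =
      ∫⁻ η in Ioi ((d₂ / d₁) ^ 2), ENNReal.ofReal (d₂ ^ (2 * s)) * WW s P η := by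
  set κ : ℝ := (d₂ / d₁) ^ 2 with hκd
  have hκ : 0 < κ := by positivity
  have hc : 0 < d₂ ^ 2 := by positivity
  have hcs : (d₂ ^ 2) ^ s = d₂ ^ (2 * s) := by
    rw [Real.rpow_mul hd₂.le]
    norm_num
  have step1 := b3a_scale (d₂ ^ 2) 0 hc
    (fun t => ENNReal.ofReal (t ^ s * (f2 P (t / d₁ ^ 2) (t / d₂ ^ 2) / d₂ ^ 2)))
  rw [mul_zero] at step1
  rw [step1]
  have step2 : ∀ u ∈ Ioi (0 : ℝ), ENNReal.ofReal (d₂ ^ 2) * ENNReal.ofReal ((d₂ ^ 2 * u) ^ s *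
      (f2 P (d₂ ^ 2 * u / d₁ ^ 2) (d₂ ^ 2 * u / d₂ ^ 2) / d₂ ^ 2)) =
      ∫⁻ η in Ioi κ, ENNReal.ofReal (d₂ ^ (2 * s) * (u ^ (s + 1) * Lr P (η * u) u)) := by
    intro u hu
    have hu0 : 0 < u := hu
    have e1 : d₂ ^ 2 * u / d₂ ^ 2 = u := by field_simp
    have e2 : d₂ ^ 2 * u / d₁ ^ 2 = u * κ := by rw [hκd]; field_simp
    obtain ⟨hf0, hf⟩ := f2_eq hP (u * κ) u (by positivity) hu0
    rw [e1, e2, ← ENNReal.ofReal_mul hc.le, Real.mul_rpow hc.le hu0.le, hcs]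
    have e3 : d₂ ^ 2 * (d₂ ^ (2 * s) * u ^ s * (f2 P (u * κ) u / d₂ ^ 2)) =
        (d₂ ^ (2 * s) * u ^ s) * f2 P (u * κ) u := by field_simp
    rw [e3, ENNReal.ofReal_mul (by positivity), hf, b3a_scale u κ hu0,
      ← lintegral_const_mul' _ _ ENNReal.ofReal_ne_top]
    refine setLIntegral_congr_fun measurableSet_Ioi fun η _ => ?_
    change ENNReal.ofReal (d₂ ^ (2 * s) * u ^ s) *
      (ENNReal.ofReal u * ENNReal.ofReal (Lr P (u * η) u)) = _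
    rw [← ENNReal.ofReal_mul hu0.le, ← ENNReal.ofReal_mul (by positivity)]
    congr 1
    rw [Real.rpow_add hu0, Real.rpow_one, mul_comm u η]
    ring
  rw [setLIntegral_congr_fun measurableSet_Ioi step2]
  have hG : ContinuousOn (fun q : ℝ × ℝ => d₂ ^ (2 * s) * (q.1 ^ (s + 1) *
      Lr P (q.2 * q.1) q.1)) (Ioi 0 ×ˢ Ioi κ) := by
    have hL : ContinuousOn (fun q : ℝ × ℝ => Lr P (q.2 * q.1) q.1) (Ioi 0 ×ˢ Ioi κ) := by
      refine (Lr_cont hP).comp (f := fun q : ℝ × ℝ => (q.2 * q.1, q.1)) (by fun_prop) ?_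
      rintro ⟨u, η⟩ ⟨hu, hη⟩
      have hu0 : (0 : ℝ) < u := hu
      have hη0 : κ < η := hη
      exact ⟨mul_pos (hκ.trans hη0) hu0, hu0⟩
    have hR : ContinuousOn (fun q : ℝ × ℝ => q.1 ^ (s + 1)) (Ioi 0 ×ˢ Ioi κ) := by
      refine ContinuousOn.rpow_const continuousOn_fst ?_
      rintro ⟨u, η⟩ ⟨hu, _⟩
      exact Or.inl (ne_of_gt hu)
    exact continuousOn_const.mul (hR.mul hL)
  rw [b3a_swap (Ioi 0) (Ioi κ) measurableSet_Ioi measurableSet_Ioi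
    (fun q : ℝ × ℝ => d₂ ^ (2 * s) * (q.1 ^ (s + 1) * Lr P (q.2 * q.1) q.1)) hG]
  refine setLIntegral_congr_fun measurableSet_Ioi fun η _ => ?_
  change ∫⁻ u in Ioi 0, ENNReal.ofReal (d₂ ^ (2 * s) * (u ^ (s + 1) * Lr P (η * u) u)) = _
  unfold WW
  rw [← lintegral_const_mul' _ _ ENNReal.ofReal_ne_top]
  refine setLIntegral_congr_fun measurableSet_Ioi fun u _ => ?_
  exact ENNReal.ofReal_mul (by positivity)

/-- `f1_eq`; `t = d₁² u₁` gives `∫_{u₁>0} ∫_{v > u₁ (d₁/d₂)²} d₁^(2s) u₁^s Lr P u₁ v`; exchange, then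
`u₁ = η v` in the inner integral, `η < (d₂/d₁)²`, exchange again. -/
theorem polar1 (s : ℝ) (h1 : 1 < s) (h2 : s < 2) {P : Matrix (n ⊕ n) (n ⊕ n) ℂ}
    (hP : P.PosDef) (d₁ d₂ : ℝ) (hd₁ : 0 < d₁) (hd₂ : 0 < d₂) :
    ∫⁻ t in Ioi (0 : ℝ), ENNReal.ofReal (t ^ s * (f1 P (t / d₁ ^ 2) (t / d₂ ^ 2) / d₁ ^ 2)) =
      ∫⁻ η in Ioo (0 : ℝ) ((d₂ / d₁) ^ 2), ENNReal.ofReal (d₁ ^ (2 * s) * η ^ s) * WW s P η := by
  set κ : ℝ := (d₂ / d₁) ^ 2 with hκd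
  have hκ : 0 < κ := by positivity
  have hc : 0 < d₁ ^ 2 := by positivity
  have hcs : (d₁ ^ 2) ^ s = d₁ ^ (2 * s) := by
    rw [Real.rpow_mul hd₁.le]
    norm_num
  have step1 := b3a_scale (d₁ ^ 2) 0 hc
    (fun t => ENNReal.ofReal (t ^ s * (f1 P (t / d₁ ^ 2) (t / d₂ ^ 2) / d₁ ^ 2)))
  rw [mul_zero] at step1
  rw [step1]
  have step2 : ∀ u ∈ Ioi (0 : ℝ), ENNReal.ofReal (d₁ ^ 2) * ENNReal.ofReal ((d₁ ^ 2 * u) ^ s *
      (f1 P (d₁ ^ 2 * u / d₁ ^ 2) (d₁ ^ 2 * u / d₂ ^ 2) / d₁ ^ 2)) =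
      ∫⁻ η in Ioo 0 κ, ENNReal.ofReal (d₁ ^ (2 * s) * (u ^ (s + 1) / η ^ 2 *
        Lr P u (u / η))) := by
    intro u hu
    have hu0 : 0 < u := hu
    have e1 : d₁ ^ 2 * u / d₁ ^ 2 = u := by field_simp
    have e2 : d₁ ^ 2 * u / d₂ ^ 2 = u / κ := by rw [hκd]; field_simp
    have hf := f1_eq hP u (u / κ) hu0 (by positivity)
    rw [e1, e2, ← ENNReal.ofReal_mul hc.le, Real.mul_rpow hc.le hu0.le, hcs]
    have e3 : d₁ ^ 2 * (d₁ ^ (2 * s) * u ^ s * (f1 P u (u / κ) / d₁ ^ 2)) =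
        (d₁ ^ (2 * s) * u ^ s) * f1 P u (u / κ) := by field_simp
    rw [e3, ENNReal.ofReal_mul (by positivity), hf, b3a_inv u κ hu0 hκ,
      ← lintegral_const_mul' _ _ ENNReal.ofReal_ne_top]
    refine setLIntegral_congr_fun measurableSet_Ioo fun η hη => ?_
    have hη0 : 0 < η := hη.1
    change ENNReal.ofReal (d₁ ^ (2 * s) * u ^ s) *
      (ENNReal.ofReal (u / η ^ 2) * ENNReal.ofReal (Lr P u (u / η))) = _
    rw [← ENNReal.ofReal_mul (by positivity), ← ENNReal.ofReal_mul (by positivity)]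
    congr 1
    rw [Real.rpow_add hu0, Real.rpow_one]
    ring
  rw [setLIntegral_congr_fun measurableSet_Ioi step2]
  have hG : ContinuousOn (fun q : ℝ × ℝ => d₁ ^ (2 * s) * (q.1 ^ (s + 1) / q.2 ^ 2 *
      Lr P q.1 (q.1 / q.2))) (Ioi 0 ×ˢ Ioo 0 κ) := by
    have hdiv : ContinuousOn (fun q : ℝ × ℝ => q.1 / q.2) (Ioi 0 ×ˢ Ioo 0 κ) :=
      continuousOn_fst.div continuousOn_snd fun q hq => ne_of_gt hq.2.1
    have hL : ContinuousOn (fun q : ℝ × ℝ => Lr P q.1 (q.1 / q.2)) (Ioi 0 ×ˢ Ioo 0 κ) := by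
      refine (Lr_cont hP).comp (f := fun q : ℝ × ℝ => (q.1, q.1 / q.2))
        (continuousOn_fst.prodMk hdiv) ?_
      rintro ⟨u, η⟩ ⟨hu, hη⟩
      have hu0 : (0 : ℝ) < u := hu
      exact ⟨hu0, div_pos hu0 hη.1⟩
    have hR : ContinuousOn (fun q : ℝ × ℝ => q.1 ^ (s + 1) / q.2 ^ 2) (Ioi 0 ×ˢ Ioo 0 κ) := by
      refine (ContinuousOn.rpow_const continuousOn_fst ?_).div (continuousOn_snd.pow 2) ?_
      · rintro ⟨u, η⟩ ⟨hu, _⟩
        exact Or.inl (ne_of_gt hu)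
      · rintro ⟨u, η⟩ ⟨_, hη⟩
        exact pow_ne_zero 2 (ne_of_gt hη.1)
    exact continuousOn_const.mul (hR.mul hL)
  rw [b3a_swap (Ioi 0) (Ioo 0 κ) measurableSet_Ioi measurableSet_Ioo
    (fun q : ℝ × ℝ => d₁ ^ (2 * s) * (q.1 ^ (s + 1) / q.2 ^ 2 * Lr P q.1 (q.1 / q.2))) hG]
  refine setLIntegral_congr_fun measurableSet_Ioo fun η hη => ?_
  have hη0 : 0 < η := hη.1
  change ∫⁻ u in Ioi 0, ENNReal.ofReal (d₁ ^ (2 * s) * (u ^ (s + 1) / η ^ 2 *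
    Lr P u (u / η))) = _
  have step3 := b3a_scale η 0 hη0 (fun u => ENNReal.ofReal (d₁ ^ (2 * s) *
    (u ^ (s + 1) / η ^ 2 * Lr P u (u / η))))
  rw [mul_zero] at step3
  rw [step3]
  unfold WW
  rw [← lintegral_const_mul' _ _ ENNReal.ofReal_ne_top]
  refine setLIntegral_congr_fun measurableSet_Ioi fun v hv => ?_
  have hv0 : 0 < v := hv
  change ENNReal.ofReal η * ENNReal.ofReal (d₁ ^ (2 * s) *
    ((η * v) ^ (s + 1) / η ^ 2 * Lr P (η * v) (η * v / η))) =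
    ENNReal.ofReal (d₁ ^ (2 * s) * η ^ s) * ENNReal.ofReal (v ^ (s + 1) * Lr P (η * v) v)
  rw [← ENNReal.ofReal_mul hη0.le, ← ENNReal.ofReal_mul (by positivity)]
  congr 1
  have e4 : η * v / η = v := by field_simp
  rw [e4, Real.mul_rpow hη0.le hv0.le, Real.rpow_add hη0, Real.rpow_one]
  field_simp

end Pool.Agent.LibSchN
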