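import Pool.Agent.LibSchN.B2
import Pool.Agent.LibSchN.B3a
import Pool.Agent.LibSchN.E3

/-! **B3b.**  The integral representation of `Mx`. -/

open Matrix Set MeasureTheory
open scoped ComplexOrder

namespace Pool.Agent.LibSchN

open Pool.Agent.LibSchP Pool.Agent.LibSchQ
open Pool.Agent.LibSch (lamP lamM FF)

variable {n : Type} [Fintype n] [DecidableEq n]

theorem b3b_inv_meas {X m : Type} [TopologicalSpace X] [MeasurableSpace X]
    [OpensMeasurableSpace X] [Fintype m] [DecidableEq m] (A : X → Matrix m m ℂ)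
    (hA : Continuous A) (i j : m) : Measurable fun t => (A t)⁻¹ i j := by
  have h : (fun t => (A t)⁻¹ i j) = fun t => (A t).det⁻¹ * (A t).adjugate i j := by
    funext t
    rw [Matrix.inv_def, Ring.inverse_eq_inv', Matrix.smul_apply, smul_eq_mul]
  rw [h]
  exact hA.matrix_det.measurable.inv.mul
    ((hA.matrix_adjugate.matrix_elem i j).measurable)

theorem b3b_DD_cont {X : Type} [TopologicalSpace X] (P : Matrix (n ⊕ n) (n ⊕ n) ℂ)
    (f g : X → ℝ) (hf : Continuous f) (hg : Continuous g) :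
    Continuous fun t => P + DD n (f t) (g t) := by
  unfold DD
  refine continuous_const.add ?_
  refine Continuous.matrix_fromBlocks ?_ continuous_const continuous_const ?_
  · exact (Complex.continuous_ofReal.comp hf).smul continuous_const
  · exact (Complex.continuous_ofReal.comp hg).smul continuous_const

theorem b3b_f1_meas (P : Matrix (n ⊕ n) (n ⊕ n) ℂ) (f g : ℝ → ℝ) (hf : Continuous f)
    (hg : Continuous g) : Measurable fun t => f1 P (f t) (g t) := by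
  unfold f1
  refine Measurable.sub ?_ ?_
  · have h : (fun t => (trace ((P + DD n (f t) (g t))⁻¹).toBlocks₁₁).re) =
        fun t => ∑ i, ((P + DD n (f t) (g t))⁻¹ (Sum.inl i) (Sum.inl i)).re := by
      funext t
      rw [Matrix.trace, Complex.re_sum]
      rfl
    rw [h]
    exact Finset.measurable_sum _ fun i _ => Complex.measurable_re.comp
      (b3b_inv_meas _ (b3b_DD_cont P f g hf hg) _ _)
  · have h : (fun t => (trace (P.toBlocks₁₁ + ((f t : ℝ) : ℂ) • 1)⁻¹).re) =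
        fun t => ∑ i, ((P.toBlocks₁₁ + ((f t : ℝ) : ℂ) • 1)⁻¹ i i).re := by
      funext t
      rw [Matrix.trace, Complex.re_sum]
      rfl
    rw [h]
    exact Finset.measurable_sum _ fun i _ => Complex.measurable_re.comp
      (b3b_inv_meas _ (continuous_const.add
        ((Complex.continuous_ofReal.comp hf).smul continuous_const)) _ _)

theorem b3b_Lr_meas (P : Matrix (n ⊕ n) (n ⊕ n) ℂ) :
    Measurable fun q : ℝ × ℝ => Lr P (q.1 * q.2) q.2 := by
  unfold Lr fr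
  refine Finset.measurable_sum _ fun i _ => Finset.measurable_sum _ fun j _ => ?_
  have h := b3b_inv_meas (X := ℝ × ℝ) (fun q => P + DD n (q.1 * q.2) q.2)
    (b3b_DD_cont P _ _ (continuous_fst.mul continuous_snd) continuous_snd) (Sum.inl i) (Sum.inr j)
  exact (h.norm).pow_const 2

theorem b3b_WW_meas (s : ℝ) (P : Matrix (n ⊕ n) (n ⊕ n) ℂ) : Measurable (WW s P) := by
  unfold WW
  refine Measurable.lintegral_prod_right' (f := fun q : ℝ × ℝ =>
    ENNReal.ofReal (q.2 ^ (s + 1) * Lr P (q.1 * q.2) q.2)) ?_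
  exact ((measurable_snd.pow_const (s + 1)).mul (b3b_Lr_meas P)).ennreal_ofReal

/-- `Mx_res` with `d₁ = dl s a`, `d₂ = dl s b` (`dl_pow`), `f1_nonneg`, `f2_eq`, `polar1`, `polar2`;
`min (a η^s) b = a η^s` iff `η ≤ (d₂/d₁)²`. -/
theorem Mx_eq (s : ℝ) (h1 : 1 < s) (h2 : s < 2) {P : Matrix (n ⊕ n) (n ⊕ n) ℂ}
    (hP : P.PosDef) (a b : ℝ) (ha : 0 < a) (hb : 0 < b) : 0 ≤ Mx s a b P ∧
    ENNReal.ofReal (Mx s a b P) = ENNReal.ofReal (cst (s - 1))⁻¹ *
      ∫⁻ η in Ioi (0 : ℝ), ENNReal.ofReal (min (a * η ^ s) b) * WW s P η := by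
  have hs0 : 0 < s := by linarith
  have hc : 0 < cst (s - 1) := cst_pos _ (by linarith) (by linarith)
  have hd₁ := dl_pos s a ha
  have hd₂ := dl_pos s b hb
  have ea := dl_pow s a hs0 ha
  have eb := dl_pow s b hs0 hb
  obtain ⟨hint, heq⟩ := Mx_res s h1 h2 hP (dl s a) (dl s b) hd₁ hd₂
  have p1 := polar1 s h1 h2 hP (dl s a) (dl s b) hd₁ hd₂
  have p2 := polar2 s h1 h2 hP (dl s a) (dl s b) hd₁ hd₂
  rw [ea, eb] at heq
  rw [ea] at p1
  rw [eb] at p2
  set d₁ := dl s a with hd₁'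
  set d₂ := dl s b with hd₂'
  have hMx : Mx s a b P = (cst (s - 1))⁻¹ * ∫ t in Ioi (0 : ℝ), t ^ s *
      (f1 P (t / d₁ ^ 2) (t / d₂ ^ 2) / d₁ ^ 2 + f2 P (t / d₁ ^ 2) (t / d₂ ^ 2) / d₂ ^ 2) := by
    rw [heq, ← mul_assoc, inv_mul_cancel₀ hc.ne', one_mul]
    rfl
  have hnn : ∀ t ∈ Ioi (0 : ℝ), 0 ≤ t ^ s * (f1 P (t / d₁ ^ 2) (t / d₂ ^ 2) / d₁ ^ 2) ∧
      0 ≤ t ^ s * (f2 P (t / d₁ ^ 2) (t / d₂ ^ 2) / d₂ ^ 2) := by
    intro t ht
    have ht' : 0 < t := ht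
    have q1 : 0 < t / d₁ ^ 2 := by positivity
    have q2 : 0 < t / d₂ ^ 2 := by positivity
    have r1 := f1_nonneg hP _ _ q1 q2
    have r2 := (f2_eq hP _ _ q1 q2).1
    constructor <;> positivity
  have hnn' : ∀ t ∈ Ioi (0 : ℝ), 0 ≤ t ^ s * (f1 P (t / d₁ ^ 2) (t / d₂ ^ 2) / d₁ ^ 2 +
      f2 P (t / d₁ ^ 2) (t / d₂ ^ 2) / d₂ ^ 2) := by
    intro t ht
    rw [mul_add]
    exact add_nonneg (hnn t ht).1 (hnn t ht).2
  have hI0 : 0 ≤ ∫ t in Ioi (0 : ℝ), t ^ s *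
      (f1 P (t / d₁ ^ 2) (t / d₂ ^ 2) / d₁ ^ 2 + f2 P (t / d₁ ^ 2) (t / d₂ ^ 2) / d₂ ^ 2) :=
    setIntegral_nonneg measurableSet_Ioi hnn'
  refine ⟨by rw [hMx]; positivity, ?_⟩
  rw [hMx, ENNReal.ofReal_mul (inv_nonneg.2 hc.le)]
  congr 1
  rw [ofReal_integral_eq_lintegral_ofReal hint
    ((ae_restrict_mem measurableSet_Ioi).mono fun t ht => hnn' t ht)]
  have hsum : ∫⁻ t in Ioi (0 : ℝ), ENNReal.ofReal (t ^ s *
      (f1 P (t / d₁ ^ 2) (t / d₂ ^ 2) / d₁ ^ 2 + f2 P (t / d₁ ^ 2) (t / d₂ ^ 2) / d₂ ^ 2)) =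
      (∫⁻ t in Ioi (0 : ℝ), ENNReal.ofReal (t ^ s * (f1 P (t / d₁ ^ 2) (t / d₂ ^ 2) / d₁ ^ 2))) +
      ∫⁻ t in Ioi (0 : ℝ), ENNReal.ofReal (t ^ s * (f2 P (t / d₁ ^ 2) (t / d₂ ^ 2) / d₂ ^ 2)) := by
    rw [← lintegral_add_left]
    · refine setLIntegral_congr_fun measurableSet_Ioi fun t ht => ?_
      rw [← ENNReal.ofReal_add (hnn t ht).1 (hnn t ht).2, mul_add]
    · exact ((measurable_id.pow_const s).mul ((b3b_f1_meas P _ _
        (continuous_id.div_const _) (continuous_id.div_const _)).div_const _)).ennreal_ofReal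
  rw [hsum, p1, p2]
  set r : ℝ := (d₂ / d₁) ^ 2 with hr
  have hr0 : 0 < r := by positivity
  have hrs : a * r ^ s = b := by
    have e1 : r ^ s = (d₂ / d₁) ^ (2 * s) := by
      rw [hr, ← Real.rpow_natCast, ← Real.rpow_mul (by positivity)]
      norm_num
    rw [e1, Real.div_rpow hd₂.le hd₁.le, ea, eb]
    field_simp
  have hsplit : ∫⁻ η in Ioi (0 : ℝ), ENNReal.ofReal (min (a * η ^ s) b) * WW s P η =
      (∫⁻ η in Ioo (0 : ℝ) r, ENNReal.ofReal (min (a * η ^ s) b) * WW s P η) +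
      ∫⁻ η in Ioi r, ENNReal.ofReal (min (a * η ^ s) b) * WW s P η := by
    rw [← Ioc_union_Ioi_eq_Ioi hr0.le, lintegral_union measurableSet_Ioi
      (Set.disjoint_left.2 fun z hz hz' => absurd hz.2 (not_le.2 hz')),
      setLIntegral_congr Ioo_ae_eq_Ioc.symm]
  rw [hsplit]
  congr 1
  · refine setLIntegral_congr_fun measurableSet_Ioo fun η hη => ?_
    have : a * η ^ s ≤ b := by
      rw [← hrs]
      exact mul_le_mul_of_nonneg_left (Real.rpow_le_rpow hη.1.le hη.2.le hs0.le) ha.le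
    simp only [min_eq_left this]
  · refine setLIntegral_congr_fun measurableSet_Ioi fun η hη => ?_
    have : b ≤ a * η ^ s := by
      rw [← hrs]
      exact mul_le_mul_of_nonneg_left (Real.rpow_le_rpow hr0.le (le_of_lt hη) hs0.le) ha.le
    simp only [min_eq_right this]

theorem WW_meas (s : ℝ) {P : Matrix (n ⊕ n) (n ⊕ n) ℂ} (hP : P.PosDef) :
    AEMeasurable (WW s P) (volume.restrict (Ioi 0)) :=
  (b3b_WW_meas s P).aemeasurable

end Pool.Agent.LibSchN
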