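import Pool.Agent.LibSchN.B3b

/-! **B4.**  `Psi` as an integral and comparison. -/

open Matrix Set MeasureTheory
open scoped ComplexOrder

namespace Pool.Agent.LibSchN

open Pool.Agent.LibSchP Pool.Agent.LibSchQ
open Pool.Agent.LibSch (lamP lamM FF)

variable {n : Type} [Fintype n] [DecidableEq n]

theorem coef_nonneg {κ : Type} [Fintype κ] (s : ℝ) (c a b : κ → ℝ) (A B : ℝ)
    (hc : ∀ g, 0 ≤ c g) (hA : ∑ g, c g * a g ≤ A)
    (hB : ∑ g, c g * b g ≤ B) (η : ℝ) (hη : 0 < η) :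
    0 ≤ min (A * η ^ s) B - ∑ g, c g * min (a g * η ^ s) (b g) := by
  have hp : 0 < η ^ s := Real.rpow_pos_of_pos hη s
  rw [sub_nonneg]
  refine le_min ?_ ?_
  · calc ∑ g, c g * min (a g * η ^ s) (b g) ≤ ∑ g, c g * (a g * η ^ s) :=
          Finset.sum_le_sum fun g _ => mul_le_mul_of_nonneg_left (min_le_left _ _) (hc g)
      _ = (∑ g, c g * a g) * η ^ s := by
          rw [Finset.sum_mul]
          exact Finset.sum_congr rfl fun g _ => by ring
      _ ≤ A * η ^ s := mul_le_mul_of_nonneg_right hA hp.le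
  · calc ∑ g, c g * min (a g * η ^ s) (b g) ≤ ∑ g, c g * b g :=
          Finset.sum_le_sum fun g _ => mul_le_mul_of_nonneg_left (min_le_right _ _) (hc g)
      _ ≤ B := hB

theorem b4_meas_min (s a b : ℝ) : Measurable fun η : ℝ => min (a * η ^ s) b :=
  ((measurable_id.pow_const s).const_mul a).min measurable_const

theorem b4_meas (s a b : ℝ) {P : Matrix (n ⊕ n) (n ⊕ n) ℂ} (hP : P.PosDef) :
    AEMeasurable (fun η => ENNReal.ofReal (min (a * η ^ s) b) * WW s P η)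
      (volume.restrict (Ioi 0)) :=
  (b4_meas_min s a b).ennreal_ofReal.aemeasurable.mul (WW_meas s hP)

theorem b4_meas_coef {κ : Type} [Fintype κ] (s : ℝ) (c a b : κ → ℝ) (A B : ℝ) :
    Measurable fun η : ℝ => min (A * η ^ s) B - ∑ g, c g * min (a g * η ^ s) (b g) :=
  (b4_meas_min s A B).sub
    (Finset.measurable_fun_sum _ fun g _ => (b4_meas_min s (a g) (b g)).const_mul (c g))

theorem b4_meas_cW {κ : Type} [Fintype κ] (s : ℝ) (c a b : κ → ℝ) (A B : ℝ)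
    {P : Matrix (n ⊕ n) (n ⊕ n) ℂ} (hP : P.PosDef) :
    AEMeasurable (fun η : ℝ => ENNReal.ofReal (min (A * η ^ s) B -
      ∑ g, c g * min (a g * η ^ s) (b g)) * WW s P η) (volume.restrict (Ioi 0)) :=
  (b4_meas_coef s c a b A B).ennreal_ofReal.aemeasurable.mul (WW_meas s hP)

/-- `Mx_eq` for `(A, B)` and all `(a_g, b_g)`;
`∫ min(Aη^s, B) W = ∫ (min(Aη^s, B) - ∑ c min(a η^s, b)) W + ∑ c ∫ min(a η^s, b) W`, all terms finite. -/
theorem Psi_eq {κ : Type} [Fintype κ] (s : ℝ) (h1 : 1 < s) (h2 : s < 2)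
    {P : Matrix (n ⊕ n) (n ⊕ n) ℂ} (hP : P.PosDef) (c a b : κ → ℝ) (A B : ℝ)
    (hc : ∀ g, 0 ≤ c g) (ha : ∀ g, 0 < a g) (hb : ∀ g, 0 < b g) (hA0 : 0 < A) (hB0 : 0 < B)
    (hA : ∑ g, c g * a g ≤ A) (hB : ∑ g, c g * b g ≤ B) : 0 ≤ Psi s c a b A B P ∧
    ENNReal.ofReal (Psi s c a b A B P) = ENNReal.ofReal (cst (s - 1))⁻¹ *
      ∫⁻ η in Ioi (0 : ℝ), ENNReal.ofReal (min (A * η ^ s) B -
        ∑ g, c g * min (a g * η ^ s) (b g)) * WW s P η := by
  set K : ENNReal := ENNReal.ofReal (cst (s - 1))⁻¹ with hK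
  set J : ENNReal := ∫⁻ η in Ioi (0 : ℝ), ENNReal.ofReal (min (A * η ^ s) B -
        ∑ g, c g * min (a g * η ^ s) (b g)) * WW s P η with hJ
  have hAB := Mx_eq s h1 h2 hP A B hA0 hB0
  have hg := fun g => Mx_eq s h1 h2 hP (a g) (b g) (ha g) (hb g)
  -- the decomposition
  have hdec : ∫⁻ η in Ioi (0 : ℝ), ENNReal.ofReal (min (A * η ^ s) B) * WW s P η =
      J + ∑ g, ENNReal.ofReal (c g) *
        ∫⁻ η in Ioi (0 : ℝ), ENNReal.ofReal (min (a g * η ^ s) (b g)) * WW s P η := by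
    have e1 : ∀ g, ENNReal.ofReal (c g) *
        ∫⁻ η in Ioi (0 : ℝ), ENNReal.ofReal (min (a g * η ^ s) (b g)) * WW s P η =
        ∫⁻ η in Ioi (0 : ℝ), ENNReal.ofReal (c g) *
          (ENNReal.ofReal (min (a g * η ^ s) (b g)) * WW s P η) := fun g =>
      (lintegral_const_mul' _ _ ENNReal.ofReal_ne_top).symm
    rw [Finset.sum_congr rfl fun g _ => e1 g]
    rw [← lintegral_finsetSum' _ fun g _ => (b4_meas s (a g) (b g) hP).const_mul _]
    rw [hJ, ← lintegral_add_left' (b4_meas_cW s c a b A B hP)]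
    refine setLIntegral_congr_fun measurableSet_Ioi fun η hη => ?_
    have hη' : 0 < η := hη
    have hcoef := coef_nonneg s c a b A B hc hA hB η hη'
    have hmin : ∀ g, 0 ≤ min (a g * η ^ s) (b g) := fun g =>
      le_min (mul_nonneg (ha g).le (Real.rpow_nonneg hη'.le s)) (hb g).le
    have hsum : 0 ≤ ∑ g, c g * min (a g * η ^ s) (b g) :=
      Finset.sum_nonneg fun g _ => mul_nonneg (hc g) (hmin g)
    show ENNReal.ofReal (min (A * η ^ s) B) * WW s P η = _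
    have e2 : min (A * η ^ s) B = (min (A * η ^ s) B - ∑ g, c g * min (a g * η ^ s) (b g)) +
        ∑ g, c g * min (a g * η ^ s) (b g) := by ring
    have e3 : ENNReal.ofReal (min (A * η ^ s) B) =
        ENNReal.ofReal (min (A * η ^ s) B - ∑ g, c g * min (a g * η ^ s) (b g)) +
          ∑ g, ENNReal.ofReal (c g) * ENNReal.ofReal (min (a g * η ^ s) (b g)) := by
      conv_lhs => rw [e2]
      rw [ENNReal.ofReal_add hcoef hsum,
        ENNReal.ofReal_sum_of_nonneg fun g _ => mul_nonneg (hc g) (hmin g)]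
      congr 1
      exact Finset.sum_congr rfl fun g _ => ENNReal.ofReal_mul (hc g)
    rw [e3, add_mul, Finset.sum_mul]
    congr 1
    exact Finset.sum_congr rfl fun g _ => mul_assoc _ _ _
  have hS0 : 0 ≤ ∑ g, c g * Mx s (a g) (b g) P :=
    Finset.sum_nonneg fun g _ => mul_nonneg (hc g) (hg g).1
  have hS : ENNReal.ofReal (∑ g, c g * Mx s (a g) (b g) P) = K * ∑ g, ENNReal.ofReal (c g) *
        ∫⁻ η in Ioi (0 : ℝ), ENNReal.ofReal (min (a g * η ^ s) (b g)) * WW s P η := by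
    rw [ENNReal.ofReal_sum_of_nonneg fun g _ => mul_nonneg (hc g) (hg g).1, Finset.mul_sum]
    refine Finset.sum_congr rfl fun g _ => ?_
    rw [ENNReal.ofReal_mul (hc g), (hg g).2, ← mul_assoc, ← mul_assoc, mul_comm K]
  have hmain : ENNReal.ofReal (Mx s A B P) =
      K * J + ENNReal.ofReal (∑ g, c g * Mx s (a g) (b g) P) := by
    rw [hAB.2, hdec, mul_add, hS]
  have hle : ∑ g, c g * Mx s (a g) (b g) P ≤ Mx s A B P := by
    rw [← ENNReal.ofReal_le_ofReal_iff hAB.1, hmain]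
    exact le_add_self
  refine ⟨?_, ?_⟩
  · unfold Psi
    linarith
  · unfold Psi
    rw [ENNReal.ofReal_sub _ hS0, hmain]
    exact ENNReal.add_sub_cancel_right ENNReal.ofReal_ne_top

/-- comparison: a linear inequality between the `WW` gives the one between the `Psi` -/
theorem Psi_comp {κ : Type} [Fintype κ] (s : ℝ) (h1 : 1 < s) (h2 : s < 2)
    {P P₀ P₁ : Matrix (n ⊕ n) (n ⊕ n) ℂ} (hP : P.PosDef) (hP₀ : P₀.PosDef) (hP₁ : P₁.PosDef)
    (c a b : κ → ℝ) (A B : ℝ)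
    (hc : ∀ g, 0 ≤ c g) (ha : ∀ g, 0 < a g) (hb : ∀ g, 0 < b g) (hA0 : 0 < A) (hB0 : 0 < B)
    (hA : ∑ g, c g * a g ≤ A) (hB : ∑ g, c g * b g ≤ B) (r₀ r₁ : ℝ) (hr₀ : 0 ≤ r₀) (hr₁ : 0 ≤ r₁)
    (hW : ∀ η : ℝ, 0 < η → WW s P η ≤ ENNReal.ofReal r₀ * WW s P₀ η + ENNReal.ofReal r₁ * WW s P₁ η) :
    Psi s c a b A B P ≤ r₀ * Psi s c a b A B P₀ + r₁ * Psi s c a b A B P₁ := by
  have hPe := Psi_eq s h1 h2 hP c a b A B hc ha hb hA0 hB0 hA hB
  have hP0e := Psi_eq s h1 h2 hP₀ c a b A B hc ha hb hA0 hB0 hA hB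
  have hP1e := Psi_eq s h1 h2 hP₁ c a b A B hc ha hb hA0 hB0 hA hB
  have hnn : 0 ≤ r₀ * Psi s c a b A B P₀ + r₁ * Psi s c a b A B P₁ :=
    add_nonneg (mul_nonneg hr₀ hP0e.1) (mul_nonneg hr₁ hP1e.1)
  rw [← ENNReal.ofReal_le_ofReal_iff hnn,
    ENNReal.ofReal_add (mul_nonneg hr₀ hP0e.1) (mul_nonneg hr₁ hP1e.1),
    ENNReal.ofReal_mul hr₀, ENNReal.ofReal_mul hr₁, hPe.2, hP0e.2, hP1e.2]
  set K : ENNReal := ENNReal.ofReal (cst (s - 1))⁻¹ with hK
  calc K * ∫⁻ η in Ioi (0 : ℝ), ENNReal.ofReal (min (A * η ^ s) B -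
        ∑ g, c g * min (a g * η ^ s) (b g)) * WW s P η
      ≤ K * ∫⁻ η in Ioi (0 : ℝ), (ENNReal.ofReal r₀ * (ENNReal.ofReal (min (A * η ^ s) B -
        ∑ g, c g * min (a g * η ^ s) (b g)) * WW s P₀ η) +
          ENNReal.ofReal r₁ * (ENNReal.ofReal (min (A * η ^ s) B -
        ∑ g, c g * min (a g * η ^ s) (b g)) * WW s P₁ η)) := by
        gcongr K * ?_
        refine setLIntegral_mono_ae' measurableSet_Ioi (Filter.Eventually.of_forall fun η hη => ?_)
        have h := mul_le_mul_right (hW η hη) (ENNReal.ofReal (min (A * η ^ s) B -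
          ∑ g, c g * min (a g * η ^ s) (b g)))
        refine h.trans (le_of_eq ?_)
        ring
    _ = _ := by
        rw [lintegral_add_left' ((b4_meas_cW s c a b A B hP₀).const_mul _),
          lintegral_const_mul' _ _ ENNReal.ofReal_ne_top,
          lintegral_const_mul' _ _ ENNReal.ofReal_ne_top]
        ring

end Pool.Agent.LibSchN
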