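import Pool.Agent.LibSchN.B1b

/-! **B5.**  Scaling, and `Lr P u u` in the eigenbasis. -/

open Matrix Set MeasureTheory
open scoped ComplexOrder

namespace Pool.Agent.LibSchN

open Pool.Agent.LibSchP Pool.Agent.LibSchQ
open Pool.Agent.LibSch (lamP lamM FF)

variable {n : Type} [Fintype n] [DecidableEq n]

theorem b5_DD_mul (a b a' b' : ℝ) : DD n a b * DD n a' b' = DD n (a * a') (b * b') := by
  unfold DD
  rw [fromBlocks_multiply]
  simp only [Matrix.mul_zero, Matrix.zero_mul, add_zero, zero_add, Matrix.smul_mul, Matrix.one_mul,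
    Complex.ofReal_mul, smul_smul]

theorem b5_DD_one : DD n 1 1 = 1 := by
  unfold DD
  simp

theorem b5_DD_inv (a b : ℝ) (ha : 0 < a) (hb : 0 < b) : (DD n a b)⁻¹ = DD n a⁻¹ b⁻¹ := by
  refine Matrix.inv_eq_left_inv ?_
  rw [b5_DD_mul, inv_mul_cancel₀ ha.ne', inv_mul_cancel₀ hb.ne', b5_DD_one]

theorem b5_block (a b c d : ℝ) (R : Matrix (n ⊕ n) (n ⊕ n) ℂ) :
    (DD n a b * R * DD n c d).toBlocks₁₂ = ((a * d : ℝ) : ℂ) • R.toBlocks₁₂ := by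
  conv_lhs => rw [← fromBlocks_toBlocks R]
  unfold DD
  rw [fromBlocks_multiply, fromBlocks_multiply, toBlocks_fromBlocks₁₂]
  simp only [Matrix.mul_zero, Matrix.zero_mul, add_zero, zero_add, Matrix.smul_mul, Matrix.one_mul,
    Matrix.mul_smul, Matrix.mul_one, Complex.ofReal_mul, smul_smul]
  rw [mul_comm]

theorem b5_fr_smul (c : ℝ) (X : Matrix n n ℂ) : fr ((c : ℂ) • X) = c ^ 2 * fr X := by
  unfold fr
  rw [Finset.mul_sum]
  refine Finset.sum_congr rfl fun i _ => ?_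
  rw [Finset.mul_sum]
  refine Finset.sum_congr rfl fun j _ => ?_
  rw [Matrix.smul_apply, smul_eq_mul, norm_mul, mul_pow, Complex.norm_real, Real.norm_eq_abs,
    sq_abs]

/-- `(D (P + T) D)⁻¹ = D⁻¹ R D⁻¹` -/
theorem Lr_scale {P : Matrix (n ⊕ n) (n ⊕ n) ℂ} (hP : P.PosDef) (d₁ d₂ u₁ u₂ : ℝ) (hd₁ : 0 < d₁)
    (hd₂ : 0 < d₂) (h₁ : 0 < u₁) (h₂ : 0 < u₂) :
    Lr (DD n d₁ d₂ * P * DD n d₁ d₂) (d₁ ^ 2 * u₁) (d₂ ^ 2 * u₂) =
      Lr P u₁ u₂ / (d₁ * d₂) ^ 2 := by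
  have h : DD n d₁ d₂ * P * DD n d₁ d₂ + DD n (d₁ ^ 2 * u₁) (d₂ ^ 2 * u₂) =
      DD n d₁ d₂ * (P + DD n u₁ u₂) * DD n d₁ d₂ := by
    rw [Matrix.mul_add, Matrix.add_mul, b5_DD_mul, b5_DD_mul]
    congr 2 <;> ring
  unfold Lr
  rw [h, Matrix.mul_inv_rev, Matrix.mul_inv_rev, b5_DD_inv _ _ hd₁ hd₂, ← Matrix.mul_assoc,
    b5_block, b5_fr_smul]
  field_simp

/-- `Lr_scale` with `d₁ = η^(-1/2)`, `d₂ = 1` -/
theorem WW_scale (s : ℝ) {P : Matrix (n ⊕ n) (n ⊕ n) ℂ} (hP : P.PosDef) (η : ℝ) (hη : 0 < η) :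
    WW s P η = ENNReal.ofReal η⁻¹ *
      WW s (DD n (η ^ (-(1 / 2) : ℝ)) 1 * P * DD n (η ^ (-(1 / 2) : ℝ)) 1) 1 := by
  unfold WW
  rw [← lintegral_const_mul' _ _ ENNReal.ofReal_ne_top]
  refine setLIntegral_congr_fun measurableSet_Ioi fun u hu => ?_
  have hu' : 0 < u := hu
  have hd : 0 < η ^ (-(1 / 2) : ℝ) := Real.rpow_pos_of_pos hη _
  have h := Lr_scale hP (η ^ (-(1 / 2) : ℝ)) 1 (η * u) u hd one_pos (mul_pos hη hu') hu'
  have hsq : (η ^ (-(1 / 2) : ℝ)) ^ 2 = η⁻¹ := by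
    rw [← Real.rpow_natCast, ← Real.rpow_mul hη.le, ← Real.rpow_neg_one]
    norm_num
  have e1 : (η ^ (-(1 / 2) : ℝ)) ^ 2 * (η * u) = 1 * u := by
    rw [hsq]
    field_simp
  have e2 : (1 : ℝ) ^ 2 * u = u := by ring
  rw [e1, e2, mul_one, hsq] at h
  rw [← ENNReal.ofReal_mul (inv_nonneg.2 hη.le), h]
  congr 1
  field_simp

theorem DD_conj_posDef {P : Matrix (n ⊕ n) (n ⊕ n) ℂ} (hP : P.PosDef) (d₁ d₂ : ℝ)
    (hd₁ : 0 < d₁) (hd₂ : 0 < d₂) : (DD n d₁ d₂ * P * DD n d₁ d₂).PosDef := by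
  have h2 := hP.conjTranspose_mul_mul_same (B := DD n d₁ d₂) (by
    intro a b hab
    have h := congrArg (fun v => DD n d₁⁻¹ d₂⁻¹ *ᵥ v) hab
    simp only [mulVec_mulVec, b5_DD_mul, inv_mul_cancel₀ hd₁.ne', inv_mul_cancel₀ hd₂.ne',
      b5_DD_one, one_mulVec] at h
    exact h)
  have h3 : (DD n d₁ d₂)ᴴ = DD n d₁ d₂ := by
    unfold DD
    rw [fromBlocks_conjTranspose]
    simp
  rwa [h3] at h2

theorem b5_fr_Jm (Z : Matrix n n ℂ) : fr (Jm Z) = 2 * fr Z := by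
  unfold fr Jm
  rw [Fintype.sum_sum_type]
  have h1 : ∀ i : n, ∑ j : n ⊕ n, ‖(fromBlocks 0 (-Z) Zᴴ 0 : Matrix (n ⊕ n) (n ⊕ n) ℂ)
      (Sum.inl i) j‖ ^ 2 = ∑ j, ‖Z i j‖ ^ 2 := by
    intro i
    rw [Fintype.sum_sum_type]
    simp
  have h2 : ∀ i : n, ∑ j : n ⊕ n, ‖(fromBlocks 0 (-Z) Zᴴ 0 : Matrix (n ⊕ n) (n ⊕ n) ℂ)
      (Sum.inr i) j‖ ^ 2 = ∑ j, ‖Z j i‖ ^ 2 := by
    intro i
    rw [Fintype.sum_sum_type]
    simp
  rw [Finset.sum_congr rfl (fun i _ => h1 i), Finset.sum_congr rfl (fun i _ => h2 i)]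
  rw [Finset.sum_comm (f := fun i j => ‖Z j i‖ ^ 2)]
  ring

theorem b5_comm (P : Matrix (n ⊕ n) (n ⊕ n) ℂ) (h : P.IsHermitian) :
    P * DD n 1 (-1) - DD n 1 (-1) * P = (2 : ℂ) • Jm P.toBlocks₁₂ := by
  have h21 : P.toBlocks₂₁ = P.toBlocks₁₂ᴴ := by
    ext i j
    have := h.apply (Sum.inr i) (Sum.inl j)
    simp only [toBlocks₂₁, toBlocks₁₂, of_apply, conjTranspose_apply]
    exact this.symm
  conv_lhs => rw [← fromBlocks_toBlocks P]
  unfold DD Jm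
  rw [fromBlocks_multiply, fromBlocks_multiply, fromBlocks_smul, h21]
  ext i j
  rcases i with i | i <;> rcases j with j | j <;>
    simp [Matrix.sub_apply, fromBlocks_apply₁₁, fromBlocks_apply₁₂, fromBlocks_apply₂₁,
      fromBlocks_apply₂₂] <;> ring

theorem b5_fr_unitary {m : Type} [Fintype m] [DecidableEq m] (U : Matrix m m ℂ)
    (hU : U ∈ unitaryGroup m ℂ) (X : Matrix m m ℂ) : fr (Uᴴ * X * U) = fr X := by
  have hU' : Uᴴ ∈ unitaryGroup m ℂ := by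
    have := Unitary.star_mem hU
    rwa [star_eq_conjTranspose] at this
  rw [← nf_sq, ← nf_sq, nf_mul_unitary U hU, nf_unitary_mul _ hU']

/-- With `σ = diag(1, -1)` and `R = (P + u)⁻¹`: `R σ - σ R = R (σ P - P σ) R = -2 R J R`,
`J = Jm P₁₂`, and `R σ - σ R = [0, -2 R₁₂; 2 R₁₂ᴴ, 0]`, so `2 ‖R₁₂‖² = ‖R J R‖²`;
`R = ud U (x + u)⁻¹`. -/
theorem Lr_ud (U : Matrix (n ⊕ n) (n ⊕ n) ℂ) (hU : U ∈ unitaryGroup (n ⊕ n) ℂ) (x : n ⊕ n → ℝ)
    (hx : ∀ k, 0 < x k) (u : ℝ) (hu : 0 < u) :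
    Lr (ud U x) u u = 1 / 2 * ∑ k, ∑ j, ‖(Uᴴ * Jm (ud U x).toBlocks₁₂ * U) k j‖ ^ 2 *
      (1 / ((x k + u) ^ 2 * (x j + u) ^ 2)) := by
  set P := ud U x with hPdef
  set R : Matrix (n ⊕ n) (n ⊕ n) ℂ := ud U (fun k => (x k + u)⁻¹) with hRdef
  have hDD : DD n u u = ud U (fun _ => u) := by
    have h1 : (dg (fun _ => u) : Matrix (n ⊕ n) (n ⊕ n) ℂ) = (u : ℂ) • 1 := by
      unfold dg
      rw [smul_one_eq_diagonal]
    unfold ud
    rw [h1, Matrix.mul_smul, Matrix.mul_one, Matrix.smul_mul, a2_uu' U hU]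
    unfold DD
    rw [← fromBlocks_one, fromBlocks_smul, smul_zero]
  have hsum : P + DD n u u = ud U (fun k => x k + u) := by
    rw [hDD, hPdef]
    unfold ud
    rw [← Matrix.add_mul, ← Matrix.mul_add]
    congr 2
    unfold dg
    rw [diagonal_add]
    congr 1
    funext k
    push_cast
    rfl
  have hR1 : ud U (fun k => x k + u) * R = 1 := by
    rw [hRdef, ud_mul U hU]
    have : (fun k => (x k + u) * (x k + u)⁻¹) = fun _ => (1 : ℝ) := by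
      funext k
      exact mul_inv_cancel₀ (by have := hx k; positivity)
    rw [this]
    unfold ud
    rw [a2_dg_one, Matrix.mul_one, a2_uu' U hU]
  have hR2 : R * ud U (fun k => x k + u) = 1 := by
    rw [hRdef, ud_mul U hU]
    have : (fun k => (x k + u)⁻¹ * (x k + u)) = fun _ => (1 : ℝ) := by
      funext k
      exact inv_mul_cancel₀ (by have := hx k; positivity)
    rw [this]
    unfold ud
    rw [a2_dg_one, Matrix.mul_one, a2_uu' U hU]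
  have hinv : (P + DD n u u)⁻¹ = R := by
    rw [hsum]
    exact Matrix.inv_eq_left_inv hR2
  -- the commutators
  have hPc := b5_comm P (ud_isHermitian U x)
  have hRc := b5_comm R (ud_isHermitian U _)
  have hS : (P + DD n u u) * DD n 1 (-1) - DD n 1 (-1) * (P + DD n u u)
      = (2 : ℂ) • Jm P.toBlocks₁₂ := by
    rw [← hPc, Matrix.add_mul, Matrix.mul_add, b5_DD_mul, b5_DD_mul]
    have e : DD n (u * 1) (u * -1) = DD n (1 * u) (-1 * u) := by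
      congr 1 <;> ring
    rw [e]
    abel
  have hkey : Jm R.toBlocks₁₂ = -(R * Jm P.toBlocks₁₂ * R) := by
    have h1 : R * ((P + DD n u u) * DD n 1 (-1) - DD n 1 (-1) * (P + DD n u u)) * R
        = DD n 1 (-1) * R - R * DD n 1 (-1) := by
      rw [hsum, Matrix.mul_sub, Matrix.sub_mul, ← Matrix.mul_assoc, hR2, Matrix.one_mul,
        ← Matrix.mul_assoc R, Matrix.mul_assoc (R * DD n 1 (-1)), hR1, Matrix.mul_one]
    rw [hS] at h1
    have h2 : (2 : ℂ) • Jm R.toBlocks₁₂ = -((2 : ℂ) • (R * Jm P.toBlocks₁₂ * R)) := by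
      rw [← hRc, ← Matrix.smul_mul, ← Matrix.mul_smul, h1]
      abel
    rw [← smul_neg] at h2
    exact smul_right_injective _ (two_ne_zero (α := ℂ)) h2
  have h3 : 2 * fr R.toBlocks₁₂ = fr (R * Jm P.toBlocks₁₂ * R) := by
    rw [← b5_fr_Jm, hkey]
    unfold fr
    simp only [Matrix.neg_apply, norm_neg]
  have h4 : Uᴴ * (R * Jm P.toBlocks₁₂ * R) * U =
      dg (fun k => (x k + u)⁻¹) * (Uᴴ * Jm P.toBlocks₁₂ * U) * dg (fun k => (x k + u)⁻¹) := by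
    rw [hRdef]
    unfold ud
    calc Uᴴ * (U * dg (fun k => (x k + u)⁻¹) * Uᴴ * Jm P.toBlocks₁₂ *
          (U * dg (fun k => (x k + u)⁻¹) * Uᴴ)) * U
        = (Uᴴ * U) * dg (fun k => (x k + u)⁻¹) * (Uᴴ * Jm P.toBlocks₁₂ * U) *
          dg (fun k => (x k + u)⁻¹) * (Uᴴ * U) := by
          simp only [Matrix.mul_assoc]
      _ = _ := by rw [a2_uu U hU, Matrix.one_mul, Matrix.mul_one]
  have h5 : fr (R * Jm P.toBlocks₁₂ * R) = ∑ k, ∑ j, ‖(Uᴴ * Jm P.toBlocks₁₂ * U) k j‖ ^ 2 *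
      (1 / ((x k + u) ^ 2 * (x j + u) ^ 2)) := by
    rw [← b5_fr_unitary U hU, h4]
    unfold fr
    refine Finset.sum_congr rfl fun k _ => Finset.sum_congr rfl fun j _ => ?_
    have h6 : (dg (fun k => (x k + u)⁻¹) * (Uᴴ * Jm P.toBlocks₁₂ * U) *
        dg (fun k => (x k + u)⁻¹)) k j = (((x k + u)⁻¹ : ℝ) : ℂ) *
          (Uᴴ * Jm P.toBlocks₁₂ * U) k j * (((x j + u)⁻¹ : ℝ) : ℂ) := by
      unfold dg
      rw [mul_diagonal, diagonal_mul]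
    rw [h6, norm_mul, norm_mul, mul_pow, mul_pow, Complex.norm_real, Complex.norm_real,
      Real.norm_eq_abs, Real.norm_eq_abs, sq_abs, sq_abs]
    have hk := hx k
    have hj := hx j
    field_simp
  unfold Lr
  rw [hinv]
  linarith [h3, h5]

end Pool.Agent.LibSchN
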