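import Pool.Agent.LibSchQ.K2
import Pool.Agent.LibSch.Closure

/-! Definitions for the Schatten norm compression inequality, general `N`, `1 < p < 4/3`
(`MP_9d9785_an`).

Throughout `1 < s < 2`, `p = 2 s / (s + 1)`, `q = 2 s / (s - 1)` (so `1/p + 1/q = 1`,
`s = p / (2 - p)`, and `s / (s - 1) = q / 2` is the exponent conjugate to `s`). -/

open Matrix Set MeasureTheory
open scoped ComplexOrder

namespace Pool.Agent.LibSchN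

open Pool.Agent.LibSchP Pool.Agent.LibSchQ
open Pool.Agent.LibSch (lamP lamM FF)

/-- the real symmetric matrix `[x, w; w, y]` is positive definite and `w > 0` -/
structure PD (x w y : ℝ) : Prop where
  hx : 0 < x
  hw : 0 < w
  hy : 0 < y
  hd : w ^ 2 < x * y

/-- `M^t = cA • M + cB • 1` for `M = [x, w; w, y]` -/
noncomputable def cA (t x w y : ℝ) : ℝ :=
  (lamP x y w ^ t - lamM x y w ^ t) / (lamP x y w - lamM x y w)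

/-- `M^t = cA • M + cB • 1` for `M = [x, w; w, y]` -/
noncomputable def cB (t x w y : ℝ) : ℝ :=
  (lamP x y w * lamM x y w ^ t - lamM x y w * lamP x y w ^ t) / (lamP x y w - lamM x y w)

/-- the entry `(1,1)` of `[x, w; w, y]^t` -/
noncomputable def e11 (t x w y : ℝ) : ℝ := cA t x w y * x + cB t x w y

/-- the entry `(1,2)` of `[x, w; w, y]^t` -/
noncomputable def e12 (t x w y : ℝ) : ℝ := cA t x w y * w

/-- the entry `(2,2)` of `[x, w; w, y]^t` -/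
noncomputable def e22 (t x w y : ℝ) : ℝ := cA t x w y * y + cB t x w y

/-- the scaling factor: `D = diag(dl s a, dl s b)`, `(dl s a)^(2s) = a` -/
noncomputable def dl (s a : ℝ) : ℝ := a ^ (1 / (2 * s))

/-- entry `(1,1)` of `D (D M D)^(s-1) D`, `M = [x, w; w, y]`, `D = diag(dl s a, dl s b)` -/
noncomputable def N11 (s a b x w y : ℝ) : ℝ :=
  dl s a ^ 2 * e11 (s - 1) (dl s a ^ 2 * x) (dl s a * dl s b * w) (dl s b ^ 2 * y)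

/-- entry `(1,2)` of `D (D M D)^(s-1) D` -/
noncomputable def N12 (s a b x w y : ℝ) : ℝ :=
  dl s a * dl s b * e12 (s - 1) (dl s a ^ 2 * x) (dl s a * dl s b * w) (dl s b ^ 2 * y)

/-- entry `(2,2)` of `D (D M D)^(s-1) D` -/
noncomputable def N22 (s a b x w y : ℝ) : ℝ :=
  dl s b ^ 2 * e22 (s - 1) (dl s a ^ 2 * x) (dl s a * dl s b * w) (dl s b ^ 2 * y)

/-- `tr (D M D)^s` -/
noncomputable def FN (s a b x w y : ℝ) : ℝ :=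
  FF s (dl s a ^ 2 * x) (dl s b ^ 2 * y) (dl s a * dl s b * w)

section mat

variable {n : Type} [Fintype n] [DecidableEq n]

/-- `diag(u₁, u₂)` on `n ⊕ n` -/
noncomputable def DD (n : Type) [DecidableEq n] (u₁ u₂ : ℝ) : Matrix (n ⊕ n) (n ⊕ n) ℂ :=
  fromBlocks ((u₁ : ℂ) • 1) 0 0 ((u₂ : ℂ) • 1)

/-- `tr (D P D)^s`, `D = diag(dl s a, dl s b)` -/
noncomputable def Fm (s a b : ℝ) (P : Matrix (n ⊕ n) (n ⊕ n) ℂ) : ℝ :=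
  LibSch.pw s (DD n (dl s a) (dl s b) * P * DD n (dl s a) (dl s b))

/-- the mixed part of `Fm` -/
noncomputable def Mx (s a b : ℝ) (P : Matrix (n ⊕ n) (n ⊕ n) ℂ) : ℝ :=
  Fm s a b P - a * LibSch.pw s P.toBlocks₁₁ - b * LibSch.pw s P.toBlocks₂₂

/-- `Mx s A B - ∑ w_g Mx s a_g b_g` -/
noncomputable def Psi {κ : Type} [Fintype κ] (s : ℝ) (w a b : κ → ℝ) (A B : ℝ)
    (P : Matrix (n ⊕ n) (n ⊕ n) ℂ) : ℝ :=
  Mx s A B P - ∑ g, w g * Mx s (a g) (b g) P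

/-- `‖((P + diag(u₁, u₂))⁻¹)₁₂‖²` -/
noncomputable def Lr (P : Matrix (n ⊕ n) (n ⊕ n) ℂ) (u₁ u₂ : ℝ) : ℝ :=
  fr (((P + DD n u₁ u₂)⁻¹).toBlocks₁₂)

/-- `tr ((P + diag(u₁, u₂))⁻¹)₁₁ - tr (P₁₁ + u₁)⁻¹` -/
noncomputable def f1 (P : Matrix (n ⊕ n) (n ⊕ n) ℂ) (u₁ u₂ : ℝ) : ℝ :=
  (trace ((P + DD n u₁ u₂)⁻¹).toBlocks₁₁).re - (trace (P.toBlocks₁₁ + (u₁ : ℂ) • 1)⁻¹).re

/-- `tr ((P + diag(u₁, u₂))⁻¹)₂₂ - tr (P₂₂ + u₂)⁻¹` -/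
noncomputable def f2 (P : Matrix (n ⊕ n) (n ⊕ n) ℂ) (u₁ u₂ : ℝ) : ℝ :=
  (trace ((P + DD n u₁ u₂)⁻¹).toBlocks₂₂).re - (trace (P.toBlocks₂₂ + (u₂ : ℂ) • 1)⁻¹).re

/-- `∫_0^∞ u^(s+1) ‖((P + diag(η u, u))⁻¹)₁₂‖² du` -/
noncomputable def WW (s : ℝ) (P : Matrix (n ⊕ n) (n ⊕ n) ℂ) (η : ℝ) : ENNReal :=
  ∫⁻ u in Ioi (0 : ℝ), ENNReal.ofReal (u ^ (s + 1) * Lr P (η * u) u)

/-- the skew part: `P σ - σ P = 2 Jm P₁₂`, `σ = diag(1, -1)` -/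
def Jm (Z : Matrix n n ℂ) : Matrix (n ⊕ n) (n ⊕ n) ℂ := fromBlocks 0 (-Z) Zᴴ 0

/-- `⟨J, (l L_P + (1-l) R_P + τ)⁻¹ J⟩` in the eigenbasis, `P = ud U x` -/
noncomputable def qe {m : Type} [Fintype m] [DecidableEq m] (l τ : ℝ) (J U : Matrix m m ℂ)
    (x : m → ℝ) : ℝ :=
  ∑ k, ∑ j, ‖(Uᴴ * J * U) k j‖ ^ 2 / (l * x k + (1 - l) * x j + τ)

/-- `Re tr [S; S']ᴴ P [S; S']` -/
noncomputable def QP (P : Matrix (n ⊕ n) (n ⊕ n) ℂ) (S S' : Matrix n n ℂ) : ℝ :=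
  (trace (Sᴴ * P.toBlocks₁₁ * S)).re + 2 * (trace (Sᴴ * P.toBlocks₁₂ * S')).re +
    (trace (S'ᴴ * P.toBlocks₂₂ * S')).re

/-- the penalty coefficient of an entry -/
noncomputable def lamf (q y z : ℝ) : ℝ := if y < 0 then 2 / q * (z / |y| ^ (q - 1)) else 0

end mat

/-- **Scalar data** of a `2 × N` problem: `M = [x, w; w, y] = (Z Zᵀ)^((2-p)/2)`, `Z` has the columns
`(z₁ j, z₂ j)`, `(y₁ j, y₂ j) = M⁻¹ (z₁ j, z₂ j)` are the columns of `Z |Z|^(p-2)`. -/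
structure Sc {ι : Type} [Fintype ι] (s x w y : ℝ) (y₁ y₂ z₁ z₂ : ι → ℝ) : Prop where
  h1 : 1 < s
  h2 : s < 2
  pd : PD x w y
  hz₁ : ∀ j, z₁ j = x * y₁ j + w * y₂ j
  hz₂ : ∀ j, z₂ j = w * y₁ j + y * y₂ j
  z₁0 : ∀ j, 0 ≤ z₁ j
  z₂0 : ∀ j, 0 ≤ z₂ j
  m11 : ∑ j, y₁ j ^ 2 = e11 (s - 1) x w y
  m12 : ∑ j, y₁ j * y₂ j = e12 (s - 1) x w y
  m22 : ∑ j, y₂ j ^ 2 = e22 (s - 1) x w y

/-- A group: `α (u₁,u₂)(u₁,u₂)ᵀ + β (v₁,v₂)(v₁,v₂)ᵀ = D (D M D)^(s-1) D`. -/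
structure Grp (s x w y a b α β u₁ u₂ v₁ v₂ : ℝ) : Prop where
  ha : 0 < a
  hb : 0 < b
  hα : 0 < α
  hβ : 0 < β
  g11 : α * u₁ ^ 2 + β * v₁ ^ 2 = N11 s a b x w y
  g12 : α * (u₁ * u₂) + β * (v₁ * v₂) = N12 s a b x w y
  g22 : α * u₂ ^ 2 + β * v₂ ^ 2 = N22 s a b x w y

/-- the Gram matrix `T Tᴴ` of the `2 × N` block matrix with columns `(A j, B j)` -/
noncomputable def Gr {ι : Type} [Fintype ι] {m₁ m₂ : Type} {k : ι → Type} [∀ j, Fintype (k j)]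
    (A : ∀ j, Matrix m₁ (k j) ℂ) (B : ∀ j, Matrix m₂ (k j) ℂ) :
    Matrix (m₁ ⊕ m₂) (m₁ ⊕ m₂) ℂ :=
  fromBlocks (∑ j, A j * (A j)ᴴ) (∑ j, A j * (B j)ᴴ) (∑ j, B j * (A j)ᴴ) (∑ j, B j * (B j)ᴴ)

end Pool.Agent.LibSchN
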