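import Pool.Agent.LibSchN.Defs

/-! **E1.**  Powers of a real positive definite `2 × 2` matrix: algebra. -/

open Matrix Set MeasureTheory
open scoped ComplexOrder

namespace Pool.Agent.LibSchN

open Pool.Agent.LibSchP Pool.Agent.LibSchQ
open Pool.Agent.LibSch (lamP lamM FF)

/-- the eigenvalues (definition of `lamP`, `lamM`; `(x-y)²+4w² < (x+y)²`) -/
theorem lam_facts {x w y : ℝ} (h : PD x w y) : 0 < lamM x y w ∧ lamM x y w < lamP x y w ∧
    lamP x y w + lamM x y w = x + y ∧ lamP x y w * lamM x y w = x * y - w ^ 2 := by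
  obtain ⟨hx, hw, hy, hd⟩ := h
  have h0 : 0 < (x - y) ^ 2 + 4 * w ^ 2 := by positivity
  have hs : 0 < √((x - y) ^ 2 + 4 * w ^ 2) := Real.sqrt_pos.2 h0
  have hs2 : √((x - y) ^ 2 + 4 * w ^ 2) ^ 2 = (x - y) ^ 2 + 4 * w ^ 2 := Real.sq_sqrt h0.le
  have hlt : √((x - y) ^ 2 + 4 * w ^ 2) < x + y := by
    rw [Real.sqrt_lt' (by linarith)]
    nlinarith
  unfold lamP lamM
  refine ⟨by linarith, by linarith, by ring, ?_⟩
  nlinarith

/-- the two eigenvalues are determined by sum and product -/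
theorem e1_unique (X Y W a b : ℝ) (hab : b ≤ a) (h1 : a + b = X + Y)
    (h2 : a * b = X * Y - W ^ 2) : lamP X Y W = a ∧ lamM X Y W = b := by
  have h3 : (X - Y) ^ 2 + 4 * W ^ 2 = (a - b) ^ 2 := by
    have h4 : (a - b) ^ 2 = (a + b) ^ 2 - 4 * (a * b) := by ring
    rw [h4, h1, h2]
    ring
  unfold lamP lamM
  rw [h3, Real.sqrt_sq (by linarith)]
  constructor <;> linarith

theorem e1_P {x w y : ℝ} (h : PD x w y) (t : ℝ) :
    cA t x w y * lamP x y w + cB t x w y = lamP x y w ^ t := by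
  obtain ⟨h1, h2, h3, h4⟩ := lam_facts h
  have hne : lamP x y w - lamM x y w ≠ 0 := by linarith
  unfold cA cB
  field_simp
  ring

theorem e1_M {x w y : ℝ} (h : PD x w y) (t : ℝ) :
    cA t x w y * lamM x y w + cB t x w y = lamM x y w ^ t := by
  obtain ⟨h1, h2, h3, h4⟩ := lam_facts h
  have hne : lamP x y w - lamM x y w ≠ 0 := by linarith
  unfold cA cB
  field_simp
  ring

theorem e1_A {x w y : ℝ} (h : PD x w y) (t : ℝ) :
    cA t x w y * (lamP x y w - lamM x y w) = lamP x y w ^ t - lamM x y w ^ t := by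
  have h1 := e1_P h t
  have h2 := e1_M h t
  linarith

/-- uniqueness of the coefficients -/
theorem e1_AB {x w y : ℝ} (h : PD x w y) (t A B : ℝ)
    (hP : A * lamP x y w + B = lamP x y w ^ t) (hM : A * lamM x y w + B = lamM x y w ^ t) :
    A = cA t x w y ∧ B = cB t x w y := by
  have h1 := e1_P h t
  have h2 := e1_M h t
  obtain ⟨-, h3, -, -⟩ := lam_facts h
  have hA : A = cA t x w y := by
    have : (A - cA t x w y) * (lamP x y w - lamM x y w) = 0 := by linarith
    rcases mul_eq_zero.1 this with h | h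
    · linarith
    · linarith
  refine ⟨hA, ?_⟩
  rw [hA] at hP
  linarith

theorem e_one {x w y : ℝ} (h : PD x w y) : e11 1 x w y = x ∧ e12 1 x w y = w ∧ e22 1 x w y = y := by
  obtain ⟨hA, hB⟩ := e1_AB h 1 1 0 (by simp) (by simp)
  unfold e11 e12 e22
  rw [← hA, ← hB]
  refine ⟨by ring, by ring, by ring⟩

theorem e_zero {x w y : ℝ} (h : PD x w y) : e11 0 x w y = 1 ∧ e12 0 x w y = 0 ∧ e22 0 x w y = 1 := by
  obtain ⟨hA, hB⟩ := e1_AB h 0 0 1 (by simp) (by simp)
  unfold e11 e12 e22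
  rw [← hA, ← hB]
  refine ⟨by ring, by ring, by ring⟩

theorem e_trace {x w y : ℝ} (h : PD x w y) (t : ℝ) :
    e11 t x w y + e22 t x w y = lamP x y w ^ t + lamM x y w ^ t := by
  obtain ⟨-, -, h3, -⟩ := lam_facts h
  rw [← e1_P h t, ← e1_M h t]
  unfold e11 e22
  linear_combination (-cA t x w y) * h3

/-- `= (lamP * lamM)^t` -/
theorem e_det {x w y : ℝ} (h : PD x w y) (t : ℝ) :
    e11 t x w y * e22 t x w y - e12 t x w y ^ 2 = (x * y - w ^ 2) ^ t := by
  obtain ⟨h1, h2, h3, h4⟩ := lam_facts h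
  rw [← h4, Real.mul_rpow (by linarith) h1.le, ← e1_P h t, ← e1_M h t]
  unfold e11 e12 e22
  linear_combination (-(cA t x w y) ^ 2) * h4 - cA t x w y * cB t x w y * h3

/-- the coefficients of `M^(t+t')` -/
theorem e1_add {x w y : ℝ} (h : PD x w y) (t t' : ℝ) :
    cA (t + t') x w y = cA t x w y * cA t' x w y * (x + y) + cA t x w y * cB t' x w y +
      cA t' x w y * cB t x w y ∧
    cB (t + t') x w y = cB t x w y * cB t' x w y - cA t x w y * cA t' x w y * (x * y - w ^ 2) := by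
  obtain ⟨h1, h2, h3, h4⟩ := lam_facts h
  have hP : 0 < lamP x y w := by linarith
  have key := e1_AB h (t + t') (cA t x w y * cA t' x w y * (x + y) + cA t x w y * cB t' x w y +
      cA t' x w y * cB t x w y)
    (cB t x w y * cB t' x w y - cA t x w y * cA t' x w y * (x * y - w ^ 2))
    (by
      rw [Real.rpow_add hP, ← e1_P h t, ← e1_P h t', ← h3, ← h4]
      ring)
    (by
      rw [Real.rpow_add h1, ← e1_M h t, ← e1_M h t', ← h3, ← h4]
      ring)
  exact ⟨key.1.symm, key.2.symm⟩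

/-- `M^(t+t') = M^t M^t'`; `M² = (x+y) M - (xy-w²)` -/
theorem e_mul {x w y : ℝ} (h : PD x w y) (t t' : ℝ) :
    e11 (t + t') x w y = e11 t x w y * e11 t' x w y + e12 t x w y * e12 t' x w y ∧
    e12 (t + t') x w y = e11 t x w y * e12 t' x w y + e12 t x w y * e22 t' x w y ∧
    e12 (t + t') x w y = e12 t x w y * e11 t' x w y + e22 t x w y * e12 t' x w y ∧
    e22 (t + t') x w y = e12 t x w y * e12 t' x w y + e22 t x w y * e22 t' x w y := by
  obtain ⟨hA, hB⟩ := e1_add h t t'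
  unfold e11 e12 e22
  rw [hA, hB]
  refine ⟨by ring, by ring, by ring, by ring⟩

theorem e_pos {x w y : ℝ} (h : PD x w y) (t : ℝ) : 0 < e11 t x w y ∧ 0 < e22 t x w y := by
  obtain ⟨h1, h2, h3, h4⟩ := lam_facts h
  have hd := e_det h t
  have ht := e_trace h t
  have hP : 0 < lamP x y w := by linarith
  have p1 := Real.rpow_pos_of_pos hP t
  have p2 := Real.rpow_pos_of_pos h1 t
  have p3 : 0 < (x * y - w ^ 2) ^ t := Real.rpow_pos_of_pos (by rw [← h4]; positivity) t
  have p4 : 0 < e11 t x w y * e22 t x w y := by nlinarith [sq_nonneg (e12 t x w y)]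
  rcases pos_and_pos_or_neg_and_neg_of_mul_pos p4 with hh | hh
  · exact hh
  · exfalso
    linarith [hh.1, hh.2]

theorem e_PD {x w y : ℝ} (h : PD x w y) (t : ℝ) (ht : 0 < t) :
    PD (e11 t x w y) (e12 t x w y) (e22 t x w y) := by
  obtain ⟨h1, h2, h3, h4⟩ := lam_facts h
  obtain ⟨p1, p2⟩ := e_pos h t
  have hd := e_det h t
  have p3 : 0 < (x * y - w ^ 2) ^ t := Real.rpow_pos_of_pos (by rw [← h4]; nlinarith) t
  refine ⟨p1, ?_, p2, by linarith⟩
  have h5 : lamM x y w ^ t < lamP x y w ^ t := Real.rpow_lt_rpow h1.le h2 ht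
  unfold e12 cA
  have := h.hw
  have h6 : 0 < lamP x y w - lamM x y w := by linarith
  have h7 : 0 < lamP x y w ^ t - lamM x y w ^ t := by linarith
  positivity

/-- for `t > 0` the eigenvalues of `M^t` are `lamP^t > lamM^t` (sum and product) -/
theorem e_lam {x w y : ℝ} (h : PD x w y) (t : ℝ) (ht : 0 < t) :
    lamP (e11 t x w y) (e22 t x w y) (e12 t x w y) = lamP x y w ^ t ∧
    lamM (e11 t x w y) (e22 t x w y) (e12 t x w y) = lamM x y w ^ t := by
  obtain ⟨h1, h2, h3, h4⟩ := lam_facts h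
  refine e1_unique _ _ _ _ _ (Real.rpow_le_rpow h1.le h2.le ht.le) (e_trace h t).symm ?_
  rw [e_det h t, ← h4, Real.mul_rpow (by linarith) h1.le]

/-- `(M^t)^t' = M^(t t')`, `t > 0` (`e_lam`) -/
theorem e_comp {x w y : ℝ} (h : PD x w y) (t t' : ℝ) (ht : 0 < t) :
    e11 t' (e11 t x w y) (e12 t x w y) (e22 t x w y) = e11 (t * t') x w y ∧
    e12 t' (e11 t x w y) (e12 t x w y) (e22 t x w y) = e12 (t * t') x w y ∧
    e22 t' (e11 t x w y) (e12 t x w y) (e22 t x w y) = e22 (t * t') x w y := by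
  obtain ⟨h1, h2, h3, h4⟩ := lam_facts h
  have hP : 0 < lamP x y w := by linarith
  have hPD := e_PD h t ht
  obtain ⟨l1, l2⟩ := e_lam h t ht
  have k1 := e1_P hPD t'
  have k2 := e1_M hPD t'
  rw [l1, ← Real.rpow_mul hP.le, ← e1_P h t] at k1
  rw [l2, ← Real.rpow_mul h1.le, ← e1_M h t] at k2
  obtain ⟨hA, hB⟩ := e1_AB h (t * t')
    (cA t' (e11 t x w y) (e12 t x w y) (e22 t x w y) * cA t x w y)
    (cA t' (e11 t x w y) (e12 t x w y) (e22 t x w y) * cB t x w y +
      cB t' (e11 t x w y) (e12 t x w y) (e22 t x w y))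
    (by rw [← k1]; ring) (by rw [← k2]; ring)
  refine ⟨?_, ?_, ?_⟩
  · have e : e11 (t * t') x w y = cA (t * t') x w y * x + cB (t * t') x w y := rfl
    rw [e, ← hA, ← hB]
    have e' : e11 t' (e11 t x w y) (e12 t x w y) (e22 t x w y) =
      cA t' (e11 t x w y) (e12 t x w y) (e22 t x w y) * (cA t x w y * x + cB t x w y) +
        cB t' (e11 t x w y) (e12 t x w y) (e22 t x w y) := rfl
    rw [e']
    ring
  · have e : e12 (t * t') x w y = cA (t * t') x w y * w := rfl
    rw [e, ← hA]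
    have e' : e12 t' (e11 t x w y) (e12 t x w y) (e22 t x w y) =
      cA t' (e11 t x w y) (e12 t x w y) (e22 t x w y) * (cA t x w y * w) := rfl
    rw [e']
    ring
  · have e : e22 (t * t') x w y = cA (t * t') x w y * y + cB (t * t') x w y := rfl
    rw [e, ← hA, ← hB]
    have e' : e22 t' (e11 t x w y) (e12 t x w y) (e22 t x w y) =
      cA t' (e11 t x w y) (e12 t x w y) (e22 t x w y) * (cA t x w y * y + cB t x w y) +
        cB t' (e11 t x w y) (e12 t x w y) (e22 t x w y) := rfl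
    rw [e']
    ring

/-- `(c M)^t = c^t M^t` (`LibSch.lamP_smul`, `LibSch.lamM_smul`) -/
theorem e_smul {x w y : ℝ} (h : PD x w y) (t c : ℝ) (hc : 0 < c) :
    e11 t (c * x) (c * w) (c * y) = c ^ t * e11 t x w y ∧
    e12 t (c * x) (c * w) (c * y) = c ^ t * e12 t x w y ∧
    e22 t (c * x) (c * w) (c * y) = c ^ t * e22 t x w y := by
  obtain ⟨h1, h2, h3, h4⟩ := lam_facts h
  have hP : 0 < lamP x y w := by linarith
  have hne : lamP x y w - lamM x y w ≠ 0 := by linarith
  have hA : cA t (c * x) (c * w) (c * y) * c = c ^ t * cA t x w y := by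
    unfold cA
    rw [LibSch.lamP_smul _ _ _ _ hc.le, LibSch.lamM_smul _ _ _ _ hc.le,
      Real.mul_rpow hc.le hP.le, Real.mul_rpow hc.le h1.le]
    have : c * lamP x y w - c * lamM x y w ≠ 0 := by
      rw [← mul_sub]
      exact mul_ne_zero hc.ne' hne
    field_simp
  have hB : cB t (c * x) (c * w) (c * y) = c ^ t * cB t x w y := by
    unfold cB
    rw [LibSch.lamP_smul _ _ _ _ hc.le, LibSch.lamM_smul _ _ _ _ hc.le,
      Real.mul_rpow hc.le hP.le, Real.mul_rpow hc.le h1.le]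
    have : c * lamP x y w - c * lamM x y w ≠ 0 := by
      rw [← mul_sub]
      exact mul_ne_zero hc.ne' hne
    field_simp
  unfold e11 e12 e22
  rw [hB]
  refine ⟨?_, ?_, ?_⟩
  · linear_combination x * hA
  · linear_combination w * hA
  · linear_combination y * hA

theorem e_swap (t x w y : ℝ) :
    e11 t y w x = e22 t x w y ∧ e12 t y w x = e12 t x w y ∧ e22 t y w x = e11 t x w y := by
  have hP : lamP y x w = lamP x y w := by
    unfold lamP
    rw [show (y - x) ^ 2 = (x - y) ^ 2 by ring, add_comm y x]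
  have hM : lamM y x w = lamM x y w := by
    unfold lamM
    rw [show (y - x) ^ 2 = (x - y) ^ 2 by ring, add_comm y x]
  unfold e11 e12 e22 cA cB
  rw [hP, hM]
  exact ⟨rfl, rfl, rfl⟩

/-- `tr M^t = FF t`, `tr M^(t+1) = tr M M^t` -/
theorem FF_succ {x w y : ℝ} (h : PD x w y) (t : ℝ) :
    FF (t + 1) x y w = x * e11 t x w y + 2 * w * e12 t x w y + y * e22 t x w y := by
  have h1 : FF (t + 1) x y w = lamP x y w ^ (t + 1) + lamM x y w ^ (t + 1) := rfl
  obtain ⟨m1, -, -, m4⟩ := e_mul h t 1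
  obtain ⟨o1, o2, o3⟩ := e_one h
  rw [h1, ← e_trace h (t + 1), m1, m4, o1, o2, o3]
  ring

/-- the inverse is `e (-1)`; `M^(-t)` is the inverse of `M^t` -/
theorem e_inv {x w y : ℝ} (h : PD x w y) (t : ℝ) :
    e11 t x w y * e11 (-t) x w y + e12 t x w y * e12 (-t) x w y = 1 ∧
    e11 t x w y * e12 (-t) x w y + e12 t x w y * e22 (-t) x w y = 0 ∧
    e12 t x w y * e11 (-t) x w y + e22 t x w y * e12 (-t) x w y = 0 ∧
    e12 t x w y * e12 (-t) x w y + e22 t x w y * e22 (-t) x w y = 1 := by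
  obtain ⟨m1, m2, m3, m4⟩ := e_mul h t (-t)
  obtain ⟨o1, o2, o3⟩ := e_zero h
  rw [add_neg_cancel] at m1 m2 m3 m4
  rw [← m1, ← m2, ← m3, ← m4]
  exact ⟨o1, o2, o2, o3⟩

end Pool.Agent.LibSchN
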