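import Pool.Agent.LibSchN.Defs

/-! **F1a.**  Four additional columns. -/

open Matrix Set MeasureTheory
open scoped ComplexOrder

namespace Pool.Agent.LibSchN

open Pool.Agent.LibSchP Pool.Agent.LibSchQ
open Pool.Agent.LibSch (lamP lamM FF)

variable {n : Type} [Fintype n] [DecidableEq n]

variable {ι : Type} [Fintype ι]

/-- the four additional columns `(ε, ε), (ε, -ε), (ε, 0), (0, ε)` -/
noncomputable def exA (n : Type) [DecidableEq n] (ε : ℝ) : Fin 4 → Matrix n n ℂ :=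
  ![(ε : ℂ) • 1, (ε : ℂ) • 1, (ε : ℂ) • 1, 0]

noncomputable def exB (n : Type) [DecidableEq n] (ε : ℝ) : Fin 4 → Matrix n n ℂ :=
  ![(ε : ℂ) • 1, -((ε : ℂ) • 1), 0, (ε : ℂ) • 1]

omit [Fintype n] in
theorem f1a_ex (ε : ℝ) : exA n ε 0 = (ε : ℂ) • 1 ∧ exA n ε 1 = (ε : ℂ) • 1 ∧
    exA n ε 2 = (ε : ℂ) • 1 ∧ exA n ε 3 = 0 ∧ exB n ε 0 = (ε : ℂ) • 1 ∧
    exB n ε 1 = -((ε : ℂ) • 1) ∧ exB n ε 2 = 0 ∧ exB n ε 3 = (ε : ℂ) • 1 :=
  ⟨rfl, rfl, rfl, rfl, rfl, rfl, rfl, rfl⟩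

/-- the Gram matrix with the additional columns is `G + 3 ε²` -/
theorem Gr_ext (A B : ι → Matrix n n ℂ) (ε : ℝ) :
    Gr (Sum.elim A (exA n ε)) (Sum.elim B (exB n ε)) =
      Gr A B + ((3 * ε ^ 2 : ℝ) : ℂ) • 1 := by
  have h1 : ((ε : ℂ) • (1 : Matrix n n ℂ)) * ((ε : ℂ) • (1 : Matrix n n ℂ))ᴴ =
      ((ε ^ 2 : ℝ) : ℂ) • 1 := by
    rw [conjTranspose_smul, conjTranspose_one, Complex.star_def, Complex.conj_ofReal,
      Matrix.smul_mul, Matrix.one_mul, smul_smul]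
    congr 1
    push_cast
    ring
  have h3 : ((3 * ε ^ 2 : ℝ) : ℂ) • (1 : Matrix n n ℂ) =
      ((ε ^ 2 : ℝ) : ℂ) • 1 + ((ε ^ 2 : ℝ) : ℂ) • 1 + ((ε ^ 2 : ℝ) : ℂ) • 1 := by
    rw [← add_smul, ← add_smul]
    congr 1
    push_cast
    ring
  have hone : (1 : Matrix (n ⊕ n) (n ⊕ n) ℂ) = fromBlocks 1 0 0 1 := fromBlocks_one.symm
  unfold Gr
  rw [hone, fromBlocks_smul, fromBlocks_add, h3]
  simp only [Fintype.sum_sum_type, Sum.elim_inl, Sum.elim_inr, Fin.sum_univ_four, smul_zero,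
    add_zero]
  obtain ⟨a0, a1, a2, a3, b0, b1, b2, b3⟩ := f1a_ex (n := n) ε
  rw [a0, a1, a2, a3, b0, b1, b2, b3]
  congr 1
  · rw [h1, Matrix.zero_mul, add_zero]
  · rw [conjTranspose_neg, Matrix.mul_neg, h1, conjTranspose_zero, Matrix.mul_zero,
      Matrix.zero_mul, add_zero, add_zero, add_neg_cancel, add_zero]
  · rw [Matrix.neg_mul, h1, conjTranspose_zero, Matrix.mul_zero,
      Matrix.zero_mul, add_zero, add_zero, add_neg_cancel, add_zero]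
  · rw [conjTranspose_neg, Matrix.mul_neg, Matrix.neg_mul, neg_neg, h1, Matrix.zero_mul, add_zero]

theorem Gr_posSemidef (A B : ι → Matrix n n ℂ) : (Gr A B).PosSemidef := by
  have h : Gr A B = ∑ j, fromRows (A j) (B j) * (fromRows (A j) (B j))ᴴ := by
    ext i k
    rw [Matrix.sum_apply]
    rcases i with i | i <;> rcases k with k | k <;>
      simp [Gr, Matrix.sum_apply, Matrix.mul_apply]
  rw [h]
  exact posSemidef_sum _ fun j _ => posSemidef_self_mul_conjTranspose _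

/-- `∑ (g_k + 3ε²)^t → ∑ g_k^t` -/
theorem pw_shift_tendsto (t : ℝ) (ht : 0 < t) {m : Type} [Fintype m] [DecidableEq m]
    (G : Matrix m m ℂ) (hG : G.PosSemidef) :
    Filter.Tendsto (fun ε : ℝ => LibSch.pw t (G + ((3 * ε ^ 2 : ℝ) : ℂ) • 1)) (nhds 0)
      (nhds (LibSch.pw t G)) := by
  obtain ⟨U, hU, x, hx, hUx⟩ := ud_exists_nonneg G hG
  have key : ∀ c : ℝ, LibSch.pw t (G + ((c : ℝ) : ℂ) • 1) =
      ∑ k, ((x k + c) * (x k + c)) ^ (t / 2) := by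
    intro c
    have h1 : G + ((c : ℝ) : ℂ) • 1 = ud U fun k => x k + c := by
      have h2 : (((c : ℝ) : ℂ) • 1 : Matrix m m ℂ) = ud U fun _ => c := by
        have h3 : dg (fun _ : m => c) = ((c : ℝ) : ℂ) • 1 := by
          ext i j
          by_cases hij : i = j
          · simp [dg, hij]
          · simp [dg, hij]
        rw [ud, h3, Matrix.mul_smul, Matrix.mul_one, Matrix.smul_mul, a2_uu' U hU]
      have h4 : dg (fun k => x k + c) = dg x + dg fun _ => c := by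
        ext i j
        by_cases hij : i = j
        · simp [dg, hij]
        · simp [dg, hij]
      rw [h2, hUx]
      unfold ud
      rw [h4, Matrix.mul_add, Matrix.add_mul]
    rw [h1, pw_ud t _ U hU (fun k => (x k + c) * (x k + c)) (by
      rw [(ud_isHermitian U _).eq, ud_mul U hU])]
  have h0 : LibSch.pw t G = ∑ k, ((x k + 0) * (x k + 0)) ^ (t / 2) := by
    rw [← key 0]
    simp
  have hc : Continuous fun ε : ℝ => ∑ k, ((x k + 3 * ε ^ 2) * (x k + 3 * ε ^ 2)) ^ (t / 2) := by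
    refine continuous_finsetSum _ fun k _ => ?_
    exact (Real.continuous_rpow_const (by positivity)).comp (by fun_prop)
  have h5 := hc.tendsto 0
  simp only [key]
  rw [h0]
  simpa using h5

theorem f1a_sn_smul (p : ℝ) (hp : 0 < p) (c : ℝ) (M : Matrix n n ℂ) :
    LibSch.sn p ((c : ℂ) • M) = |c| * LibSch.sn p M := by
  obtain ⟨U, hU, x, hx, hUx⟩ := ud_exists_nonneg (Mᴴ * M) (posSemidef_conjTranspose_mul_self M)
  have h1 : ((c : ℂ) • M)ᴴ * ((c : ℂ) • M) = ud U fun k => c ^ 2 * x k := by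
    have h2 : dg (fun k => c ^ 2 * x k) = ((c ^ 2 : ℝ) : ℂ) • dg x := by
      ext i j
      by_cases hij : i = j
      · simp [dg, hij]
      · simp [dg, hij]
    rw [conjTranspose_smul, Complex.star_def, Complex.conj_ofReal, Matrix.smul_mul,
      Matrix.mul_smul, hUx, smul_smul]
    unfold ud
    rw [h2, Matrix.mul_smul, Matrix.smul_mul]
    congr 1
    push_cast
    ring
  unfold LibSch.sn
  rw [pw_ud p _ U hU _ h1, pw_ud p M U hU x hUx]
  have h3 : ∑ k, (c ^ 2 * x k) ^ (p / 2) = |c| ^ p * ∑ k, x k ^ (p / 2) := by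
    rw [Finset.mul_sum]
    refine Finset.sum_congr rfl fun k _ => ?_
    rw [Real.mul_rpow (sq_nonneg c) (hx k), ← sq_abs c, ← Real.rpow_natCast |c| 2,
      ← Real.rpow_mul (abs_nonneg c)]
    congr 2
    push_cast
    ring
  have h4 : 0 ≤ ∑ k, x k ^ (p / 2) := Finset.sum_nonneg fun k _ => Real.rpow_nonneg (hx k) _
  rw [h3, Real.mul_rpow (by positivity) h4, ← Real.rpow_mul (abs_nonneg c),
    mul_one_div_cancel hp.ne', Real.rpow_one]

/-- `sn p (± ε) = |ε| sn p 1` and `sn p 1 > 0`: the sums are `X + 3 δ²`, `W + 2 δ²`, `Y + 3 δ²`,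
`δ = |ε| sn p 1`; `W² ≤ X Y` (Cauchy-Schwarz) -/
theorem comp_ext [Nonempty n] (p : ℝ) (hp : 1 < p) (A B : ι → Matrix n n ℂ) (ε : ℝ) :
    ∑ j, LibSch.sn p (Sum.elim A (exA n ε) j) ^ 2 =
      ∑ j, LibSch.sn p (A j) ^ 2 + 3 * (|ε| * LibSch.sn p (1 : Matrix n n ℂ)) ^ 2 ∧
    ∑ j, LibSch.sn p (Sum.elim B (exB n ε) j) ^ 2 =
      ∑ j, LibSch.sn p (B j) ^ 2 + 3 * (|ε| * LibSch.sn p (1 : Matrix n n ℂ)) ^ 2 ∧
    ∑ j, LibSch.sn p (Sum.elim A (exA n ε) j) * LibSch.sn p (Sum.elim B (exB n ε) j) =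
      ∑ j, LibSch.sn p (A j) * LibSch.sn p (B j) +
        2 * (|ε| * LibSch.sn p (1 : Matrix n n ℂ)) ^ 2 ∧
    0 < LibSch.sn p (1 : Matrix n n ℂ) := by
  have hp0 : 0 < p := by linarith
  have h1 : LibSch.sn p ((ε : ℂ) • (1 : Matrix n n ℂ)) = |ε| * LibSch.sn p (1 : Matrix n n ℂ) :=
    f1a_sn_smul p hp0 ε 1
  have h2 : LibSch.sn p (-((ε : ℂ) • (1 : Matrix n n ℂ))) =
      |ε| * LibSch.sn p (1 : Matrix n n ℂ) := by
    have h3 : -((ε : ℂ) • (1 : Matrix n n ℂ)) = ((-ε : ℝ) : ℂ) • 1 := by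
      rw [Complex.ofReal_neg, neg_smul]
    rw [h3, f1a_sn_smul p hp0, abs_neg]
  have h0 : LibSch.sn p (0 : Matrix n n ℂ) = 0 := by
    have := f1a_sn_smul p hp0 0 (0 : Matrix n n ℂ)
    simpa using this
  obtain ⟨a0, a1, a2, a3, b0, b1, b2, b3⟩ := f1a_ex (n := n) ε
  refine ⟨?_, ?_, ?_, ?_⟩
  · simp only [Fintype.sum_sum_type, Sum.elim_inl, Sum.elim_inr, Fin.sum_univ_four]
    rw [a0, a1, a2, a3, h1, h0]
    ring
  · simp only [Fintype.sum_sum_type, Sum.elim_inl, Sum.elim_inr, Fin.sum_univ_four]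
    rw [b0, b1, b2, b3, h1, h2, h0]
    ring
  · simp only [Fintype.sum_sum_type, Sum.elim_inl, Sum.elim_inr, Fin.sum_univ_four]
    rw [a0, a1, a2, a3, b0, b1, b2, b3, h1, h2, h0]
    ring
  · unfold LibSch.sn
    refine Real.rpow_pos_of_pos ?_ _
    rw [pw_ud p (1 : Matrix n n ℂ) 1 (one_mem _) (fun _ => 1) (by
      rw [ud_one_fun, a2_dg_one, conjTranspose_one, Matrix.one_mul])]
    simp [Fintype.card_pos]

end Pool.Agent.LibSchN
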