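import Pool.Agent.LibSchN.T3b
import Pool.Agent.LibSchN.F1a

/-! **F1b.**  Arbitrary square blocks. -/

open Matrix Set MeasureTheory
open scoped ComplexOrder

namespace Pool.Agent.LibSchN

open Pool.Agent.LibSchP Pool.Agent.LibSchQ
open Pool.Agent.LibSch (lamP lamM FF)

variable {n : Type} [Fintype n] [DecidableEq n]

variable {ι : Type} [Fintype ι]

theorem f1b_sn_nonneg {m n : Type} [Fintype m] [Fintype n] [DecidableEq n] (p : ℝ)
    (M : Matrix m n ℂ) : 0 ≤ LibSch.sn p M := Real.rpow_nonneg (LibSch.pw_nonneg p M) _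

/-- `PD` after the shift -/
theorem f1b_PD {X W Y d : ℝ} (hX : 0 ≤ X) (hW : 0 ≤ W) (hY : 0 ≤ Y) (h : W ^ 2 ≤ X * Y)
    (hd : 0 < d) : PD (X + 3 * d) (W + 2 * d) (Y + 3 * d) where
  hx := by positivity
  hw := by positivity
  hy := by positivity
  hd := by
    have h1 : W ≤ (X + Y) / 2 := by
      have h2 : W ^ 2 ≤ ((X + Y) / 2) ^ 2 := by nlinarith [sq_nonneg (X - Y)]
      exact abs_le_of_sq_le_sq' h2 (by positivity) |>.2
    have h3 : 4 * (W * d) ≤ 2 * ((X + Y) * d) := by nlinarith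
    nlinarith [mul_nonneg hX hd.le, mul_nonneg hY hd.le, mul_pos hd hd]

/-- `gram_posDef` for the extended family (`ι ⊕ Fin 4`), `ε → 0+` (`LibSch.continuous_FF`,
`pw_shift_tendsto`) -/
theorem gram_all [Nonempty n] {s p : ℝ} (h1 : 1 < s) (h2 : s < 2)
    (hp : p = 2 * s / (s + 1)) (A B : ι → Matrix n n ℂ) :
    FF (p / 2) (∑ j, LibSch.sn p (A j) ^ 2) (∑ j, LibSch.sn p (B j) ^ 2)
      (∑ j, LibSch.sn p (A j) * LibSch.sn p (B j)) ≤ LibSch.pw (p / 2) (Gr A B) := by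
  have hp1 : 1 < p := by
    rw [hp, lt_div_iff₀ (by linarith)]
    linarith
  set X := ∑ j, LibSch.sn p (A j) ^ 2 with hX
  set Y := ∑ j, LibSch.sn p (B j) ^ 2 with hY
  set W := ∑ j, LibSch.sn p (A j) * LibSch.sn p (B j) with hW
  have hX0 : 0 ≤ X := Finset.sum_nonneg fun j _ => sq_nonneg _
  have hY0 : 0 ≤ Y := Finset.sum_nonneg fun j _ => sq_nonneg _
  have hW0 : 0 ≤ W := Finset.sum_nonneg fun j _ =>
    mul_nonneg (f1b_sn_nonneg p _) (f1b_sn_nonneg p _)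
  have hCS : W ^ 2 ≤ X * Y := Finset.sum_mul_sq_le_sq_mul_sq _ _ _
  set c := LibSch.sn p (1 : Matrix n n ℂ) with hc
  have hc0 : 0 < c := (comp_ext p hp1 A B 0).2.2.2
  have key : ∀ ε : ℝ, 0 < ε →
      FF (p / 2) (X + 3 * (|ε| * c) ^ 2) (Y + 3 * (|ε| * c) ^ 2) (W + 2 * (|ε| * c) ^ 2) ≤
        LibSch.pw (p / 2) (Gr A B + ((3 * ε ^ 2 : ℝ) : ℂ) • 1) := by
    intro ε hε
    obtain ⟨e1, e2, e3, -⟩ := comp_ext p hp1 A B ε
    have hG : (Gr (Sum.elim A (exA n ε)) (Sum.elim B (exB n ε))).PosDef := by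
      rw [Gr_ext]
      refine PosDef.posSemidef_add (Gr_posSemidef A B) ?_
      refine PosDef.smul PosDef.one ?_
      have : (0 : ℝ) < 3 * ε ^ 2 := by positivity
      exact_mod_cast this
    have hd : 0 < (|ε| * c) ^ 2 := by positivity
    have h5 := gram_posDef h1 h2 hp (Sum.elim A (exA n ε)) (Sum.elim B (exB n ε)) hG (by
      rw [e1, e2, e3]
      exact f1b_PD hX0 hW0 hY0 hCS hd)
    rw [e1, e2, e3, Gr_ext] at h5
    exact h5
  have hl : Filter.Tendsto (fun ε : ℝ => FF (p / 2) (X + 3 * (|ε| * c) ^ 2)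
      (Y + 3 * (|ε| * c) ^ 2) (W + 2 * (|ε| * c) ^ 2)) (nhds 0) (nhds (FF (p / 2) X Y W)) := by
    have h6 := (LibSch.continuous_FF (p / 2) (by positivity)
      (fun ε : ℝ => X + 3 * (|ε| * c) ^ 2) (fun ε : ℝ => Y + 3 * (|ε| * c) ^ 2)
      (fun ε : ℝ => W + 2 * (|ε| * c) ^ 2) (by fun_prop) (by fun_prop) (by fun_prop)).tendsto 0
    simpa using h6
  have hr := pw_shift_tendsto (p / 2) (by positivity) (Gr A B) (Gr_posSemidef A B)
  refine le_of_tendsto_of_tendsto (hl.mono_left nhdsWithin_le_nhds)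
    (hr.mono_left nhdsWithin_le_nhds) (b := nhdsWithin 0 (Ioi 0)) ?_
  filter_upwards [self_mem_nhdsWithin] with ε hε
  exact key ε hε

end Pool.Agent.LibSchN
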