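import Pool.Agent.LibSchN.Defs
import Pool.Agent.LibSch.Main

/-! **F2a.**  `pw` of the block matrix and of the compression. -/

open Matrix Set MeasureTheory
open scoped ComplexOrder

namespace Pool.Agent.LibSchN

open Pool.Agent.LibSchP Pool.Agent.LibSchQ
open Pool.Agent.LibSch (lamP lamM FF)

/-- `pw p X = pw (p/2) (X Xᴴ)` -/
theorem f2a_pw_gram {m n : Type} [Fintype m] [DecidableEq m] [Fintype n] [DecidableEq n]
    (p : ℝ) (hp : 0 < p) (X : Matrix m n ℂ) (G : Matrix m m ℂ) (h : X * Xᴴ = G) :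
    LibSch.pw p X = LibSch.pw (p / 2) G := by
  have hG : G.PosSemidef := by
    rw [← h]
    exact posSemidef_self_mul_conjTranspose X
  obtain ⟨U, hU, x, hx, hUx⟩ := ud_exists_nonneg G hG
  rw [← LibSch.pw_conjTranspose p hp X, pw_ud p Xᴴ U hU x (by
    rw [conjTranspose_conjTranspose, h, hUx]),
    pw_ud (p / 2) G U hU (fun k => x k * x k) (by rw [hG.1.eq, hUx, ud_mul U hU])]
  refine Finset.sum_congr rfl fun k _ => ?_
  rw [← sq, ← Real.rpow_natCast (x k) 2, ← Real.rpow_mul (hx k)]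
  congr 1
  push_cast
  ring

variable {N : ℕ} {m₁ m₂ : Type} {n : Fin N → Type} [Fintype m₁] [DecidableEq m₁] [Fintype m₂]
  [DecidableEq m₂] [∀ k, Fintype (n k)] [∀ k, DecidableEq (n k)]

omit [Fintype m₁] [DecidableEq m₁] [Fintype m₂] [DecidableEq m₂] [∀ k, DecidableEq (n k)] in
theorem f2a_blk_mul (A : ∀ k, Matrix m₁ (n k) ℂ) (B : ∀ k, Matrix m₂ (n k) ℂ) :
    LibSch.blk A B * (LibSch.blk A B)ᴴ = Gr A B := by
  ext i j
  rw [Matrix.mul_apply, Fintype.sum_sigma]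
  rcases i with i | i <;> rcases j with j | j <;>
    simp [Gr, LibSch.blk, Matrix.sum_apply, Matrix.mul_apply]

/-- `pw p T = pw (p/2) (T Tᴴ)`, `T Tᴴ = Gr A B` -/
theorem pw_blk_Gr (p : ℝ) (hp : 0 < p) (A : ∀ k, Matrix m₁ (n k) ℂ)
    (B : ∀ k, Matrix m₂ (n k) ℂ) : LibSch.pw p (LibSch.blk A B) = LibSch.pw (p / 2) (Gr A B) :=
  f2a_pw_gram p hp _ _ (f2a_blk_mul A B)

/-- the compression (compare `pw_comp` in `LibSch`; `pw` of a `2 × N` matrix through its Gram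
matrix) -/
theorem pw_comp_FF (p : ℝ) (hp : 0 < p) (A : ∀ k, Matrix m₁ (n k) ℂ)
    (B : ∀ k, Matrix m₂ (n k) ℂ) : LibSch.pw p (LibSch.comp p A B) =
      FF (p / 2) (∑ j, LibSch.sn p (A j) ^ 2) (∑ j, LibSch.sn p (B j) ^ 2)
        (∑ j, LibSch.sn p (A j) * LibSch.sn p (B j)) := by
  rw [LibSch.comp, LibSch.pw_two p hp]

end Pool.Agent.LibSchN
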