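import Pool.Agent.LibSchN.Defs
import Pool.Agent.LibSchQ.F6

/-! **F2b.**  Zero padding to square blocks. -/

open Matrix Set MeasureTheory
open scoped ComplexOrder

namespace Pool.Agent.LibSchN

open Pool.Agent.LibSchP Pool.Agent.LibSchQ
open Pool.Agent.LibSch (lamP lamM FF)

/-- product of two padded matrices -/
theorem f2b_mul {R m₁ m₂ n₁ a₁ a₂ b₁ : Type} [Fintype R] [DecidableEq R]
    [Fintype m₁] [Fintype m₂] [Fintype n₁] [DecidableEq n₁]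
    [Fintype a₁] [Fintype a₂] [Fintype b₁] [DecidableEq b₁]
    (e₁ : R ≃ m₁ ⊕ a₁) (f₁ : R ≃ m₂ ⊕ a₂) (e₂ : R ≃ n₁ ⊕ b₁)
    (A : Matrix m₁ n₁ ℂ) (B : Matrix m₂ n₁ ℂ) :
    f6pd e₁ e₂ A * (f6pd f₁ e₂ B)ᴴ = f6pd e₁ f₁ (A * Bᴴ) := by
  unfold f6pd
  rw [conjTranspose_submatrix, submatrix_mul_equiv, fromBlocks_conjTranspose, fromBlocks_multiply]
  simp

theorem f2b_sum {R m₁ m₂ a₁ a₂ : Type} {ι : Type} [Fintype ι] (e₁ : R ≃ m₁ ⊕ a₁)
    (f₁ : R ≃ m₂ ⊕ a₂) (A : ι → Matrix m₁ m₂ ℂ) :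
    ∑ k, f6pd e₁ f₁ (A k) = f6pd e₁ f₁ (∑ k, A k) := by
  ext i j
  rw [Matrix.sum_apply]
  rcases h1 : e₁ i with u | u <;> rcases h2 : f₁ j with v | v <;>
    simp [f6pd, h1, h2, Matrix.sum_apply]

theorem f2b_exists {R m : Type} [Fintype R] [DecidableEq R] [Fintype m] (f : m → R)
    (hf : Function.Injective f) :
    ∃ (b : Type) (_ : Fintype b) (_ : DecidableEq b), Nonempty (R ≃ m ⊕ b) := by
  classical
  exact ⟨((Set.range f)ᶜ : Set R), inferInstance, inferInstance,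
    ⟨(Equiv.Set.sumCompl (Set.range f)).symm.trans
      (Equiv.sumCongr (Equiv.ofInjective f hf).symm (Equiv.refl _))⟩⟩

variable {N : ℕ} {m₁ m₂ : Type} {n : Fin N → Type} [Fintype m₁] [DecidableEq m₁] [Fintype m₂]
  [DecidableEq m₂] [∀ k, Fintype (n k)] [∀ k, DecidableEq (n k)]

/-- zero padding to square blocks of the size `R = (m₁ ⊕ m₂) ⊕ ((Σ k, n k) ⊕ Unit)`:
`Gr` of the padded blocks (`f6pd`) is a zero padding of `Gr A B` up to reindexing, and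
`f6_sn_pd`; the equivalences `R ≃ n k ⊕ _` exist because `n k` embeds in `R`. -/
theorem pad_N (p : ℝ) (hp : 0 < p) (A : ∀ k, Matrix m₁ (n k) ℂ) (B : ∀ k, Matrix m₂ (n k) ℂ) :
    ∃ (R : Type) (_ : Fintype R) (_ : DecidableEq R) (_ : Nonempty R)
      (A' B' : Fin N → Matrix R R ℂ), (∀ k, LibSch.sn p (A' k) = LibSch.sn p (A k)) ∧
      (∀ k, LibSch.sn p (B' k) = LibSch.sn p (B k)) ∧
      LibSch.pw (p / 2) (Gr A' B') = LibSch.pw (p / 2) (Gr A B) := by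
  let R : Type := (m₁ ⊕ m₂) ⊕ ((Σ k, n k) ⊕ Unit)
  obtain ⟨a₁, _, _, ⟨e₁⟩⟩ := f2b_exists (R := R) (fun i : m₁ => Sum.inl (Sum.inl i))
    (fun _ _ h => Sum.inl_injective (Sum.inl_injective h))
  obtain ⟨a₂, _, _, ⟨f₁⟩⟩ := f2b_exists (R := R) (fun i : m₂ => Sum.inl (Sum.inr i))
    (fun _ _ h => Sum.inr_injective (Sum.inl_injective h))
  have hb : ∀ k, ∃ (b : Type) (_ : Fintype b) (_ : DecidableEq b), Nonempty (R ≃ n k ⊕ b) :=
    fun k => f2b_exists (R := R) (fun i : n k => Sum.inr (Sum.inl ⟨k, i⟩))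
      (fun _ _ h => sigma_mk_injective (Sum.inl_injective (Sum.inr_injective h)))
  choose b hb1 hb2 hb3 using hb
  have e : ∀ k, R ≃ n k ⊕ b k := fun k => (hb3 k).some
  refine ⟨R, inferInstance, inferInstance, ⟨Sum.inr (Sum.inr ())⟩,
    fun k => f6pd e₁ (e k) (A k), fun k => f6pd f₁ (e k) (B k), fun k => ?_, fun k => ?_, ?_⟩
  · exact f6_sn_pd p hp _ _ _
  · exact f6_sn_pd p hp _ _ _
  · have h : Gr (fun k => f6pd e₁ (e k) (A k)) (fun k => f6pd f₁ (e k) (B k)) =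
        fromBlocks (f6pd e₁ e₁ (∑ j, A j * (A j)ᴴ)) (f6pd e₁ f₁ (∑ j, A j * (B j)ᴴ))
          (f6pd f₁ e₁ (∑ j, B j * (A j)ᴴ)) (f6pd f₁ f₁ (∑ j, B j * (B j)ᴴ)) := by
      unfold Gr
      simp only [f2b_mul, f2b_sum]
    rw [h, f6_pw_blocks (p / 2) (by positivity)]
    rfl

end Pool.Agent.LibSchN
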