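import Pool.Agent.LibSchN.F1b
import Pool.Agent.LibSchN.F2a
import Pool.Agent.LibSchN.F2b

/-! **F2c.**  All `N`, `1 < p < 4/3`. -/

open Matrix Set MeasureTheory
open scoped ComplexOrder

namespace Pool.Agent.LibSchN

open Pool.Agent.LibSchP Pool.Agent.LibSchQ
open Pool.Agent.LibSch (lamP lamM FF)

variable {N : ℕ} {m₁ m₂ : Type} {n : Fin N → Type} [Fintype m₁] [DecidableEq m₁] [Fintype m₂]
  [DecidableEq m₂] [∀ k, Fintype (n k)] [∀ k, DecidableEq (n k)]

/-- **all `N`, `1 < p < 4/3`**: `s = p/(2-p)`, `gram_all`, `pad_N`, `pw_blk_Gr`, `pw_comp_FF` -/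
theorem all_N (p : ℝ) (h1 : 1 < p) (h2 : p < 4 / 3) (A : ∀ k, Matrix m₁ (n k) ℂ)
    (B : ∀ k, Matrix m₂ (n k) ℂ) :
    LibSch.sn p (LibSch.comp p A B) ≤ LibSch.sn p (LibSch.blk A B) := by
  have hp0 : 0 < p := by linarith
  have h2p : 0 < 2 - p := by linarith
  have hs1 : 1 < p / (2 - p) := by rw [lt_div_iff₀ h2p]; linarith
  have hs2 : p / (2 - p) < 2 := by rw [div_lt_iff₀ h2p]; linarith
  have hps : p = 2 * (p / (2 - p)) / (p / (2 - p) + 1) := by
    have h3 : p / (2 - p) + 1 = 2 / (2 - p) := by field_simp; ring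
    rw [h3]; field_simp
  have key : LibSch.pw p (LibSch.comp p A B) ≤ LibSch.pw p (LibSch.blk A B) := by
    rw [pw_comp_FF p hp0, pw_blk_Gr p hp0]
    obtain ⟨R, _, _, _, A', B', hA, hB, hG⟩ := pad_N p hp0 A B
    have h3 := gram_all hs1 hs2 hps A' B'
    rw [hG] at h3
    simp only [hA, hB] at h3
    exact h3
  unfold LibSch.sn
  exact Real.rpow_le_rpow (LibSch.pw_nonneg p _) key (by positivity)

end Pool.Agent.LibSchN
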