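import Pool.Agent.LibSchN.E3
import Pool.Agent.LibSchQ.F4

/-! **G1.**  The scalar data of a group. -/

open Matrix Set MeasureTheory
open scoped ComplexOrder

namespace Pool.Agent.LibSchN

open Pool.Agent.LibSchP Pool.Agent.LibSchQ
open Pool.Agent.LibSch (lamP lamM FF)

variable {n : Type} [Fintype n] [DecidableEq n]

/-- exponents: `p = 2s/(s+1)`, `q = 2s/(s-1)` -/
theorem expo {s p q : ℝ} (h1 : 1 < s) (h2 : s < 2) (hp : p = 2 * s / (s + 1))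
    (hq : q = 2 * s / (s - 1)) : p.HolderConjugate q ∧ 2 < q ∧ 1 < p ∧ p < 4 / 3 ∧
      q / 2 = s / (s - 1) ∧ s.HolderConjugate (q / 2) := by
  have hs0 : (0 : ℝ) < s := by linarith
  have hsp : (0 : ℝ) < s + 1 := by linarith
  have hsm : (0 : ℝ) < s - 1 := by linarith
  have hp1 : 1 < p := by
    rw [hp, lt_div_iff₀ hsp]; linarith
  have hp2 : p < 4 / 3 := by
    rw [hp, div_lt_iff₀ hsp]; linarith
  have hq2 : 2 < q := by
    rw [hq, lt_div_iff₀ hsm]; linarith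
  have hqh : q / 2 = s / (s - 1) := by
    rw [hq]; field_simp
  refine ⟨?_, hq2, hp1, hp2, hqh, ?_⟩
  · rw [Real.holderConjugate_iff]
    refine ⟨hp1, ?_⟩
    rw [hp, hq]
    field_simp
    ring
  · rw [Real.holderConjugate_iff]
    refine ⟨h1, ?_⟩
    rw [hqh]
    field_simp
    ring

/-- auxiliary: two nonnegative reals with equal squares -/
theorem g1_eq_abs {x y : ℝ} (hx : 0 ≤ x) (h : x ^ 2 = y ^ 2) : x = |y| := by
  rw [← Real.sqrt_sq hx, h, Real.sqrt_sq_eq_abs]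

/-- `Y = D⁻¹ [√α u, √β v]`, `Z = D [√α z_u, √β z_v]`, `z_u = M u`, `z_v = M v`.  With `G = D M D`
(eigenvalues `μ₁ = lamP`, `μ₂ = lamM`): `Y Yᵀ = D⁻¹ (D G^(s-1) D) D⁻¹ = G^(s-1)`, singular values
`μ_i^((s-1)/2)`; `Z Zᵀ = D M (D G^(s-1) D) M D = G^(s+1)`, singular values `μ_i^((s+1)/2)`
(`pw_m2` with the sums of squares and the determinants; `e_trace`, `e_det`, `e_mul`);
`∑ Y Z = tr M N = FN`. -/
theorem group_Sd {s p q x w y a b α β u₁ u₂ v₁ v₂ : ℝ} (h1 : 1 < s) (h2 : s < 2)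
    (hp : p = 2 * s / (s + 1)) (hq : q = 2 * s / (s - 1)) (h : PD x w y)
    (G : Grp s x w y a b α β u₁ u₂ v₁ v₂)
    (hu₁ : 0 ≤ x * u₁ + w * u₂) (hu₂ : 0 ≤ w * u₁ + y * u₂)
    (hv₁ : 0 ≤ x * v₁ + w * v₂) (hv₂ : 0 ≤ w * v₁ + y * v₂) :
    Sd p q (√α * u₁ / dl s a) (√β * v₁ / dl s a) (√α * u₂ / dl s b) (√β * v₂ / dl s b)
      (dl s a * √α * (x * u₁ + w * u₂)) (dl s a * √β * (x * v₁ + w * v₂))
      (dl s b * √α * (w * u₁ + y * u₂)) (dl s b * √β * (w * v₁ + y * v₂))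
      (FN s a b x w y) := by
  obtain ⟨hconj, hq2, hp1, hp2, hqh, -⟩ := expo h1 h2 hp hq
  have hsp : (0 : ℝ) < s + 1 := by linarith
  have hsm : (0 : ℝ) < s - 1 := by linarith
  have hd1 := dl_pos s a G.ha
  have hd2 := dl_pos s b G.hb
  have hFN := FN_eq h s a b G.ha G.hb
  have hG := PD_scale h (dl s a) (dl s b) hd1 hd2
  have hα2 : √α ^ 2 = α := Real.sq_sqrt G.hα.le
  have hβ2 : √β ^ 2 = β := Real.sq_sqrt G.hβ.le
  have g11 := G.g11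
  have g12 := G.g12
  have g22 := G.g22
  have hFNdef : FN s a b x w y = lamP (dl s a ^ 2 * x) (dl s b ^ 2 * y) (dl s a * dl s b * w) ^ s
      + lamM (dl s a ^ 2 * x) (dl s b ^ 2 * y) (dl s a * dl s b * w) ^ s := rfl
  rw [N11] at g11
  rw [N12] at g12
  rw [N22] at g22
  rw [N11, N12, N22] at hFN
  rw [hFNdef] at hFN
  rw [hFNdef]
  set d₁ := dl s a with hd₁
  set d₂ := dl s b with hd₂
  set X := d₁ ^ 2 * x with hX
  set Y := d₂ ^ 2 * y with hY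
  set W := d₁ * d₂ * w with hW
  obtain ⟨hM, hMP, hsum, hprod⟩ := lam_facts hG
  have htr1 := e_trace hG (s - 1)
  have hdet1 := e_det hG (s - 1)
  have htr2 := e_trace hG (s + 1)
  obtain ⟨mm1, mm2, mm3, mm4⟩ := e_mul hG 1 (s - 1)
  obtain ⟨n1, n2, n3, n4⟩ := e_mul hG s 1
  obtain ⟨o1, o2, o3⟩ := e_one hG
  rw [show (1 : ℝ) + (s - 1) = s by ring] at mm1 mm2 mm3 mm4
  rw [o1, o2] at mm1 mm2
  rw [o2, o3] at mm3 mm4
  rw [o1, o2] at n1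
  rw [o2, o3] at n4
  set μ := lamP X Y W with hμ
  set ν := lamM X Y W with hν
  have hμ0 : 0 < μ := hM.trans hMP
  set E11 := e11 (s - 1) X W Y with hE11
  set E12 := e12 (s - 1) X W Y with hE12
  set E22 := e22 (s - 1) X W Y with hE22
  -- square roots of `α`, `β`
  set A := √α with hA
  set B := √β with hB
  rw [← hα2, ← hβ2] at g11 g12 g22
  clear_value d₁ d₂ A B
  have hpw : ∀ (m : ℝ), 0 < m → ∀ t : ℝ, (m ^ (t / 2)) ^ 2 = m ^ t := by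
    intro m hm t
    rw [← Real.rpow_natCast, ← Real.rpow_mul hm.le]
    congr 1
    push_cast
    ring
  have hpwm : ∀ t : ℝ, μ ^ t * ν ^ t = (μ * ν) ^ t := fun t =>
    (Real.mul_rpow hμ0.le hM.le).symm
  have hdet0 : 0 < X * Y - W ^ 2 := by
    have := hG.hd
    linarith
  have hYpw : LibSch.pw q (m2 (A * u₁ / d₁) (B * v₁ / d₁) (A * u₂ / d₂) (B * v₂ / d₂))
      = μ ^ s + ν ^ s := by
    rw [pw_m2 q (by linarith) _ _ _ _ (μ ^ ((s - 1) / 2)) (ν ^ ((s - 1) / 2))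
      (Real.rpow_nonneg hμ0.le _) (Real.rpow_nonneg hM.le _)]
    · rw [← Real.rpow_mul hμ0.le, ← Real.rpow_mul hM.le,
        show (s - 1) / 2 * q = s by rw [hq]; field_simp]
    · rw [hpw μ hμ0, hpw ν hM, ← htr1]
      have e1 : E11 = (A * u₁ / d₁) ^ 2 + (B * v₁ / d₁) ^ 2 := by
        field_simp
        linarith
      have e2 : E22 = (A * u₂ / d₂) ^ 2 + (B * v₂ / d₂) ^ 2 := by
        field_simp
        linarith
      rw [e1, e2]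
      ring
    · apply g1_eq_abs (by positivity)
      rw [mul_pow, hpw μ hμ0, hpw ν hM, hpwm, hprod, ← hdet1]
      have e1 : E11 = (A * u₁ / d₁) ^ 2 + (B * v₁ / d₁) ^ 2 := by
        field_simp
        linarith
      have e2 : E22 = (A * u₂ / d₂) ^ 2 + (B * v₂ / d₂) ^ 2 := by
        field_simp
        linarith
      have e3 : E12 = (A * u₁ / d₁) * (A * u₂ / d₂) + (B * v₁ / d₁) * (B * v₂ / d₂) := by
        field_simp
        linarith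
      rw [e1, e2, e3]
      ring
  have f1 : e11 (s + 1) X W Y = X ^ 2 * E11 + 2 * X * W * E12 + W ^ 2 * E22 := by
    rw [n1, mm1, mm2]; ring
  have f2 : e22 (s + 1) X W Y = W ^ 2 * E11 + 2 * W * Y * E12 + Y ^ 2 * E22 := by
    rw [n4, mm3, mm4]; ring
  have k1 : d₁ ^ 2 * E11 = A ^ 2 * u₁ ^ 2 + B ^ 2 * v₁ ^ 2 := g11.symm
  have k2 : d₂ ^ 2 * E22 = A ^ 2 * u₂ ^ 2 + B ^ 2 * v₂ ^ 2 := g22.symm
  have k3 : d₁ * d₂ * E12 = A ^ 2 * (u₁ * u₂) + B ^ 2 * (v₁ * v₂) := g12.symm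
  have hZpw : LibSch.pw p (m2 (d₁ * A * (x * u₁ + w * u₂)) (d₁ * B * (x * v₁ + w * v₂))
      (d₂ * A * (w * u₁ + y * u₂)) (d₂ * B * (w * v₁ + y * v₂))) = μ ^ s + ν ^ s := by
    rw [pw_m2 p (by linarith) _ _ _ _ (μ ^ ((s + 1) / 2)) (ν ^ ((s + 1) / 2))
      (Real.rpow_nonneg hμ0.le _) (Real.rpow_nonneg hM.le _)]
    · rw [← Real.rpow_mul hμ0.le, ← Real.rpow_mul hM.le,
        show (s + 1) / 2 * p = s by rw [hp]; field_simp]
    · rw [hpw μ hμ0, hpw ν hM, ← htr2, f1, f2]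
      have e1 : X ^ 2 * E11 = d₁ ^ 2 * x ^ 2 * (A ^ 2 * u₁ ^ 2 + B ^ 2 * v₁ ^ 2) := by
        rw [← k1, hX]; ring
      have e2 : W ^ 2 * E22 = d₁ ^ 2 * w ^ 2 * (A ^ 2 * u₂ ^ 2 + B ^ 2 * v₂ ^ 2) := by
        rw [← k2, hW]; ring
      have e3 : X * W * E12 = d₁ ^ 2 * x * w * (A ^ 2 * (u₁ * u₂) + B ^ 2 * (v₁ * v₂)) := by
        rw [← k3, hX, hW]; ring
      have e4 : W ^ 2 * E11 = d₂ ^ 2 * w ^ 2 * (A ^ 2 * u₁ ^ 2 + B ^ 2 * v₁ ^ 2) := by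
        rw [← k1, hW]; ring
      have e5 : Y ^ 2 * E22 = d₂ ^ 2 * y ^ 2 * (A ^ 2 * u₂ ^ 2 + B ^ 2 * v₂ ^ 2) := by
        rw [← k2, hY]; ring
      have e6 : W * Y * E12 = d₂ ^ 2 * w * y * (A ^ 2 * (u₁ * u₂) + B ^ 2 * (v₁ * v₂)) := by
        rw [← k3, hY, hW]; ring
      linear_combination e1 + e2 + 2 * e3 + e4 + e5 + 2 * e6
    · apply g1_eq_abs (by positivity)
      rw [mul_pow, hpw μ hμ0, hpw ν hM, hpwm, hprod,
        show s + 1 = (s - 1) + 2 by ring, Real.rpow_add hdet0, Real.rpow_two, ← hdet1]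
      have e0 : d₁ ^ 2 * d₂ ^ 2 * (E11 * E22 - E12 ^ 2)
          = (A ^ 2 * u₁ ^ 2 + B ^ 2 * v₁ ^ 2) * (A ^ 2 * u₂ ^ 2 + B ^ 2 * v₂ ^ 2)
            - (A ^ 2 * (u₁ * u₂) + B ^ 2 * (v₁ * v₂)) ^ 2 := by
        rw [← k1, ← k2, ← k3]; ring
      have e7 : X * Y - W ^ 2 = d₁ ^ 2 * d₂ ^ 2 * (x * y - w ^ 2) := by
        rw [hX, hY, hW]; ring
      rw [e7]
      linear_combination d₁ ^ 2 * d₂ ^ 2 * (x * y - w ^ 2) ^ 2 * e0
  refine ⟨hconj, hq2, hYpw, hZpw, ?_, ?_, ?_, ?_, ?_⟩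
  · rw [hFN, g11.symm, g12.symm, g22.symm]
    field_simp
    ring
  · rw [hA]; positivity
  · rw [hB]; positivity
  · rw [hA]; positivity
  · rw [hB]; positivity

end Pool.Agent.LibSchN
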