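import Pool.Agent.LibSchN.G1

/-! **G2a.**  Young for a group. -/

open Matrix Set MeasureTheory
open scoped ComplexOrder

namespace Pool.Agent.LibSchN

open Pool.Agent.LibSchP Pool.Agent.LibSchQ
open Pool.Agent.LibSch (lamP lamM FF)

variable {n : Type} [Fintype n] [DecidableEq n]

/-- `pw r (M Mᴴ) = pw (2 r) M` -/
theorem pw_mul_self (r : ℝ) (hr : 0 < r) {m : Type} [Fintype m] [DecidableEq m]
    (M : Matrix m m ℂ) : LibSch.pw r (M * Mᴴ) = LibSch.pw (2 * r) M := by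
  obtain ⟨U, hU, x, hx, h⟩ := ud_exists_nonneg (M * Mᴴ) (posSemidef_self_mul_conjTranspose M)
  rw [h, k2_pw_ud r U hU x hx, ← LibSch.pw_conjTranspose (2 * r) (by linarith) M,
    pw_ud (2 * r) Mᴴ U hU x (by rw [conjTranspose_conjTranspose, h])]
  refine Finset.sum_congr rfl fun k _ => ?_
  congr 1
  ring

theorem g2a_trace (A B C D : Matrix n n ℂ) :
    trace (fromBlocks A B C D) = trace A + trace D := by
  simp only [trace, Fintype.sum_sum_type, diag_apply, fromBlocks_apply₁₁, fromBlocks_apply₂₂]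

/-- the quadratic form of a Hermitian block matrix -/
theorem g2a_quad (P : Matrix (n ⊕ n) (n ⊕ n) ℂ) (hP : P.IsHermitian) (S T A B : Matrix n n ℂ) :
    (trace ((fromBlocks S A T B)ᴴ * P * fromBlocks S A T B)).re = QP P S T + QP P A B := by
  have h21 : P.toBlocks₂₁ = P.toBlocks₁₂ᴴ := by
    ext i j
    have := congrFun (congrFun hP (Sum.inr i)) (Sum.inl j)
    simpa [toBlocks₂₁, toBlocks₁₂] using this.symm
  have hre : ∀ X Y : Matrix n n ℂ, (trace (Yᴴ * P.toBlocks₂₁ * X)).re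
      = (trace (Xᴴ * P.toBlocks₁₂ * Y)).re := by
    intro X Y
    have : (Yᴴ * P.toBlocks₂₁ * X) = (Xᴴ * P.toBlocks₁₂ * Y)ᴴ := by
      rw [conjTranspose_mul, conjTranspose_mul, conjTranspose_conjTranspose, h21,
        Matrix.mul_assoc]
    rw [this, trace_conjTranspose]
    simp
  have e : (fromBlocks S A T B)ᴴ * P * fromBlocks S A T B = (fromBlocks S A T B)ᴴ *
      fromBlocks P.toBlocks₁₁ P.toBlocks₁₂ P.toBlocks₂₁ P.toBlocks₂₂ * fromBlocks S A T B := by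
    rw [fromBlocks_toBlocks]
  rw [e, fromBlocks_conjTranspose, fromBlocks_multiply, fromBlocks_multiply, g2a_trace]
  simp only [Matrix.add_mul, trace_add, Complex.add_re]
  rw [hre S T, hre A B]
  unfold QP
  ring

theorem g2a_QP_smul (P : Matrix (n ⊕ n) (n ⊕ n) ℂ) (S T : Matrix n n ℂ) (r : ℝ) :
    QP P ((r : ℂ) • S) ((r : ℂ) • T) = r ^ 2 * QP P S T := by
  have h : ∀ X Y Z : Matrix n n ℂ, (trace (((r : ℂ) • X)ᴴ * Y * ((r : ℂ) • Z))).re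
      = r ^ 2 * (trace (Xᴴ * Y * Z)).re := by
    intro X Y Z
    rw [conjTranspose_smul, Matrix.smul_mul, Matrix.smul_mul, Matrix.mul_smul, trace_smul,
      trace_smul, smul_eq_mul, smul_eq_mul, ← mul_assoc]
    have : (star (r : ℂ) * (r : ℂ)) = ((r ^ 2 : ℝ) : ℂ) := by
      rw [Complex.star_def, Complex.conj_ofReal]
      push_cast
      ring
    rw [this, Complex.re_ofReal_mul]
  unfold QP
  rw [h, h, h]
  ring

/-- `tr (D P D) 𝕊 𝕊ᴴ`, `𝕊 = fromBlocks (√α/d₁ S₁) (√β/d₁ A₁) (√α/d₂ S₂) (√β/d₂ A₂)`, is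
`α QP P S₁ S₂ + β QP P A₁ A₂` (`P₂₁ = P₁₂ᴴ`); Young: `trace_young s (q/2)` for `D P D` and `𝕊 𝕊ᴴ`,
`pw_mul_self`. -/
theorem group_young {s p q : ℝ} (h1 : 1 < s) (h2 : s < 2) (hp : p = 2 * s / (s + 1))
    (hq : q = 2 * s / (s - 1)) {P : Matrix (n ⊕ n) (n ⊕ n) ℂ} (hP : P.PosDef) (a b α β : ℝ)
    (ha : 0 < a) (hb : 0 < b) (hα : 0 < α) (hβ : 0 < β) (S₁ S₂ A₁ A₂ : Matrix n n ℂ) :
    α * QP P S₁ S₂ + β * QP P A₁ A₂ ≤ 1 / s * Fm s a b P + (s - 1) / s *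
      LibSch.pw q (fromBlocks (((√α / dl s a : ℝ) : ℂ) • S₁) (((√β / dl s a : ℝ) : ℂ) • A₁)
        (((√α / dl s b : ℝ) : ℂ) • S₂) (((√β / dl s b : ℝ) : ℂ) • A₂)) := by
  obtain ⟨-, hq2, -, -, hqh, hconj⟩ := expo h1 h2 hp hq
  have hs0 : 0 < s := by linarith
  have hd1 := dl_pos s a ha
  have hd2 := dl_pos s b hb
  set d₁ := dl s a with hd₁
  set d₂ := dl s b with hd₂
  set SS : Matrix (n ⊕ n) (n ⊕ n) ℂ := fromBlocks (((√α / d₁ : ℝ) : ℂ) • S₁)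
    (((√β / d₁ : ℝ) : ℂ) • A₁) (((√α / d₂ : ℝ) : ℂ) • S₂) (((√β / d₂ : ℝ) : ℂ) • A₂) with hSS
  have hDH : (DD n d₁ d₂)ᴴ = DD n d₁ d₂ := by
    unfold DD
    rw [fromBlocks_conjTranspose, conjTranspose_smul, conjTranspose_smul, conjTranspose_zero,
      conjTranspose_one]
    simp
  have hDS : DD n d₁ d₂ * SS = fromBlocks ((√α : ℂ) • S₁) ((√β : ℂ) • A₁) ((√α : ℂ) • S₂)
      ((√β : ℂ) • A₂) := by
    have hc : ∀ (d : ℝ), 0 < d → ∀ (t : ℝ), (d : ℂ) * ((t / d : ℝ) : ℂ) = (t : ℂ) := by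
      intro d hd t
      rw [← Complex.ofReal_mul, mul_div_cancel₀ _ hd.ne']
    rw [hSS]
    unfold DD
    rw [fromBlocks_multiply]
    simp only [Matrix.smul_mul, Matrix.one_mul, Matrix.zero_mul, add_zero, zero_add, smul_smul,
      hc d₁ hd1, hc d₂ hd2]
  have hGH : (DD n d₁ d₂ * P * DD n d₁ d₂)ᴴ = DD n d₁ d₂ * P * DD n d₁ d₂ := by
    rw [conjTranspose_mul, conjTranspose_mul, hDH, hP.1.eq, Matrix.mul_assoc]
  have hy := trace_young s (q / 2) hconj (DD n d₁ d₂ * P * DD n d₁ d₂) (SS * SSᴴ)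
  rw [hGH, pw_mul_self (q / 2) (by linarith) SS, show 2 * (q / 2) = q by ring] at hy
  have htr : trace (DD n d₁ d₂ * P * DD n d₁ d₂ * (SS * SSᴴ))
      = trace ((DD n d₁ d₂ * SS)ᴴ * P * (DD n d₁ d₂ * SS)) := by
    rw [conjTranspose_mul, hDH]
    rw [show DD n d₁ d₂ * P * DD n d₁ d₂ * (SS * SSᴴ)
      = (DD n d₁ d₂ * P * DD n d₁ d₂ * SS) * SSᴴ by simp only [Matrix.mul_assoc], trace_mul_comm]
    simp only [Matrix.mul_assoc]
  rw [htr, hDS, g2a_quad P hP.1, g2a_QP_smul, g2a_QP_smul, Real.sq_sqrt hα.le,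
    Real.sq_sqrt hβ.le] at hy
  refine hy.trans (le_of_eq ?_)
  unfold Fm
  rw [hqh, ← hd₁, ← hd₂]
  field_simp

end Pool.Agent.LibSchN
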