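import Pool.Agent.LibSchN.G2a
import Pool.Agent.LibSchQ.F1b
import Pool.Agent.LibSchQ.F5

/-! **G2b.**  The inequality for a group. -/

open Matrix Set MeasureTheory
open scoped ComplexOrder

namespace Pool.Agent.LibSchN

open Pool.Agent.LibSchP Pool.Agent.LibSchQ
open Pool.Agent.LibSch (lamP lamM FF)

variable {n : Type} [Fintype n] [DecidableEq n]

theorem g2b_abs {d r v : ℝ} (hd : 0 < d) (hr : 0 < r) : |r * v / d| = r / d * |v| := by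
  rw [abs_div, abs_mul, abs_of_pos hr, abs_of_pos hd]
  ring

/-- scaling of the penalty: `λ_G = d √β z / |√β v / d|^(q-1)` -/
theorem g2b_scale {q d r v z : ℝ} (hd : 0 < d) (hr : 0 < r) (hv : v < 0) (T : ℝ) :
    d * r * z / |r * v / d| ^ (q - 1) * ((r / d) ^ q * T)
      = r ^ 2 * (z / |v| ^ (q - 1)) * T := by
  have hva : 0 < |v| := abs_pos.2 hv.ne
  have hrd : 0 < r / d := div_pos hr hd
  rw [g2b_abs hd hr, Real.mul_rpow hrd.le hva.le]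
  have e2 : (r / d) ^ q = (r / d) ^ (q - 1) * (r / d) := by
    have h3 := Real.rpow_add hrd (q - 1) 1
    rw [Real.rpow_one] at h3
    rw [← h3]
    congr 1
    ring
  have h1 : (r / d) ^ (q - 1) ≠ 0 := (Real.rpow_pos_of_pos hrd _).ne'
  have h2 : |v| ^ (q - 1) ≠ 0 := (Real.rpow_pos_of_pos hva _).ne'
  rw [e2]
  field_simp

theorem g2b_pw {q : ℝ} (hq : 0 < q) {r d u : ℝ} (hr : 0 < r) (hd : 0 < d) (hu : 0 < u)
    (S : Matrix n n ℂ) (h : LibSch.pw q S = u ^ q) :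
    LibSch.pw q (((r / d : ℝ) : ℂ) • S) = (r * u / d) ^ q := by
  have hrd : 0 < r / d := div_pos hr hd
  rw [LibSchQ.pw_smul q hq, h, abs_of_pos hrd, ← Real.mul_rpow hrd.le hu.le]
  congr 1
  ring

theorem g2b_unit {r d : ℝ} (hr : 0 < r) (hd : 0 < d) (S : Matrix n n ℂ) (h : IsUnit S.det) :
    IsUnit (((r / d : ℝ) : ℂ) • S).det := by
  rw [det_smul]
  refine IsUnit.mul (IsUnit.pow _ ?_) h
  rw [isUnit_iff_ne_zero, Complex.ofReal_ne_zero]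
  exact (div_pos hr hd).ne'

/-- the final computation -/
theorem g2b_final {s q α β d r v z A B Fm' FN' PQ T TG : ℝ} (h1 : 1 < s)
    (hq : q = 2 * s / (s - 1)) (hd : 0 < d) (hr : 0 < r) (hβ : r ^ 2 = β) (hv : v < 0)
    (hTG : TG = (r / d) ^ q * T)
    (hX : PQ + d * r * z / |r * v / d| ^ (q - 1) * TG ≤
      FN' + d * r * z / |r * v / d| ^ (q - 1) * |r * v / d| ^ q)
    (hY : α * A + β * B ≤ 1 / s * Fm' + (s - 1) / s * PQ) :
    α * A + β * (B + lamf q v z * T) ≤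
      1 / s * Fm' + (s - 1) / s * FN' + β * (lamf q v z * |v| ^ q) := by
  have hrd : 0 < r / d := div_pos hr hd
  have e1 : |r * v / d| ^ q = (r / d) ^ q * |v| ^ q := by
    rw [g2b_abs hd hr, Real.mul_rpow hrd.le (abs_nonneg _)]
  rw [hTG, e1, g2b_scale hd hr hv, g2b_scale hd hr hv, hβ] at hX
  have hs : (0 : ℝ) < s - 1 := by linarith
  have hs0 : (0 : ℝ) < s := by linarith
  have e2 : lamf q v z = (s - 1) / s * (z / |v| ^ (q - 1)) := by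
    unfold lamf
    rw [if_pos hv]
    congr 1
    rw [hq]
    field_simp
  rw [e2]
  have h3 := mul_le_mul_of_nonneg_left hX (div_pos hs hs0).le
  nlinarith [h3, hY]

/-- **group inequality**, second entry of the bad column negative: `exists_corner` for `group_Sd`
with the blocks `√α/d₁ S₁`, `√β/d₁ A₁`, `√α/d₂ S₂` gives `X_G`; `X = d₂/√β X_G`; `group_young`;
`lam_G = z_G / |y_G|^(q-1)` and
`(s-1)/s lam_G pw q X_G = β lamf pw q X`, `(s-1)/s lam_G |y_G|^q = β lamf |v₂|^q`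
(`(s-1)/s = 2/q`). -/
theorem group_two {s p q x w y a b α β u₁ u₂ v₁ v₂ : ℝ} (h1 : 1 < s) (h2 : s < 2)
    (hp : p = 2 * s / (s + 1)) (hq : q = 2 * s / (s - 1)) (h : PD x w y)
    (G : Grp s x w y a b α β u₁ u₂ v₁ v₂)
    (hu₁ : 0 < u₁) (hu₂ : 0 < u₂) (hv₁ : 0 < v₁) (hv₂ : v₂ < 0)
    (hz₁ : 0 ≤ x * v₁ + w * v₂) (hz₂ : 0 ≤ w * v₁ + y * v₂)
    {P : Matrix (n ⊕ n) (n ⊕ n) ℂ} (hP : P.PosDef) (S₁ S₂ A₁ : Matrix n n ℂ)
    (d₁ : IsUnit S₁.det) (d₂ : IsUnit S₂.det) (d₃ : IsUnit A₁.det)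
    (p₁ : LibSch.pw q S₁ = u₁ ^ q) (p₂ : LibSch.pw q S₂ = u₂ ^ q)
    (p₃ : LibSch.pw q A₁ = v₁ ^ q) :
    ∃ X : Matrix n n ℂ, α * QP P S₁ S₂ + β * (QP P A₁ X +
        lamf q v₂ (w * v₁ + y * v₂) * LibSch.pw q X) ≤
      1 / s * Fm s a b P + (s - 1) / s * FN s a b x w y +
        β * (lamf q v₂ (w * v₁ + y * v₂) * |v₂| ^ q) := by
  obtain ⟨_, hq2, _⟩ := expo h1 h2 hp hq
  have hq0 : 0 < q := by linarith
  have ha := dl_pos s a G.ha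
  have hb := dl_pos s b G.hb
  have hα := Real.sqrt_pos.2 G.hα
  have hβ := Real.sqrt_pos.2 G.hβ
  have hx := h.hx
  have hw := h.hw
  have hy := h.hy
  have D := group_Sd h1 h2 hp hq h G (by positivity) (by positivity) hz₁ hz₂
  obtain ⟨XG, hXG⟩ := exists_corner D (div_pos (mul_pos hα hu₁) ha) (div_pos (mul_pos hβ hv₁) ha)
    (div_pos (mul_pos hα hu₂) hb) (div_neg_of_neg_of_pos (mul_neg_of_pos_of_neg hβ hv₂) hb)
    (((√α / dl s a : ℝ) : ℂ) • S₁) (((√β / dl s a : ℝ) : ℂ) • A₁)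
    (((√α / dl s b : ℝ) : ℂ) • S₂) (g2b_unit hα ha S₁ d₁) (g2b_unit hβ ha A₁ d₃)
    (g2b_unit hα hb S₂ d₂) (g2b_pw hq0 hα ha hu₁ S₁ p₁) (g2b_pw hq0 hβ ha hv₁ A₁ p₃)
    (g2b_pw hq0 hα hb hu₂ S₂ p₂)
  set X : Matrix n n ℂ := ((dl s b / √β : ℝ) : ℂ) • XG with hX
  have hXX : ((√β / dl s b : ℝ) : ℂ) • X = XG := by
    rw [hX, smul_smul, ← Complex.ofReal_mul]
    have e : √β / dl s b * (dl s b / √β) = 1 := by
      field_simp
    rw [e, Complex.ofReal_one, one_smul]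
  have hY := group_young h1 h2 hp hq hP a b α β G.ha G.hb G.hα G.hβ S₁ S₂ A₁ X
  rw [hXX] at hY
  refine ⟨X, g2b_final h1 hq hb hβ (Real.sq_sqrt G.hβ.le) hv₂ ?_ hXG hY⟩
  rw [← hXX, LibSchQ.pw_smul q hq0, abs_of_pos (div_pos hβ hb)]

/-- first entry negative: the same with the rows exchanged (`Sd_swap_row`, `pw_swap_row`) -/
theorem group_one {s p q x w y a b α β u₁ u₂ v₁ v₂ : ℝ} (h1 : 1 < s) (h2 : s < 2)
    (hp : p = 2 * s / (s + 1)) (hq : q = 2 * s / (s - 1)) (h : PD x w y)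
    (G : Grp s x w y a b α β u₁ u₂ v₁ v₂)
    (hu₁ : 0 < u₁) (hu₂ : 0 < u₂) (hv₁ : v₁ < 0) (hv₂ : 0 < v₂)
    (hz₁ : 0 ≤ x * v₁ + w * v₂) (hz₂ : 0 ≤ w * v₁ + y * v₂)
    {P : Matrix (n ⊕ n) (n ⊕ n) ℂ} (hP : P.PosDef) (S₁ S₂ A₂ : Matrix n n ℂ)
    (d₁ : IsUnit S₁.det) (d₂ : IsUnit S₂.det) (d₃ : IsUnit A₂.det)
    (p₁ : LibSch.pw q S₁ = u₁ ^ q) (p₂ : LibSch.pw q S₂ = u₂ ^ q)
    (p₃ : LibSch.pw q A₂ = v₂ ^ q) :
    ∃ X : Matrix n n ℂ, α * QP P S₁ S₂ + β * (QP P X A₂ +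
        lamf q v₁ (x * v₁ + w * v₂) * LibSch.pw q X) ≤
      1 / s * Fm s a b P + (s - 1) / s * FN s a b x w y +
        β * (lamf q v₁ (x * v₁ + w * v₂) * |v₁| ^ q) := by
  obtain ⟨_, hq2, _⟩ := expo h1 h2 hp hq
  have hq0 : 0 < q := by linarith
  have ha := dl_pos s a G.ha
  have hb := dl_pos s b G.hb
  have hα := Real.sqrt_pos.2 G.hα
  have hβ := Real.sqrt_pos.2 G.hβ
  have hx := h.hx
  have hw := h.hw
  have hy := h.hy
  have D := Sd_swap_row (group_Sd h1 h2 hp hq h G (by positivity) (by positivity) hz₁ hz₂)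
  obtain ⟨XG, hXG⟩ := exists_corner D (div_pos (mul_pos hα hu₂) hb) (div_pos (mul_pos hβ hv₂) hb)
    (div_pos (mul_pos hα hu₁) ha) (div_neg_of_neg_of_pos (mul_neg_of_pos_of_neg hβ hv₁) ha)
    (((√α / dl s b : ℝ) : ℂ) • S₂) (((√β / dl s b : ℝ) : ℂ) • A₂)
    (((√α / dl s a : ℝ) : ℂ) • S₁) (g2b_unit hα hb S₂ d₂) (g2b_unit hβ hb A₂ d₃)
    (g2b_unit hα ha S₁ d₁) (g2b_pw hq0 hα hb hu₂ S₂ p₂) (g2b_pw hq0 hβ hb hv₂ A₂ p₃)
    (g2b_pw hq0 hα ha hu₁ S₁ p₁)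
  set X : Matrix n n ℂ := ((dl s a / √β : ℝ) : ℂ) • XG with hX
  have hXX : ((√β / dl s a : ℝ) : ℂ) • X = XG := by
    rw [hX, smul_smul, ← Complex.ofReal_mul]
    have e : √β / dl s a * (dl s a / √β) = 1 := by
      field_simp
    rw [e, Complex.ofReal_one, one_smul]
  have hY := group_young h1 h2 hp hq hP a b α β G.ha G.hb G.hα G.hβ S₁ S₂ X A₂
  rw [hXX, ← pw_swap_row] at hY
  refine ⟨X, g2b_final h1 hq ha hβ (Real.sq_sqrt G.hβ.le) hv₁ ?_ hXG hY⟩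
  rw [← hXX, LibSchQ.pw_smul q hq0, abs_of_pos (div_pos hβ ha)]

end Pool.Agent.LibSchN
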