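import Pool.Agent.LibSchN.G1
import Pool.Agent.LibSchTri.S11
import Pool.Agent.LibSchTri.S13

/-! **R1.**  The inequality for a good column. -/

open Matrix Set MeasureTheory
open scoped ComplexOrder

namespace Pool.Agent.LibSchN

open Pool.Agent.LibSchP Pool.Agent.LibSchQ
open Pool.Agent.LibSch (lamP lamM FF)

variable {n : Type} [Fintype n] [DecidableEq n]

omit [DecidableEq n] in
theorem r1_row (P : Matrix n n ℂ) (k : n) : ((P * Pᴴ) k k).re = ∑ l, ‖P k l‖ ^ 2 := by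
  rw [Matrix.mul_apply, Complex.re_sum]
  refine Finset.sum_congr rfl fun l _ => ?_
  rw [conjTranspose_apply, Complex.star_def, Complex.mul_conj, Complex.ofReal_re,
    Complex.normSq_eq_norm_sq]

omit [DecidableEq n] in
theorem r1_cs (P Q : Matrix n n ℂ) (k : n) :
    ‖(P * Qᴴ) k k‖ ^ 2 ≤ ((P * Pᴴ) k k).re * ((Q * Qᴴ) k k).re := by
  rw [r1_row, r1_row]
  have h1 : ‖(P * Qᴴ) k k‖ ≤ ∑ l, ‖P k l‖ * ‖Q k l‖ := by
    rw [Matrix.mul_apply]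
    refine (norm_sum_le _ _).trans (Finset.sum_le_sum fun l _ => ?_)
    rw [norm_mul, conjTranspose_apply, norm_star]
  calc ‖(P * Qᴴ) k k‖ ^ 2 ≤ (∑ l, ‖P k l‖ * ‖Q k l‖) ^ 2 :=
        pow_le_pow_left₀ (norm_nonneg _) h1 2
    _ ≤ _ := Finset.sum_mul_sq_le_sq_mul_sq _ _ _

theorem r1_pow {r c x y : ℝ} (hr : 1 ≤ r) (hc : 0 ≤ c) (hx : 0 ≤ x) (hy : 0 ≤ y)
    (h : c ^ 2 ≤ x * y) : c ^ r ≤ (x ^ r + y ^ r) / 2 := by
  have e1 : c ^ r = (c ^ 2) ^ (r / 2) := by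
    rw [← Real.rpow_natCast, ← Real.rpow_mul hc]
    congr 1
    push_cast
    ring
  have e2 : ∀ t : ℝ, 0 ≤ t → t ^ r = (t ^ (r / 2)) ^ 2 := by
    intro t ht
    rw [← Real.rpow_natCast, ← Real.rpow_mul ht]
    congr 1
    push_cast
    ring
  have e3 : (c ^ 2) ^ (r / 2) ≤ x ^ (r / 2) * y ^ (r / 2) := by
    rw [← Real.mul_rpow hx hy]
    exact Real.rpow_le_rpow (sq_nonneg _) h (by linarith)
  rw [e1, e2 x hx, e2 y hy]
  nlinarith [sq_nonneg (x ^ (r / 2) - y ^ (r / 2))]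

/-- `|A Bᴴ|_r^r ≤ (|A|_2r^2r + |B|_2r^2r)/2`: singular value decomposition `U (A Bᴴ) V = diag(c)`
(`LibSchTri.svd_sq`); `c_k = ∑_l (U A)_kl conj (Vᴴ B)_kl ≤ √(x_k y_k)` with the squared row norms
`x_k`, `y_k`; `c_k^r ≤ (x_k^r + y_k^r)/2`; `LibSchTri.diag_pow_le` for `(U A)ᴴ` and `(Vᴴ B)ᴴ`
(`LibSch.pw_conjTranspose`, `LibSch.pw_unitary`). -/
theorem pw_mul_conj_le (r : ℝ) (hr : 1 ≤ r) (A B : Matrix n n ℂ) :
    LibSch.pw r (A * Bᴴ) ≤ (LibSch.pw (2 * r) A + LibSch.pw (2 * r) B) / 2 := by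
  have hr0 : 0 < r := by linarith
  obtain ⟨U, V, c, hc, hUV⟩ := LibSchTri.svd_sq (A * Bᴴ)
  rw [k1a_diag r hr0 _ U V c hc hUV]
  set P := (U : Matrix n n ℂ) * A with hP
  set Q := (V : Matrix n n ℂ)ᴴ * B with hQ
  have hPQ : P * Qᴴ = diagonal fun k => (c k : ℂ) := by
    rw [← hUV, hP, hQ, conjTranspose_mul, conjTranspose_conjTranspose]
    simp only [Matrix.mul_assoc]
  have hPP : LibSch.pw (2 * r) Pᴴ = LibSch.pw (2 * r) A := by
    rw [LibSch.pw_conjTranspose _ (by linarith), hP]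
    have h1 := LibSch.pw_unitary (2 * r) A U 1
    rw [OneMemClass.coe_one, Matrix.mul_one] at h1
    exact h1
  have hQQ : LibSch.pw (2 * r) Qᴴ = LibSch.pw (2 * r) B := by
    rw [LibSch.pw_conjTranspose _ (by linarith), hQ]
    have h1 := LibSch.pw_unitary (2 * r) B (star V) 1
    rw [OneMemClass.coe_one, Matrix.mul_one] at h1
    exact h1
  have h1 := LibSchTri.diag_pow_le r hr Pᴴ
  have h2 := LibSchTri.diag_pow_le r hr Qᴴ
  rw [hPP, conjTranspose_conjTranspose] at h1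
  rw [hQQ, conjTranspose_conjTranspose] at h2
  have h3 : ∑ k, c k ^ r ≤ ∑ k, (((P * Pᴴ) k k).re ^ r + ((Q * Qᴴ) k k).re ^ r) / 2 := by
    refine Finset.sum_le_sum fun k _ => ?_
    apply r1_pow hr (hc k)
    · rw [r1_row]
      exact Finset.sum_nonneg fun _ _ => sq_nonneg _
    · rw [r1_row]
      exact Finset.sum_nonneg fun _ _ => sq_nonneg _
    · have h4 := r1_cs P Q k
      rw [hPQ, diagonal_apply_eq, Complex.norm_real, Real.norm_eq_abs, sq_abs] at h4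
      exact h4
  rw [← Finset.sum_div, Finset.sum_add_distrib] at h3
  linarith

theorem r1_zero {q : ℝ} (hq : 2 < q) (S : Matrix n n ℂ) (h : LibSch.pw q S = 0) : S = 0 := by
  obtain ⟨c, hc, hco⟩ := LibSchQ.pw_coercive (m := n) (n := n) q hq
  have h1 := hco S
  rw [h] at h1
  have h2 : nf S = 0 := by
    by_contra hne
    have h3 : 0 < nf S := lt_of_le_of_ne (nf_nonneg S) (Ne.symm hne)
    have h4 := mul_pos hc (Real.rpow_pos_of_pos h3 q)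
    linarith
  have h3 : fr S = 0 := by rw [← nf_sq, h2]; norm_num
  unfold fr at h3
  ext i j
  have h4 := (Finset.sum_eq_zero_iff_of_nonneg fun i _ =>
    Finset.sum_nonneg fun j _ => sq_nonneg ‖S i j‖).1 h3 i (Finset.mem_univ i)
  have h5 := (Finset.sum_eq_zero_iff_of_nonneg fun j _ => sq_nonneg ‖S i j‖).1 h4 j
    (Finset.mem_univ j)
  rw [sq_eq_zero_iff, norm_eq_zero] at h5
  exact h5

/-- the normalised case -/
theorem r1_norm {s q : ℝ} (h1 : 1 < s) (hq : q = 2 * s / (s - 1)) (hss : s.HolderConjugate (q / 2))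
    (x : ℝ) (hx : 0 < x) (X S S' : Matrix n n ℂ) (hS : LibSch.pw q S = 1)
    (hS' : LibSch.pw q S' = 1) :
    (trace (Sᴴ * X * S')).re ≤ 1 / s * (x ^ (1 - s) * LibSch.pw s X) + (s - 1) / s * x := by
  have hs0 : 0 < s := by linarith
  have hq1 : 1 ≤ q / 2 := hss.symm.lt.le
  have hq2 : 2 * (q / 2) = q := by ring
  have h2 := pw_mul_conj_le (q / 2) hq1 S' S
  rw [hq2, hS, hS'] at h2
  have h3 := trace_young s (q / 2) hss (((x⁻¹ : ℝ) : ℂ) • Xᴴ) (S' * Sᴴ)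
  have e1 : (trace ((((x⁻¹ : ℝ) : ℂ) • Xᴴ)ᴴ * (S' * Sᴴ))).re
      = x⁻¹ * (trace (Sᴴ * X * S')).re := by
    rw [conjTranspose_smul, conjTranspose_conjTranspose, Complex.star_def, Complex.conj_ofReal,
      Matrix.smul_mul, trace_smul, smul_eq_mul, Complex.re_ofReal_mul]
    congr 2
    rw [← Matrix.mul_assoc, Matrix.trace_mul_comm, ← Matrix.mul_assoc]
  have e2 : LibSch.pw s (((x⁻¹ : ℝ) : ℂ) • Xᴴ) = x ^ (-s) * LibSch.pw s X := by
    rw [LibSchQ.pw_smul s hs0, LibSch.pw_conjTranspose s hs0, abs_of_pos (inv_pos.2 hx),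
      Real.inv_rpow hx.le, Real.rpow_neg hx.le]
  rw [e1, e2] at h3
  have h4 : LibSch.pw (q / 2) (S' * Sᴴ) / (q / 2) ≤ (s - 1) / s := by
    have h5 : (s - 1) / s = 1 / (q / 2) := by
      rw [hq]
      have : s - 1 ≠ 0 := by linarith
      field_simp
    rw [h5]
    exact div_le_div_of_nonneg_right (by linarith) (by linarith)
  have h5 : x⁻¹ * (trace (Sᴴ * X * S')).re ≤ x ^ (-s) * LibSch.pw s X / s + (s - 1) / s := by
    linarith
  have h6 := mul_le_mul_of_nonneg_left h5 hx.le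
  rw [← mul_assoc, mul_inv_cancel₀ hx.ne', one_mul] at h6
  have e3 : x * x ^ (-s) = x ^ (1 - s) := by
    rw [sub_eq_add_neg, Real.rpow_add hx, Real.rpow_one]
  calc _ ≤ _ := h6
    _ = 1 / s * ((x * x ^ (-s)) * LibSch.pw s X) + (s - 1) / s * x := by ring
    _ = _ := by rw [e3]

/-- `Re tr Sᴴ X S' ≤ y y' (x^(1-s) tr |X|^s / s + (s-1)/s x)`: `y = 0` or `y' = 0`: `S = 0` or
`S' = 0` (`pw_coercive` or the definition); otherwise `S = y Ŝ`, `S' = y' Ŝ'`,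
`Re tr Ŝᴴ X Ŝ' = x Re tr (X/x) (Ŝ' Ŝᴴ) ≤ x (x^(-s) pw s X / s + (s-1)/s pw (q/2) (Ŝ' Ŝᴴ))`
(`trace_young s (q/2)`), `pw_mul_conj_le`. -/
theorem col_term {s p q : ℝ} (h1 : 1 < s) (h2 : s < 2) (hp : p = 2 * s / (s + 1))
    (hq : q = 2 * s / (s - 1)) (x : ℝ) (hx : 0 < x) (X S S' : Matrix n n ℂ) (y y' : ℝ)
    (hy : 0 ≤ y) (hy' : 0 ≤ y') (hS : LibSch.pw q S = y ^ q) (hS' : LibSch.pw q S' = y' ^ q) :
    (trace (Sᴴ * X * S')).re ≤
      y * y' * (1 / s * (x ^ (1 - s) * LibSch.pw s X) + (s - 1) / s * x) := by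
  obtain ⟨_, hq2, _, _, _, hss⟩ := expo h1 h2 hp hq
  have hq0 : 0 < q := by linarith
  rcases eq_or_lt_of_le hy with hy0 | hy0
  · rw [← hy0, Real.zero_rpow hq0.ne'] at hS
    rw [r1_zero hq2 S hS, ← hy0, conjTranspose_zero, Matrix.zero_mul, Matrix.zero_mul, trace_zero,
      zero_mul, zero_mul, Complex.zero_re]
  rcases eq_or_lt_of_le hy' with hy0' | hy0'
  · rw [← hy0', Real.zero_rpow hq0.ne'] at hS'
    rw [r1_zero hq2 S' hS', ← hy0', Matrix.mul_zero, trace_zero, mul_zero, zero_mul,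
      Complex.zero_re]
  have hnorm : ∀ (t : ℝ) (R : Matrix n n ℂ), 0 < t → LibSch.pw q R = t ^ q →
      LibSch.pw q (((t⁻¹ : ℝ) : ℂ) • R) = 1 := by
    intro t R ht hR
    rw [LibSchQ.pw_smul q hq0, hR, abs_of_pos (inv_pos.2 ht), ← Real.mul_rpow (inv_pos.2 ht).le
      ht.le, inv_mul_cancel₀ ht.ne', Real.one_rpow]
  have h3 := r1_norm h1 hq hss x hx X _ _ (hnorm y S hy0 hS) (hnorm y' S' hy0' hS')
  have e1 : (trace ((((y⁻¹ : ℝ) : ℂ) • S)ᴴ * X * (((y'⁻¹ : ℝ) : ℂ) • S'))).re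
      = y'⁻¹ * (y⁻¹ * (trace (Sᴴ * X * S')).re) := by
    rw [conjTranspose_smul, Complex.star_def, Complex.conj_ofReal, Matrix.smul_mul,
      Matrix.smul_mul, Matrix.mul_smul, trace_smul, trace_smul, smul_eq_mul, smul_eq_mul,
      Complex.re_ofReal_mul, Complex.re_ofReal_mul]
    ring
  rw [e1] at h3
  have h4 := mul_le_mul_of_nonneg_left h3 (mul_pos hy0 hy0').le
  have e2 : y * y' * (y'⁻¹ * (y⁻¹ * (trace (Sᴴ * X * S')).re)) = (trace (Sᴴ * X * S')).re := by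
    field_simp
  rw [e2] at h4
  exact h4

/-- **good column** -/
theorem col_good {s p q x w y : ℝ} (h1 : 1 < s) (h2 : s < 2) (hp : p = 2 * s / (s + 1))
    (hq : q = 2 * s / (s - 1)) (h : PD x w y) (P : Matrix (n ⊕ n) (n ⊕ n) ℂ)
    (S₁ S₂ : Matrix n n ℂ) (u₁ u₂ : ℝ) (hu₁ : 0 ≤ u₁) (hu₂ : 0 ≤ u₂)
    (p₁ : LibSch.pw q S₁ = u₁ ^ q) (p₂ : LibSch.pw q S₂ = u₂ ^ q) :
    QP P S₁ S₂ ≤
      u₁ ^ 2 * (1 / s * (x ^ (1 - s) * LibSch.pw s P.toBlocks₁₁) + (s - 1) / s * x) +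
      2 * (u₁ * u₂ * (1 / s * (w ^ (1 - s) * LibSch.pw s P.toBlocks₁₂) + (s - 1) / s * w)) +
      u₂ ^ 2 * (1 / s * (y ^ (1 - s) * LibSch.pw s P.toBlocks₂₂) + (s - 1) / s * y) := by
  have e1 := col_term h1 h2 hp hq x h.hx P.toBlocks₁₁ S₁ S₁ u₁ u₁ hu₁ hu₁ p₁ p₁
  have e2 := col_term h1 h2 hp hq w h.hw P.toBlocks₁₂ S₁ S₂ u₁ u₂ hu₁ hu₂ p₁ p₂
  have e3 := col_term h1 h2 hp hq y h.hy P.toBlocks₂₂ S₂ S₂ u₂ u₂ hu₂ hu₂ p₂ p₂
  unfold QP
  rw [sq, sq]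
  linarith

end Pool.Agent.LibSchN
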