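import Pool.Agent.LibSchN.B4
import Pool.Agent.LibSchN.E2

/-! **S1.**  The scalar case `n = Unit`: superadditivity and monotonicity of `N`. -/

open Matrix Set MeasureTheory
open scoped ComplexOrder

namespace Pool.Agent.LibSchN

open Pool.Agent.LibSchP Pool.Agent.LibSchQ
open Pool.Agent.LibSch (lamP lamM FF)

theorem s1_det_pos {x w y : ℝ} (h : PD x w y) (u₁ u₂ : ℝ) (h₁ : 0 < u₁) (h₂ : 0 < u₂) :
    0 < (x + u₁) * (y + u₂) - w ^ 2 := by
  have := h.hd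
  nlinarith [mul_pos h.hx h₂, mul_pos h.hy h₁, mul_pos h₁ h₂]

theorem s1_pw_one (s : ℝ) (c : ℝ) (hc : 0 ≤ c) :
    LibSch.pw s ((c : ℂ) • (1 : Matrix Unit Unit ℂ)) = c ^ s := by
  have e : ((c : ℂ) • (1 : Matrix Unit Unit ℂ)) = ud (1 : Matrix Unit Unit ℂ) fun _ => c := by
    ext i j
    simp [ud, dg]
  rw [e, k2_pw_ud s 1 (one_mem _) _ fun _ => hc]
  simp

theorem s1_PD_scale {x w y : ℝ} (h : PD x w y) (d₁ d₂ : ℝ) (h₁ : 0 < d₁) (h₂ : 0 < d₂) :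
    PD (d₁ ^ 2 * x) (d₁ * d₂ * w) (d₂ ^ 2 * y) := by
  refine ⟨mul_pos (pow_pos h₁ 2) h.hx, mul_pos (mul_pos h₁ h₂) h.hw, mul_pos (pow_pos h₂ 2) h.hy, ?_⟩
  have h3 : 0 < d₁ ^ 2 * d₂ ^ 2 := mul_pos (pow_pos h₁ 2) (pow_pos h₂ 2)
  have := mul_lt_mul_of_pos_left h.hd h3
  nlinarith

theorem s1_one_posDef : (1 : Matrix Unit Unit ℂ).PosDef := Matrix.PosDef.one

theorem Lr_unit {x w y : ℝ} (h : PD x w y) (u₁ u₂ : ℝ) (h₁ : 0 < u₁) (h₂ : 0 < u₂) :
    Lr (tp x w w y (1 : Matrix Unit Unit ℂ)) u₁ u₂ =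
      w ^ 2 / ((x + u₁) * (y + u₂) - w ^ 2) ^ 2 := by
  have hD := s1_det_pos h u₁ u₂ h₁ h₂
  set Δ : ℝ := (x + u₁) * (y + u₂) - w ^ 2 with hΔ
  have hΔ0 : (Δ : ℂ) ≠ 0 := by exact_mod_cast hD.ne'
  have hinv : (tp x w w y (1 : Matrix Unit Unit ℂ) + DD Unit u₁ u₂)⁻¹ =
      tp ((y + u₂) / Δ) (-w / Δ) (-w / Δ) ((x + u₁) / Δ) (1 : Matrix Unit Unit ℂ) := by
    refine Matrix.inv_eq_right_inv ?_
    have e : (tp x w w y (1 : Matrix Unit Unit ℂ) + DD Unit u₁ u₂) =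
        tp (x + u₁) w w (y + u₂) (1 : Matrix Unit Unit ℂ) := by
      simp only [tp, DD, fromBlocks_add, add_zero, ← add_smul]
      push_cast
      rfl
    rw [e]
    unfold tp
    rw [fromBlocks_multiply, ← fromBlocks_one]
    simp only [smul_mul_smul_comm, mul_one, ← add_smul]
    have hc : ((Δ : ℝ) : ℂ) = ((x : ℂ) + u₁) * (y + u₂) - w ^ 2 := by
      rw [hΔ]
      push_cast
      ring
    congr 1
    · rw [show (((x + u₁ : ℝ) : ℂ) * (((y + u₂) / Δ : ℝ) : ℂ) + (w : ℂ) * ((-w / Δ : ℝ) : ℂ)) = 1 by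
        push_cast
        field_simp
        rw [hc]
        ring]
      rw [one_smul]
    · rw [show (((x + u₁ : ℝ) : ℂ) * ((-w / Δ : ℝ) : ℂ) + (w : ℂ) * (((x + u₁) / Δ : ℝ) : ℂ)) = 0 by
        push_cast
        field_simp
        ring]
      rw [zero_smul]
    · rw [show ((w : ℂ) * (((y + u₂) / Δ : ℝ) : ℂ) + ((y + u₂ : ℝ) : ℂ) * ((-w / Δ : ℝ) : ℂ)) = 0 by
        push_cast
        field_simp
        ring]
      rw [zero_smul]
    · rw [show ((w : ℂ) * ((-w / Δ : ℝ) : ℂ) + ((y + u₂ : ℝ) : ℂ) * (((x + u₁) / Δ : ℝ) : ℂ)) = 1 by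
        push_cast
        field_simp
        rw [hc]
        ring]
      rw [one_smul]
  unfold Lr
  rw [hinv]
  simp only [tp, toBlocks_fromBlocks₁₂, fr]
  simp only [Finset.univ_unique, Finset.sum_singleton, Matrix.smul_apply, one_apply_eq, smul_eq_mul,
    mul_one, Complex.norm_real, Real.norm_eq_abs, sq_abs]
  rw [div_pow, neg_sq]

theorem Mx_unit (s : ℝ) (h1 : 1 < s) {x w y : ℝ} (h : PD x w y) (a b : ℝ) (ha : 0 < a)
    (hb : 0 < b) :
    Mx s a b (tp x w w y (1 : Matrix Unit Unit ℂ)) = FN s a b x w y - a * x ^ s - b * y ^ s := by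
  have hs : 0 < s := by linarith
  have hda : 0 < dl s a := Real.rpow_pos_of_pos ha _
  have hdb : 0 < dl s b := Real.rpow_pos_of_pos hb _
  have h3 : LibSch.pw s (1 : Matrix Unit Unit ℂ) = 1 := by
    have := s1_pw_one s 1 zero_le_one
    rwa [Complex.ofReal_one, one_smul, Real.one_rpow] at this
  unfold Mx Fm
  rw [DD_tp, pw_tpFF (s1_PD_scale h _ _ hda hdb) _ s1_one_posDef s hs, h3, mul_one]
  simp only [tp, toBlocks_fromBlocks₁₁, toBlocks_fromBlocks₂₂]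
  rw [s1_pw_one s x h.hx.le, s1_pw_one s y h.hy.le]
  rfl

/-- `Lr_unit`: decreasing in `x`, `y` -/
theorem WW_unit_anti (s : ℝ) {x w y x' y' : ℝ} (h : PD x w y) (hx : x ≤ x') (hy : y ≤ y')
    (η : ℝ) (hη : 0 < η) : WW s (tp x' w w y' (1 : Matrix Unit Unit ℂ)) η ≤
      WW s (tp x w w y (1 : Matrix Unit Unit ℂ)) η := by
  have hx' : 0 < x' := lt_of_lt_of_le h.hx hx
  have hy' : 0 < y' := lt_of_lt_of_le h.hy hy
  have h' : PD x' w y' := ⟨hx', h.hw, hy',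
    lt_of_lt_of_le h.hd (mul_le_mul hx hy h.hy.le hx'.le)⟩
  unfold WW
  refine setLIntegral_mono' measurableSet_Ioi fun u hu => ?_
  have hu' : (0 : ℝ) < u := hu
  refine ENNReal.ofReal_le_ofReal (mul_le_mul_of_nonneg_left ?_ (Real.rpow_nonneg hu'.le _))
  rw [Lr_unit h' _ _ (mul_pos hη hu') hu', Lr_unit h _ _ (mul_pos hη hu') hu']
  have hD := s1_det_pos h (η * u) u (mul_pos hη hu') hu'
  refine div_le_div_of_nonneg_left (sq_nonneg w) (pow_pos hD 2) ?_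
  refine pow_le_pow_left₀ hD.le ?_ 2
  have : (x + η * u) * (y + u) ≤ (x' + η * u) * (y' + u) :=
    mul_le_mul (by linarith) (by linarith) (by linarith [h.hy]) (by nlinarith [mul_pos hη hu'])
  linarith

/-- `Lr_unit`: increasing in `w` -/
theorem WW_unit_mono (s : ℝ) {x w y w' : ℝ} (h : PD x w y) (h' : PD x w' y) (hw : w ≤ w')
    (η : ℝ) (hη : 0 < η) : WW s (tp x w w y (1 : Matrix Unit Unit ℂ)) η ≤
      WW s (tp x w' w' y (1 : Matrix Unit Unit ℂ)) η := by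
  unfold WW
  refine setLIntegral_mono' measurableSet_Ioi fun u hu => ?_
  have hu' : (0 : ℝ) < u := hu
  refine ENNReal.ofReal_le_ofReal (mul_le_mul_of_nonneg_left ?_ (Real.rpow_nonneg hu'.le _))
  rw [Lr_unit h' _ _ (mul_pos hη hu') hu', Lr_unit h _ _ (mul_pos hη hu') hu']
  have hD' := s1_det_pos h' (η * u) u (mul_pos hη hu') hu'
  have hww : w ^ 2 ≤ w' ^ 2 := pow_le_pow_left₀ h.hw.le hw 2
  refine div_le_div₀ (sq_nonneg w') hww (pow_pos hD' 2) ?_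
  exact pow_le_pow_left₀ hD'.le (by linarith) 2

/-- the scalar `Psi` -/
theorem Psi_unit {κ : Type} [Fintype κ] (s : ℝ) (h1 : 1 < s) {x w y : ℝ} (h : PD x w y)
    (c a b : κ → ℝ) (A B : ℝ) (ha : ∀ g, 0 < a g) (hb : ∀ g, 0 < b g) (hA0 : 0 < A)
    (hB0 : 0 < B) :
    Psi s c a b A B (tp x w w y (1 : Matrix Unit Unit ℂ)) =
      FN s A B x w y - A * x ^ s - B * y ^ s -
        ∑ g, c g * (FN s (a g) (b g) x w y - a g * x ^ s - b g * y ^ s) := by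
  unfold Psi
  rw [Mx_unit s h1 h A B hA0 hB0]
  congr 1
  exact Finset.sum_congr rfl fun g _ => by rw [Mx_unit s h1 h (a g) (b g) (ha g) (hb g)]

end Pool.Agent.LibSchN
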