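import Pool.Agent.LibSchN.S2

/-! **S3.**  The bound (CL). -/

open Matrix Set MeasureTheory
open scoped ComplexOrder

namespace Pool.Agent.LibSchN

open Pool.Agent.LibSchP Pool.Agent.LibSchQ
open Pool.Agent.LibSch (lamP lamM FF)

/-- Suppose `A = ∑ c a > 1`, `A ≥ B` (the other case by `super22`).  `super11` with `(A, A)` and
`N_hom`, `N_one`: `∑ c (a x^(s-1) - N11 a b) ≤ A (x^(s-1) - e11)`, so `∑ c N11 ≥ A e11 > e11`. -/
theorem CL_le {κ : Type} [Fintype κ] (s : ℝ) (h1 : 1 < s) (h2 : s < 2) {x w y : ℝ}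
    (h : PD x w y) (c a b : κ → ℝ)
    (hc : ∀ g, 0 ≤ c g) (ha : ∀ g, 0 < a g) (hb : ∀ g, 0 < b g)
    (hq11 : ∑ g, c g * N11 s (a g) (b g) x w y ≤ e11 (s - 1) x w y)
    (hq22 : ∑ g, c g * N22 s (a g) (b g) x w y ≤ e22 (s - 1) x w y) :
    ∑ g, c g * a g ≤ 1 ∧ ∑ g, c g * b g ≤ 1 := by
  obtain ⟨p1, p2⟩ := e_pos h (s - 1)
  have key1 : ∑ g, c g * b g ≤ ∑ g, c g * a g → ∑ g, c g * a g ≤ 1 := by
    intro hBA
    by_contra hA
    push Not at hA
    set A := ∑ g, c g * a g with hAdef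
    have hA0 : 0 < A := by linarith
    have h3 := super11 s h1 h2 h c a b A A hc ha hb hA0 hA0 le_rfl hBA
    obtain ⟨n1, -, -⟩ := N_hom h s h1 A 1 1 hA0 one_pos one_pos
    rw [mul_one, (N_one (x := x) (w := w) (y := y) s).1] at n1
    rw [n1] at h3
    have h4 : ∑ g, c g * (a g * x ^ (s - 1) - N11 s (a g) (b g) x w y) =
        A * x ^ (s - 1) - ∑ g, c g * N11 s (a g) (b g) x w y := by
      rw [hAdef, Finset.sum_mul, ← Finset.sum_sub_distrib]
      exact Finset.sum_congr rfl fun g _ => by ring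
    rw [h4] at h3
    nlinarith
  have key2 : ∑ g, c g * a g ≤ ∑ g, c g * b g → ∑ g, c g * b g ≤ 1 := by
    intro hBA
    by_contra hA
    push Not at hA
    set A := ∑ g, c g * b g with hAdef
    have hA0 : 0 < A := by linarith
    have h3 := super22 s h1 h2 h c a b A A hc ha hb hA0 hA0 hBA le_rfl
    obtain ⟨-, -, n1⟩ := N_hom h s h1 A 1 1 hA0 one_pos one_pos
    rw [mul_one, (N_one (x := x) (w := w) (y := y) s).2.2] at n1
    rw [n1] at h3
    have h4 : ∑ g, c g * (b g * y ^ (s - 1) - N22 s (a g) (b g) x w y) =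
        A * y ^ (s - 1) - ∑ g, c g * N22 s (a g) (b g) x w y := by
      rw [hAdef, Finset.sum_mul, ← Finset.sum_sub_distrib]
      exact Finset.sum_congr rfl fun g _ => by ring
    rw [h4] at h3
    nlinarith
  rcases le_total (∑ g, c g * b g) (∑ g, c g * a g) with hle | hle
  · exact ⟨key1 hle, hle.trans (key1 hle)⟩
  · exact ⟨hle.trans (key2 hle), key2 hle⟩

/-- `CL_le`, then `super12` with `(1, 1)` and `N_one` -/
theorem CL_12 {κ : Type} [Fintype κ] (s : ℝ) (h1 : 1 < s) (h2 : s < 2) {x w y : ℝ}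
    (h : PD x w y) (c a b : κ → ℝ)
    (hc : ∀ g, 0 ≤ c g) (ha : ∀ g, 0 < a g) (hb : ∀ g, 0 < b g)
    (hq11 : ∑ g, c g * N11 s (a g) (b g) x w y ≤ e11 (s - 1) x w y)
    (hq22 : ∑ g, c g * N22 s (a g) (b g) x w y ≤ e22 (s - 1) x w y) :
    ∑ g, c g * N12 s (a g) (b g) x w y ≤ e12 (s - 1) x w y := by
  obtain ⟨hA, hB⟩ := CL_le s h1 h2 h c a b hc ha hb hq11 hq22
  have := super12 s h1 h2 h c a b 1 1 hc ha hb one_pos one_pos hA hB
  rwa [(N_one (x := x) (w := w) (y := y) s).2.1] at this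

end Pool.Agent.LibSchN
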