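import Pool.Agent.LibSchN.S2

/-! **S4a.**  A zero of a combination of `N11`, `N12`, `N22`. -/

open Matrix Set MeasureTheory
open scoped ComplexOrder

namespace Pool.Agent.LibSchN

open Pool.Agent.LibSchP Pool.Agent.LibSchQ
open Pool.Agent.LibSch (lamP lamM FF)

/-- bounds at `b = 1`: `N11 ≤ a x^(s-1)` (`super11` with the empty family, `κ = Fin 0`),
`N22 ≤ y^(s-1)`, `N12² ≤ N11 N22` (`N_PD`), and `FN ≥ y^s` (`FN_ge`, `FN_eq`) -/
theorem N_bounds (s : ℝ) (h1 : 1 < s) (h2 : s < 2) {x w y : ℝ} (h : PD x w y) (a : ℝ)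
    (ha : 0 < a) : N11 s a 1 x w y ≤ a * x ^ (s - 1) ∧ N22 s a 1 x w y ≤ y ^ (s - 1) ∧
      N12 s a 1 x w y ^ 2 ≤ a * x ^ (s - 1) * y ^ (s - 1) ∧
      y ^ s ≤ x * N11 s a 1 x w y + 2 * w * N12 s a 1 x w y + y * N22 s a 1 x w y := by
  have e1 := super11 (κ := Fin 0) s h1 h2 h (fun _ => 0) (fun _ => 1) (fun _ => 1) a 1
    (fun g => g.elim0) (fun g => g.elim0) (fun g => g.elim0) ha one_pos (by simpa using ha.le)
    (by simp)
  have e2 := super22 (κ := Fin 0) s h1 h2 h (fun _ => 0) (fun _ => 1) (fun _ => 1) a 1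
    (fun g => g.elim0) (fun g => g.elim0) (fun g => g.elim0) ha one_pos (by simpa using ha.le)
    (by simp)
  simp only [Finset.univ_eq_empty, Finset.sum_empty, one_mul] at e1 e2
  have e3 := N_PD h s h1 a 1 ha one_pos
  have e4 := FN_ge s h1 h2 h a 1 ha one_pos
  rw [FN_eq h s a 1 ha one_pos] at e4
  have e5 : 0 < x ^ s := Real.rpow_pos_of_pos h.hx s
  have e6 : 0 < y ^ (s - 1) := Real.rpow_pos_of_pos h.hy _
  have e7 : 0 < x ^ (s - 1) := Real.rpow_pos_of_pos h.hx _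
  refine ⟨by linarith, by linarith, ?_, ?_⟩
  · have e8 : N11 s a 1 x w y * N22 s a 1 x w y ≤ (a * x ^ (s - 1)) * y ^ (s - 1) :=
      mul_le_mul (by linarith) (by linarith) e3.hy.le (by positivity)
    linarith [e3.hd]
  · have : 0 < a * x ^ s := mul_pos ha e5
    linarith

/-- for `k₂ > 0` the combination `k₁ N11 + k₃ N12 + k₂ N22` is positive for small `a`
(`N_bounds`: `N11 → 0`, `N12 → 0`, `N22 → y^(s-1)`) -/
theorem comb_small (s : ℝ) (h1 : 1 < s) (h2 : s < 2) {x w y : ℝ} (h : PD x w y)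
    (k₁ k₂ k₃ : ℝ) (hk₂ : 0 < k₂) :
    ∃ a : ℝ, 0 < a ∧ 0 < k₁ * N11 s a 1 x w y + k₃ * N12 s a 1 x w y + k₂ * N22 s a 1 x w y := by
  obtain ⟨P, hP⟩ : ∃ P, P = x ^ (s - 1) := ⟨_, rfl⟩
  obtain ⟨Q, hQ⟩ : ∃ Q, Q = y ^ (s - 1) := ⟨_, rfl⟩
  have hP0 : 0 < P := by rw [hP]; exact Real.rpow_pos_of_pos h.hx _
  have hQ0 : 0 < Q := by rw [hQ]; exact Real.rpow_pos_of_pos h.hy _
  have hyQ : y ^ s = y * Q := by
    rw [hQ]
    nth_rewrite 2 [← Real.rpow_one y]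
    rw [← Real.rpow_add h.hy]
    ring_nf
  obtain ⟨C, hC⟩ : ∃ C, C = Real.sqrt (P * Q) := ⟨_, rfl⟩
  have hC0 : 0 < C := by rw [hC]; exact Real.sqrt_pos.2 (mul_pos hP0 hQ0)
  have hC2 : C ^ 2 = P * Q := by rw [hC]; exact Real.sq_sqrt (mul_pos hP0 hQ0).le
  have hx := h.hx
  have hy := h.hy
  have hw := h.hw
  obtain ⟨R, hR⟩ : ∃ R, R = |k₁| * P + |k₃| * C + k₂ * ((x * P + 2 * w * C) / y) := ⟨_, rfl⟩
  have hR0 : 0 ≤ R := by rw [hR]; positivity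
  obtain ⟨ε, hε⟩ : ∃ ε, ε = min 1 (k₂ * Q / (R + 1)) := ⟨_, rfl⟩
  have hε0 : 0 < ε := by
    rw [hε]; exact lt_min one_pos (by positivity)
  have hε1 : ε ≤ 1 := by rw [hε]; exact min_le_left _ _
  have hεR : ε * R < k₂ * Q := by
    have e1 : ε ≤ k₂ * Q / (R + 1) := by rw [hε]; exact min_le_right _ _
    have e2 : ε * (R + 1) ≤ k₂ * Q := (le_div_iff₀ (by linarith)).1 e1
    linarith
  refine ⟨ε ^ 2, by positivity, ?_⟩
  obtain ⟨b1, b2, b3, b4⟩ := N_bounds s h1 h2 h (ε ^ 2) (by positivity)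
  have e3 := N_PD h s h1 (ε ^ 2) 1 (by positivity) one_pos
  rw [← hP] at b1 b3
  rw [← hQ] at b2 b3
  rw [hyQ] at b4
  obtain ⟨n1, hn1⟩ : ∃ n, n = N11 s (ε ^ 2) 1 x w y := ⟨_, rfl⟩
  obtain ⟨n2, hn2⟩ : ∃ n, n = N12 s (ε ^ 2) 1 x w y := ⟨_, rfl⟩
  obtain ⟨n3, hn3⟩ : ∃ n, n = N22 s (ε ^ 2) 1 x w y := ⟨_, rfl⟩
  have p1 := e3.hx
  have p2 := e3.hw
  have p3 := e3.hy
  rw [← hn1] at b1 b4 p1 ⊢
  rw [← hn2] at b3 b4 p2 ⊢
  rw [← hn3] at b2 b4 p3 ⊢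
  have hεε : ε ^ 2 ≤ ε := by nlinarith
  have c1 : n1 ≤ ε * P := b1.trans (mul_le_mul_of_nonneg_right hεε hP0.le)
  have c2 : n2 ≤ ε * C := by
    have : n2 ^ 2 ≤ (ε * C) ^ 2 := by rw [mul_pow, hC2]; linarith
    exact le_of_sq_le_sq this (by positivity)
  have c3 : n3 ≥ Q - ε * ((x * P + 2 * w * C) / y) := by
    have e4 : y * n3 ≥ y * Q - ε * (x * P + 2 * w * C) := by
      nlinarith [mul_le_mul_of_nonneg_left c1 hx.le, mul_le_mul_of_nonneg_left c2 hw.le]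
    have e5 : y * (Q - ε * ((x * P + 2 * w * C) / y)) = y * Q - ε * (x * P + 2 * w * C) := by
      field_simp
    exact le_of_mul_le_mul_left (by rw [e5]; exact e4) hy
  have d1 : k₁ * n1 ≥ - (|k₁| * (ε * P)) := by
    have := neg_abs_le k₁
    have h3 : k₁ * n1 ≥ -|k₁| * n1 := mul_le_mul_of_nonneg_right this p1.le
    have h4 : |k₁| * n1 ≤ |k₁| * (ε * P) := mul_le_mul_of_nonneg_left c1 (abs_nonneg _)
    linarith
  have d2 : k₃ * n2 ≥ - (|k₃| * (ε * C)) := by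
    have := neg_abs_le k₃
    have h3 : k₃ * n2 ≥ -|k₃| * n2 := mul_le_mul_of_nonneg_right this p2.le
    have h4 : |k₃| * n2 ≤ |k₃| * (ε * C) := mul_le_mul_of_nonneg_left c2 (abs_nonneg _)
    linarith
  have d3 : k₂ * n3 ≥ k₂ * (Q - ε * ((x * P + 2 * w * C) / y)) :=
    mul_le_mul_of_nonneg_left c3 hk₂.le
  have e6 : ε * R = |k₁| * (ε * P) + |k₃| * (ε * C) + k₂ * (ε * ((x * P + 2 * w * C) / y)) := by
    rw [hR]; ring
  nlinarith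

/-- `k₁ < 0 < k₂`: zero of the combination: `comb_small`; for large `a` by `comb_small` for the
swapped matrix with the signs changed (`N_hom` with the factor `a`, `N_swap`); intermediate value
theorem (`N_cont`). -/
theorem comb_zero (s : ℝ) (h1 : 1 < s) (h2 : s < 2) {x w y : ℝ} (h : PD x w y)
    (k₁ k₂ k₃ : ℝ) (hk₁ : k₁ < 0) (hk₂ : 0 < k₂) :
    ∃ a : ℝ, 0 < a ∧ k₁ * N11 s a 1 x w y + k₃ * N12 s a 1 x w y + k₂ * N22 s a 1 x w y = 0 := by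
  obtain ⟨a₁, ha₁, hf₁⟩ := comb_small s h1 h2 h k₁ k₂ k₃ hk₂
  obtain ⟨a₂, ha₂, hf₂⟩ := comb_small s h1 h2 (s2_PD_swap h) (-k₂) (-k₁) (-k₃) (by linarith)
  obtain ⟨c1, c2, c3⟩ := N_cont h s h1
  have hcont : ContinuousOn (fun a => k₁ * N11 s a 1 x w y + k₃ * N12 s a 1 x w y
      + k₂ * N22 s a 1 x w y) (Ioi 0) :=
    ((continuousOn_const.mul c1).add (continuousOn_const.mul c2)).add (continuousOn_const.mul c3)
  have hneg : k₁ * N11 s a₂⁻¹ 1 x w y + k₃ * N12 s a₂⁻¹ 1 x w y + k₂ * N22 s a₂⁻¹ 1 x w y < 0 := by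
    obtain ⟨s1, s2, s3⟩ := N_swap s 1 a₂ x w y
    rw [s1, s2, s3] at hf₂
    obtain ⟨t1, t2, t3⟩ := N_hom h s h1 a₂ a₂⁻¹ 1 ha₂ (by positivity) one_pos
    rw [mul_inv_cancel₀ ha₂.ne', mul_one] at t1 t2 t3
    rw [t1, t2, t3] at hf₂
    by_contra hcon
    push Not at hcon
    have := mul_nonneg ha₂.le hcon
    nlinarith
  obtain ⟨a, ha, hfa⟩ := isPreconnected_Ioi.intermediate_value
    (show a₂⁻¹ ∈ Ioi (0 : ℝ) from by simpa using ha₂) (show a₁ ∈ Ioi (0 : ℝ) from ha₁) hcont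
    (show (0 : ℝ) ∈ Icc _ _ from ⟨hneg.le, hf₁.le⟩)
  exact ⟨a, ha, hfa⟩

end Pool.Agent.LibSchN
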