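import Pool.Agent.LibSchN.S4a

/-! **S4b.**  Existence of groups. -/

open Matrix Set MeasureTheory
open scoped ComplexOrder

namespace Pool.Agent.LibSchN

open Pool.Agent.LibSchP Pool.Agent.LibSchQ
open Pool.Agent.LibSch (lamP lamM FF)

/-- linear algebra: a positive definite `[A, C; C, B]` with `u^⊥ᵀ [A, C; C, B] v^⊥ = 0`,
`u^⊥ = (u₂, -u₁)`, `u, v` independent, is `α u uᵀ + β v vᵀ` with
`α = v^⊥ᵀ [..] v^⊥ / det(u,v)² > 0`, `β = u^⊥ᵀ [..] u^⊥ / det(u,v)² > 0`. -/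
theorem two_decomp (A C B u₁ u₂ v₁ v₂ : ℝ) (hA : 0 < A) (hB : 0 < B) (hd : C ^ 2 < A * B)
    (huv : u₁ * v₂ - u₂ * v₁ ≠ 0)
    (h0 : u₂ * v₂ * A - (u₂ * v₁ + u₁ * v₂) * C + u₁ * v₁ * B = 0) :
    ∃ α β : ℝ, 0 < α ∧ 0 < β ∧ α * u₁ ^ 2 + β * v₁ ^ 2 = A ∧
      α * (u₁ * u₂) + β * (v₁ * v₂) = C ∧ α * u₂ ^ 2 + β * v₂ ^ 2 = B := by
  have key : ∀ a b : ℝ, (a ≠ 0 ∨ b ≠ 0) → 0 < b ^ 2 * A - 2 * a * b * C + a ^ 2 * B := by
    intro a b hab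
    have h1 : A * (b ^ 2 * A - 2 * a * b * C + a ^ 2 * B) =
        (b * A - a * C) ^ 2 + a ^ 2 * (A * B - C ^ 2) := by ring
    have h2 : 0 < A * (b ^ 2 * A - 2 * a * b * C + a ^ 2 * B) := by
      rw [h1]
      by_cases ha : a = 0
      · have hb : b ≠ 0 := by
          rcases hab with h | h
          · exact absurd ha h
          · exact h
        subst ha
        have : 0 < (b * A) ^ 2 := by positivity
        nlinarith
      · have h3 : 0 < a ^ 2 * (A * B - C ^ 2) := mul_pos (by positivity) (by linarith)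
        have := sq_nonneg (b * A - a * C)
        linarith
    exact (mul_pos_iff_of_pos_left hA).1 h2
  have hD : 0 < (u₁ * v₂ - u₂ * v₁) ^ 2 := by positivity
  have hu : u₁ ≠ 0 ∨ u₂ ≠ 0 := by
    by_contra h
    push Not at h
    apply huv
    rw [h.1, h.2]
    ring
  have hv : v₁ ≠ 0 ∨ v₂ ≠ 0 := by
    by_contra h
    push Not at h
    apply huv
    rw [h.1, h.2]
    ring
  refine ⟨(v₂ ^ 2 * A - 2 * v₁ * v₂ * C + v₁ ^ 2 * B) / (u₁ * v₂ - u₂ * v₁) ^ 2,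
    (u₂ ^ 2 * A - 2 * u₁ * u₂ * C + u₁ ^ 2 * B) / (u₁ * v₂ - u₂ * v₁) ^ 2,
    div_pos (key _ _ hv) hD, div_pos (key _ _ hu) hD, ?_, ?_, ?_⟩
  · rw [div_mul_eq_mul_div, div_mul_eq_mul_div, ← add_div, div_eq_iff hD.ne']
    linear_combination (2 * u₁ * v₁) * h0
  · rw [div_mul_eq_mul_div, div_mul_eq_mul_div, ← add_div, div_eq_iff hD.ne']
    linear_combination (u₁ * v₂ + u₂ * v₁) * h0
  · rw [div_mul_eq_mul_div, div_mul_eq_mul_div, ← add_div, div_eq_iff hD.ne']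
    linear_combination (2 * u₂ * v₂) * h0

/-- **existence of a group** for a column `u > 0` and a column `v` with entries of opposite signs
(`v` and `-v` give the same equations, so `v₁ > 0 > v₂` without loss of generality):
`comb_zero` with `k₁ = u₂ v₂`, `k₂ = u₁ v₁`, `k₃ = -(u₂ v₁ + u₁ v₂)`; `two_decomp`, `N_PD`. -/
theorem group_exists (s : ℝ) (h1 : 1 < s) (h2 : s < 2) {x w y : ℝ} (h : PD x w y)
    (u₁ u₂ v₁ v₂ : ℝ) (hu₁ : 0 < u₁) (hu₂ : 0 < u₂) (hv : v₁ * v₂ < 0) :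
    ∃ a b α β : ℝ, Grp s x w y a b α β u₁ u₂ v₁ v₂ := by
  have hz : ∃ a : ℝ, 0 < a ∧ u₂ * v₂ * N11 s a 1 x w y - (u₂ * v₁ + u₁ * v₂) * N12 s a 1 x w y +
      u₁ * v₁ * N22 s a 1 x w y = 0 := by
    rcases mul_neg_iff.1 hv with ⟨hv1, hv2⟩ | ⟨hv1, hv2⟩
    · obtain ⟨a, ha, h0⟩ := comb_zero s h1 h2 h (u₂ * v₂) (u₁ * v₁) (-(u₂ * v₁ + u₁ * v₂))
        (mul_neg_of_pos_of_neg hu₂ hv2) (mul_pos hu₁ hv1)
      exact ⟨a, ha, by linarith⟩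
    · obtain ⟨a, ha, h0⟩ := comb_zero s h1 h2 h (-(u₂ * v₂)) (-(u₁ * v₁)) (u₂ * v₁ + u₁ * v₂)
        (by have := mul_pos hu₂ hv2; linarith) (by have := mul_neg_of_pos_of_neg hu₁ hv1; linarith)
      exact ⟨a, ha, by linarith⟩
  obtain ⟨a, ha, h0⟩ := hz
  have hN := N_PD h s h1 a 1 ha one_pos
  have huv : u₁ * v₂ - u₂ * v₁ ≠ 0 := by
    rcases mul_neg_iff.1 hv with ⟨hv1, hv2⟩ | ⟨hv1, hv2⟩
    · have e1 := mul_neg_of_pos_of_neg hu₁ hv2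
      have e2 := mul_pos hu₂ hv1
      exact ne_of_lt (by linarith)
    · have e1 := mul_pos hu₁ hv2
      have e2 := mul_neg_of_pos_of_neg hu₂ hv1
      exact ne_of_gt (by linarith)
  obtain ⟨α, β, hα, hβ, g11, g12, g22⟩ := two_decomp _ _ _ u₁ u₂ v₁ v₂ hN.hx hN.hy hN.hd huv h0
  exact ⟨a, 1, α, β, ⟨ha, one_pos, hα, hβ, g11, g12, g22⟩⟩

end Pool.Agent.LibSchN
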