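import Pool.Agent.LibSchN.S3

/-! **S5a.**  Signs, sums and plans. -/

open Matrix Set MeasureTheory
open scoped ComplexOrder

namespace Pool.Agent.LibSchN

open Pool.Agent.LibSchP Pool.Agent.LibSchQ
open Pool.Agent.LibSch (lamP lamM FF)

variable {ι : Type} [Fintype ι] {s x w y : ℝ} {y₁ y₂ z₁ z₂ : ι → ℝ}

/-- signs of a column: `z = M y ≥ 0`, `M > 0` entrywise -/
theorem Sc_sign (D : Sc s x w y y₁ y₂ z₁ z₂) (j : ι) :
    (0 ≤ y₁ j ∧ 0 ≤ y₂ j) ∨ (0 < y₁ j ∧ y₂ j < 0) ∨ (y₁ j < 0 ∧ 0 < y₂ j) := by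
  have hx := D.pd.hx
  have hw := D.pd.hw
  have hy := D.pd.hy
  have h1 := D.z₁0 j
  have h2 := D.z₂0 j
  rw [D.hz₁ j] at h1
  rw [D.hz₂ j] at h2
  rcases lt_or_ge (y₁ j) 0 with a | a
  · right; right
    refine ⟨a, ?_⟩
    by_contra hc
    have hc' : y₂ j ≤ 0 := not_lt.1 hc
    have e1 : x * y₁ j < 0 := mul_neg_of_pos_of_neg hx a
    have e2 : w * y₂ j ≤ 0 := mul_nonpos_of_nonneg_of_nonpos hw.le hc'
    linarith
  · rcases lt_or_ge (y₂ j) 0 with b | b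
    · right; left
      refine ⟨?_, b⟩
      by_contra hc
      have hc' : y₁ j ≤ 0 := not_lt.1 hc
      have e1 : w * y₁ j ≤ 0 := mul_nonpos_of_nonneg_of_nonpos hw.le hc'
      have e2 : y * y₂ j < 0 := mul_neg_of_pos_of_neg hy b
      linarith
    · left
      exact ⟨a, b⟩

/-- `∑ (y₁ z₁ + y₂ z₂) = tr M yyᵀ = tr M^s = FF s` -/
theorem Sc_sum (D : Sc s x w y y₁ y₂ z₁ z₂) :
    ∑ j, (y₁ j * z₁ j + y₂ j * z₂ j) = FF s x y w ∧ FF s x y w =
      x * e11 (s - 1) x w y + 2 * w * e12 (s - 1) x w y + y * e22 (s - 1) x w y := by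
  have h1 : FF s x y w =
      x * e11 (s - 1) x w y + 2 * w * e12 (s - 1) x w y + y * e22 (s - 1) x w y := by
    have h := FF_succ D.pd (s - 1)
    rwa [sub_add_cancel] at h
  refine ⟨?_, h1⟩
  rw [h1, ← D.m11, ← D.m12, ← D.m22, Finset.mul_sum, Finset.mul_sum, Finset.mul_sum,
    ← Finset.sum_add_distrib, ← Finset.sum_add_distrib]
  refine Finset.sum_congr rfl fun j _ => ?_
  rw [D.hz₁ j, D.hz₂ j]
  ring

/-- the plan: for a pair (good `j`, bad `k`) a group with weight `c j k`. -/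
structure Plan (s x w y : ℝ) (y₁ y₂ : ι → ℝ) (c a b α β : ι → ι → ℝ) : Prop where
  hc : ∀ j k, 0 ≤ c j k
  ha : ∀ j k, 0 < a j k
  hb : ∀ j k, 0 < b j k
  hα : ∀ j k, 0 < α j k
  hβ : ∀ j k, 0 < β j k
  hg : ∀ j k, 0 < y₁ j → 0 < y₂ j → y₁ k * y₂ k < 0 →
    Grp s x w y (a j k) (b j k) (α j k) (β j k) (y₁ j) (y₂ j) (y₁ k) (y₂ k)
  h0 : ∀ j k, c j k ≠ 0 → 0 < y₁ j ∧ 0 < y₂ j ∧ y₁ k * y₂ k < 0
  hle : ∀ j, ∑ k, c j k * α j k ≤ 1
  hle' : ∀ k, ∑ j, c j k * β j k ≤ 1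

/-- the rest: with the coefficients `ρ j = 1 - ∑_k c j k α j k - ∑_i c i j β i j ≥ 0`
(one of the two sums is empty) `e_il - ∑ c N_il = ∑_j ρ j y_i y_l`. -/
theorem plan_rest (D : Sc s x w y y₁ y₂ z₁ z₂) {c a b α β : ι → ι → ℝ}
    (Q : Plan s x w y y₁ y₂ c a b α β) :
    (∀ j, 0 ≤ 1 - ∑ k, c j k * α j k - ∑ i, c i j * β i j) ∧
    e11 (s - 1) x w y - ∑ j, ∑ k, c j k * N11 s (a j k) (b j k) x w y =
      ∑ j, (1 - ∑ k, c j k * α j k - ∑ i, c i j * β i j) * y₁ j ^ 2 ∧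
    e12 (s - 1) x w y - ∑ j, ∑ k, c j k * N12 s (a j k) (b j k) x w y =
      ∑ j, (1 - ∑ k, c j k * α j k - ∑ i, c i j * β i j) * (y₁ j * y₂ j) ∧
    e22 (s - 1) x w y - ∑ j, ∑ k, c j k * N22 s (a j k) (b j k) x w y =
      ∑ j, (1 - ∑ k, c j k * α j k - ∑ i, c i j * β i j) * y₂ j ^ 2 := by
  have key : ∀ (N : ι → ι → ℝ) (f : ι → ℝ) (e : ℝ), ∑ j, f j = e →
      (∀ j k, 0 < y₁ j → 0 < y₂ j → y₁ k * y₂ k < 0 → N j k = α j k * f j + β j k * f k) →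
      e - ∑ j, ∑ k, c j k * N j k =
        ∑ j, (1 - ∑ k, c j k * α j k - ∑ i, c i j * β i j) * f j := by
    intro N f e he hN
    have e1 : ∀ j k, c j k * N j k = c j k * α j k * f j + c j k * β j k * f k := by
      intro j k
      by_cases h : c j k = 0
      · rw [h]; ring
      · obtain ⟨h1, h2, h3⟩ := Q.h0 j k h
        rw [hN j k h1 h2 h3]; ring
    simp only [e1, Finset.sum_add_distrib]
    have e2 : ∑ j, ∑ k, c j k * β j k * f k = ∑ j, (∑ i, c i j * β i j) * f j := by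
      rw [Finset.sum_comm]
      refine Finset.sum_congr rfl fun j _ => ?_
      rw [Finset.sum_mul]
    have e3 : ∑ j, ∑ k, c j k * α j k * f j = ∑ j, (∑ k, c j k * α j k) * f j := by
      refine Finset.sum_congr rfl fun j _ => ?_
      rw [Finset.sum_mul]
    rw [e2, e3, ← he, ← Finset.sum_add_distrib, ← Finset.sum_sub_distrib]
    refine Finset.sum_congr rfl fun j _ => ?_
    ring
  refine ⟨?_, ?_, ?_, ?_⟩
  · intro j
    by_cases h : 0 < y₁ j ∧ 0 < y₂ j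
    · have e1 : ∑ i, c i j * β i j = 0 := by
        refine Finset.sum_eq_zero fun i _ => ?_
        have : c i j = 0 := by
          by_contra hc
          obtain ⟨_, _, h3⟩ := Q.h0 i j hc
          have := mul_pos h.1 h.2
          linarith
        rw [this, zero_mul]
      rw [e1]
      have := Q.hle j
      linarith
    · have e1 : ∑ k, c j k * α j k = 0 := by
        refine Finset.sum_eq_zero fun i _ => ?_
        have : c j i = 0 := by
          by_contra hc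
          obtain ⟨h1, h2, _⟩ := Q.h0 j i hc
          exact h ⟨h1, h2⟩
        rw [this, zero_mul]
      rw [e1]
      have := Q.hle' j
      linarith
  · exact key _ (fun j => y₁ j ^ 2) _ D.m11 fun j k h1 h2 h3 => (Q.hg j k h1 h2 h3).g11.symm
  · exact key _ (fun j => y₁ j * y₂ j) _ D.m12 fun j k h1 h2 h3 => (Q.hg j k h1 h2 h3).g12.symm
  · exact key _ (fun j => y₂ j ^ 2) _ D.m22 fun j k h1 h2 h3 => (Q.hg j k h1 h2 h3).g22.symm

/-- `plan_rest`, `CL_le`, `CL_12` with `κ = ι × ι` -/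
theorem plan_CL (D : Sc s x w y y₁ y₂ z₁ z₂) {c a b α β : ι → ι → ℝ}
    (Q : Plan s x w y y₁ y₂ c a b α β) :
    ∑ j, ∑ k, c j k * a j k ≤ 1 ∧ ∑ j, ∑ k, c j k * b j k ≤ 1 ∧
    0 ≤ ∑ j, (1 - ∑ k, c j k * α j k - ∑ i, c i j * β i j) * (y₁ j * y₂ j) := by
  obtain ⟨h0, h11, h12, h22⟩ := plan_rest D Q
  have q11 : ∑ g : ι × ι, c g.1 g.2 * N11 s (a g.1 g.2) (b g.1 g.2) x w y ≤
      e11 (s - 1) x w y := by
    rw [Fintype.sum_prod_type]
    have : 0 ≤ ∑ j, (1 - ∑ k, c j k * α j k - ∑ i, c i j * β i j) * y₁ j ^ 2 :=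
      Finset.sum_nonneg fun j _ => mul_nonneg (h0 j) (sq_nonneg _)
    rw [← h11] at this
    linarith
  have q22 : ∑ g : ι × ι, c g.1 g.2 * N22 s (a g.1 g.2) (b g.1 g.2) x w y ≤
      e22 (s - 1) x w y := by
    rw [Fintype.sum_prod_type]
    have : 0 ≤ ∑ j, (1 - ∑ k, c j k * α j k - ∑ i, c i j * β i j) * y₂ j ^ 2 :=
      Finset.sum_nonneg fun j _ => mul_nonneg (h0 j) (sq_nonneg _)
    rw [← h22] at this
    linarith
  obtain ⟨c1, c2⟩ := CL_le s D.h1 D.h2 D.pd (fun g : ι × ι => c g.1 g.2) (fun g => a g.1 g.2)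
    (fun g => b g.1 g.2) (fun g => Q.hc _ _) (fun g => Q.ha _ _) (fun g => Q.hb _ _) q11 q22
  have c3 := CL_12 s D.h1 D.h2 D.pd (fun g : ι × ι => c g.1 g.2) (fun g => a g.1 g.2)
    (fun g => b g.1 g.2) (fun g => Q.hc _ _) (fun g => Q.ha _ _) (fun g => Q.hb _ _) q11 q22
  rw [Fintype.sum_prod_type] at c1 c2 c3
  refine ⟨c1, c2, ?_⟩
  rw [← h12]
  linarith

end Pool.Agent.LibSchN
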