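import Pool.Agent.LibSchN.S5a
import Pool.Agent.LibSchN.S4b

/-! **S5b.**  The maximal plan. -/

open Matrix Set MeasureTheory
open scoped ComplexOrder

namespace Pool.Agent.LibSchN

open Pool.Agent.LibSchP Pool.Agent.LibSchQ
open Pool.Agent.LibSch (lamP lamM FF)

variable {ι : Type} [Fintype ι] {s x w y : ℝ} {y₁ y₂ z₁ z₂ : ι → ℝ}

/-- the groups of all pairs (`group_exists`; `1` for the other pairs), `c = 0` -/
theorem plan_exists (D : Sc s x w y y₁ y₂ z₁ z₂) : ∃ a b α β : ι → ι → ℝ,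
    Plan s x w y y₁ y₂ (fun _ _ => 0) a b α β := by
  classical
  have h : ∀ j k, ∃ a b α β : ℝ, 0 < a ∧ 0 < b ∧ 0 < α ∧ 0 < β ∧
      (0 < y₁ j → 0 < y₂ j → y₁ k * y₂ k < 0 →
        Grp s x w y a b α β (y₁ j) (y₂ j) (y₁ k) (y₂ k)) := by
    intro j k
    by_cases hj : 0 < y₁ j ∧ 0 < y₂ j ∧ y₁ k * y₂ k < 0
    · obtain ⟨a, b, α, β, G⟩ := group_exists s D.h1 D.h2 D.pd (y₁ j) (y₂ j) (y₁ k) (y₂ k)
        hj.1 hj.2.1 hj.2.2
      exact ⟨a, b, α, β, G.ha, G.hb, G.hα, G.hβ, fun _ _ _ => G⟩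
    · exact ⟨1, 1, 1, 1, one_pos, one_pos, one_pos, one_pos, fun h1 h2 h3 =>
        absurd ⟨h1, h2, h3⟩ hj⟩
  choose a b α β ha hb hα hβ hg using h
  refine ⟨a, b, α, β, ⟨fun _ _ => le_rfl, ha, hb, hα, hβ, hg, fun _ _ h => absurd rfl h, ?_, ?_⟩⟩
  · intro j
    simp
  · intro k
    simp

/-- maximise `∑ c β` over the `c` for which `Plan … c a b α β` (compact set: closed, and
`0 ≤ c ≤ 1/α`) -/
theorem plan_max (a b α β : ι → ι → ℝ) (Q : Plan s x w y y₁ y₂ (fun _ _ => 0) a b α β) :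
    ∃ c : ι → ι → ℝ, Plan s x w y y₁ y₂ c a b α β ∧
      ∀ c', Plan s x w y y₁ y₂ c' a b α β → ∑ j, ∑ k, c' j k * β j k ≤ ∑ j, ∑ k, c j k * β j k := by
  classical
  let S : Set (ι → ι → ℝ) := {c | (∀ j k, 0 ≤ c j k) ∧
    (∀ j k, ¬ (0 < y₁ j ∧ 0 < y₂ j ∧ y₁ k * y₂ k < 0) → c j k = 0) ∧
    (∀ j, ∑ k, c j k * α j k ≤ 1) ∧ (∀ k, ∑ j, c j k * β j k ≤ 1)}
  have hS : ∀ c, c ∈ S ↔ Plan s x w y y₁ y₂ c a b α β := by
    intro c
    constructor
    · rintro ⟨h1, h2, h3, h4⟩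
      refine ⟨h1, Q.ha, Q.hb, Q.hα, Q.hβ, Q.hg, ?_, h3, h4⟩
      intro j k hjk
      by_contra hcon
      exact hjk (h2 j k hcon)
    · intro P
      refine ⟨P.hc, ?_, P.hle, P.hle'⟩
      intro j k hjk
      by_contra hcon
      exact hjk (P.h0 j k hcon)
  have hcont : ∀ j k, Continuous fun c : ι → ι → ℝ => c j k := fun j k =>
    (continuous_apply k).comp (continuous_apply j)
  have hclosed : IsClosed S := by
    have c1 : IsClosed {c : ι → ι → ℝ | ∀ j k, 0 ≤ c j k} := by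
      simp only [Set.setOf_forall]
      exact isClosed_iInter fun j => isClosed_iInter fun k =>
        isClosed_le continuous_const (hcont j k)
    have c2 : IsClosed {c : ι → ι → ℝ | ∀ j k,
        ¬ (0 < y₁ j ∧ 0 < y₂ j ∧ y₁ k * y₂ k < 0) → c j k = 0} := by
      simp only [Set.setOf_forall]
      exact isClosed_iInter fun j => isClosed_iInter fun k => isClosed_iInter fun _ =>
        isClosed_eq (hcont j k) continuous_const
    have c3 : IsClosed {c : ι → ι → ℝ | ∀ j, ∑ k, c j k * α j k ≤ 1} := by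
      simp only [Set.setOf_forall]
      exact isClosed_iInter fun j => isClosed_le
        (continuous_finset_sum _ fun k _ => (hcont j k).mul continuous_const) continuous_const
    have c4 : IsClosed {c : ι → ι → ℝ | ∀ k, ∑ j, c j k * β j k ≤ 1} := by
      simp only [Set.setOf_forall]
      exact isClosed_iInter fun k => isClosed_le
        (continuous_finset_sum _ fun j _ => (hcont j k).mul continuous_const) continuous_const
    exact c1.inter (c2.inter (c3.inter c4))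
  have hcomp : IsCompact S := by
    have hbox : IsCompact (Set.pi Set.univ fun j : ι => Set.pi Set.univ fun k : ι =>
        Icc (0 : ℝ) (1 / α j k)) :=
      isCompact_univ_pi fun j => isCompact_univ_pi fun k => isCompact_Icc
    refine hbox.of_isClosed_subset hclosed ?_
    rintro c ⟨h1, -, h3, -⟩ j - k -
    refine ⟨h1 j k, ?_⟩
    rw [le_div_iff₀ (Q.hα j k)]
    refine le_trans ?_ (h3 j)
    exact Finset.single_le_sum (f := fun k => c j k * α j k)
      (fun i _ => mul_nonneg (h1 j i) (Q.hα j i).le) (Finset.mem_univ k)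
  have hne : S.Nonempty := ⟨_, (hS _).2 Q⟩
  have hobj : ContinuousOn (fun c : ι → ι → ℝ => ∑ j, ∑ k, c j k * β j k) S :=
    (continuous_finset_sum _ fun j _ => continuous_finset_sum _ fun k _ =>
      (hcont j k).mul continuous_const).continuousOn
  obtain ⟨c, hc, hmax⟩ := hcomp.exists_isMaxOn hne hobj
  exact ⟨c, (hS c).1 hc, fun c' hc' => hmax ((hS c').2 hc')⟩

end Pool.Agent.LibSchN
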