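import Pool.Agent.LibSchN.S5b

/-! **S5c.**  The transport problem. -/

open Matrix Set MeasureTheory
open scoped ComplexOrder

namespace Pool.Agent.LibSchN

open Pool.Agent.LibSchP Pool.Agent.LibSchQ
open Pool.Agent.LibSch (lamP lamM FF)

variable {ι : Type} [Fintype ι] {s x w y : ℝ} {y₁ y₂ z₁ z₂ : ι → ℝ}

/-- if neither the row `j` nor the column `k` is full, the plan can be increased at `(j, k)` -/
theorem s5c_increase {c a b α β : ι → ι → ℝ} (Q : Plan s x w y y₁ y₂ c a b α β) (j₀ k₀ : ι)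
    (h₁ : 0 < y₁ j₀) (h₂ : 0 < y₂ j₀) (h₃ : y₁ k₀ * y₂ k₀ < 0)
    (hj : ∑ k, c j₀ k * α j₀ k < 1) (hk : ∑ j, c j k₀ * β j k₀ < 1) :
    ∃ c', Plan s x w y y₁ y₂ c' a b α β ∧
      ∑ j, ∑ k, c j k * β j k < ∑ j, ∑ k, c' j k * β j k := by
  classical
  set ε : ℝ := min ((1 - ∑ k, c j₀ k * α j₀ k) / α j₀ k₀)
    ((1 - ∑ j, c j k₀ * β j k₀) / β j₀ k₀) with hε
  have hα := Q.hα j₀ k₀
  have hβ := Q.hβ j₀ k₀
  have hε0 : 0 < ε := lt_min (div_pos (by linarith) hα) (div_pos (by linarith) hβ)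
  have hε1 : ε * α j₀ k₀ ≤ 1 - ∑ k, c j₀ k * α j₀ k := by
    rw [← le_div_iff₀ hα]
    exact min_le_left _ _
  have hε2 : ε * β j₀ k₀ ≤ 1 - ∑ j, c j k₀ * β j k₀ := by
    rw [← le_div_iff₀ hβ]
    exact min_le_right _ _
  let d : ι → ι → ℝ := fun j k => if j = j₀ ∧ k = k₀ then ε else 0
  have hd0 : ∀ j k, 0 ≤ d j k := by
    intro j k
    show 0 ≤ if j = j₀ ∧ k = k₀ then ε else 0
    split_ifs
    · exact hε0.le
    · exact le_rfl
  have hdrow : ∀ (f : ι → ι → ℝ) j, ∑ k, d j k * f j k = if j = j₀ then ε * f j₀ k₀ else 0 := by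
    intro f j
    by_cases hjj : j = j₀
    · subst hjj
      rw [if_pos rfl, Finset.sum_eq_single k₀]
      · show (if j = j ∧ k₀ = k₀ then ε else 0) * f j k₀ = _
        rw [if_pos ⟨rfl, rfl⟩]
      · intro k _ hk'
        show (if j = j ∧ k = k₀ then ε else 0) * f j k = 0
        rw [if_neg (fun h => hk' h.2), zero_mul]
      · intro h
        exact absurd (Finset.mem_univ _) h
    · rw [if_neg hjj]
      refine Finset.sum_eq_zero fun k _ => ?_
      show (if j = j₀ ∧ k = k₀ then ε else 0) * f j k = 0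
      rw [if_neg (fun h => hjj h.1), zero_mul]
  have hdcol : ∀ (f : ι → ι → ℝ) k, ∑ j, d j k * f j k = if k = k₀ then ε * f j₀ k₀ else 0 := by
    intro f k
    by_cases hkk : k = k₀
    · subst hkk
      rw [if_pos rfl, Finset.sum_eq_single j₀]
      · show (if j₀ = j₀ ∧ k = k then ε else 0) * f j₀ k = _
        rw [if_pos ⟨rfl, rfl⟩]
      · intro j _ hj'
        show (if j = j₀ ∧ k = k then ε else 0) * f j k = 0
        rw [if_neg (fun h => hj' h.1), zero_mul]
      · intro h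
        exact absurd (Finset.mem_univ _) h
    · rw [if_neg hkk]
      refine Finset.sum_eq_zero fun j _ => ?_
      show (if j = j₀ ∧ k = k₀ then ε else 0) * f j k = 0
      rw [if_neg (fun h => hkk h.2), zero_mul]
  refine ⟨fun j k => c j k + d j k, ⟨fun j k => add_nonneg (Q.hc j k) (hd0 j k), Q.ha, Q.hb,
    Q.hα, Q.hβ, Q.hg, ?_, ?_, ?_⟩, ?_⟩
  · intro j k hne
    by_cases hjk : j = j₀ ∧ k = k₀
    · obtain ⟨rfl, rfl⟩ := hjk
      exact ⟨h₁, h₂, h₃⟩
    · refine Q.h0 j k fun h0 => hne ?_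
      show c j k + (if j = j₀ ∧ k = k₀ then ε else 0) = 0
      rw [if_neg hjk, h0, add_zero]
  · intro j
    have e : ∑ k, (c j k + d j k) * α j k = ∑ k, c j k * α j k + ∑ k, d j k * α j k := by
      rw [← Finset.sum_add_distrib]
      exact Finset.sum_congr rfl fun k _ => by ring
    rw [e, hdrow]
    split_ifs with h
    · subst h
      linarith
    · rw [add_zero]
      exact Q.hle j
  · intro k
    have e : ∑ j, (c j k + d j k) * β j k = ∑ j, c j k * β j k + ∑ j, d j k * β j k := by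
      rw [← Finset.sum_add_distrib]
      exact Finset.sum_congr rfl fun j _ => by ring
    rw [e, hdcol]
    split_ifs with h
    · subst h
      linarith
    · rw [add_zero]
      exact Q.hle' k
  · have e : ∀ j, ∑ k, (c j k + d j k) * β j k = ∑ k, c j k * β j k +
        if j = j₀ then ε * β j₀ k₀ else 0 := by
      intro j
      rw [← hdrow, ← Finset.sum_add_distrib]
      exact Finset.sum_congr rfl fun k _ => by ring
    rw [Finset.sum_congr rfl fun j _ => e j, Finset.sum_add_distrib, Finset.sum_ite_eq']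
    simp only [Finset.mem_univ, if_true]
    have := mul_pos hε0 hβ
    linarith

/-- **transport**: for the maximal plan all bad mass is used: if `∑_j c j k₀ β j k₀ < 1` for a bad
`k₀` then every `j` with `y₁ j, y₂ j > 0` has `∑_k c j k α j k = 1` (otherwise increase `c j k₀`);
then all terms of `∑ ρ y₁ y₂` are `≤ 0` and the one of `k₀` is `< 0`, contradicting `plan_CL`. -/
theorem transport (D : Sc s x w y y₁ y₂ z₁ z₂) : ∃ c a b α β : ι → ι → ℝ,
    Plan s x w y y₁ y₂ c a b α β ∧ ∀ k, y₁ k * y₂ k < 0 → ∑ j, c j k * β j k = 1 := by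
  classical
  obtain ⟨a, b, α, β, Q0⟩ := plan_exists D
  obtain ⟨c, Q, hmax⟩ := plan_max a b α β Q0
  refine ⟨c, a, b, α, β, Q, fun k₀ hk₀ => ?_⟩
  by_contra hne
  have hlt : ∑ j, c j k₀ * β j k₀ < 1 := lt_of_le_of_ne (Q.hle' k₀) hne
  -- all good columns are full
  have hfull : ∀ j, 0 < y₁ j → 0 < y₂ j → ∑ k, c j k * α j k = 1 := by
    intro j h1 h2
    by_contra hj
    obtain ⟨c', Q', hc'⟩ := s5c_increase Q j k₀ h1 h2 hk₀ (lt_of_le_of_ne (Q.hle j) hj) hlt
    exact absurd (hmax c' Q') (not_le.2 hc')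
  have hρ := (plan_rest D Q).1
  have hsum := (plan_CL D Q).2.2
  -- all terms are nonpositive
  have hterm : ∀ j, (1 - ∑ k, c j k * α j k - ∑ i, c i j * β i j) * (y₁ j * y₂ j) ≤ 0 := by
    intro j
    by_cases hbad : y₁ j * y₂ j ≤ 0
    · exact mul_nonpos_of_nonneg_of_nonpos (hρ j) hbad
    · have hpos : 0 < y₁ j * y₂ j := not_le.1 hbad
      have hp : 0 < y₁ j ∧ 0 < y₂ j := by
        rcases Sc_sign D j with ⟨h1, h2⟩ | ⟨h1, h2⟩ | ⟨h1, h2⟩
        · refine ⟨lt_of_le_of_ne h1 fun h => ?_, lt_of_le_of_ne h2 fun h => ?_⟩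
          · rw [← h, zero_mul] at hpos
            exact lt_irrefl _ hpos
          · rw [← h, mul_zero] at hpos
            exact lt_irrefl _ hpos
        · nlinarith
        · nlinarith
      have e1 := hfull j hp.1 hp.2
      have e2 : ∑ i, c i j * β i j = 0 := by
        refine Finset.sum_eq_zero fun i _ => ?_
        have : c i j = 0 := by
          by_contra h
          have := (Q.h0 i j h).2.2
          linarith
        rw [this, zero_mul]
      rw [e1, e2]
      simp
  have hk : (1 - ∑ k, c k₀ k * α k₀ k - ∑ i, c i k₀ * β i k₀) * (y₁ k₀ * y₂ k₀) < 0 := by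
    have e1 : ∑ k, c k₀ k * α k₀ k = 0 := by
      refine Finset.sum_eq_zero fun k _ => ?_
      have : c k₀ k = 0 := by
        by_contra h
        have h' := Q.h0 k₀ k h
        have := mul_pos h'.1 h'.2.1
        linarith
      rw [this, zero_mul]
    rw [e1]
    exact mul_neg_of_pos_of_neg (by linarith) hk₀
  have : ∑ j, (1 - ∑ k, c j k * α j k - ∑ i, c i j * β i j) * (y₁ j * y₂ j) < 0 :=
    Finset.sum_neg' (fun j _ => hterm j) ⟨k₀, Finset.mem_univ _, hk⟩
  linarith

end Pool.Agent.LibSchN
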