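import Pool.Agent.LibSchN.E1

/-! **S6.**  Existence of the scalar data. -/

open Matrix Set MeasureTheory
open scoped ComplexOrder

namespace Pool.Agent.LibSchN

open Pool.Agent.LibSchP Pool.Agent.LibSchQ
open Pool.Agent.LibSch (lamP lamM FF)

/-- `M = G^((2-p)/2)` for `G = Z Zᵀ = [∑ z₁², ∑ z₁z₂; ∑ z₁z₂, ∑ z₂²]`, `y = M⁻¹ z`
(`e (-(2-p)/2)` of `G`, `e_inv`); `∑ y yᵀ = M⁻¹ G M⁻¹ = G^(p-1) = M^(s-1)` (`e_mul`, `e_comp`:
`(2-p)/2 * (s-1) = p-1`); `FF s M = FF (p/2) G` (`e_lam`: `(2-p)/2 * s = p/2`). -/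
theorem Sc_exists {ι : Type} [Fintype ι] {s p : ℝ} (h1 : 1 < s) (h2 : s < 2)
    (hp : p = 2 * s / (s + 1)) (z₁ z₂ : ι → ℝ) (hz₁ : ∀ j, 0 ≤ z₁ j) (hz₂ : ∀ j, 0 ≤ z₂ j)
    (h : PD (∑ j, z₁ j ^ 2) (∑ j, z₁ j * z₂ j) (∑ j, z₂ j ^ 2)) :
    ∃ (x w y : ℝ) (y₁ y₂ : ι → ℝ), Sc s x w y y₁ y₂ z₁ z₂ ∧
      FF s x y w = FF (p / 2) (∑ j, z₁ j ^ 2) (∑ j, z₂ j ^ 2) (∑ j, z₁ j * z₂ j) := by
  set X := ∑ j, z₁ j ^ 2 with hX
  set W := ∑ j, z₁ j * z₂ j with hW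
  set Y := ∑ j, z₂ j ^ 2 with hY
  have hs1 : (0 : ℝ) < s + 1 := by linarith
  set t : ℝ := 1 / (s + 1) with ht
  have ht0 : 0 < t := by positivity
  have hPD := e_PD h t ht0
  obtain ⟨i1, i2, i3, i4⟩ := e_inv h t
  obtain ⟨o1, o2, o3⟩ := e_one h
  obtain ⟨a1, a2, a3, a4⟩ := e_mul h (-t) 1
  obtain ⟨b1, b2, b3, b4⟩ := e_mul h (-t + 1) (-t)
  obtain ⟨c1, c2, c3⟩ := e_comp h t (s - 1) ht0
  have hexp : -t + 1 + -t = t * (s - 1) := by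
    rw [ht]; field_simp; ring
  rw [o1, o2] at a1 a3
  rw [o2, o3] at a2 a4
  rw [hexp] at b1 b2 b3 b4
  have hsum : ∀ (p q p' q' : ℝ), ∑ j, (p * z₁ j + q * z₂ j) * (p' * z₁ j + q' * z₂ j) =
      p * p' * X + (p * q' + q * p') * W + q * q' * Y := by
    intro p q p' q'
    rw [hX, hW, hY, Finset.mul_sum, Finset.mul_sum, Finset.mul_sum, ← Finset.sum_add_distrib,
      ← Finset.sum_add_distrib]
    exact Finset.sum_congr rfl fun j _ => by ring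
  refine ⟨e11 t X W Y, e12 t X W Y, e22 t X W Y,
    fun j => e11 (-t) X W Y * z₁ j + e12 (-t) X W Y * z₂ j,
    fun j => e12 (-t) X W Y * z₁ j + e22 (-t) X W Y * z₂ j,
    ⟨h1, h2, hPD, ?_, ?_, hz₁, hz₂, ?_, ?_, ?_⟩, ?_⟩
  · intro j
    linear_combination (-z₁ j) * i1 - z₂ j * i2
  · intro j
    linear_combination (-z₁ j) * i3 - z₂ j * i4
  · simp only [pow_two]
    rw [hsum, c1, b1, a1, a2]
    ring
  · rw [hsum, c2, b2, a1, a2]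
    ring
  · simp only [pow_two]
    rw [hsum, c3, b4, a3, a4]
    ring
  · unfold FF
    obtain ⟨l1, l2⟩ := e_lam h t ht0
    obtain ⟨m1, m2, -, -⟩ := lam_facts h
    rw [l1, l2, ← Real.rpow_mul (by linarith), ← Real.rpow_mul (by linarith)]
    have : t * s = p / 2 := by
      rw [ht, hp]; field_simp
    rw [this]

end Pool.Agent.LibSchN
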