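import Pool.Agent.LibSchN.Defs

/-! **T0.**  Test matrices and the functional of a column (definitions only). -/

open Matrix Set MeasureTheory
open scoped ComplexOrder

namespace Pool.Agent.LibSchN

open Pool.Agent.LibSchP Pool.Agent.LibSchQ
open Pool.Agent.LibSch (lamP lamM FF)

variable {n : Type} [Fintype n] [DecidableEq n]

variable {ι : Type} [Fintype ι]

/-- the test matrices: norming up to `pw q = y^q` for the entries `y ≥ 0` -/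
structure Tst (q : ℝ) (y₁ y₂ : ι → ℝ) (S₁ S₂ : ι → Matrix n n ℂ) : Prop where
  u₁ : ∀ j, 0 < y₁ j → IsUnit (S₁ j).det
  u₂ : ∀ j, 0 < y₂ j → IsUnit (S₂ j).det
  p₁ : ∀ j, 0 ≤ y₁ j → LibSch.pw q (S₁ j) = y₁ j ^ q
  p₂ : ∀ j, 0 ≤ y₂ j → LibSch.pw q (S₂ j) = y₂ j ^ q

/-- the functional of a column -/
noncomputable def col (q : ℝ) (P : Matrix (n ⊕ n) (n ⊕ n) ℂ) (y₁ y₂ z₁ z₂ : ℝ)
    (X₁ X₂ : Matrix n n ℂ) : ℝ :=
  QP P X₁ X₂ + lamf q y₁ z₁ * LibSch.pw q X₁ + lamf q y₂ z₂ * LibSch.pw q X₂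

end Pool.Agent.LibSchN
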