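import Pool.Agent.LibSchN.T0
import Pool.Agent.LibSchN.S5a
import Pool.Agent.LibSchN.G2b

/-! **T1a.**  The choice for a bad column. -/

open Matrix Set MeasureTheory
open scoped ComplexOrder

namespace Pool.Agent.LibSchN

open Pool.Agent.LibSchP Pool.Agent.LibSchQ
open Pool.Agent.LibSch (lamP lamM FF)

variable {n : Type} [Fintype n] [DecidableEq n]

variable {ι : Type} [Fintype ι]

/-- for a bad column `k` there is one pair `(X₁, X₂)` which is good for all groups `(j, k)`, `j` in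
the finite set of all `j` with `y₁ j, y₂ j > 0`: the best of the `X` of `group_one`/`group_two`
(`Finset.exists_min_image`); if there is no such `j` take any. -/
theorem bad_choice {s p q x w y : ℝ} {y₁ y₂ z₁ z₂ : ι → ℝ} (D : Sc s x w y y₁ y₂ z₁ z₂)
    (hp : p = 2 * s / (s + 1)) (hq : q = 2 * s / (s - 1)) {c a b α β : ι → ι → ℝ}
    (Q : Plan s x w y y₁ y₂ c a b α β) {P : Matrix (n ⊕ n) (n ⊕ n) ℂ} (hP : P.PosDef)
    {S₁ S₂ : ι → Matrix n n ℂ} (T : Tst q y₁ y₂ S₁ S₂) (k : ι) (hk : y₁ k * y₂ k < 0) :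
    ∃ X₁ X₂ : Matrix n n ℂ, (0 < y₁ k → X₁ = S₁ k) ∧ (0 < y₂ k → X₂ = S₂ k) ∧
      ∀ j, 0 < y₁ j → 0 < y₂ j →
        α j k * QP P (S₁ j) (S₂ j) + β j k * col q P (y₁ k) (y₂ k) (z₁ k) (z₂ k) X₁ X₂ ≤
          1 / s * Fm s (a j k) (b j k) P + (s - 1) / s * FN s (a j k) (b j k) x w y +
          β j k * (lamf q (y₁ k) (z₁ k) * |y₁ k| ^ q + lamf q (y₂ k) (z₂ k) * |y₂ k| ^ q) := by
  classical
  by_cases hJ : (Finset.univ.filter fun j => 0 < y₁ j ∧ 0 < y₂ j).Nonempty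
  swap
  · refine ⟨S₁ k, S₂ k, fun _ => rfl, fun _ => rfl, ?_⟩
    intro j h1 h2
    exact absurd ⟨j, by simp [h1, h2]⟩ hJ
  have hz1 : 0 ≤ x * y₁ k + w * y₂ k := by rw [← D.hz₁ k]; exact D.z₁0 k
  have hz2 : 0 ≤ w * y₁ k + y * y₂ k := by rw [← D.hz₂ k]; exact D.z₂0 k
  rcases Sc_sign D k with h | h | h
  · exact absurd hk (not_lt.2 (mul_nonneg h.1 h.2))
  · have hex : ∀ j, 0 < y₁ j → 0 < y₂ j → ∃ X : Matrix n n ℂ,
        α j k * QP P (S₁ j) (S₂ j) + β j k * (QP P (S₁ k) X +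
          lamf q (y₂ k) (w * y₁ k + y * y₂ k) * LibSch.pw q X) ≤
        1 / s * Fm s (a j k) (b j k) P + (s - 1) / s * FN s (a j k) (b j k) x w y +
          β j k * (lamf q (y₂ k) (w * y₁ k + y * y₂ k) * |y₂ k| ^ q) := by
      intro j h1 h2
      exact group_two D.h1 D.h2 hp hq D.pd (Q.hg j k h1 h2 hk) h1 h2 h.1 h.2 hz1 hz2 hP _ _ _
        (T.u₁ j h1) (T.u₂ j h2) (T.u₁ k h.1) (T.p₁ j h1.le) (T.p₂ j h2.le) (T.p₁ k h.1.le)
    choose! X hX using hex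
    obtain ⟨j0, hj0, hmin⟩ := Finset.exists_min_image
      (Finset.univ.filter fun j => 0 < y₁ j ∧ 0 < y₂ j)
      (fun j => QP P (S₁ k) (X j) + lamf q (y₂ k) (w * y₁ k + y * y₂ k) * LibSch.pw q (X j)) hJ
    refine ⟨S₁ k, X j0, fun _ => rfl, fun h' => absurd h' (not_lt.2 h.2.le), ?_⟩
    intro j h1 h2
    have e1 := hX j h1 h2
    have e2 := hmin j (by simp [h1, h2])
    have e3 : lamf q (y₁ k) (z₁ k) = 0 := by
      rw [lamf, if_neg (not_lt.2 h.1.le)]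
    have e4 := mul_le_mul_of_nonneg_left e2 (Q.hβ j k).le
    rw [col, e3, zero_mul, zero_mul, add_zero, zero_add, D.hz₂ k]
    linarith
  · have hex : ∀ j, 0 < y₁ j → 0 < y₂ j → ∃ X : Matrix n n ℂ,
        α j k * QP P (S₁ j) (S₂ j) + β j k * (QP P X (S₂ k) +
          lamf q (y₁ k) (x * y₁ k + w * y₂ k) * LibSch.pw q X) ≤
        1 / s * Fm s (a j k) (b j k) P + (s - 1) / s * FN s (a j k) (b j k) x w y +
          β j k * (lamf q (y₁ k) (x * y₁ k + w * y₂ k) * |y₁ k| ^ q) := by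
      intro j h1 h2
      exact group_one D.h1 D.h2 hp hq D.pd (Q.hg j k h1 h2 hk) h1 h2 h.1 h.2 hz1 hz2 hP _ _ _
        (T.u₁ j h1) (T.u₂ j h2) (T.u₂ k h.2) (T.p₁ j h1.le) (T.p₂ j h2.le) (T.p₂ k h.2.le)
    choose! X hX using hex
    obtain ⟨j0, hj0, hmin⟩ := Finset.exists_min_image
      (Finset.univ.filter fun j => 0 < y₁ j ∧ 0 < y₂ j)
      (fun j => QP P (X j) (S₂ k) + lamf q (y₁ k) (x * y₁ k + w * y₂ k) * LibSch.pw q (X j)) hJ
    refine ⟨X j0, S₂ k, fun h' => absurd h' (not_lt.2 h.1.le), fun _ => rfl, ?_⟩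
    intro j h1 h2
    have e1 := hX j h1 h2
    have e2 := hmin j (by simp [h1, h2])
    have e3 : lamf q (y₂ k) (z₂ k) = 0 := by
      rw [lamf, if_neg (not_lt.2 h.2.le)]
    have e4 := mul_le_mul_of_nonneg_left e2 (Q.hβ j k).le
    rw [col, e3, zero_mul, zero_mul, add_zero, add_zero, D.hz₁ k]
    linarith

end Pool.Agent.LibSchN
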