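import Pool.Agent.LibSchN.B12
import Pool.Agent.LibSchN.S5c
import Pool.Agent.LibSchN.R1
import Pool.Agent.LibSchN.T1a

/-! **T1b.**  Assembly: the inequality (T). -/

open Matrix Set MeasureTheory
open scoped ComplexOrder

namespace Pool.Agent.LibSchN

open Pool.Agent.LibSchP Pool.Agent.LibSchQ
open Pool.Agent.LibSch (lamP lamM FF)

variable {n : Type} [Fintype n] [DecidableEq n]

variable {ι : Type} [Fintype ι]

/-- **(T)**: `transport`; for the bad `k` the `X` of `bad_choice`, for the others `X = S`.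
`∑_j col_j = ∑_j ρ_j col_j + ∑_jk c_jk (α_jk col_j + β_jk col_k)`
(`ρ j = 1 - ∑_k c j k α j k - ∑_i c i j β i j`, `ρ = 0` for the bad columns); `col_good` for the good
`j` (times `ρ_j`), `bad_choice` (times `c_jk`); `plan_rest`, `SK` with `κ = ι × ι`, `plan_CL`;
`FN_eq` and `Sc_sum` for the `(s-1)/s`-terms. -/
theorem main_T {s p q x w y : ℝ} {y₁ y₂ z₁ z₂ : ι → ℝ} (D : Sc s x w y y₁ y₂ z₁ z₂)
    (hp : p = 2 * s / (s + 1)) (hq : q = 2 * s / (s - 1))
    {P : Matrix (n ⊕ n) (n ⊕ n) ℂ} (hP : P.PosDef)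
    {S₁ S₂ : ι → Matrix n n ℂ} (T : Tst q y₁ y₂ S₁ S₂) :
    ∃ X₁ X₂ : ι → Matrix n n ℂ, (∀ j, 0 ≤ y₁ j → X₁ j = S₁ j) ∧ (∀ j, 0 ≤ y₂ j → X₂ j = S₂ j) ∧
      ∑ j, col q P (y₁ j) (y₂ j) (z₁ j) (z₂ j) (X₁ j) (X₂ j) ≤
        1 / s * LibSch.pw s P + (s - 1) / s * FF s x y w +
        ∑ j, (lamf q (y₁ j) (z₁ j) * |y₁ j| ^ q + lamf q (y₂ j) (z₂ j) * |y₂ j| ^ q) := by
  classical
  have hs0 : 0 < s := by linarith [D.h1]
  obtain ⟨c, a, b, α, β, Q, hbad⟩ := transport D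
  have hgood : ∀ j, ¬ y₁ j * y₂ j < 0 → 0 ≤ y₁ j ∧ 0 ≤ y₂ j := by
    intro j hj
    rcases Sc_sign D j with h | h | h
    · exact h
    · exact absurd (mul_neg_of_pos_of_neg h.1 h.2) hj
    · exact absurd (mul_neg_of_neg_of_pos h.1 h.2) hj
  have hl0 : ∀ u z : ℝ, 0 ≤ u → lamf q u z = 0 := by
    intro u z hu
    unfold lamf
    rw [if_neg (not_lt.2 hu)]
  have hX : ∀ k, ∃ X₁ X₂ : Matrix n n ℂ, (0 ≤ y₁ k → X₁ = S₁ k) ∧ (0 ≤ y₂ k → X₂ = S₂ k) ∧
      (y₁ k * y₂ k < 0 → ∀ j, 0 < y₁ j → 0 < y₂ j →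
        α j k * QP P (S₁ j) (S₂ j) + β j k * col q P (y₁ k) (y₂ k) (z₁ k) (z₂ k) X₁ X₂ ≤
          1 / s * Fm s (a j k) (b j k) P + (s - 1) / s * FN s (a j k) (b j k) x w y +
          β j k * (lamf q (y₁ k) (z₁ k) * |y₁ k| ^ q + lamf q (y₂ k) (z₂ k) * |y₂ k| ^ q)) := by
    intro k
    by_cases hk : y₁ k * y₂ k < 0
    · obtain ⟨X₁, X₂, h₁, h₂, h₃⟩ := bad_choice D hp hq Q hP T k hk
      refine ⟨X₁, X₂, fun h => h₁ (lt_of_le_of_ne h fun h0 => ?_),
        fun h => h₂ (lt_of_le_of_ne h fun h0 => ?_), fun _ => h₃⟩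
      · rw [← h0, zero_mul] at hk
        exact lt_irrefl _ hk
      · rw [← h0, mul_zero] at hk
        exact lt_irrefl _ hk
    · exact ⟨S₁ k, S₂ k, fun _ => rfl, fun _ => rfl, fun h => absurd h hk⟩
  choose X₁ X₂ hX₁ hX₂ hX₃ using hX
  refine ⟨X₁, X₂, hX₁, hX₂, ?_⟩
  obtain ⟨hρ0, r11, r12, r22⟩ := plan_rest D Q
  obtain ⟨hA, hB, -⟩ := plan_CL D Q
  obtain ⟨-, hFF⟩ := Sc_sum D
  set C : ι → ℝ := fun j => col q P (y₁ j) (y₂ j) (z₁ j) (z₂ j) (X₁ j) (X₂ j) with hC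
  set L : ι → ℝ := fun j => lamf q (y₁ j) (z₁ j) * |y₁ j| ^ q + lamf q (y₂ j) (z₂ j) * |y₂ j| ^ q
    with hL
  set ρ : ι → ℝ := fun j => 1 - ∑ k, c j k * α j k - ∑ i, c i j * β i j with hρ
  have hCg : ∀ j, ¬ y₁ j * y₂ j < 0 → C j = QP P (S₁ j) (S₂ j) := by
    intro j hj
    obtain ⟨g1, g2⟩ := hgood j hj
    simp only [hC, col]
    rw [hX₁ j g1, hX₂ j g2, hl0 _ _ g1, hl0 _ _ g2]
    ring
  have hLg : ∀ j, ¬ y₁ j * y₂ j < 0 → L j = 0 := by
    intro j hj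
    obtain ⟨g1, g2⟩ := hgood j hj
    simp only [hL]
    rw [hl0 _ _ g1, hl0 _ _ g2]
    ring
  have hc0 : ∀ j k, y₁ j * y₂ j < 0 → c j k = 0 := by
    intro j k hj
    by_contra hne
    obtain ⟨g1, g2, -⟩ := Q.h0 j k hne
    exact absurd hj (not_lt.2 (mul_pos g1 g2).le)
  have hc0' : ∀ j k, ¬ y₁ k * y₂ k < 0 → c j k = 0 := by
    intro j k hk
    by_contra hne
    exact hk (Q.h0 j k hne).2.2
  have hρb : ∀ j, y₁ j * y₂ j < 0 → ρ j = 0 := by
    intro j hj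
    simp only [hρ]
    rw [hbad j hj, Finset.sum_eq_zero fun k _ => by rw [hc0 j k hj, zero_mul]]
    ring
  -- the decomposition of the sum
  have hsum : ∑ j, C j = ∑ j, ρ j * C j + ∑ j, ∑ k, c j k * (α j k * C j + β j k * C k) := by
    have e1 : ∑ j, ∑ k, c j k * (α j k * C j + β j k * C k) =
        ∑ j, (∑ k, c j k * α j k) * C j + ∑ j, (∑ i, c i j * β i j) * C j := by
      have e2 : ∑ j, (∑ i, c i j * β i j) * C j = ∑ j, ∑ k, c j k * β j k * C k := by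
        simp only [Finset.sum_mul]
        exact Finset.sum_comm
      rw [e2]
      simp only [Finset.sum_mul, ← Finset.sum_add_distrib]
      refine Finset.sum_congr rfl fun j _ => Finset.sum_congr rfl fun k _ => ?_
      ring
    rw [e1, ← Finset.sum_add_distrib, ← Finset.sum_add_distrib]
    refine Finset.sum_congr rfl fun j _ => ?_
    simp only [hρ]
    ring
  set A1 := x ^ (1 - s) * LibSch.pw s P.toBlocks₁₁ with hA1
  set A12 := w ^ (1 - s) * LibSch.pw s P.toBlocks₁₂ with hA12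
  set A2 := y ^ (1 - s) * LibSch.pw s P.toBlocks₂₂ with hA2
  -- the rest
  have hrest : ∑ j, ρ j * C j ≤ (∑ j, ρ j * y₁ j ^ 2) * (1 / s * A1 + (s - 1) / s * x) +
      2 * ((∑ j, ρ j * (y₁ j * y₂ j)) * (1 / s * A12 + (s - 1) / s * w)) +
      (∑ j, ρ j * y₂ j ^ 2) * (1 / s * A2 + (s - 1) / s * y) := by
    rw [Finset.sum_mul, Finset.sum_mul, Finset.sum_mul, Finset.mul_sum, ← Finset.sum_add_distrib,
      ← Finset.sum_add_distrib]
    refine Finset.sum_le_sum fun j _ => ?_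
    by_cases hj : y₁ j * y₂ j < 0
    · rw [hρb j hj]
      simp
    · obtain ⟨g1, g2⟩ := hgood j hj
      have g := col_good D.h1 D.h2 hp hq D.pd P (S₁ j) (S₂ j) (y₁ j) (y₂ j) g1 g2
        (T.p₁ j g1) (T.p₂ j g2)
      rw [← hA1, ← hA12, ← hA2] at g
      have g' := mul_le_mul_of_nonneg_left g (hρ0 j)
      rw [hCg j hj]
      calc ρ j * QP P (S₁ j) (S₂ j) ≤ _ := g'
        _ = _ := by
          simp only [hρ]
          ring
  -- the groups
  have hgr : ∑ j, ∑ k, c j k * (α j k * C j + β j k * C k) ≤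
      ∑ j, ∑ k, c j k * (1 / s * Fm s (a j k) (b j k) P +
        (s - 1) / s * FN s (a j k) (b j k) x w y + β j k * L k) := by
    refine Finset.sum_le_sum fun j _ => Finset.sum_le_sum fun k _ => ?_
    by_cases hcc : c j k = 0
    · rw [hcc, zero_mul, zero_mul]
    · obtain ⟨g1, g2, g3⟩ := Q.h0 j k hcc
      rw [hCg j (not_lt.2 (mul_pos g1 g2).le)]
      exact mul_le_mul_of_nonneg_left (hX₃ k g3 j g1 g2) (Q.hc j k)
  have hLs : ∑ j, ∑ k, c j k * (β j k * L k) = ∑ j, L j := by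
    rw [Finset.sum_comm]
    refine Finset.sum_congr rfl fun k _ => ?_
    by_cases hk : y₁ k * y₂ k < 0
    · have e : ∑ j, c j k * (β j k * L k) = (∑ j, c j k * β j k) * L k := by
        rw [Finset.sum_mul]
        refine Finset.sum_congr rfl fun j _ => ?_
        ring
      rw [e, hbad k hk, one_mul]
    · rw [hLg k hk]
      exact Finset.sum_eq_zero fun j _ => by rw [mul_zero, mul_zero]
  set SF := ∑ j, ∑ k, c j k * Fm s (a j k) (b j k) P with hSF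
  set T11 := ∑ j, ∑ k, c j k * N11 s (a j k) (b j k) x w y with hT11
  set T12 := ∑ j, ∑ k, c j k * N12 s (a j k) (b j k) x w y with hT12
  set T22 := ∑ j, ∑ k, c j k * N22 s (a j k) (b j k) x w y with hT22
  have hFNs : ∑ j, ∑ k, c j k * FN s (a j k) (b j k) x w y = x * T11 + 2 * w * T12 + y * T22 := by
    simp only [hT11, hT12, hT22, Finset.mul_sum, ← Finset.sum_add_distrib]
    refine Finset.sum_congr rfl fun j _ => Finset.sum_congr rfl fun k _ => ?_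
    rw [FN_eq D.pd s (a j k) (b j k) (Q.ha j k) (Q.hb j k)]
    ring
  have hsplit : ∑ j, ∑ k, c j k * (1 / s * Fm s (a j k) (b j k) P +
        (s - 1) / s * FN s (a j k) (b j k) x w y + β j k * L k) =
      1 / s * SF + (s - 1) / s * (x * T11 + 2 * w * T12 + y * T22) + ∑ j, L j := by
    rw [← hFNs, ← hLs]
    simp only [hSF, Finset.mul_sum, ← Finset.sum_add_distrib]
    refine Finset.sum_congr rfl fun j _ => Finset.sum_congr rfl fun k _ => ?_
    ring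
  have hSK := SK s D.h1 D.h2 D.pd P hP (fun g : ι × ι => c g.1 g.2) (fun g => a g.1 g.2)
    (fun g => b g.1 g.2) (fun g => Q.hc g.1 g.2) (fun g => Q.ha g.1 g.2) (fun g => Q.hb g.1 g.2)
    (by rw [Fintype.sum_prod_type]; exact hA) (by rw [Fintype.sum_prod_type]; exact hB)
  simp only [Fintype.sum_prod_type] at hSK
  rw [← hSF, ← hT11, ← hT12, ← hT22] at hSK
  rw [← r11, ← r12, ← r22] at hrest
  have hSK' : SF + (e11 (s - 1) x w y - T11) * A1 + 2 * ((e12 (s - 1) x w y - T12) * A12) +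
      (e22 (s - 1) x w y - T22) * A2 ≤ LibSch.pw s P := by
    refine le_trans (le_of_eq ?_) hSK
    simp only [hA1, hA12, hA2]
    ring
  have hSK2 := mul_le_mul_of_nonneg_left hSK' (one_div_pos.2 hs0).le
  rw [hsum, hFF]
  refine (add_le_add hrest hgr).trans ?_
  rw [hsplit]
  linarith [hSK2]

end Pool.Agent.LibSchN
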