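import Pool.Agent.LibSchN.T0
import Pool.Agent.LibSchQ.F2
import Pool.Agent.LibSchQ.K1b

/-! **T2a.**  Completing the square, test matrices, one entry. -/

open Matrix Set MeasureTheory
open scoped ComplexOrder

namespace Pool.Agent.LibSchN

open Pool.Agent.LibSchP Pool.Agent.LibSchQ
open Pool.Agent.LibSch (lamP lamM FF)

variable {n : Type} [Fintype n] [DecidableEq n]

variable {ι : Type} [Fintype ι]

omit [DecidableEq n] in
theorem t2a_trace_star (A : Matrix n n ℂ) : (trace Aᴴ).re = (trace A).re := by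
  rw [trace_conjTranspose]
  simp

omit [DecidableEq n] in
/-- `QP` as a trace of a column -/
theorem t2a_QP {P : Matrix (n ⊕ n) (n ⊕ n) ℂ} (hP : P.IsHermitian) (X₁ X₂ : Matrix n n ℂ) :
    (trace ((fromRows X₁ X₂)ᴴ * P * fromRows X₁ X₂)).re = QP P X₁ X₂ := by
  have h21 : P.toBlocks₂₁ = P.toBlocks₁₂ᴴ := by
    ext i j
    have := congrFun (congrFun hP (Sum.inr i)) (Sum.inl j)
    simpa [toBlocks₂₁, toBlocks₁₂, conjTranspose_apply] using this.symm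
  have e : (fromRows X₁ X₂)ᴴ * P * fromRows X₁ X₂ =
      (X₁ᴴ * P.toBlocks₁₁ * X₁ + X₂ᴴ * P.toBlocks₂₁ * X₁) +
      (X₁ᴴ * P.toBlocks₁₂ * X₂ + X₂ᴴ * P.toBlocks₂₂ * X₂) := by
    conv_lhs => rw [← fromBlocks_toBlocks P]
    rw [conjTranspose_fromRows_eq_fromCols_conjTranspose, fromCols_mul_fromBlocks,
      fromCols_mul_fromRows, Matrix.add_mul, Matrix.add_mul]
  have e2 : (trace (X₂ᴴ * P.toBlocks₂₁ * X₁)).re = (trace (X₁ᴴ * P.toBlocks₁₂ * X₂)).re := by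
    rw [← t2a_trace_star (X₁ᴴ * P.toBlocks₁₂ * X₂)]
    congr 2
    rw [conjTranspose_mul, conjTranspose_mul, conjTranspose_conjTranspose, h21, Matrix.mul_assoc]
  rw [e, trace_add, trace_add, trace_add, Complex.add_re, Complex.add_re, Complex.add_re, e2]
  unfold QP
  ring

/-- `tr Tᴴ P⁻¹ T ≥ 2 Re tr Xᴴ T - tr Xᴴ P X` for the column `T = [T₁; T₂]`, `X = [X₁; X₂]` -/
theorem square_le {P : Matrix (n ⊕ n) (n ⊕ n) ℂ} (hP : P.PosDef) (T₁ T₂ X₁ X₂ : Matrix n n ℂ) :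
    2 * ((trace (X₁ᴴ * T₁)).re + (trace (X₂ᴴ * T₂)).re) - QP P X₁ X₂ ≤ QP P⁻¹ T₁ T₂ := by
  have hH : P.IsHermitian := hP.isHermitian
  have hHi : P⁻¹.IsHermitian := hP.inv.isHermitian
  have hdet : IsUnit P.det := P.isUnit_iff_isUnit_det.1 hP.isUnit
  rw [← t2a_QP hH X₁ X₂, ← t2a_QP hHi T₁ T₂]
  set X := fromRows X₁ X₂ with hX
  set T := fromRows T₁ T₂ with hT
  have h0 : 0 ≤ (trace ((X - P⁻¹ * T)ᴴ * P * (X - P⁻¹ * T))).re := by
    have := (hP.posSemidef.conjTranspose_mul_mul_same (X - P⁻¹ * T)).trace_nonneg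
    exact (Complex.le_def.1 this).1
  have hXT : X₁ᴴ * T₁ + X₂ᴴ * T₂ = Xᴴ * T := by
    rw [hX, hT, conjTranspose_fromRows_eq_fromCols_conjTranspose, fromCols_mul_fromRows]
  have e1 : (X - P⁻¹ * T)ᴴ * P * (X - P⁻¹ * T) =
      Xᴴ * P * X - Xᴴ * T - Tᴴ * X + Tᴴ * P⁻¹ * T := by
    have a1 : P * (P⁻¹ * T) = T := by
      rw [← Matrix.mul_assoc, mul_nonsing_inv _ hdet, Matrix.one_mul]
    have a2 : (P⁻¹ * T)ᴴ * P = Tᴴ := by
      rw [conjTranspose_mul, hHi.eq, Matrix.mul_assoc, nonsing_inv_mul _ hdet, Matrix.mul_one]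
    rw [conjTranspose_sub, Matrix.sub_mul, Matrix.mul_sub, Matrix.sub_mul, Matrix.sub_mul, a2,
      Matrix.mul_assoc Xᴴ P (P⁻¹ * T), a1, Matrix.mul_assoc Tᴴ P⁻¹ T]
    abel
  have e2 : (trace (Tᴴ * X)).re = (trace (Xᴴ * T)).re := by
    rw [← t2a_trace_star (Xᴴ * T), conjTranspose_mul, conjTranspose_conjTranspose]
  have e3 : (trace (X₁ᴴ * T₁)).re + (trace (X₂ᴴ * T₂)).re = (trace (Xᴴ * T)).re := by
    rw [← hXT, trace_add, Complex.add_re]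
  rw [e1, trace_add, trace_sub, trace_sub, Complex.add_re, Complex.sub_re, Complex.sub_re, e2] at h0
  rw [e3]
  linarith

theorem t2a_pw_zero (q : ℝ) (hq : 0 < q) : LibSch.pw q (0 : Matrix n n ℂ) = 0 := by
  have := pw_smul q hq 0 (0 : Matrix n n ℂ)
  rwa [smul_zero, abs_zero, Real.zero_rpow hq.ne', zero_mul] at this

theorem t2a_one [Nonempty n] {p q : ℝ} (hpq : p.HolderConjugate q) (y z : ℝ) (T : Matrix n n ℂ)
    (e : LibSch.sn p T = z) (ε : ℝ) (hε : 0 < ε) : ∃ S : Matrix n n ℂ,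
      (0 < y → IsUnit S.det) ∧ (0 ≤ y → LibSch.pw q S = y ^ q) ∧
      (0 ≤ y → y * z - ε ≤ (trace (Sᴴ * T)).re) := by
  rcases lt_or_ge 0 y with hy | hy
  · obtain ⟨S, h1, h2, h3⟩ := norming p q hpq T y ε hy hε
    exact ⟨S, fun _ => h1, fun _ => h2, fun _ => by rw [← e]; exact h3⟩
  · refine ⟨0, fun h => absurd h hy.not_gt, fun h => ?_, fun h => ?_⟩
    · rw [le_antisymm hy h, t2a_pw_zero q hpq.symm.pos, Real.zero_rpow hpq.symm.pos.ne']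
    · rw [le_antisymm hy h]
      simp [hε.le]

/-- existence of the test matrices with `Re tr S_ijᴴ T_ij ≥ y_ij z_ij - ε` (`norming`; `S = 0` for
`y = 0`, `pw q 0 = 0`; anything for `y < 0`) -/
theorem tst_exists [Nonempty n] {p q : ℝ} (hpq : p.HolderConjugate q) (y₁ y₂ z₁ z₂ : ι → ℝ)
    (T₁ T₂ : ι → Matrix n n ℂ) (e₁ : ∀ j, LibSch.sn p (T₁ j) = z₁ j)
    (e₂ : ∀ j, LibSch.sn p (T₂ j) = z₂ j) (ε : ℝ) (hε : 0 < ε) :
    ∃ S₁ S₂ : ι → Matrix n n ℂ, Tst q y₁ y₂ S₁ S₂ ∧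
      (∀ j, 0 ≤ y₁ j → y₁ j * z₁ j - ε ≤ (trace ((S₁ j)ᴴ * T₁ j)).re) ∧
      (∀ j, 0 ≤ y₂ j → y₂ j * z₂ j - ε ≤ (trace ((S₂ j)ᴴ * T₂ j)).re) := by
  choose S₁ a₁ b₁ c₁ using fun j => t2a_one hpq (y₁ j) (z₁ j) (T₁ j) (e₁ j) ε hε
  choose S₂ a₂ b₂ c₂ using fun j => t2a_one hpq (y₂ j) (z₂ j) (T₂ j) (e₂ j) ε hε
  exact ⟨S₁, S₂, ⟨a₁, a₂, b₁, b₂⟩, c₁, c₂⟩

/-- one entry: `y ≥ 0`: `lamf = 0`; `y < 0`: `corner_young` gives
`2 Re tr Xᴴ T ≥ - lamf pw q X - (2/p) z |y|` and `lamf |y|^q = (2/q) z |y|`, so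
`2 Re tr Xᴴ T ≥ 2 y z - lamf pw q X + lamf |y|^q`. -/
theorem entry_le {p q : ℝ} (hpq : p.HolderConjugate q) (hq : 2 < q) (y z ε : ℝ) (hz : 0 ≤ z)
    (hε : 0 < ε) (T X : Matrix n n ℂ) (e : LibSch.sn p T = z)
    (h : 0 ≤ y → y * z - ε ≤ (trace (Xᴴ * T)).re) :
    2 * (y * z) - 2 * ε - lamf q y z * LibSch.pw q X + lamf q y z * |y| ^ q ≤
      2 * (trace (Xᴴ * T)).re := by
  unfold lamf
  split_ifs with hy
  · have h1 := corner_young p q hpq hq y z hy hz T X e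
    have hya : 0 < |y| := abs_pos.2 hy.ne
    have hy1 : 0 < |y| ^ (q - 1) := Real.rpow_pos_of_pos hya _
    have hyy : |y| ^ q = |y| ^ (q - 1) * |y| := by
      rw [← Real.rpow_add_one hya.ne']
      congr 1
      ring
    have hc : z / |y| ^ (q - 1) * |y| ^ q = z * |y| := by
      rw [hyy]
      field_simp
    have hq0 : 0 < q := by linarith
    have hp0 : 0 < p := hpq.pos
    have hpq1 : 1 / p + 1 / q = 1 := by
      have := hpq.inv_add_inv_eq_one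
      simpa [one_div] using this
    have e1 : z / |y| ^ (q - 1) * (LibSch.pw q X / q + |y| ^ q / p) =
        1 / q * (z / |y| ^ (q - 1) * LibSch.pw q X) + 1 / p * (z * |y|) := by
      rw [← hc]
      ring
    have e2 : 2 / q * (z / |y| ^ (q - 1)) * |y| ^ q = 2 * (1 / q) * (z * |y|) := by
      rw [← hc]
      ring
    have e3 : 2 / q * (z / |y| ^ (q - 1)) * LibSch.pw q X =
        2 * (1 / q * (z / |y| ^ (q - 1) * LibSch.pw q X)) := by ring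
    rw [e1] at h1
    rw [e2, e3]
    have hp1 : 1 / p = 1 - 1 / q := by linarith
    rw [hp1] at h1
    have hya2 : |y| = -y := abs_of_neg hy
    rw [hya2] at h1 ⊢
    nlinarith
  · have := h (not_lt.1 hy)
    simp only [zero_mul, sub_zero, add_zero]
    linarith

end Pool.Agent.LibSchN
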