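import Pool.Agent.LibSchN.T1b
import Pool.Agent.LibSchN.T2a

/-! **T2b.**  The inequality at the level of `P`. -/

open Matrix Set MeasureTheory
open scoped ComplexOrder

namespace Pool.Agent.LibSchN

open Pool.Agent.LibSchP Pool.Agent.LibSchQ
open Pool.Agent.LibSch (lamP lamM FF)

variable {n : Type} [Fintype n] [DecidableEq n]

variable {ι : Type} [Fintype ι]

/-- one `ε` -/
theorem t2b_eps [Nonempty n] {s p x w y : ℝ} {y₁ y₂ z₁ z₂ : ι → ℝ} (D : Sc s x w y y₁ y₂ z₁ z₂)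
    (hp : p = 2 * s / (s + 1)) {P : Matrix (n ⊕ n) (n ⊕ n) ℂ} (hP : P.PosDef)
    (T₁ T₂ : ι → Matrix n n ℂ) (e₁ : ∀ j, LibSch.sn p (T₁ j) = z₁ j)
    (e₂ : ∀ j, LibSch.sn p (T₂ j) = z₂ j) (ε : ℝ) (hε : 0 < ε) :
    2 * FF s x y w - 4 * (Fintype.card ι) * ε ≤ ∑ j, QP P⁻¹ (T₁ j) (T₂ j) +
      (1 / s * LibSch.pw s P + (s - 1) / s * FF s x y w) := by
  have h1 := D.h1
  have hs0 : 0 < s := by linarith
  have hs1 : 0 < s - 1 := by linarith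
  have hpq : p.HolderConjugate (2 * s / (s - 1)) := by
    rw [Real.holderConjugate_iff]
    constructor
    · rw [hp, lt_div_iff₀ (by linarith)]
      linarith
    · rw [hp]
      field_simp
      ring
  have hq : 2 < 2 * s / (s - 1) := by
    rw [lt_div_iff₀ hs1]
    linarith
  obtain ⟨S₁, S₂, T, n₁, n₂⟩ := tst_exists hpq y₁ y₂ z₁ z₂ T₁ T₂ e₁ e₂ ε hε
  obtain ⟨X₁, X₂, hX₁, hX₂, hsum⟩ := main_T D hp rfl hP T
  have key : ∀ j, 2 * (y₁ j * z₁ j + y₂ j * z₂ j) - 4 * ε -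
      col (2 * s / (s - 1)) P (y₁ j) (y₂ j) (z₁ j) (z₂ j) (X₁ j) (X₂ j) +
      (lamf (2 * s / (s - 1)) (y₁ j) (z₁ j) * |y₁ j| ^ (2 * s / (s - 1)) +
        lamf (2 * s / (s - 1)) (y₂ j) (z₂ j) * |y₂ j| ^ (2 * s / (s - 1))) ≤
      QP P⁻¹ (T₁ j) (T₂ j) := by
    intro j
    have a := square_le hP (T₁ j) (T₂ j) (X₁ j) (X₂ j)
    have b := entry_le hpq hq (y₁ j) (z₁ j) ε (D.z₁0 j) hε (T₁ j) (X₁ j) (e₁ j)
      (fun h => by rw [hX₁ j h]; exact n₁ j h)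
    have c := entry_le hpq hq (y₂ j) (z₂ j) ε (D.z₂0 j) hε (T₂ j) (X₂ j) (e₂ j)
      (fun h => by rw [hX₂ j h]; exact n₂ j h)
    unfold col
    linarith
  have hs := Finset.sum_le_sum (fun j (_ : j ∈ Finset.univ) => key j)
  rw [Finset.sum_add_distrib, Finset.sum_sub_distrib, Finset.sum_sub_distrib,
    ← Finset.mul_sum, (Sc_sum D).1] at hs
  simp only [Finset.sum_const, Finset.card_univ, nsmul_eq_mul] at hs
  linarith

/-- **P-level**: `square_le` for all columns, `tst_exists`, `main_T`, `entry_le`, `Sc_sum`: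
`∑ QP P⁻¹ T T ≥ 2 FF s - 4 N ε - (s-1)/s FF s - (1/s) pw s P`; `ε → 0`, multiply by `p/2 = s/(s+1)`. -/
theorem p_level [Nonempty n] {s p x w y : ℝ} {y₁ y₂ z₁ z₂ : ι → ℝ} (D : Sc s x w y y₁ y₂ z₁ z₂)
    (hp : p = 2 * s / (s + 1)) {P : Matrix (n ⊕ n) (n ⊕ n) ℂ} (hP : P.PosDef)
    (T₁ T₂ : ι → Matrix n n ℂ) (e₁ : ∀ j, LibSch.sn p (T₁ j) = z₁ j)
    (e₂ : ∀ j, LibSch.sn p (T₂ j) = z₂ j) :
    FF s x y w ≤ p / 2 * ∑ j, QP P⁻¹ (T₁ j) (T₂ j) + (2 - p) / 2 * LibSch.pw s P := by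
  have h1 := D.h1
  have hs0 : 0 < s := by linarith
  have h2 : 2 * FF s x y w ≤ ∑ j, QP P⁻¹ (T₁ j) (T₂ j) +
      (1 / s * LibSch.pw s P + (s - 1) / s * FF s x y w) := by
    refine le_of_forall_pos_le_add fun δ hδ => ?_
    have hc : (0 : ℝ) < 4 * (Fintype.card ι) + 1 := by positivity
    have h3 := t2b_eps D hp hP T₁ T₂ e₁ e₂ (δ / (4 * (Fintype.card ι) + 1)) (by positivity)
    have h4 : 4 * (Fintype.card ι : ℝ) * (δ / (4 * (Fintype.card ι) + 1)) ≤ δ := by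
      rw [mul_div_assoc', div_le_iff₀ hc]
      nlinarith
    linarith
  have h5 : s / (s + 1) * (2 * FF s x y w) ≤ s / (s + 1) * (∑ j, QP P⁻¹ (T₁ j) (T₂ j) +
      (1 / s * LibSch.pw s P + (s - 1) / s * FF s x y w)) :=
    mul_le_mul_of_nonneg_left h2 (by positivity)
  have h6 : p / 2 = s / (s + 1) := by
    rw [hp]
    field_simp
  have h7 : (2 - p) / 2 = 1 / (s + 1) := by
    rw [hp]
    field_simp
    ring
  rw [h6, h7]
  have h8 : s / (s + 1) * (∑ j, QP P⁻¹ (T₁ j) (T₂ j) +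
      (1 / s * LibSch.pw s P + (s - 1) / s * FF s x y w)) =
      s / (s + 1) * ∑ j, QP P⁻¹ (T₁ j) (T₂ j) + 1 / (s + 1) * LibSch.pw s P +
        (s - 1) / (s + 1) * FF s x y w := by
    field_simp
    ring
  have h9 : s / (s + 1) * (2 * FF s x y w) = FF s x y w + (s - 1) / (s + 1) * FF s x y w := by
    field_simp
    ring
  rw [h8, h9] at h5
  linarith

end Pool.Agent.LibSchN
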