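import Pool.Agent.LibSchN.Defs

/-! **T3a.**  The Gram matrix and its powers. -/

open Matrix Set MeasureTheory
open scoped ComplexOrder

namespace Pool.Agent.LibSchN

open Pool.Agent.LibSchP Pool.Agent.LibSchQ
open Pool.Agent.LibSch (lamP lamM FF)

variable {n : Type} [Fintype n] [DecidableEq n]

variable {ι : Type} [Fintype ι]

theorem t3a_trace (A B C D : Matrix n n ℂ) :
    trace (fromBlocks A B C D) = trace A + trace D := by
  simp only [Matrix.trace, Fintype.sum_sum_type, diag_apply, fromBlocks_apply₁₁,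
    fromBlocks_apply₂₂]

/-- `∑ QP H (A j) (B j) = Re tr H Gr` for Hermitian `H` -/
theorem sum_QP (H : Matrix (n ⊕ n) (n ⊕ n) ℂ) (hH : H.IsHermitian) (A B : ι → Matrix n n ℂ) :
    ∑ j, QP H (A j) (B j) = (trace (H * Gr A B)).re := by
  have h21 : H.toBlocks₂₁ = (H.toBlocks₁₂)ᴴ := by
    ext i j
    have := congrFun (congrFun hH.eq (Sum.inr i)) (Sum.inl j)
    simp only [toBlocks₂₁, toBlocks₁₂, conjTranspose_apply, of_apply] at this ⊢
    rw [← this]
  have hb : H = fromBlocks H.toBlocks₁₁ H.toBlocks₁₂ H.toBlocks₂₁ H.toBlocks₂₂ :=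
    (fromBlocks_toBlocks H).symm
  conv_rhs => rw [hb]
  rw [Gr, fromBlocks_multiply, t3a_trace]
  simp only [Finset.mul_sum, trace_add, trace_sum, Complex.add_re, Complex.re_sum]
  rw [← Finset.sum_add_distrib, ← Finset.sum_add_distrib, ← Finset.sum_add_distrib]
  refine Finset.sum_congr rfl fun j _ => ?_
  have e1 : trace (H.toBlocks₁₁ * (A j * (A j)ᴴ)) = trace ((A j)ᴴ * H.toBlocks₁₁ * A j) := by
    rw [← Matrix.mul_assoc, trace_mul_comm, Matrix.mul_assoc]
  have e2 : trace (H.toBlocks₂₂ * (B j * (B j)ᴴ)) = trace ((B j)ᴴ * H.toBlocks₂₂ * B j) := by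
    rw [← Matrix.mul_assoc, trace_mul_comm, Matrix.mul_assoc]
  have e3 : trace (H.toBlocks₁₂ * (B j * (A j)ᴴ)) = trace ((A j)ᴴ * H.toBlocks₁₂ * B j) := by
    rw [← Matrix.mul_assoc, trace_mul_comm, Matrix.mul_assoc]
  have e4 : trace (H.toBlocks₂₁ * (A j * (B j)ᴴ)) =
      star (trace ((A j)ᴴ * H.toBlocks₁₂ * B j)) := by
    rw [h21, ← trace_conjTranspose, conjTranspose_mul, conjTranspose_mul,
      conjTranspose_conjTranspose, ← Matrix.mul_assoc, trace_mul_comm]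
  rw [e1, e2, e3, e4, QP]
  have e5 : (star (trace ((A j)ᴴ * H.toBlocks₁₂ * B j))).re =
      (trace ((A j)ᴴ * H.toBlocks₁₂ * B j)).re := by
    rw [Complex.star_def, Complex.conj_re]
  rw [e5]
  ring

theorem t3a_trace_ud {m : Type} [Fintype m] [DecidableEq m] (U : Matrix m m ℂ)
    (hU : U ∈ unitaryGroup m ℂ) (x : m → ℝ) : (trace (ud U x)).re = ∑ k, x k := by
  have ht : trace (ud U x) = ∑ k, (x k : ℂ) := by
    rw [ud, trace_mul_cycle, a2_uu U hU, Matrix.one_mul, dg, trace_diagonal]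
  rw [ht, Complex.re_sum]
  exact Finset.sum_congr rfl fun k _ => Complex.ofReal_re _

theorem t3a_pw_ud {m : Type} [Fintype m] [DecidableEq m] (r : ℝ) (U : Matrix m m ℂ)
    (hU : U ∈ unitaryGroup m ℂ) (x : m → ℝ) (hx : ∀ k, 0 < x k) :
    LibSch.pw r (ud U x) = ∑ k, x k ^ r := by
  rw [pw_ud r _ U hU (fun k => x k * x k)]
  · refine Finset.sum_congr rfl fun k _ => ?_
    rw [Real.mul_rpow (hx k).le (hx k).le, ← Real.rpow_add (hx k)]
    congr 1
    ring
  · rw [(ud_isHermitian U x).eq, ud_mul U hU]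

/-- `P = G^((2-p)/2)`, `P⁻¹ = G^(-(2-p)/2)`: `tr P⁻¹ G = tr G^(p/2) = tr P^s` (`rp_mul`, `rp_rp`,
`ud_exists_pos`) -/
theorem gram_powers {s p : ℝ} (h1 : 1 < s) (h2 : s < 2) (hp : p = 2 * s / (s + 1))
    {m : Type} [Fintype m] [DecidableEq m] (G : Matrix m m ℂ) (hG : G.PosDef) :
    (rp ((2 - p) / 2) G).PosDef ∧ (trace ((rp ((2 - p) / 2) G)⁻¹ * G)).re = LibSch.pw (p / 2) G ∧
      LibSch.pw s (rp ((2 - p) / 2) G) = LibSch.pw (p / 2) G := by
  refine ⟨rp_posDef _ G hG, ?_, ?_⟩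
  · obtain ⟨U, hU, x, hx, rfl⟩ := ud_exists_pos G hG
    have hinv : (rp ((2 - p) / 2) (ud U x))⁻¹ = ud U fun k => x k ^ (-((2 - p) / 2)) := by
      apply Matrix.inv_eq_left_inv
      rw [rp_ud _ U hU, ud_mul U hU]
      have : (fun k => x k ^ (-((2 - p) / 2)) * x k ^ ((2 - p) / 2)) = fun _ => (1 : ℝ) := by
        funext k
        rw [← Real.rpow_add (hx k), neg_add_cancel, Real.rpow_zero]
      rw [this, ud, a2_dg_one, Matrix.mul_one, a2_uu' U hU]
    rw [hinv, ud_mul U hU, t3a_trace_ud U hU, t3a_pw_ud _ U hU x hx]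
    refine Finset.sum_congr rfl fun k _ => ?_
    have h := Real.rpow_add (hx k) (-((2 - p) / 2)) 1
    rw [Real.rpow_one] at h
    rw [← h]
    congr 1
    ring
  · obtain ⟨U, hU, x, hx, rfl⟩ := ud_exists_pos G hG
    rw [rp_ud _ U hU, t3a_pw_ud _ U hU _ (fun k => Real.rpow_pos_of_pos (hx k) _),
      t3a_pw_ud _ U hU x hx]
    refine Finset.sum_congr rfl fun k _ => ?_
    rw [← Real.rpow_mul (hx k).le]
    congr 1
    have : s + 1 ≠ 0 := by linarith
    rw [hp]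
    field_simp
    ring

end Pool.Agent.LibSchN
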