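import Pool.Agent.LibSchN.T2b
import Pool.Agent.LibSchN.T3a
import Pool.Agent.LibSchN.S6
import Pool.Agent.LibSch.Main

/-! **T3b.**  The inequality for a positive definite Gram matrix, square blocks. -/

open Matrix Set MeasureTheory
open scoped ComplexOrder

namespace Pool.Agent.LibSchN

open Pool.Agent.LibSchP Pool.Agent.LibSchQ
open Pool.Agent.LibSch (lamP lamM FF)

variable {n : Type} [Fintype n] [DecidableEq n]

variable {ι : Type} [Fintype ι]

/-- `Sc_exists`, `p_level` with `P = G^((2-p)/2)`, `sum_QP`, `gram_powers` -/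
theorem gram_posDef [Nonempty n] {s p : ℝ} (h1 : 1 < s) (h2 : s < 2)
    (hp : p = 2 * s / (s + 1)) (A B : ι → Matrix n n ℂ) (hG : (Gr A B).PosDef)
    (h : PD (∑ j, LibSch.sn p (A j) ^ 2) (∑ j, LibSch.sn p (A j) * LibSch.sn p (B j))
      (∑ j, LibSch.sn p (B j) ^ 2)) :
    FF (p / 2) (∑ j, LibSch.sn p (A j) ^ 2) (∑ j, LibSch.sn p (B j) ^ 2)
      (∑ j, LibSch.sn p (A j) * LibSch.sn p (B j)) ≤ LibSch.pw (p / 2) (Gr A B) := by
  obtain ⟨x, w, y, y₁, y₂, D, hF⟩ := Sc_exists h1 h2 hp (fun j => LibSch.sn p (A j))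
    (fun j => LibSch.sn p (B j)) (fun j => LibSch.sn_nonneg p (A j))
    (fun j => LibSch.sn_nonneg p (B j)) h
  obtain ⟨hP, hT, hW⟩ := gram_powers h1 h2 hp (Gr A B) hG
  have hmain := p_level D hp hP A B (fun _ => rfl) (fun _ => rfl)
  rw [sum_QP _ hP.1.inv, hT, hW] at hmain
  rw [← hF]
  refine hmain.trans (le_of_eq ?_)
  ring

end Pool.Agent.LibSchN
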